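import Mathlib
import Pool.Agent.H75.Perc.Prob

set_option autoImplicit false
open Finset

/-! Second moment method (Paley-Zygmund) for uniformly random subsets, and products of probabilities of
events which depend on disjoint sets. -/

namespace Pool.Agent.H4.Q1

open Pool.Agent.H75.Perc

variable {α : Type*} [DecidableEq α] {ι : Type*}

open Classical in
/-- number of indices in `Z` with the property `A` -/
noncomputable def cnt (Z : Finset ι) (A : ι → Finset α → Prop) (ω : Finset α) : ℕ :=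
  (Z.filter (fun z => A z ω)).card

omit [DecidableEq α] in
lemma cnt_eq (Z : Finset ι) (A : ι → Finset α → Prop) (ω : Finset α) :
    (cnt Z A ω : ℝ) = ∑ z ∈ Z, (open Classical in if A z ω then (1:ℝ) else 0) := by
  classical
  unfold cnt
  rw [Finset.card_eq_sum_ones, Nat.cast_sum, Finset.sum_filter]
  refine Finset.sum_congr rfl fun z _ => ?_
  split_ifs <;> simp

lemma sum_cnt (E : Finset α) (Z : Finset ι) (A : ι → Finset α → Prop) :
    ∑ ω ∈ E.powerset, (cnt Z A ω : ℝ) = 2 ^ E.card * ∑ z ∈ Z, Pr E (A z) := by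
  classical
  simp only [cnt_eq]
  rw [Finset.sum_comm, Finset.mul_sum]
  refine Finset.sum_congr rfl fun z _ => ?_
  rw [← Finset.sum_filter, Finset.sum_const, nsmul_eq_mul, mul_one, Pr_eq,
    mul_div_cancel₀ _ (by positivity)]

lemma sum_cnt_sq (E : Finset α) (Z : Finset ι) (A : ι → Finset α → Prop) :
    ∑ ω ∈ E.powerset, (cnt Z A ω : ℝ) ^ 2 =
      2 ^ E.card * ∑ z ∈ Z, ∑ z' ∈ Z, Pr E (fun ω => A z ω ∧ A z' ω) := by
  classical
  have h1 : ∀ ω : Finset α, (cnt Z A ω : ℝ) ^ 2 =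
      ∑ z ∈ Z, ∑ z' ∈ Z, if A z ω ∧ A z' ω then (1:ℝ) else 0 := by
    intro ω
    rw [cnt_eq, sq, Finset.sum_mul_sum]
    refine Finset.sum_congr rfl fun z _ => Finset.sum_congr rfl fun z' _ => ?_
    by_cases h1 : A z ω <;> by_cases h2 : A z' ω <;> simp [h1, h2]
  simp only [h1]
  rw [Finset.sum_comm, Finset.mul_sum]
  refine Finset.sum_congr rfl fun z _ => ?_
  rw [Finset.sum_comm, Finset.mul_sum]
  refine Finset.sum_congr rfl fun z' _ => ?_
  rw [← Finset.sum_filter, Finset.sum_const, nsmul_eq_mul, mul_one, Pr_eq,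
    mul_div_cancel₀ _ (by positivity)]

/-- **Paley-Zygmund.** -/
theorem paley_zygmund (E : Finset α) (Z : Finset ι) (A : ι → Finset α → Prop) {m m2 : ℝ}
    (hm : 0 ≤ m) (hm2 : 0 < m2) (h1 : m ≤ ∑ z ∈ Z, Pr E (A z))
    (h2 : ∑ z ∈ Z, ∑ z' ∈ Z, Pr E (fun ω => A z ω ∧ A z' ω) ≤ m2) :
    m ^ 2 / (4 * m2) ≤ Pr E (fun ω => m / 2 ≤ (cnt Z A ω : ℝ)) := by
  classical
  have hp : (0:ℝ) < 2 ^ E.card := by positivity
  set F := E.powerset.filter (fun ω => m / 2 ≤ (cnt Z A ω : ℝ)) with hF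
  have h3 : 2 ^ E.card * m ≤ ∑ ω ∈ E.powerset, (cnt Z A ω : ℝ) := by
    rw [sum_cnt]; gcongr
  have h4 : ∑ ω ∈ E.powerset, (cnt Z A ω : ℝ) ≤
      ∑ ω ∈ F, (cnt Z A ω : ℝ) + 2 ^ E.card * (m / 2) := by
    rw [← Finset.sum_filter_add_sum_filter_not E.powerset (fun ω => m / 2 ≤ (cnt Z A ω : ℝ))]
    gcongr
    calc ∑ ω ∈ E.powerset.filter (fun ω => ¬ m / 2 ≤ (cnt Z A ω : ℝ)), (cnt Z A ω : ℝ)
        ≤ ∑ ω ∈ E.powerset.filter (fun ω => ¬ m / 2 ≤ (cnt Z A ω : ℝ)), m / 2 := by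
          refine Finset.sum_le_sum fun ω hω => ?_
          exact (not_le.1 (mem_filter.1 hω).2).le
      _ ≤ ∑ ω ∈ E.powerset, m / 2 :=
          Finset.sum_le_sum_of_subset_of_nonneg (filter_subset _ _) fun _ _ _ => by linarith
      _ = 2 ^ E.card * (m / 2) := by
          rw [Finset.sum_const, card_powerset, nsmul_eq_mul]; norm_cast
  have h5 : 2 ^ E.card * (m / 2) ≤ ∑ ω ∈ F, (cnt Z A ω : ℝ) := by linarith
  have h6 : (∑ ω ∈ F, (cnt Z A ω : ℝ)) ^ 2 ≤ F.card * ∑ ω ∈ F, (cnt Z A ω : ℝ) ^ 2 :=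
    sq_sum_le_card_mul_sum_sq
  have h7 : ∑ ω ∈ F, (cnt Z A ω : ℝ) ^ 2 ≤ 2 ^ E.card * m2 := by
    calc ∑ ω ∈ F, (cnt Z A ω : ℝ) ^ 2 ≤ ∑ ω ∈ E.powerset, (cnt Z A ω : ℝ) ^ 2 :=
          Finset.sum_le_sum_of_subset_of_nonneg (filter_subset _ _) fun _ _ _ => by positivity
      _ ≤ _ := by rw [sum_cnt_sq]; gcongr
  have h8 : (2 ^ E.card * (m / 2)) ^ 2 ≤ F.card * (2 ^ E.card * m2) :=
    calc (2 ^ E.card * (m / 2)) ^ 2 ≤ (∑ ω ∈ F, (cnt Z A ω : ℝ)) ^ 2 := by
          gcongr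
      _ ≤ _ := h6.trans (by gcongr)
  rw [Pr_eq, div_le_div_iff₀ (by positivity) hp, ← hF]
  have h9 : (2 ^ E.card : ℝ) * (m ^ 2 * 2 ^ E.card) ≤ 2 ^ E.card * (F.card * (4 * m2)) := by
    nlinarith [h8]
  exact le_of_mul_le_mul_left h9 hp

lemma Pr_not_eq (E : Finset α) (A : Finset α → Prop) : Pr E (fun ω => ¬ A ω) = 1 - Pr E A := by
  classical
  rw [Pr_eq, Pr_eq, eq_sub_iff_add_eq, ← add_div, div_eq_one_iff_eq (by positivity)]
  have h := Finset.card_filter_add_card_filter_not (s := E.powerset) (fun ω => A ω)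
  rw [card_powerset] at h
  have h2 : ((E.powerset.filter (fun ω => ¬ A ω)).card + (E.powerset.filter (fun ω => A ω)).card : ℕ)
      = 2 ^ E.card := by omega
  exact_mod_cast h2

lemma Pr_ex_le (E : Finset α) (Z : Finset ι) (A : ι → Finset α → Prop) :
    Pr E (fun ω => ∃ z ∈ Z, A z ω) ≤ ∑ z ∈ Z, Pr E (A z) := by
  classical
  induction Z using Finset.induction_on with
  | empty =>
    rw [Finset.sum_empty]
    refine le_of_eq ?_
    rw [Pr_eq, Finset.filter_false_of_mem (fun ω _ => by simp)]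
    simp
  | insert a s ha ih =>
    rw [Finset.sum_insert ha]
    refine (Pr_mono (B := fun ω => A a ω ∨ ∃ z ∈ s, A z ω) fun ω _ h => ?_).trans
      ((Pr_or_le _ _ _).trans (by gcongr))
    obtain ⟨z, hz, h⟩ := h
    rcases mem_insert.1 hz with rfl | hz
    · exact Or.inl h
    · exact Or.inr ⟨z, hz, h⟩

/-- Events which depend on disjoint sets. -/
theorem Pr_all_le (E : Finset α) (s : Finset ι) [DecidableEq ι] (F : ι → Finset α)
    (hF : ∀ i ∈ s, F i ⊆ E)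
    (hd : ∀ i ∈ s, ∀ j ∈ s, i ≠ j → Disjoint (F i) (F j)) (A : ι → Finset α → Prop) {q : ℝ}
    (hq : ∀ i ∈ s, Pr E (fun ω => A i (ω ∩ F i)) ≤ q) :
    Pr E (fun ω => ∀ i ∈ s, A i (ω ∩ F i)) ≤ q ^ s.card := by
  induction s using Finset.induction_on with
  | empty =>
    rw [card_empty, pow_zero]
    exact Pr_le_one _ _
  | insert a s ha ih =>
    rw [card_insert_of_notMem ha, pow_succ']
    have h1 := ih (fun i hi => hF i (mem_insert_of_mem hi))
      (fun i hi j hj => hd i (mem_insert_of_mem hi) j (mem_insert_of_mem hj))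
      (fun i hi => hq i (mem_insert_of_mem hi))
    have hB : s.biUnion F ⊆ E := by
      intro e he
      obtain ⟨i, hi, he⟩ := mem_biUnion.1 he
      exact hF i (mem_insert_of_mem hi) he
    have hdis : Disjoint (F a) (s.biUnion F) := by
      rw [disjoint_biUnion_right]
      intro i hi
      exact hd a (mem_insert_self _ _) i (mem_insert_of_mem hi) (fun h => ha (h ▸ hi))
    have h2 := Pr_indep (hF a (mem_insert_self _ _)) hB hdis (A a)
      (fun ω => ∀ i ∈ s, A i (ω ∩ F i))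
    have h3 : ∀ ω : Finset α, (∀ i ∈ s, A i (ω ∩ s.biUnion F ∩ F i)) ↔
        ∀ i ∈ s, A i (ω ∩ F i) := by
      intro ω
      refine forall₂_congr fun i hi => ?_
      rw [inter_assoc, inter_eq_right.2 (subset_biUnion_of_mem F hi)]
    have h4 : Pr E (fun ω => ∀ i ∈ insert a s, A i (ω ∩ F i)) =
        Pr E (fun ω => A a (ω ∩ F a) ∧ ∀ i ∈ s, A i (ω ∩ s.biUnion F ∩ F i)) := by
      refine Pr_congr fun ω _ => ?_
      rw [forall_mem_insert, h3]
    rw [h4, h2]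
    have h5 : Pr (s.biUnion F) (fun ω => ∀ i ∈ s, A i (ω ∩ F i)) =
        Pr E (fun ω => ∀ i ∈ s, A i (ω ∩ F i)) := by
      rw [← Pr_restrict hB]
      exact Pr_congr fun ω _ => h3 ω
    rw [h5, ← Pr_restrict (hF a (mem_insert_self _ _))]
    have h6 := hq a (mem_insert_self _ _)
    exact mul_le_mul h6 h1 (Pr_nonneg _ _) ((Pr_nonneg _ _).trans h6)

end Pool.Agent.H4.Q1
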