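import Mathlib
import Pool.Agent.H4.Q1.PZ
import Pool.Agent.H49.Q1.Grid
import Pool.Agent.H49.Q1.KPoint

set_option autoImplicit false
open Finset

/-! Arches with many feet: in a half annulus around a point of a straight side, with a probability
bounded below, at least `c n ^ (2/3)` points of the upper foot are connected to the lower foot inside of
the half annulus. -/

namespace Pool.Agent.H4.Q1

open Pool.Agent.H75.Perc Pool.Agent.H75.TwoArm Pool.Agent.H99.NC Pool.Agent.H81.NC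
open Pool.Agent.H49.Q1

/-- vertical lines of the grid -/
def ax (n : ℤ) (i : ℤ) : ℤ := (i - 2) * (16 * n)
/-- horizontal lines of the grid -/
def ay (n y0 : ℤ) (j : ℤ) : ℤ := y0 + (j - 2) * (16 * n)

/-- the cells of the half annulus -/
def arc : Finset (ℤ × ℤ) := {(1, 0), (0, 0), (0, 1), (0, 2), (0, 3), (1, 3)}

/-- the labels of the half annulus with radii `16 n`, `32 n` around `(0, y0)` -/
noncomputable def AA (n y0 : ℤ) : Finset (ℤ × ℤ) := gs (ax n) (ay n y0) arc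

/-- the lower foot -/
def JJ (n y0 : ℤ) (v : ℤ × ℤ) : Prop := v.1 = 0 ∧ y0 - 32 * n ≤ v.2 ∧ v.2 ≤ y0 - 16 * n

/-- the point `(0, z)` is connected to the lower foot inside of the half annulus -/
def Bz (n y0 : ℤ) (z : ℤ) (ω : Finset (ℤ × ℤ)) : Prop := CJ ∅ (JJ n y0) (0, z) (ω ∩ AA n y0)

/-- the observed points of the upper foot -/
noncomputable def ZZ (n y0 : ℤ) : Finset ℤ := Finset.Ico (y0 + 20 * n) (y0 + 28 * n)

lemma mem_AA {n y0 : ℤ} {e : ℤ × ℤ} (he : e ∈ AA n y0) :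
    e.1 ≤ 0 ∧ -(64 * n) ≤ e.1 ∧ 2 * y0 - 64 * n ≤ e.2 ∧ e.2 ≤ 2 * y0 + 64 * n ∧
    (e.1 ≤ -(32 * n) ∨ e.2 ≤ 2 * y0 - 32 * n ∨ 2 * y0 + 32 * n ≤ e.2) ∧ (e.1 + e.2) % 2 = 1 := by
  unfold AA at he
  obtain ⟨c, hc, he⟩ := mem_gs.1 he
  unfold gcell at he
  rw [mem_Bx] at he
  unfold arc at hc
  simp only [mem_insert, mem_singleton] at hc
  unfold ax ay at he
  rcases hc with rfl | rfl | rfl | rfl | rfl | rfl <;> simp only at he <;> omega

lemma card_ZZ {n : ℕ} (y0 : ℤ) : (ZZ n y0).card = 8 * n := by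
  unfold ZZ
  rw [Int.card_Ico]
  omega

lemma arc_mesh {n : ℤ} (hn : 1 ≤ n) (y0 : ℤ) : Mesh (ax n) (ay n y0) arc (16 * n) 1 := by
  refine ⟨by omega, fun c _ => ?_⟩
  unfold ax ay
  push_cast
  constructor <;> constructor <;> nlinarith

lemma arc_lk : Lk arc (1, 3) (1, 0) := by
  have h : ∀ a b : ℤ × ℤ, a ∈ arc → b ∈ arc → IsUnit4 (b - a) → Lk arc a b := fun a b h1 h2 h3 =>
    Relation.ReflTransGen.single ⟨h1, h2, h3⟩
  have h1 := h (1, 3) (0, 3) (by decide) (by decide) (by unfold IsUnit4; decide)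
  have h2 := h (0, 3) (0, 2) (by decide) (by decide) (by unfold IsUnit4; decide)
  have h3 := h (0, 2) (0, 1) (by decide) (by decide) (by unfold IsUnit4; decide)
  have h4 := h (0, 1) (0, 0) (by decide) (by decide) (by unfold IsUnit4; decide)
  have h5 := h (0, 0) (1, 0) (by decide) (by decide) (by unfold IsUnit4; decide)
  exact (((h1.trans h2).trans h3).trans h4).trans h5

lemma foot_thin {n y0 z k : ℤ} :
    Thin (sR (0, z)) (AA n y0) ∅ k := by
  intro e he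
  rw [FB_R, mem_Bx] at he
  refine ⟨fun h => ?_, by simp⟩
  have h1 := mem_AA h
  rw [HB_R, mem_Bx]
  simp only at he ⊢
  omega

lemma foot_flat {n y0 z : ℤ} (hz : z ∈ ZZ n y0) :
    Flat (sR (0, z)) (AA n y0) ∅ (4 * n) := by
  unfold ZZ at hz
  rw [Finset.mem_Ico] at hz
  refine ⟨foot_thin, ?_⟩
  refine Finset.Subset.trans ?_ (gcell_sub_gs (c := (1, 3)) (by decide))
  intro e he
  rw [HB_R, mem_Bx] at he
  unfold gcell ax ay
  rw [mem_Bx]
  simp only at he ⊢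
  omega

/-- one point -/
theorem one_foot : ∃ c : ℝ, 0 < c ∧ ∀ (n : ℕ) (y0 z : ℤ), 1 ≤ n → z ∈ ZZ n y0 →
    ∀ E : Finset (ℤ × ℤ), AA n y0 ⊆ E → c * (n : ℝ) ^ (-(1 / 3) : ℝ) ≤ Pr E (Bz n y0 z) := by
  obtain ⟨c, hc, h⟩ := T2_lower 1 16 6
  obtain ⟨c', hc', -, h'⟩ := ph_lower
  refine ⟨c * c', by positivity, fun n y0 z hn hz E hE => ?_⟩
  have hz' := hz
  unfold ZZ at hz'
  rw [Finset.mem_Ico] at hz'
  have h1 := h (arc_mesh (n := n) (by omega) y0) (by decide) (E := AA n y0) (W := ∅)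
    (by unfold AA; exact subset_rfl) (c0 := (1, 3)) (cT := (1, 0)) (by decide) arc_lk
    (x := (0, z)) (T := sR (0, z)) (j := n) hn (by push_cast; omega)
    (Or.inl ⟨rfl, by unfold ax; simp, by unfold ay; simp only; omega,
      by unfold ay; simp only; omega⟩)
    (foot_flat hz) (J := JJ n y0)
    (Or.inr (Or.inl (fun v hv hv1 => by
      unfold ax at hv1
      unfold inB ay at hv
      simp only at hv hv1
      refine ⟨by omega, by omega, by omega⟩)))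
    (fun v hv hv' => by
      rw [VI_R] at hv'
      unfold inB at hv'
      unfold JJ at hv
      simp only at hv'
      omega)
  have h2 : Pr E (Bz n y0 z) = Pr (AA n y0) (CJ ∅ (JJ n y0) (0, z)) :=
    Pr_restrict hE (CJ ∅ (JJ n y0) (0, z))
  rw [h2]
  refine le_trans ?_ h1
  have h3 := h' n (by omega)
  rw [mul_assoc]
  refine mul_le_mul_of_nonneg_left ?_ hc.le
  simpa using h3

/-- two points -/
theorem two_feet : ∃ C : ℝ, 1 ≤ C ∧ ∀ (n : ℕ) (y0 z z' : ℤ), 1 ≤ n → z ∈ ZZ n y0 → z' ∈ ZZ n y0 →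
    ∀ E : Finset (ℤ × ℤ), AA n y0 ⊆ E → Pr E (fun ω => Bz n y0 z ω ∧ Bz n y0 z' ω) ≤
      C * (((z - z').natAbs : ℝ) + 1) ^ (-(2 / 3) : ℝ) := by
  obtain ⟨C, hC, h⟩ := kpoint_pow
  refine ⟨3 * C ^ 2 * 2, by nlinarith, fun n y0 z z' hn hz hz' E hE => ?_⟩
  set d : ℕ := (z - z').natAbs with hd
  have hC2 : 1 ≤ C ^ 2 := one_le_pow₀ hC
  by_cases hd3 : d < 3
  · refine (Pr_le_one _ _).trans ?_
    have h1 : (3:ℝ) ^ (-(2 / 3) : ℝ) ≤ ((d : ℝ) + 1) ^ (-(2 / 3) : ℝ) := by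
      refine Real.rpow_le_rpow_of_nonpos (by positivity) ?_ (by norm_num)
      have : (d : ℝ) ≤ 2 := by exact_mod_cast (by omega : d ≤ 2)
      linarith
    have h2 : (3:ℝ)⁻¹ ≤ (3:ℝ) ^ (-(2 / 3) : ℝ) := by
      rw [← Real.rpow_neg_one]
      exact Real.rpow_le_rpow_of_exponent_le (by norm_num) (by norm_num)
    have h3 := h2.trans h1
    calc (1:ℝ) ≤ 3 * C ^ 2 * 2 * (3:ℝ)⁻¹ := by nlinarith
      _ ≤ _ := by gcongr
  push Not at hd3
  set k : ℤ := (d : ℤ) / 3 with hk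
  have hk1 : 1 ≤ k := by omega
  unfold ZZ at hz hz'
  rw [Finset.mem_Ico] at hz hz'
  have hne : z ≠ z' := by
    rintro rfl
    simp at hd
    omega
  have h1 := h ({z, z'} : Finset ℤ) (fun i => sR (0, i)) (fun _ => k) (fun _ _ => hk1)
    (E := AA n y0) (W := ∅) (fun i _ => foot_thin)
    (fun i hi j hj hij => by
      rw [HB_R, HB_R, Finset.disjoint_left]
      intro e he he'
      rw [mem_Bx] at he he'
      simp only [mem_insert, mem_singleton] at hi hj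
      simp only at he he'
      rcases hi with rfl | rfl <;> rcases hj with rfl | rfl <;> omega)
    (fun _ => JJ n y0)
    (fun i hi v hv hv' => by
      rw [VI_R] at hv'
      unfold inB at hv'
      unfold JJ at hv
      simp only [mem_insert, mem_singleton] at hi
      simp only at hv'
      rcases hi with rfl | rfl <;> omega)
  have h2 : Pr E (fun ω => Bz n y0 z ω ∧ Bz n y0 z' ω) =
      Pr (AA n y0) (fun ω => ∀ i ∈ ({z, z'} : Finset ℤ), CJ ∅ (JJ n y0) ((sR (0, i)).g (0, 0)) ω) := by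
    rw [← Pr_restrict hE]
    refine Pr_congr fun ω _ => ?_
    simp only [mem_insert, mem_singleton, forall_eq_or_imp, forall_eq, sR_g]
    rfl
  rw [h2]
  refine h1.trans ?_
  rw [Finset.prod_const, card_pair hne, mul_pow, ← Real.rpow_natCast ((k : ℝ) ^ (-(1 / 3) : ℝ)) 2,
    ← Real.rpow_mul (by positivity)]
  have h3 : (k : ℝ) ^ (-(1 / 3 : ℝ) * ((2 : ℕ) : ℝ)) ≤ 6 * ((d : ℝ) + 1) ^ (-(2 / 3) : ℝ) := by
    have h4 : ((d : ℝ) + 1) / 6 ≤ k := by
      have h5 : (d : ℤ) + 1 ≤ 6 * k := by omega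
      have h6 : (d : ℝ) + 1 ≤ 6 * k := by exact_mod_cast h5
      linarith
    have e1 : (-(1 / 3 : ℝ) * ((2 : ℕ) : ℝ)) = -(2 / 3) := by norm_num
    rw [e1]
    calc (k : ℝ) ^ (-(2 / 3) : ℝ) ≤ (((d : ℝ) + 1) / 6) ^ (-(2 / 3) : ℝ) :=
          Real.rpow_le_rpow_of_nonpos (by positivity) h4 (by norm_num)
      _ = (6 : ℝ) ^ (2 / 3 : ℝ) * ((d : ℝ) + 1) ^ (-(2 / 3) : ℝ) := by
          rw [Real.div_rpow (by positivity) (by norm_num),
            Real.rpow_neg (show (0:ℝ) ≤ 6 by norm_num) (2 / 3), div_inv_eq_mul, mul_comm]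
      _ ≤ 6 * ((d : ℝ) + 1) ^ (-(2 / 3) : ℝ) := by
          gcongr
          calc (6:ℝ) ^ (2 / 3 : ℝ) ≤ 6 ^ (1:ℝ) :=
                Real.rpow_le_rpow_of_exponent_le (by norm_num) (by norm_num)
            _ = 6 := Real.rpow_one 6
  calc C ^ 2 * (k : ℝ) ^ (-(1 / 3 : ℝ) * ((2 : ℕ) : ℝ))
      ≤ C ^ 2 * (6 * ((d : ℝ) + 1) ^ (-(2 / 3) : ℝ)) := by gcongr
    _ = _ := by ring

lemma sum_pow_le (N : ℕ) : ∑ d ∈ range N, ((d : ℝ) + 1) ^ (-(2 / 3) : ℝ) ≤
    3 * (N : ℝ) ^ (1 / 3 : ℝ) := by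
  induction N with
  | zero => simp
  | succ N ih =>
    rw [Finset.sum_range_succ]
    set b := (N : ℝ) ^ (1 / 3 : ℝ) with hb
    set a := ((N : ℝ) + 1) ^ (1 / 3 : ℝ) with ha
    have hN : (0:ℝ) ≤ N := by positivity
    have ha0 : 0 < a := by positivity
    have hb0 : 0 ≤ b := by positivity
    have ha3 : a ^ 3 = N + 1 := by
      rw [ha, ← Real.rpow_natCast, ← Real.rpow_mul (by positivity)]; norm_num
    have hb3 : b ^ 3 = N := by
      rw [hb, ← Real.rpow_natCast, ← Real.rpow_mul (by positivity)]; norm_num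
    have hba : b ≤ a := Real.rpow_le_rpow hN (by linarith) (by norm_num)
    have e1 : ((N : ℝ) + 1) ^ (-(2 / 3) : ℝ) = 1 / a ^ 2 := by
      rw [ha, ← Real.rpow_natCast, ← Real.rpow_mul (by positivity), one_div,
        ← Real.rpow_neg (by positivity)]
      norm_num
    have e2 : (((N + 1 : ℕ) : ℝ)) ^ (1 / 3 : ℝ) = a := by push_cast; rfl
    rw [e1, e2]
    have h1 : 1 / a ^ 2 ≤ 3 * (a - b) := by
      rw [div_le_iff₀ (by positivity)]
      have h2 : (a - b) * (a ^ 2 + a * b + b ^ 2) = 1 := by linear_combination ha3 - hb3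
      have h3 : (a - b) * (a ^ 2 + a * b + b ^ 2) ≤ (a - b) * (3 * a ^ 2) := by
        refine mul_le_mul_of_nonneg_left ?_ (sub_nonneg.2 hba)
        nlinarith
      linarith
    linarith

/-- sum over the second point -/
lemma sum_pair (n : ℕ) (y0 z : ℤ) (hz : z ∈ ZZ n y0) :
    ∑ z' ∈ ZZ n y0, (((z - z').natAbs : ℝ) + 1) ^ (-(2 / 3) : ℝ) ≤
      12 * (n : ℝ) ^ (1 / 3 : ℝ) := by
  classical
  have hmap : ∀ z' ∈ ZZ n y0, (z - z').natAbs ∈ range (8 * n) := by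
    intro z' hz'
    unfold ZZ at hz hz'
    rw [Finset.mem_Ico] at hz hz'
    rw [mem_range]
    omega
  rw [← Finset.sum_fiberwise_of_maps_to hmap]
  have h1 : ∀ d ∈ range (8 * n), ∑ z' ∈ (ZZ n y0).filter (fun z' => (z - z').natAbs = d),
      (((z - z').natAbs : ℝ) + 1) ^ (-(2 / 3) : ℝ) ≤ 2 * ((d : ℝ) + 1) ^ (-(2 / 3) : ℝ) := by
    intro d _
    have h2 : ∀ z' ∈ (ZZ n y0).filter (fun z' => (z - z').natAbs = d),
        (((z - z').natAbs : ℝ) + 1) ^ (-(2 / 3) : ℝ) = ((d : ℝ) + 1) ^ (-(2 / 3) : ℝ) := by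
      intro z' hz'
      rw [(mem_filter.1 hz').2]
    rw [Finset.sum_congr rfl h2, Finset.sum_const, nsmul_eq_mul]
    have h3 : ((ZZ n y0).filter (fun z' => (z - z').natAbs = d)).card ≤ 2 := by
      refine (card_le_card (t := {z + d, z - d}) ?_).trans card_le_two
      intro z' hz'
      have := (mem_filter.1 hz').2
      simp only [mem_insert, mem_singleton]
      omega
    have h4 : (((ZZ n y0).filter (fun z' => (z - z').natAbs = d)).card : ℝ) ≤ 2 := by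
      exact_mod_cast h3
    gcongr
  refine (Finset.sum_le_sum h1).trans ?_
  rw [← Finset.mul_sum]
  have h2 := sum_pow_le (8 * n)
  have h3 : (((8 * n : ℕ) : ℝ)) ^ (1 / 3 : ℝ) = 2 * (n : ℝ) ^ (1 / 3 : ℝ) := by
    push_cast
    rw [Real.mul_rpow (by norm_num) (by positivity)]
    congr 1
    rw [show (8:ℝ) = 2 ^ (3:ℝ) by norm_num, ← Real.rpow_mul (by norm_num)]
    norm_num
  rw [h3] at h2
  linarith

/-- **Arches with many feet.** -/
theorem arches : ∃ c q : ℝ, 0 < c ∧ 0 < q ∧ q ≤ 1 ∧ ∀ (n : ℕ) (y0 : ℤ), 1 ≤ n →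
    ∀ E : Finset (ℤ × ℤ), AA n y0 ⊆ E →
    q ≤ Pr E (fun ω => c * (n : ℝ) ^ (2 / 3 : ℝ) ≤ (cnt (ZZ n y0) (Bz n y0) ω : ℝ)) := by
  obtain ⟨c, hc, h1⟩ := one_foot
  obtain ⟨C, hC, h2⟩ := two_feet
  have hq : 0 < (8 * c) ^ 2 / (4 * (96 * C)) := by positivity
  refine ⟨4 * c, min 1 ((8 * c) ^ 2 / (4 * (96 * C))), by positivity, lt_min one_pos hq,
    min_le_left _ _, fun n y0 hn E hE => ?_⟩
  have hn0 : (0:ℝ) < n := by exact_mod_cast hn
  have e1 : (n : ℝ) * (n : ℝ) ^ (-(1 / 3) : ℝ) = (n : ℝ) ^ (2 / 3 : ℝ) := by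
    have := Real.rpow_add hn0 1 (-(1 / 3))
    rw [Real.rpow_one] at this
    rw [← this]
    norm_num
  have e2 : (n : ℝ) * (n : ℝ) ^ (1 / 3 : ℝ) = ((n : ℝ) ^ (2 / 3 : ℝ)) ^ 2 := by
    have := Real.rpow_add hn0 1 (1 / 3)
    rw [Real.rpow_one] at this
    rw [← this, ← Real.rpow_natCast, ← Real.rpow_mul hn0.le]
    norm_num
  set t := (n : ℝ) ^ (2 / 3 : ℝ) with ht
  have ht0 : 0 < t := by positivity
  have hsum : (8 * c) * t ≤ ∑ z ∈ ZZ n y0, Pr E (Bz n y0 z) := by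
    calc (8 * c) * t = ∑ z ∈ ZZ n y0, c * (n : ℝ) ^ (-(1 / 3) : ℝ) := by
          rw [Finset.sum_const, card_ZZ, nsmul_eq_mul]
          push_cast
          rw [← e1]
          ring
      _ ≤ _ := Finset.sum_le_sum fun z hz => h1 n y0 z hn hz E hE
  have hsum2 : ∑ z ∈ ZZ n y0, ∑ z' ∈ ZZ n y0, Pr E (fun ω => Bz n y0 z ω ∧ Bz n y0 z' ω) ≤
      96 * C * t ^ 2 := by
    calc _ ≤ ∑ z ∈ ZZ n y0, C * (12 * (n : ℝ) ^ (1 / 3 : ℝ)) := by
          refine Finset.sum_le_sum fun z hz => ?_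
          refine (Finset.sum_le_sum fun z' hz' => h2 n y0 z z' hn hz hz' E hE).trans ?_
          rw [← Finset.mul_sum]
          have := sum_pair n y0 z hz
          gcongr
      _ = 96 * C * t ^ 2 := by
          rw [Finset.sum_const, card_ZZ, nsmul_eq_mul, ← e2]
          push_cast
          ring
  have hPZ := paley_zygmund E (ZZ n y0) (Bz n y0) (by positivity) (by positivity) hsum hsum2
  refine le_trans ?_ (hPZ.trans (le_of_eq ?_))
  · refine (min_le_right _ _).trans (le_of_eq ?_)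
    field_simp
  · refine Pr_congr fun ω _ => ?_
    rw [show 8 * c * t / 2 = 4 * c * t by ring]

end Pool.Agent.H4.Q1
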