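import Mathlib
import Pool.Agent.H65.Dom.Extremal

set_option autoImplicit false
open Finset

/-! A straight side of the domain (the segment `{0} × [lo, hi]`, the domain is on the left of it) with a
wire running outside of it at distance one. The root edge at the height `y` joins the point `(0, y)` of
the side to the wire. -/

namespace Pool.Agent.H4.Q1

open Pool.Agent.H75.Perc Pool.Agent.H75.TwoArm Pool.Agent.H75.Four Pool.Agent.H65.Dom

/-- the root edge at height `y` -/
def leg (y : ℤ) : ℤ × ℤ := (1, 2 * y)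

lemma leg_odd (y : ℤ) : ((leg y).1 + (leg y).2) % 2 = 1 := by unfold leg; simp only; omega

lemma eu_leg (y : ℤ) : eu (leg y) = (0, y) := by
  unfold eu leg; exact Prod.ext (by simp) (by simp)

lemma ev_leg (y : ℤ) : ev (leg y) = (1, y) := by
  unfold ev leg; refine Prod.ext (by simp) ?_; simp only; omega

lemma zu_leg (y : ℤ) : zu (leg y) = (1, 2 * y) := by
  unfold zu leg; simp

lemma zv_leg (y : ℤ) : zv (leg y) = (2, 2 * y + 1) := by
  unfold zv leg; simp

lemma fi_zu_leg (y : ℤ) : fi (zu (leg y)) = (1, y) := by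
  rw [zu_leg]; unfold fi; refine Prod.ext (by simp) ?_; simp only; omega

lemma fi_zv_leg (y : ℤ) : fi (zv (leg y)) = (1, y + 1) := by
  rw [zv_leg]; unfold fi; refine Prod.ext (by simp) ?_; simp only; omega

/-- environment with a strip between the side and the wire -/
structure Strip (M : ℤ) (E W : Finset (ℤ × ℤ)) (lo hi : ℤ) : Prop where
  hE : E ⊆ H75.TwoArm.BB (M - 1)
  hW : W ⊆ H75.TwoArm.BB (M - 1)
  leg_not : ∀ y, lo ≤ y → y ≤ hi → leg y ∉ E ∧ leg y ∉ W
  leg_mem : ∀ y, lo ≤ y → y ≤ hi → leg y ∈ H75.TwoArm.BB (M - 1)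
  col : ∀ y y', lo ≤ y → y ≤ hi → lo ≤ y' → y' ≤ hi → Co W (1, y) (1, y')

/-- the point at height `y` of the side is connected to the wire -/
def At (W : Finset (ℤ × ℤ)) (y : ℤ) (ω : Finset (ℤ × ℤ)) : Prop := Co (ω ∪ W) (0, y) (1, y)

lemma At_mono {W ω ω' : Finset (ℤ × ℤ)} (h : ω ⊆ ω') {y : ℤ} (hA : At W y ω) : At W y ω' :=
  Co.mono (union_subset_union h subset_rfl) hA

/-- the dual cluster of the face below the root edge at height `y` -/
def PhL (M : ℤ) (W : Finset (ℤ × ℤ)) (y : ℤ) (ω : Finset (ℤ × ℤ)) (g : ℤ × ℤ) : Prop :=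
  Ph M (ω ∪ insert (leg y) W) (fun f => f = (1, y)) g

/-- the labels next to it -/
noncomputable def UL (M : ℤ) (E W : Finset (ℤ × ℤ)) (y : ℤ) (ω : Finset (ℤ × ℤ)) :
    Finset (ℤ × ℤ) := UP M E (ω ∪ insert (leg y) W) (fun f => f = (1, y))

variable {M : ℤ} {E W : Finset (ℤ × ℤ)} {lo hi : ℤ}

lemma Strip.erase (h : Strip M E W lo hi) {ω : Finset (ℤ × ℤ)} (hω : ω ⊆ E) {y : ℤ} (h1 : lo ≤ y)
    (h2 : y ≤ hi) : (ω ∪ insert (leg y) W).erase (leg y) = ω ∪ W := by
  obtain ⟨h3, h4⟩ := h.leg_not y h1 h2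
  ext e
  simp only [mem_erase, mem_union, mem_insert]
  constructor
  · rintro ⟨h5, h6 | h6 | h6⟩
    · exact Or.inl h6
    · exact absurd h6 h5
    · exact Or.inr h6
  · rintro (h6 | h6)
    · exact ⟨fun h7 => h3 (h7 ▸ hω h6), Or.inl h6⟩
    · exact ⟨fun h7 => h4 (h7 ▸ h6), Or.inr (Or.inr h6)⟩

lemma Strip.sub (h : Strip M E W lo hi) {ω : Finset (ℤ × ℤ)} (hω : ω ⊆ E) {y : ℤ} (h1 : lo ≤ y)
    (h2 : y ≤ hi) : ω ∪ insert (leg y) W ⊆ H75.TwoArm.BB (M - 1) := by
  intro e he
  rw [mem_union, mem_insert] at he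
  rcases he with he | rfl | he
  · exact h.hE (hω he)
  · exact h.leg_mem y h1 h2
  · exact h.hW he

/-- the crossing event -/
lemma Strip.at_iff (h : Strip M E W lo hi) {ω : Finset (ℤ × ℤ)} (hω : ω ⊆ E) {y : ℤ} (h1 : lo ≤ y)
    (h2 : y ≤ hi) : At W y ω ↔ ¬ PhL M W y ω (1, y + 1) := by
  have h3 := conn_iff (leg_odd y) (h.leg_mem y h1 h2) (h.sub hω h1 h2)
    (mem_union_right _ (mem_insert_self _ _)) (Or.inl ⟨(fi_zu_leg y).symm, (fi_zv_leg y).symm⟩)
  rw [h.erase hω h1 h2, eu_leg, ev_leg] at h3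
  exact h3

/-- the faces of the strip are joined across closed root edges -/
lemma strip_co {B η : Finset (ℤ × ℤ)} {j : ℤ} (n : ℕ)
    (h : ∀ i, j ≤ i → i < j + n → leg i ∈ B ∧ leg i ∉ η) : Co (du B η) (1, j) (1, j + n) := by
  induction n with
  | zero => simpa using Co.refl _ _
  | succ n ih =>
    have h1 := h (j + n) (by omega) (by push_cast; omega)
    have h2 := co_faces (B := B) (η := η) (leg_odd (j + n)) h1.1 h1.2
    rw [fi_zu_leg, fi_zv_leg] at h2
    have h3 := (ih fun i h3 h4 => h i h3 (by push_cast; omega)).trans h2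
    push_cast
    rw [← add_assoc]
    exact h3

lemma strip_co' {B η : Finset (ℤ × ℤ)} {j k : ℤ} (hjk : j ≤ k)
    (h : ∀ i, j ≤ i → i < k → leg i ∈ B ∧ leg i ∉ η) : Co (du B η) (1, j) (1, k) := by
  obtain ⟨n, rfl⟩ : ∃ n : ℕ, k = j + n := ⟨(k - j).toNat, by omega⟩
  exact strip_co n h

lemma Strip.leg_cl (h : Strip M E W lo hi) {ω : Finset (ℤ × ℤ)} (hω : ω ⊆ E) {i y : ℤ}
    (h1 : lo ≤ i) (h2 : i ≤ hi) (h3 : i ≠ y) :
    leg i ∈ H75.TwoArm.BB M ∧ leg i ∉ ω ∪ insert (leg y) W := by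
  have h4 := h.leg_mem i h1 h2
  obtain ⟨h5, h6⟩ := h.leg_not i h1 h2
  constructor
  · rw [HOrderAux.mem_BB'] at h4 ⊢; omega
  · rw [mem_union, mem_insert]
    rintro (h7 | h7 | h7)
    · exact h5 (hω h7)
    · unfold leg at h7
      have := congrArg Prod.snd h7
      simp only at this
      omega
    · exact h6 h7

/-- a face below a lower point of the side is in the dual cluster -/
lemma Strip.low (h : Strip M E W lo hi) {ω : Finset (ℤ × ℤ)} (hω : ω ⊆ E) {y z : ℤ}
    (hz : lo ≤ z) (hzy : z < y) (hy : y ≤ hi) : PhL M W y ω (1, z + 1) := by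
  refine ⟨(1, y), rfl, Co.symm ?_⟩
  refine strip_co' (by omega) fun i h1 h2 => h.leg_cl hω (by omega) (by omega) (by omega)

/-- **Fresh connections.** `ω` outside of the explored labels is replaced by `ω'`. A point above `y`
which is connected by `ω'` to a point below `y` is connected to the wire. -/
theorem Strip.fresh (h : Strip M E W lo hi) {ω ω' : Finset (ℤ × ℤ)} (hω : ω ⊆ E) (hω' : ω' ⊆ E)
    {y : ℤ} (hy1 : lo ≤ y) (hy2 : y ≤ hi) (hA : At W y ω) {z z' : ℤ} (hz : y < z) (hz2 : z ≤ hi)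
    (hz' : z' < y) (hz1 : lo ≤ z') (hc : Co ω' (0, z) (0, z')) :
    At W z (H75.Perc.mix (UL M E W y ω) ω ω') := by
  classical
  set U := UL M E W y ω with hU
  set ω'' := H75.Perc.mix U ω ω' with hω''
  have hsub : ω'' ⊆ E := mix_sub hω hω'
  have hPh : ∀ g, PhL M W y ω'' g ↔ PhL M W y ω g := fun g => Ph_mix M _ hω hω' g
  have hno : ¬ PhL M W y ω'' (1, y + 1) := by
    rw [hPh]; exact (h.at_iff hω hy1 hy2).1 hA
  -- the vertex next to the dual cluster
  obtain ⟨v, c', h1, h2, h3⟩ : ∃ v c', Co (ω'' ∪ W) (0, z) v ∧ vx c' = v ∧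
      PhL M W y ω'' (fi c') := by
    have hκ : ω' ∩ (E \ U) ⊆ ω'' ∪ W := by
      intro e he
      rw [mem_inter, mem_sdiff] at he
      exact mem_union_left _ (H75.Perc.mem_mix.2 (Or.inr ⟨he.1, he.2.2⟩))
    rcases first_out (κ0 := E \ U) hc with h1 | ⟨v, l, h1, h2, h3, h4, h5⟩
    · refine ⟨(0, z'), (1, 2 * z' + 1), h1.mono hκ, ?_, ?_⟩
      · unfold vx; refine Prod.ext (by simp) ?_; simp only; omega
      · have : fi (1, 2 * z' + 1) = (1, z' + 1) := by
          unfold fi; refine Prod.ext (by simp) ?_; simp only; omega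
        rw [this]
        exact h.low hsub hz1 hz' hy2
    · have hlU : l ∈ U := by
        by_contra h6
        exact h3 (mem_sdiff.2 ⟨hω' h2, h6⟩)
      rcases (mem_UP.1 hlU).2 with h6 | h6
      · obtain ⟨c', h7, h8⟩ := exists_corner h4 h5 (Or.inl rfl)
        refine ⟨v, c', h1.mono hκ, h7, ?_⟩
        rw [h8, hPh]; exact h6
      · obtain ⟨c', h7, h8⟩ := exists_corner h4 h5 (Or.inr rfl)
        refine ⟨v, c', h1.mono hκ, h7, ?_⟩
        rw [h8, hPh]; exact h6
  have hzb : inB (-(M - 1)) (M - 1) (-(M - 1)) (M - 1) (0, z) := by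
    have := h.leg_mem z (by omega) hz2
    unfold leg at this
    rw [HOrderAux.mem_BB'] at this
    unfold inB
    simp only at this ⊢
    omega
  have key := right_conn (M := M) (η := ω'' ∪ insert (leg y) W) (Emax := E ∪ insert (leg y) W)
    (e0 := leg y) (fL := (1, y)) (fR := (1, y + 1)) (y := (0, z)) (c := (1, 2 * z)) (v := v)
    (c' := c') (leg_odd y) (h.leg_mem y hy1 hy2) (h.sub hsub hy1 hy2)
    (union_subset_union hsub subset_rfl) (mem_union_right _ (mem_insert_self _ _))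
    (Or.inl ⟨(fi_zu_leg y).symm, (fi_zv_leg y).symm⟩) hno hzb
    (by unfold vx; refine Prod.ext (by simp) ?_; simp only; omega)
    (by
      have : fi (1, 2 * z) = (1, z) := by
        unfold fi; refine Prod.ext (by simp) ?_; simp only; omega
      rw [this]
      refine Co.symm (strip_co' (by omega) fun i h4 h5 => ?_)
      exact h.leg_cl subset_rfl (by omega) (by omega) (by omega))
    (by rw [h.erase hsub hy1 hy2]; exact h1) h2 h3
  rw [h.erase hsub hy1 hy2, ev_leg] at key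
  exact key.trans ((h.col y z hy1 hy2 (by omega) hz2).mono subset_union_right)

/-- the root edge may be added if its ends are connected -/
lemma co_insert {κ : Finset (ℤ × ℤ)} {l : ℤ × ℤ} (hl : (l.1 + l.2) % 2 = 1)
    (h : Co κ (eu l) (ev l)) {u v : ℤ × ℤ} (huv : Co (insert l κ) u v) : Co κ u v := by
  induction huv with
  | refl => exact Co.refl _ _
  | @tail a b _ hab ih =>
    refine ih.trans ?_
    rcases mem_insert.1 hab.2 with h1 | h1
    · rcases ends_of hl hab.1 h1 with ⟨rfl, rfl⟩ | ⟨rfl, rfl⟩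
      · exact h
      · exact h.symm
    · exact Relation.ReflTransGen.single ⟨hab.1, h1⟩

/-- **The points below are connected by explored labels.** -/
theorem Strip.left_expl (h : Strip M E W lo hi) {ω : Finset (ℤ × ℤ)} (hω : ω ⊆ E)
    {y : ℤ} (hy1 : lo ≤ y) (hy2 : y ≤ hi) (hA : At W y ω) {z : ℤ} (hz1 : lo ≤ z) (hz : z < y)
    (hc : At W z ω) : At W z (ω ∩ UL M E W y ω) := by
  classical
  set U := UL M E W y ω with hU
  have hsub : ω ∩ U ⊆ E := inter_subset_left.trans hω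
  -- the dual clusters agree
  have hPh : ∀ g, PhL M W y (ω ∩ U) g ↔ PhL M W y ω g := by
    intro g
    refine Ph_env hω hsub (fun l hl => ?_) g
    rw [mem_inter]
    exact ⟨fun h1 => ⟨h1, hl⟩, fun h1 => h1.1⟩
  have hAU : At W y (ω ∩ U) := by
    rw [h.at_iff hsub hy1 hy2, hPh]; exact (h.at_iff hω hy1 hy2).1 hA
  by_contra hno
  -- connected in the environment with the root edge at `y`
  have hno' : ¬ Co (ω ∩ U ∪ insert (leg y) W) (0, z) (1, z) := by
    intro h1
    apply hno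
    have h2 : ω ∩ U ∪ insert (leg y) W = insert (leg y) (ω ∩ U ∪ W) := by
      ext e; simp only [mem_union, mem_insert]; tauto
    rw [h2] at h1
    refine co_insert (leg_odd y) ?_ h1
    rw [eu_leg, ev_leg]
    exact hAU
  have hlz := h.leg_cl hsub hz1 (by omega) (show z ≠ y by omega)
  have h3 := dual_of_sep (M := M) (ω := ω ∩ U ∪ insert (leg y) W) (e := leg z) (leg_odd z)
    (h.leg_mem z hz1 (by omega)) (h.sub hsub hy1 hy2) (by
      rw [erase_eq_of_notMem hlz.2, eu_leg, ev_leg]; exact hno')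
  rw [fi_zu_leg, fi_zv_leg] at h3
  -- all faces of this dual path are in the dual cluster
  have h4 : Co (du (H75.TwoArm.BB M) (insert (leg z) (ω ∪ insert (leg y) W))) (1, z) (1, z + 1) := by
    have h0 : PhL M W y (ω ∩ U) (1, z + 1) := h.low hsub hz1 hz hy2
    have key : ∀ g, Co (du (H75.TwoArm.BB M) (insert (leg z) (ω ∩ U ∪ insert (leg y) W)))
        (1, z + 1) g → PhL M W y (ω ∩ U) g ∧
        Co (du (H75.TwoArm.BB M) (insert (leg z) (ω ∪ insert (leg y) W))) (1, z + 1) g := by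
      intro g hg
      induction hg with
      | refl => exact ⟨h0, Co.refl _ _⟩
      | @tail a b hab hbc ih =>
        obtain ⟨ih1, ih2⟩ := ih
        obtain ⟨l, l1, l2, l3, l4, l5⟩ := ad_du hbc
        have hb : PhL M W y (ω ∩ U) b := by
          refine ih1.tr (Relation.ReflTransGen.single ⟨hbc.1, ?_⟩)
          exact du_anti (subset_insert _ _) hbc.2
        refine ⟨hb, Relation.ReflTransGen.tail ih2 ⟨hbc.1, ?_⟩⟩
        rw [l4]
        refine H75.TwoArm.StrandAux.mem_du l1 fun h5 => l2 ?_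
        rw [mem_insert, mem_union, mem_insert] at h5 ⊢
        rcases h5 with h5 | h5 | h5 | h5
        · exact Or.inl h5
        · refine Or.inr (Or.inl (mem_inter.2 ⟨h5, ?_⟩))
          refine mem_UP.2 ⟨hω h5, ?_⟩
          rw [hPh] at ih1
          rcases l5 with ⟨l5, -⟩ | ⟨l5, -⟩
          · left; rw [← l5]; exact ih1
          · right; rw [← l5]; exact ih1
        · exact Or.inr (Or.inr (Or.inl h5))
        · exact Or.inr (Or.inr (Or.inr h5))
    exact (key _ (Co.symm h3)).2.symm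
  have h5 := (sep_iff_dual (M := M) (ω := ω ∪ insert (leg y) W) (e := leg z) (leg_odd z)
    (h.leg_mem z hz1 (by omega)) (h.sub hω hy1 hy2)).2 (by rw [fi_zu_leg, fi_zv_leg]; exact h4)
  rw [erase_eq_of_notMem (h.leg_cl hω hz1 (by omega) (show z ≠ y by omega)).2, eu_leg, ev_leg] at h5
  apply h5
  refine Co.mono ?_ hc
  exact union_subset_union subset_rfl (subset_insert _ _)

/-- `y` is the lowest point of the side above `a` connected to the wire -/
def Lw (W : Finset (ℤ × ℤ)) (a y : ℤ) (ω : Finset (ℤ × ℤ)) : Prop :=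
  At W y ω ∧ ∀ z, a ≤ z → z < y → ¬ At W z ω

/-- this event is determined by the explored labels -/
theorem Strip.Lw_mix (h : Strip M E W lo hi) {ω ω' : Finset (ℤ × ℤ)} (hω : ω ⊆ E) (hω' : ω' ⊆ E)
    {a y : ℤ} (ha : lo ≤ a) (hay : a ≤ y) (hy2 : y ≤ hi)
    (hL : Lw W a y (H75.Perc.mix (UL M E W y ω) ω ω')) : Lw W a y ω := by
  have hsub : H75.Perc.mix (UL M E W y ω) ω ω' ⊆ E := mix_sub hω hω'
  have hA : At W y ω := by
    have h1 := (h.at_iff hsub (ha.trans hay) hy2).1 hL.1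
    rw [h.at_iff hω (ha.trans hay) hy2]
    exact fun h2 => h1 ((Ph_mix M _ hω hω' _).2 h2)
  refine ⟨hA, fun z hz1 hz2 hz => hL.2 z hz1 hz2 ?_⟩
  refine At_mono ?_ (h.left_expl hω (ha.trans hay) hy2 hA (ha.trans hz1) hz2 hz)
  intro e he
  rw [mem_inter] at he
  exact H75.Perc.mem_mix.2 (Or.inl he)

/-- **Resampling above the lowest connected point.** -/
theorem Strip.resample (h : Strip M E W lo hi) {a y : ℤ} (ha : lo ≤ a) (hay : a ≤ y)
    (hy2 : y ≤ hi) (B Y : Finset (ℤ × ℤ) → Prop) {q : ℝ} (hq : Pr E Y ≤ q)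
    (hY : ∀ ω ω', ω ⊆ E → ω' ⊆ E → At W y ω → B (H75.Perc.mix (UL M E W y ω) ω ω') → Y ω') :
    Pr E (fun ω => B ω ∧ Lw W a y ω) ≤ Pr E (Lw W a y) * q := by
  refine resample_le E (UL M E W y) (fun ω ω' hω hω' => UP_mix M _ hω hω') B (Lw W a y)
    (fun _ => Y) q (fun ω ω' hω hω' => h.Lw_mix hω hω' ha hay hy2) (fun _ _ _ => hq) ?_
  intro ω ω' hω hω' hL hB
  exact hY ω ω' hω hω' hL.1 hB

end Pool.Agent.H4.Q1
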