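import Mathlib
import Pool.Agent.H4.Q1.Strip
import Pool.Agent.H4.Q1.Arch

set_option autoImplicit false
open Finset

/-! The number of points of a straight side connected to the target is not small, if it is positive
(Q1 blueprint, module M5, step C3b), standard position. -/

namespace Pool.Agent.H4.Q1

open Pool.Agent.H75.Perc Pool.Agent.H75.TwoArm Pool.Agent.H99.NC Pool.Agent.H81.NC
open Pool.Agent.H49.Q1

/-- disjoint events -/
lemma sum_Pr_le_one {α ι : Type*} [DecidableEq α] (E : Finset α) (Z : Finset ι)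
    (A : ι → Finset α → Prop)
    (h : ∀ ω, ω ⊆ E → ∀ z ∈ Z, ∀ z' ∈ Z, A z ω → A z' ω → z = z') :
    ∑ z ∈ Z, Pr E (A z) ≤ 1 := by
  classical
  have h1 := sum_cnt E Z A
  have h2 : ∑ ω ∈ E.powerset, (cnt Z A ω : ℝ) ≤ ∑ ω ∈ E.powerset, (1:ℝ) := by
    refine Finset.sum_le_sum fun ω hω => ?_
    have h3 : cnt Z A ω ≤ 1 := by
      unfold cnt
      rw [card_le_one]
      intro z hz z' hz'
      rw [mem_filter] at hz hz'
      exact h ω (mem_powerset.1 hω) z hz.1 z' hz'.1 hz.2 hz'.2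
    exact_mod_cast h3
  rw [Finset.sum_const, card_powerset, nsmul_eq_mul, mul_one, h1] at h2
  push_cast at h2
  have h4 : (0:ℝ) < 2 ^ E.card := by positivity
  by_contra h5
  push Not at h5
  nlinarith

lemma Bz_inter (n y0 z : ℤ) (ω : Finset (ℤ × ℤ)) :
    Bz n y0 z (ω ∩ AA n y0) ↔ Bz n y0 z ω := by
  unfold Bz
  rw [inter_assoc, inter_self]

lemma cnt_congr {α ι : Type*} {Z : Finset ι} {A A' : ι → Finset α → Prop} {ω ω' : Finset α}
    (h : ∀ z ∈ Z, (A z ω ↔ A' z ω')) : cnt Z A ω = cnt Z A' ω' := by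
  classical
  unfold cnt
  congr 1
  exact filter_congr h

lemma cnt_le {α ι : Type*} {Z Z' : Finset ι} {A A' : ι → Finset α → Prop} {ω ω' : Finset α}
    (hZ : Z ⊆ Z') (h : ∀ z ∈ Z, A z ω → A' z ω') : cnt Z A ω ≤ cnt Z' A' ω' := by
  classical
  unfold cnt
  refine card_le_card fun z hz => ?_
  rw [mem_filter] at hz ⊢
  exact ⟨hZ hz.1, h z hz.1 hz.2⟩

variable {M : ℤ} {E W : Finset (ℤ × ℤ)} {lo hi : ℤ}

/-- one lowest point, many scales -/
theorem small_one : ∃ c q : ℝ, 0 < c ∧ 0 < q ∧ q ≤ 1 ∧ ∀ {M : ℤ} {E W : Finset (ℤ × ℤ)} {lo hi : ℤ}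
    (_ : Strip M E W lo hi) {a b D : ℤ} (_ : lo ≤ a - D) (_ : b ≤ hi)
    (_ : Bx (-D) 0 (a - D) b ⊆ E) (n K : ℕ) (_ : 1 ≤ n) {y : ℤ} (_ : a ≤ y)
    (_ : 32 * (4 ^ K * (n : ℤ)) ≤ D) (_ : y + 32 * (4 ^ K * (n : ℤ)) ≤ b),
    Pr E (fun ω => (cnt (Finset.Icc a b) (At W) ω : ℝ) < c * (n : ℝ) ^ (2 / 3 : ℝ) ∧ Lw W a y ω) ≤
      Pr E (Lw W a y) * (1 - q) ^ K := by
  obtain ⟨c, q, hc, hq, hq1, harch⟩ := arches
  refine ⟨c, q, hc, hq, hq1, ?_⟩
  intro M E W lo hi h a b D hlo hhi hE n K hn y hay hD hyb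
  have hpow : ∀ k, k ∈ range K → (4 ^ k * n : ℤ) * 4 ≤ 4 ^ K * n := by
    intro k hk
    rw [mem_range] at hk
    have h1 : (4:ℤ) ^ (k + 1) ≤ 4 ^ K := pow_le_pow_right₀ (by norm_num) hk
    have h2 : (0:ℤ) ≤ n := by positivity
    calc (4 ^ k * n : ℤ) * 4 = 4 ^ (k + 1) * n := by ring
      _ ≤ 4 ^ K * n := mul_le_mul_of_nonneg_right h1 h2
  have hpos : ∀ k : ℕ, (1:ℤ) ≤ 4 ^ k * n := by
    intro k
    have h1 : (1:ℤ) ≤ 4 ^ k := one_le_pow₀ (by norm_num)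
    have h2 : (1:ℤ) ≤ n := by exact_mod_cast hn
    nlinarith
  set m : ℕ → ℕ := fun k => 4 ^ k * n with hm
  have hmc : ∀ k, ((m k : ℕ) : ℤ) = 4 ^ k * n := fun k => by simp [hm]
  have hAE : ∀ k ∈ range K, AA (m k) y ⊆ E := by
    intro k hk e he
    apply hE
    have h1 := mem_AA he
    have h2 := hpow k hk
    rw [hmc] at h1
    rw [mem_Bx]
    have h3 := hpos k
    omega
  refine h.resample (by have := hpos K; omega) hay (by have := hpos K; omega)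
    (fun ω => (cnt (Finset.Icc a b) (At W) ω : ℝ) < c * (n : ℝ) ^ (2 / 3 : ℝ))
    (fun ω' => ∀ k ∈ range K, ¬ c * ((m k : ℕ) : ℝ) ^ (2 / 3 : ℝ) ≤
      (cnt (ZZ (m k) y) (Bz (m k) y) (ω' ∩ AA (m k) y) : ℝ)) ?_ ?_
  · -- independence
    have h1 := Pr_all_le E (range K) (fun k => AA (m k) y) hAE (fun i hi j hj hij => by
      rw [Finset.disjoint_left]
      intro e he he'
      have h1 := mem_AA he
      have h2 := mem_AA he'
      rw [hmc] at h1 h2
      have hi0 := hpos i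
      have hj0 := hpos j
      rcases lt_or_gt_of_ne hij with h3 | h3
      · have h4 : (4:ℤ) ^ (i + 1) ≤ 4 ^ j := pow_le_pow_right₀ (by norm_num) h3
        have h5 : (4 ^ i * n : ℤ) * 4 ≤ 4 ^ j * n := by
          calc (4 ^ i * n : ℤ) * 4 = 4 ^ (i + 1) * n := by ring
            _ ≤ _ := mul_le_mul_of_nonneg_right h4 (by positivity)
        omega
      · have h4 : (4:ℤ) ^ (j + 1) ≤ 4 ^ i := pow_le_pow_right₀ (by norm_num) h3
        have h5 : (4 ^ j * n : ℤ) * 4 ≤ 4 ^ i * n := by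
          calc (4 ^ j * n : ℤ) * 4 = 4 ^ (j + 1) * n := by ring
            _ ≤ _ := mul_le_mul_of_nonneg_right h4 (by positivity)
        omega)
      (fun k ω' => ¬ c * ((m k : ℕ) : ℝ) ^ (2 / 3 : ℝ) ≤
        (cnt (ZZ (m k) y) (Bz (m k) y) ω' : ℝ)) (q := 1 - q) (fun k hk => by
        have h2 := harch (m k) y (by have := hpos k; rw [← hmc] at this; exact_mod_cast this) E
          (hAE k hk)
        have h3 : Pr E (fun ω => ¬ c * ((m k : ℕ) : ℝ) ^ (2 / 3 : ℝ) ≤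
            (cnt (ZZ (m k) y) (Bz (m k) y) (ω ∩ AA (m k) y) : ℝ)) =
            Pr E (fun ω => ¬ c * ((m k : ℕ) : ℝ) ^ (2 / 3 : ℝ) ≤
              (cnt (ZZ (m k) y) (Bz (m k) y) ω : ℝ)) := by
          refine Pr_congr fun ω _ => ?_
          rw [cnt_congr (A' := Bz (m k) y) (ω' := ω) fun z _ => Bz_inter _ _ _ _]
        rw [h3]
        have h4 := Pr_not_eq E (fun ω => c * ((m k : ℕ) : ℝ) ^ (2 / 3 : ℝ) ≤
              (cnt (ZZ (m k) y) (Bz (m k) y) ω : ℝ))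
        linarith)
    rwa [card_range] at h1
  · -- the deterministic part
    intro ω ω' hω hω' hA hB k hk hcnt
    have h1 : cnt (ZZ (m k) y) (Bz (m k) y) (ω' ∩ AA (m k) y) ≤
        cnt (Finset.Icc a b) (At W) (H75.Perc.mix (UL M E W y ω) ω ω') := by
      refine cnt_le ?_ ?_
      · intro z hz
        unfold ZZ at hz
        rw [Finset.mem_Ico, hmc] at hz
        rw [Finset.mem_Icc]
        have h2 := hpow k hk
        have h3 := hpos k
        omega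
      · intro z hz hBz
        rw [Bz_inter] at hBz
        obtain ⟨v, ⟨hv1, hv2, hv3⟩, hv4⟩ := hBz
        unfold ZZ at hz
        rw [Finset.mem_Ico, hmc] at hz
        rw [hmc] at hv2 hv3
        have h2 := hpow k hk
        have h3 := hpos k
        have hv : v = (0, v.2) := Prod.ext hv1 rfl
        rw [union_empty] at hv4
        rw [hv] at hv4
        exact h.fresh hω hω' (by omega) (by omega) hA (z := z) (z' := v.2) (by omega) (by omega)
          (by omega) (by omega) (hv4.mono inter_subset_left)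
    have h2 : c * (n : ℝ) ^ (2 / 3 : ℝ) ≤ c * ((m k : ℕ) : ℝ) ^ (2 / 3 : ℝ) := by
      have h3 : (n : ℝ) ≤ ((m k : ℕ) : ℝ) := by
        have h4 : n ≤ m k := Nat.le_mul_of_pos_left n (by positivity)
        exact_mod_cast h4
      gcongr
    have h3 : (cnt (ZZ (m k) y) (Bz (m k) y) (ω' ∩ AA (m k) y) : ℝ) ≤
        (cnt (Finset.Icc a b) (At W) (H75.Perc.mix (UL M E W y ω) ω ω') : ℝ) := by
      exact_mod_cast h1
    linarith

/-- **The number of connected points is not small** (standard position). The points with heights in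
`(b', b]` are treated by another argument. -/
theorem small_std : ∃ c q : ℝ, 0 < c ∧ 0 < q ∧ q ≤ 1 ∧ ∀ {M : ℤ} {E W : Finset (ℤ × ℤ)} {lo hi : ℤ}
    (_ : Strip M E W lo hi) {a b' b D : ℤ} (_ : lo ≤ a - D) (_ : b ≤ hi)
    (_ : Bx (-D) 0 (a - D) b ⊆ E) (n K : ℕ) (_ : 1 ≤ n)
    (_ : 32 * (4 ^ K * (n : ℤ)) ≤ D) (_ : b' + 32 * (4 ^ K * (n : ℤ)) ≤ b),
    Pr E (fun ω => 0 < cnt (Finset.Icc a b) (At W) ω ∧
      (cnt (Finset.Icc a b) (At W) ω : ℝ) < c * (n : ℝ) ^ (2 / 3 : ℝ)) ≤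
      (1 - q) ^ K + Pr E (fun ω => ∃ y, a ≤ y ∧ b' < y ∧ y ≤ b ∧ At W y ω) := by
  obtain ⟨c, q, hc, hq, hq1, hone⟩ := small_one
  refine ⟨c, q, hc, hq, hq1, ?_⟩
  intro M E W lo hi h a b' b D hlo hhi hE n K hn hD hb
  classical
  have hsub : Pr E (fun ω => 0 < cnt (Finset.Icc a b) (At W) ω ∧
      (cnt (Finset.Icc a b) (At W) ω : ℝ) < c * (n : ℝ) ^ (2 / 3 : ℝ)) ≤
      Pr E (fun ω => (∃ y ∈ Finset.Icc a b',
        (cnt (Finset.Icc a b) (At W) ω : ℝ) < c * (n : ℝ) ^ (2 / 3 : ℝ) ∧ Lw W a y ω) ∨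
        ∃ y, a ≤ y ∧ b' < y ∧ y ≤ b ∧ At W y ω) := by
    refine Pr_mono fun ω _ hω => ?_
    obtain ⟨h1, h2⟩ := hω
    unfold cnt at h1
    rw [card_pos] at h1
    obtain ⟨y0, hy0⟩ := h1
    rw [mem_filter, Finset.mem_Icc] at hy0
    -- the lowest connected point
    obtain ⟨y, hy, hmin⟩ := exists_min_image ((Finset.Icc a b).filter (fun y => At W y ω)) id
      ⟨y0, mem_filter.2 ⟨Finset.mem_Icc.2 hy0.1, hy0.2⟩⟩
    rw [mem_filter, Finset.mem_Icc] at hy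
    have hL : Lw W a y ω := by
      refine ⟨hy.2, fun z hz1 hz2 hz => ?_⟩
      have h3 := hmin z (mem_filter.2 ⟨Finset.mem_Icc.2 ⟨hz1, by omega⟩, hz⟩)
      simp only [id] at h3
      omega
    by_cases h3 : y ≤ b'
    · exact Or.inl ⟨y, Finset.mem_Icc.2 ⟨hy.1.1, h3⟩, h2, hL⟩
    · exact Or.inr ⟨y, hy.1.1, by omega, hy.1.2, hy.2⟩
  refine hsub.trans ((Pr_or_le _ _ _).trans ?_)
  gcongr
  have h1 : Pr E (fun ω => ∃ y ∈ Finset.Icc a b',
      (cnt (Finset.Icc a b) (At W) ω : ℝ) < c * (n : ℝ) ^ (2 / 3 : ℝ) ∧ Lw W a y ω) ≤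
      ∑ y ∈ Finset.Icc a b', Pr E (fun ω =>
        (cnt (Finset.Icc a b) (At W) ω : ℝ) < c * (n : ℝ) ^ (2 / 3 : ℝ) ∧ Lw W a y ω) :=
    Pr_ex_le E _ _
  refine h1.trans ?_
  calc _ ≤ ∑ y ∈ Finset.Icc a b', Pr E (Lw W a y) * (1 - q) ^ K := by
        refine Finset.sum_le_sum fun y hy => ?_
        rw [Finset.mem_Icc] at hy
        exact hone h hlo hhi hE n K hn hy.1 hD (by omega)
    _ = (∑ y ∈ Finset.Icc a b', Pr E (Lw W a y)) * (1 - q) ^ K := by rw [Finset.sum_mul]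
    _ ≤ 1 * (1 - q) ^ K := by
        refine mul_le_mul_of_nonneg_right ?_ (pow_nonneg (by linarith) _)
        refine sum_Pr_le_one E _ _ fun ω _ z hz z' hz' h2 h3 => ?_
        rw [Finset.mem_Icc] at hz hz'
        rcases lt_trichotomy z z' with h4 | h4 | h4
        · exact absurd h2.1 (h3.2 z hz.1 h4)
        · exact h4
        · exact absurd h3.1 (h2.2 z' hz'.1 h4)
    _ = _ := one_mul _

end Pool.Agent.H4.Q1
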