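import Mathlib
import Pool.Agent.H4.Q1.Small

set_option autoImplicit false
open Finset

/-! The number of connected points of a side is not small if it is positive (Q1 blueprint, module M5,
step C3b): all orientations, with the points near the end of the side. -/

namespace Pool.Agent.H4.Q1

open Pool.Agent.H75.Perc Pool.Agent.H75.TwoArm Pool.Agent.H99.NC Pool.Agent.H81.NC
open Pool.Agent.H49.Q1

/-- a path which leaves a box without wired labels has an open beginning which leaves the box -/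
lemma leave_box {W ω : Finset (ℤ × ℤ)} {D b : ℤ} (hW : ∀ e ∈ W, e ∉ Bx (-D) D (b - D) (b + D))
    {u v : ℤ × ℤ} (hu : inB (-D + 1) (D - 1) (b - D + 1) (b + D - 1) u) (h : Co (ω ∪ W) u v)
    (hv : ¬ inB (-D + 1) (D - 1) (b - D + 1) (b + D - 1) v) :
    ∃ w, ¬ inB (-D + 1) (D - 1) (b - D + 1) (b + D - 1) w ∧ Co ω u w := by
  have key : (inB (-D + 1) (D - 1) (b - D + 1) (b + D - 1) v ∧ Co ω u v) ∨
      ∃ w, ¬ inB (-D + 1) (D - 1) (b - D + 1) (b + D - 1) w ∧ Co ω u w := by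
    clear hv
    induction h with
    | refl => exact Or.inl ⟨hu, Co.refl _ _⟩
    | @tail x y hxy hyz ih =>
      rcases ih with ih' | ih'
      · have hstep : Co ω u y := by
          refine Relation.ReflTransGen.tail ih'.2 ⟨hyz.1, ?_⟩
          rcases mem_union.1 hyz.2 with h1 | h1
          · exact h1
          · exfalso
            apply hW _ h1
            have h2 := unit_cases hyz.1
            have h3 := ih'.1
            unfold inB at h3
            rw [mem_Bx]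
            simp only [Prod.fst_add, Prod.snd_add]
            omega
        by_cases h4 : inB (-D + 1) (D - 1) (b - D + 1) (b + D - 1) y
        · exact Or.inl ⟨h4, hstep⟩
        · exact Or.inr ⟨y, h4, hstep⟩
      · exact Or.inr ih'
  rcases key with h1 | h1
  · exact absurd h1.1 hv
  · exact h1

/-- **C3b, standard position.** -/
theorem small_std' : ∃ c q δ : ℝ, 0 < c ∧ 0 < q ∧ q ≤ 1 ∧ 0 < δ ∧ δ < 1 ∧
    ∀ {M : ℤ} {E W1 : Finset (ℤ × ℤ)} {lo hi : ℤ} (_ : Strip M E W1 lo hi)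
    {W : Finset (ℤ × ℤ)} {J : ℤ × ℤ → Prop} {a b D : ℤ} (_ : lo ≤ a - D) (_ : b ≤ hi)
    (_ : Bx (-D) 0 (a - D) b ⊆ E)
    (_ : ∀ ω ⊆ E, ∀ y, a ≤ y → y ≤ b → (CJ W J (0, y) ω ↔ At W1 y ω))
    (_ : ∀ e ∈ W, e ∉ Bx (-D) D (b - D) (b + D))
    (_ : ∀ v, J v → ¬ inB (-D + 1) (D - 1) (b - D + 1) (b + D - 1) v)
    (n K k : ℕ) (ρ : ℤ) (_ : 1 ≤ n) (_ : 32 * (4 ^ K * (n : ℤ)) ≤ ρ) (_ : 4 ^ k * ρ ≤ D),
    Pr E (fun ω => 0 < cnt (Finset.Icc a b) (fun y => CJ W J (0, y)) ω ∧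
      (cnt (Finset.Icc a b) (fun y => CJ W J (0, y)) ω : ℝ) < c * (n : ℝ) ^ (2 / 3 : ℝ)) ≤
      (1 - q) ^ K + (1 - δ) ^ k := by
  obtain ⟨c, q, hc, hq, hq1, hs⟩ := small_std
  obtain ⟨δ, hδ, hδ1, harm⟩ := open_arm_decay
  refine ⟨c, q, δ, hc, hq, hq1, hδ, hδ1, ?_⟩
  intro M E W1 lo hi h W J a b D hlo hhi hE hAt hW hJ n K k ρ hn hρ hD
  have hpos : (1:ℤ) ≤ 4 ^ K * n := by
    have h1 : (1:ℤ) ≤ 4 ^ K := one_le_pow₀ (by norm_num)
    have h2 : (1:ℤ) ≤ n := by exact_mod_cast hn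
    nlinarith
  have hρ1 : 1 ≤ ρ := by omega
  have hρD : ρ ≤ D := by
    have h1 : (1:ℤ) ≤ 4 ^ k := one_le_pow₀ (by norm_num)
    nlinarith
  have hodd : ∀ e ∈ E, (e.1 + e.2) % 2 = 1 := fun e he => (Pool.Agent.H75.Four.HOrderAux.mem_BB'.1 (h.hE he)).2.2
  have h1 := hs h (a := a) (b' := b - ρ) (b := b) (D := D) hlo hhi hE n K hn (by omega) (by omega)
  have h2 : Pr E (fun ω => 0 < cnt (Finset.Icc a b) (fun y => CJ W J (0, y)) ω ∧
      (cnt (Finset.Icc a b) (fun y => CJ W J (0, y)) ω : ℝ) < c * (n : ℝ) ^ (2 / 3 : ℝ)) =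
      Pr E (fun ω => 0 < cnt (Finset.Icc a b) (At W1) ω ∧
      (cnt (Finset.Icc a b) (At W1) ω : ℝ) < c * (n : ℝ) ^ (2 / 3 : ℝ)) := by
    refine Pr_congr fun ω hω => ?_
    rw [cnt_congr (A' := At W1) (ω' := ω) fun y hy => by
      rw [Finset.mem_Icc] at hy
      exact hAt ω hω y hy.1 hy.2]
  rw [h2]
  refine h1.trans ?_
  gcongr
  refine le_trans (Pr_mono fun ω hω hex => ?_) (harm E hodd (0, b) ρ hρ1 k)
  obtain ⟨y, hay, hy1, hy2, hA⟩ := hex
  obtain ⟨v, hv, hc⟩ := (hAt ω hω y hay hy2).2 hA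
  obtain ⟨w, hw, hc'⟩ := leave_box hW (u := (0, y)) (by unfold inB; simp only; omega) hc (hJ v hv)
  refine ⟨(0, y), w, by simp; omega, by simp only; rw [abs_le]; omega, ?_, hc'⟩
  unfold inB at hw
  simp only [sub_zero]
  by_contra h5
  push Not at h5
  apply hw
  rw [abs_lt, abs_lt] at h5
  omega

end Pool.Agent.H4.Q1
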