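import Mathlib
import Pool.Agent.Q1.M4.Walk
import Pool.Agent.Q1.M4.Data

set_option autoImplicit false
open Finset

/-! The boundary walk of a grid polygon on the level of the lattice: the points `bw X Y s l` of the side
`s`, the vertices outside at distance one, and injectivity. -/

namespace Pool.Agent.H4.Q1

open Pool.Agent.Q1.M4
open Pool.Agent.H75.Perc (dir dir_cases)

/-- the gaps of the grid lines are at least two -/
def Gap (X : ℤ → ℤ) : Prop := ∀ i, X i + 2 ≤ X (i + 1)

lemma Gap.lt_iff {X : ℤ → ℤ} (h : Gap X) {i j : ℤ} : X i < X j ↔ i < j :=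
  (strictMono_int_of_lt_succ fun i => by have := h i; omega).lt_iff_lt

lemma Gap.le_iff {X : ℤ → ℤ} (h : Gap X) {i j : ℤ} : X i ≤ X j ↔ i ≤ j :=
  (strictMono_int_of_lt_succ fun i => by have := h i; omega).le_iff_le

lemma Gap.in_open {X : ℤ → ℤ} (h : Gap X) {i a t : ℤ} (h1 : X i < t) (h2 : t < X (i + 1))
    (h3 : X a ≤ t) (h4 : t ≤ X (a + 1)) : a = i := by
  have h5 : X a < X (i + 1) := lt_of_le_of_lt h3 h2
  have h6 : X i < X (a + 1) := lt_of_lt_of_le h1 h4
  rw [h.lt_iff] at h5 h6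
  omega

lemma Gap.on_line {X : ℤ → ℤ} (h : Gap X) {i a : ℤ} (h3 : X a ≤ X i) (h4 : X i ≤ X (a + 1)) :
    a = i ∨ a = i - 1 := by
  rw [h.le_iff] at h3 h4
  omega

/-- length of the side -/
def len (X Y : ℤ → ℤ) (s : Cell × ℤ) : ℤ :=
  if s.2 % 2 = 0 then X (s.1.1 + 1) - X s.1.1 else Y (s.1.2 + 1) - Y s.1.2

/-- the points of the side -/
def bw (X Y : ℤ → ℤ) (s : Cell × ℤ) (l : ℤ) : ℤ × ℤ := lpt X Y (tail s) + l • dir s.2

/-- the four orientations -/
lemma bw_cases (X Y : ℤ → ℤ) (s : Cell × ℤ) (l : ℤ) :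
    (s.2 % 4 = 0 ∧ dir s.2 = (1, 0) ∧ dir (s.2 - 1) = (0, -1) ∧ dir (s.2 + 1) = (0, 1) ∧
      len X Y s = X (s.1.1 + 1) - X s.1.1 ∧ bw X Y s l = (X s.1.1 + l, Y s.1.2)) ∨
    (s.2 % 4 = 1 ∧ dir s.2 = (0, 1) ∧ dir (s.2 - 1) = (1, 0) ∧ dir (s.2 + 1) = (-1, 0) ∧
      len X Y s = Y (s.1.2 + 1) - Y s.1.2 ∧ bw X Y s l = (X (s.1.1 + 1), Y s.1.2 + l)) ∨
    (s.2 % 4 = 2 ∧ dir s.2 = (-1, 0) ∧ dir (s.2 - 1) = (0, 1) ∧ dir (s.2 + 1) = (0, -1) ∧
      len X Y s = X (s.1.1 + 1) - X s.1.1 ∧ bw X Y s l = (X (s.1.1 + 1) - l, Y (s.1.2 + 1))) ∨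
    (s.2 % 4 = 3 ∧ dir s.2 = (0, -1) ∧ dir (s.2 - 1) = (-1, 0) ∧ dir (s.2 + 1) = (1, 0) ∧
      len X Y s = Y (s.1.2 + 1) - Y s.1.2 ∧ bw X Y s l = (X s.1.1, Y (s.1.2 + 1) - l)) := by
  obtain ⟨⟨i, j⟩, k⟩ := s
  unfold bw len lpt tail
  simp only
  rcases dir_cases k with ⟨a, e⟩ | ⟨a, e⟩ | ⟨a, e⟩ | ⟨a, e⟩ <;>
  rcases dir_cases (k - 1) with ⟨b, f⟩ | ⟨b, f⟩ | ⟨b, f⟩ | ⟨b, f⟩ <;>
  rcases dir_cases (k + 1) with ⟨c, g⟩ | ⟨c, g⟩ | ⟨c, g⟩ | ⟨c, g⟩ <;>
  first
  | (exfalso; omega)
  | (rw [e, f, g]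
     have h2 : k % 2 = 0 ∨ k % 2 = 1 := by omega
     rcases h2 with h2 | h2 <;> first | (exfalso; omega) | skip
     all_goals simp [a, h2, sub_eq_add_neg])

lemma len_ge {X Y : ℤ → ℤ} (hX : Gap X) (hY : Gap Y) (s : Cell × ℤ) : 2 ≤ len X Y s := by
  unfold len
  split_ifs
  · have := hX s.1.1; omega
  · have := hY s.1.2; omega

/-- the next side starts where the side ends -/
lemma bw_next (X Y : ℤ → ℤ) (Q : Finset Cell) (s : Cell × ℤ) :
    bw X Y (nextSide Q s) 0 = bw X Y s (len X Y s) := by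
  have h1 : bw X Y (nextSide Q s) 0 = lpt X Y (head s) := by
    unfold bw
    rw [zero_smul, add_zero, head_eq_tail_next]
  rw [h1]
  unfold lpt head
  rcases bw_cases X Y s (len X Y s) with ⟨a, e, -, -, h2, h3⟩ | ⟨a, e, -, -, h2, h3⟩ |
    ⟨a, e, -, -, h2, h3⟩ | ⟨a, e, -, -, h2, h3⟩ <;> rw [h3, h2, e] <;> unfold tail <;>
    simp [a]

lemma bw_succ (X Y : ℤ → ℤ) (s : Cell × ℤ) (l : ℤ) :
    bw X Y s (l + 1) = bw X Y s l + dir s.2 := by
  unfold bw
  rw [add_smul, one_smul, add_assoc]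

/-- the points of the side belong to the region -/
lemma bw_inV {X Y : ℤ → ℤ} {Q : Finset Cell} {s : Cell × ℤ} (hX : Gap X) (hY : Gap Y)
    (hs : IsSide Q s) {l : ℤ} (h0 : 0 ≤ l) (h1 : l ≤ len X Y s) : inV Q X Y (bw X Y s l) := by
  refine ⟨s.1, hs.1, ?_⟩
  unfold inRect
  have h2 := hX s.1.1
  have h3 := hY s.1.2
  rcases bw_cases X Y s l with ⟨-, -, -, -, h4, h5⟩ | ⟨-, -, -, -, h4, h5⟩ | ⟨-, -, -, -, h4, h5⟩ |
    ⟨-, -, -, -, h4, h5⟩ <;> rw [h5] <;> simp only <;> omega

/-- the vertex outside of an interior point of a side -/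
lemma out_side {X Y : ℤ → ℤ} {Q : Finset Cell} {s : Cell × ℤ} (hX : Gap X) (hY : Gap Y)
    (hs : IsSide Q s) {l : ℤ} (h0 : 0 < l) (h1 : l < len X Y s) :
    ¬ inV Q X Y (bw X Y s l + dir (s.2 - 1)) := by
  rintro ⟨d, hd, hin⟩
  apply hs.2
  have h2 := hX s.1.1
  have h3 := hY s.1.2
  have h2' := hX (s.1.1 - 1)
  have h3' := hY (s.1.2 - 1)
  have h2'' := hX (s.1.1 + 1)
  have h3'' := hY (s.1.2 + 1)
  rw [sub_add_cancel] at h2' h3'
  unfold inRect at hin
  rcases bw_cases X Y s l with ⟨-, -, e, -, h4, h5⟩ | ⟨-, -, e, -, h4, h5⟩ | ⟨-, -, e, -, h4, h5⟩ |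
    ⟨-, -, e, -, h4, h5⟩ <;> rw [h5, e] at hin <;> simp only [Prod.mk_add_mk] at hin <;> rw [e]
  · have a1 := hX.in_open (i := s.1.1) (by omega) (by omega) hin.1.1 hin.1.2
    have a2 := hY.in_open (i := s.1.2 - 1) (by omega) (by rw [sub_add_cancel]; omega) hin.2.1 hin.2.2
    have : s.1 + (0, -1) = d := Prod.ext (by simp [a1]) (by simp [a2]; ring)
    rwa [this]
  · have a1 := hX.in_open (i := s.1.1 + 1) (by omega) (by omega) hin.1.1 hin.1.2
    have a2 := hY.in_open (i := s.1.2) (by omega) (by omega) hin.2.1 hin.2.2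
    have : s.1 + (1, 0) = d := Prod.ext (by simp [a1]) (by simp [a2])
    rwa [this]
  · have a1 := hX.in_open (i := s.1.1) (by omega) (by omega) hin.1.1 hin.1.2
    have a2 := hY.in_open (i := s.1.2 + 1) (by omega) (by omega) hin.2.1 hin.2.2
    have : s.1 + (0, 1) = d := Prod.ext (by simp [a1]) (by simp [a2])
    rwa [this]
  · have a1 := hX.in_open (i := s.1.1 - 1) (by omega) (by rw [sub_add_cancel]; omega) hin.1.1 hin.1.2
    have a2 := hY.in_open (i := s.1.2) (by omega) (by omega) hin.2.1 hin.2.2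
    have : s.1 + (-1, 0) = d := Prod.ext (by simp [a1]; ring) (by simp [a2])
    rwa [this]

/-! ### Corners -/

/-- straight continuation: the vertex outside of the common vertex -/
lemma out_flat {X Y : ℤ → ℤ} {Q : Finset Cell} {s : Cell × ℤ} (hX : Gap X) (hY : Gap Y)
    (hs : IsSide Q s) (h : s.1 + dir s.2 + dir (s.2 - 1) ∉ Q) :
    ¬ inV Q X Y (bw X Y s (len X Y s) + dir (s.2 - 1)) := by
  rintro ⟨d, hd, hin⟩
  have h2 := hX s.1.1
  have h3 := hY s.1.2
  have h2' := hX (s.1.1 - 1)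
  have h3' := hY (s.1.2 - 1)
  have h2'' := hX (s.1.1 + 1)
  have h3'' := hY (s.1.2 + 1)
  have hs2 := hs.2
  rw [sub_add_cancel] at h2' h3'
  unfold inRect at hin
  rcases bw_cases X Y s (len X Y s) with ⟨-, e', e, -, h4, h5⟩ | ⟨-, e', e, -, h4, h5⟩ |
    ⟨-, e', e, -, h4, h5⟩ | ⟨-, e', e, -, h4, h5⟩ <;> rw [h5, e, h4] at hin <;>
    simp only [Prod.mk_add_mk] at hin <;> rw [e] at hs2 <;> rw [e, e'] at h
  · have a2 := hY.in_open (i := s.1.2 - 1) (by omega) (by rw [sub_add_cancel]; omega) hin.2.1 hin.2.2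
    rcases hX.on_line (i := s.1.1 + 1) (a := d.1) (by omega) (by omega) with a1 | a1
    · exact h (by convert hd using 1; exact Prod.ext (by simp; omega) (by simp; omega))
    · exact hs2 (by convert hd using 1; exact Prod.ext (by simp; omega) (by simp; omega))
  · have a1 := hX.in_open (i := s.1.1 + 1) (by omega) (by omega) hin.1.1 hin.1.2
    rcases hY.on_line (i := s.1.2 + 1) (a := d.2) (by omega) (by omega) with a2 | a2
    · exact h (by convert hd using 1; exact Prod.ext (by simp; omega) (by simp; omega))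
    · exact hs2 (by convert hd using 1; exact Prod.ext (by simp; omega) (by simp; omega))
  · have a2 := hY.in_open (i := s.1.2 + 1) (by omega) (by omega) hin.2.1 hin.2.2
    rcases hX.on_line (i := s.1.1) (a := d.1) (by omega) (by omega) with a1 | a1
    · exact hs2 (by convert hd using 1; exact Prod.ext (by simp; omega) (by simp; omega))
    · exact h (by convert hd using 1; exact Prod.ext (by simp; omega) (by simp; omega))
  · have a1 := hX.in_open (i := s.1.1 - 1) (by omega) (by rw [sub_add_cancel]; omega) hin.1.1 hin.1.2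
    rcases hY.on_line (i := s.1.2) (a := d.2) (by omega) (by omega) with a2 | a2
    · exact hs2 (by convert hd using 1; exact Prod.ext (by simp; omega) (by simp; omega))
    · exact h (by convert hd using 1; exact Prod.ext (by simp; omega) (by simp; omega))

/-- left turn (convex corner): the vertex straight ahead is outside -/
lemma out_ahead {X Y : ℤ → ℤ} {Q : Finset Cell} {s : Cell × ℤ} (hX : Gap X) (hY : Gap Y)
    (h : s.1 + dir s.2 + dir (s.2 - 1) ∉ Q) (h' : s.1 + dir s.2 ∉ Q) :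
    ¬ inV Q X Y (bw X Y s (len X Y s) + dir s.2) := by
  rintro ⟨d, hd, hin⟩
  have h2 := hX s.1.1
  have h3 := hY s.1.2
  have h2' := hX (s.1.1 - 1)
  have h3' := hY (s.1.2 - 1)
  have h2'' := hX (s.1.1 + 1)
  have h3'' := hY (s.1.2 + 1)
  rw [sub_add_cancel] at h2' h3'
  unfold inRect at hin
  rcases bw_cases X Y s (len X Y s) with ⟨-, e', e, -, h4, h5⟩ | ⟨-, e', e, -, h4, h5⟩ |
    ⟨-, e', e, -, h4, h5⟩ | ⟨-, e', e, -, h4, h5⟩ <;> rw [h5, e', h4] at hin <;>
    simp only [Prod.mk_add_mk] at hin <;> rw [e'] at h' <;> rw [e, e'] at h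
  · have a1 := hX.in_open (i := s.1.1 + 1) (by omega) (by omega) hin.1.1 hin.1.2
    rcases hY.on_line (i := s.1.2) (a := d.2) (by omega) (by omega) with a2 | a2
    · exact h' (by convert hd using 1; exact Prod.ext (by simp; omega) (by simp; omega))
    · exact h (by convert hd using 1; exact Prod.ext (by simp; omega) (by simp; omega))
  · have a2 := hY.in_open (i := s.1.2 + 1) (by omega) (by omega) hin.2.1 hin.2.2
    rcases hX.on_line (i := s.1.1 + 1) (a := d.1) (by omega) (by omega) with a1 | a1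
    · exact h (by convert hd using 1; exact Prod.ext (by simp; omega) (by simp; omega))
    · exact h' (by convert hd using 1; exact Prod.ext (by simp; omega) (by simp; omega))
  · have a1 := hX.in_open (i := s.1.1 - 1) (by omega) (by rw [sub_add_cancel]; omega) hin.1.1 hin.1.2
    rcases hY.on_line (i := s.1.2 + 1) (a := d.2) (by omega) (by omega) with a2 | a2
    · exact h (by convert hd using 1; exact Prod.ext (by simp; omega) (by simp; omega))
    · exact h' (by convert hd using 1; exact Prod.ext (by simp; omega) (by simp; omega))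
  · have a2 := hY.in_open (i := s.1.2 - 1) (by omega) (by rw [sub_add_cancel]; omega) hin.2.1 hin.2.2
    rcases hX.on_line (i := s.1.1) (a := d.1) (by omega) (by omega) with a1 | a1
    · exact h' (by convert hd using 1; exact Prod.ext (by simp; omega) (by simp; omega))
    · exact h (by convert hd using 1; exact Prod.ext (by simp; omega) (by simp; omega))

/-- left turn (convex corner): the diagonal vertex is outside -/
lemma out_diag {X Y : ℤ → ℤ} {Q : Finset Cell} {s : Cell × ℤ} (hX : Gap X) (hY : Gap Y)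
    (h : s.1 + dir s.2 + dir (s.2 - 1) ∉ Q) :
    ¬ inV Q X Y (bw X Y s (len X Y s) + dir (s.2 - 1) + dir s.2) := by
  rintro ⟨d, hd, hin⟩
  have h2 := hX s.1.1
  have h3 := hY s.1.2
  have h2' := hX (s.1.1 - 1)
  have h3' := hY (s.1.2 - 1)
  have h2'' := hX (s.1.1 + 1)
  have h3'' := hY (s.1.2 + 1)
  rw [sub_add_cancel] at h2' h3'
  unfold inRect at hin
  rcases bw_cases X Y s (len X Y s) with ⟨-, e', e, -, h4, h5⟩ | ⟨-, e', e, -, h4, h5⟩ |
    ⟨-, e', e, -, h4, h5⟩ | ⟨-, e', e, -, h4, h5⟩ <;> rw [h5, e', e, h4] at hin <;>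
    simp only [Prod.mk_add_mk] at hin <;> rw [e, e'] at h
  · have a1 := hX.in_open (i := s.1.1 + 1) (by omega) (by omega) hin.1.1 hin.1.2
    have a2 := hY.in_open (i := s.1.2 - 1) (by omega) (by rw [sub_add_cancel]; omega) hin.2.1 hin.2.2
    exact h (by convert hd using 1; exact Prod.ext (by simp; omega) (by simp; omega))
  · have a1 := hX.in_open (i := s.1.1 + 1) (by omega) (by omega) hin.1.1 hin.1.2
    have a2 := hY.in_open (i := s.1.2 + 1) (by omega) (by omega) hin.2.1 hin.2.2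
    exact h (by convert hd using 1; exact Prod.ext (by simp; omega) (by simp; omega))
  · have a1 := hX.in_open (i := s.1.1 - 1) (by omega) (by rw [sub_add_cancel]; omega) hin.1.1 hin.1.2
    have a2 := hY.in_open (i := s.1.2 + 1) (by omega) (by omega) hin.2.1 hin.2.2
    exact h (by convert hd using 1; exact Prod.ext (by simp; omega) (by simp; omega))
  · have a1 := hX.in_open (i := s.1.1 - 1) (by omega) (by rw [sub_add_cancel]; omega) hin.1.1 hin.1.2
    have a2 := hY.in_open (i := s.1.2 - 1) (by omega) (by rw [sub_add_cancel]; omega) hin.2.1 hin.2.2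
    exact h (by convert hd using 1; exact Prod.ext (by simp; omega) (by simp; omega))

/-- the three kinds of vertices -/
lemma next_cases (Q : Finset Cell) (s : Cell × ℤ) :
    (s.1 + dir s.2 + dir (s.2 - 1) ∈ Q ∧ (nextSide Q s).2 = s.2 - 1) ∨
    (s.1 + dir s.2 + dir (s.2 - 1) ∉ Q ∧ (nextSide Q s).2 = s.2) ∨
    (s.1 + dir s.2 + dir (s.2 - 1) ∉ Q ∧ s.1 + dir s.2 ∉ Q ∧ (nextSide Q s).2 = s.2 + 1) := by
  unfold nextSide
  split_ifs with h1 h2
  · exact Or.inl ⟨h1, rfl⟩
  · exact Or.inr (Or.inl ⟨h1, rfl⟩)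
  · exact Or.inr (Or.inr ⟨h1, h2, rfl⟩)

/-! ### Injectivity -/

/-- an interior point of a side is on no other side -/
lemma bw_inj_open {X Y : ℤ → ℤ} {Q : Finset Cell} {s t : Cell × ℤ} (hX : Gap X) (hY : Gap Y)
    (hs : IsSide Q s) (ht : IsSide Q t) {l l' : ℤ} (h0 : 0 < l) (h1 : l < len X Y s)
    (h0' : 0 ≤ l') (h1' : l' ≤ len X Y t) (h : bw X Y s l = bw X Y t l') :
    Eqv s t ∧ l = l' := by
  have hlab : Pool.Agent.Q1.M4.lab s = Pool.Agent.Q1.M4.lab t ∧
      (s.2 % 4 = t.2 % 4 → s.1 = t.1 → l = l') := by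
    unfold Pool.Agent.Q1.M4.lab
    have h2 := hX s.1.1
    have h3 := hY s.1.2
    have h2t := hX t.1.1
    have h3t := hY t.1.2
    rcases bw_cases X Y s l with ⟨k1, -, e, -, h4, h5⟩ | ⟨k1, -, e, -, h4, h5⟩ |
      ⟨k1, -, e, -, h4, h5⟩ | ⟨k1, -, e, -, h4, h5⟩ <;>
    rcases bw_cases X Y t l' with ⟨k2, -, e', -, h4', h5'⟩ | ⟨k2, -, e', -, h4', h5'⟩ |
      ⟨k2, -, e', -, h4', h5'⟩ | ⟨k2, -, e', -, h4', h5'⟩ <;>
    rw [h5, h5', Prod.mk.injEq] at h <;> rw [e, e'] <;> obtain ⟨ha, hb⟩ := h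
    · have a1 := hX.in_open (i := s.1.1) (a := t.1.1) (t := X s.1.1 + l) (by omega) (by omega)
        (by omega) (by omega)
      have b1 : s.1.2 = t.1.2 := le_antisymm (hY.le_iff.1 hb.le) (hY.le_iff.1 hb.ge)
      refine ⟨Prod.ext (by simp; omega) (by simp; omega), fun _ h6 => ?_⟩
      rw [h6] at ha; omega
    · exfalso
      have a1 := hX.in_open (i := s.1.1) (a := t.1.1 + 1) (t := X s.1.1 + l) (by omega) (by omega)
        (by omega) (by have := hX (t.1.1 + 1); omega)
      have a2 := hX.in_open (i := s.1.1) (a := t.1.1) (t := X s.1.1 + l) (by omega) (by omega)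
        (by omega) (by omega)
      omega
    · have a1 := hX.in_open (i := s.1.1) (a := t.1.1) (t := X s.1.1 + l) (by omega) (by omega)
        (by omega) (by omega)
      have b1 : s.1.2 = t.1.2 + 1 := le_antisymm (hY.le_iff.1 hb.le) (hY.le_iff.1 hb.ge)
      refine ⟨Prod.ext (by simp; omega) (by simp; omega), fun h6 _ => ?_⟩
      omega
    · exfalso
      have a1 := hX.in_open (i := s.1.1) (a := t.1.1 - 1) (t := X s.1.1 + l) (by omega) (by omega)
        (by have := hX (t.1.1 - 1); rw [sub_add_cancel] at this; omega) (by rw [sub_add_cancel]; omega)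
      have a2 := hX.in_open (i := s.1.1) (a := t.1.1) (t := X s.1.1 + l) (by omega) (by omega)
        (by omega) (by omega)
      omega
    · exfalso
      have a1 := hY.in_open (i := s.1.2) (a := t.1.2 - 1) (t := Y s.1.2 + l) (by omega) (by omega)
        (by have := hY (t.1.2 - 1); rw [sub_add_cancel] at this; omega) (by rw [sub_add_cancel]; omega)
      have a2 := hY.in_open (i := s.1.2) (a := t.1.2) (t := Y s.1.2 + l) (by omega) (by omega)
        (by omega) (by omega)
      omega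
    · have a1 := hY.in_open (i := s.1.2) (a := t.1.2) (t := Y s.1.2 + l) (by omega) (by omega)
        (by omega) (by omega)
      have b1 : s.1.1 + 1 = t.1.1 + 1 := le_antisymm (hX.le_iff.1 ha.le) (hX.le_iff.1 ha.ge)
      refine ⟨Prod.ext (by simp; omega) (by simp; omega), fun _ h6 => ?_⟩
      rw [h6] at hb; omega
    · exfalso
      have a1 := hY.in_open (i := s.1.2) (a := t.1.2 + 1) (t := Y s.1.2 + l) (by omega) (by omega)
        (by omega) (by have := hY (t.1.2 + 1); omega)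
      have a2 := hY.in_open (i := s.1.2) (a := t.1.2) (t := Y s.1.2 + l) (by omega) (by omega)
        (by omega) (by omega)
      omega
    · have a1 := hY.in_open (i := s.1.2) (a := t.1.2) (t := Y s.1.2 + l) (by omega) (by omega)
        (by omega) (by omega)
      have b1 : s.1.1 + 1 = t.1.1 := le_antisymm (hX.le_iff.1 ha.le) (hX.le_iff.1 ha.ge)
      refine ⟨Prod.ext (by simp; omega) (by simp; omega), fun h6 _ => ?_⟩
      omega
    · have a1 := hX.in_open (i := s.1.1) (a := t.1.1) (t := X (s.1.1 + 1) - l) (by omega) (by omega)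
        (by omega) (by omega)
      have b1 : s.1.2 + 1 = t.1.2 := le_antisymm (hY.le_iff.1 hb.le) (hY.le_iff.1 hb.ge)
      refine ⟨Prod.ext (by simp; omega) (by simp; omega), fun h6 _ => ?_⟩
      omega
    · exfalso
      have a1 := hX.in_open (i := s.1.1) (a := t.1.1 + 1) (t := X (s.1.1 + 1) - l) (by omega)
        (by omega) (by omega) (by have := hX (t.1.1 + 1); omega)
      have a2 := hX.in_open (i := s.1.1) (a := t.1.1) (t := X (s.1.1 + 1) - l) (by omega) (by omega)
        (by omega) (by omega)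
      omega
    · have a1 := hX.in_open (i := s.1.1) (a := t.1.1) (t := X (s.1.1 + 1) - l) (by omega) (by omega)
        (by omega) (by omega)
      have b1 : s.1.2 + 1 = t.1.2 + 1 := le_antisymm (hY.le_iff.1 hb.le) (hY.le_iff.1 hb.ge)
      refine ⟨Prod.ext (by simp; omega) (by simp; omega), fun _ h6 => ?_⟩
      rw [h6] at ha; omega
    · exfalso
      have a1 := hX.in_open (i := s.1.1) (a := t.1.1 - 1) (t := X (s.1.1 + 1) - l) (by omega)
        (by omega) (by have := hX (t.1.1 - 1); rw [sub_add_cancel] at this; omega)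
        (by rw [sub_add_cancel]; omega)
      have a2 := hX.in_open (i := s.1.1) (a := t.1.1) (t := X (s.1.1 + 1) - l) (by omega) (by omega)
        (by omega) (by omega)
      omega
    · exfalso
      have a1 := hY.in_open (i := s.1.2) (a := t.1.2 - 1) (t := Y (s.1.2 + 1) - l) (by omega)
        (by omega) (by have := hY (t.1.2 - 1); rw [sub_add_cancel] at this; omega)
        (by rw [sub_add_cancel]; omega)
      have a2 := hY.in_open (i := s.1.2) (a := t.1.2) (t := Y (s.1.2 + 1) - l) (by omega) (by omega)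
        (by omega) (by omega)
      omega
    · have a1 := hY.in_open (i := s.1.2) (a := t.1.2) (t := Y (s.1.2 + 1) - l) (by omega) (by omega)
        (by omega) (by omega)
      have b1 : s.1.1 = t.1.1 + 1 := le_antisymm (hX.le_iff.1 ha.le) (hX.le_iff.1 ha.ge)
      refine ⟨Prod.ext (by simp; omega) (by simp; omega), fun h6 _ => ?_⟩
      omega
    · exfalso
      have a1 := hY.in_open (i := s.1.2) (a := t.1.2 + 1) (t := Y (s.1.2 + 1) - l) (by omega)
        (by omega) (by omega) (by have := hY (t.1.2 + 1); omega)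
      have a2 := hY.in_open (i := s.1.2) (a := t.1.2) (t := Y (s.1.2 + 1) - l) (by omega) (by omega)
        (by omega) (by omega)
      omega
    · have a1 := hY.in_open (i := s.1.2) (a := t.1.2) (t := Y (s.1.2 + 1) - l) (by omega) (by omega)
        (by omega) (by omega)
      have b1 : s.1.1 = t.1.1 := le_antisymm (hX.le_iff.1 ha.le) (hX.le_iff.1 ha.ge)
      refine ⟨Prod.ext (by simp; omega) (by simp; omega), fun _ h6 => ?_⟩
      rw [h6] at hb; omega
  have he := lab_inj hs ht hlab.1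
  exact ⟨he, hlab.2 (by have := he.2; omega) he.1⟩

/-- the starting points of different sides are different -/
lemma bw_inj_zero {X Y : ℤ → ℤ} {Q : Finset Cell} {s t : Cell × ℤ} (hX : Gap X) (hY : Gap Y)
    (hQ : Good Q) (hs : IsSide Q s) (ht : IsSide Q t) (h : bw X Y s 0 = bw X Y t 0) : Eqv s t := by
  refine tail_inj hQ hs ht ?_
  unfold bw at h
  rw [zero_smul, add_zero, zero_smul, add_zero] at h
  unfold lpt at h
  rw [Prod.mk.injEq] at h
  exact Prod.ext (le_antisymm (hX.le_iff.1 h.1.le) (hX.le_iff.1 h.1.ge))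
    (le_antisymm (hY.le_iff.1 h.2.le) (hY.le_iff.1 h.2.ge))

end Pool.Agent.H4.Q1
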