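import Mathlib
import Pool.Agent.H4.Q1.LWalk
import Pool.Agent.Q1.M5.Defs
import Pool.Agent.H65.Dom.Extremal

set_option autoImplicit false
open Finset

/-! The exterior wire `XW` of a grid polygon: the vertices outside at distance one are connected to the
wired arc, connections to them are connections to the wired arc, and the outer faces along the free arc
form a dual corridor which is cut exactly by the root edge. -/

namespace Pool.Agent.H4.Q1

open Pool.Agent.H75.Perc hiding WL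
open Pool.Agent.H75.TwoArm Pool.Agent.H75.Four Pool.Agent.H65.Dom
open Pool.Agent.H49.Q1 Pool.Agent.Q1.M4 Pool.Agent.Q1.M5

/-! ### Faces around a vertex -/

/-- the face at the vertex `w` in the quadrant between the directions `j - 1` and `j` -/
def qf (w : ℤ × ℤ) (j : ℤ) : ℤ × ℤ :=
  if j % 4 = 0 then w + (1, 0) else if j % 4 = 1 then w + (1, 1)
  else if j % 4 = 2 then w + (0, 1) else w

lemma qf_cases (w : ℤ × ℤ) (j : ℤ) :
    (j % 4 = 0 ∧ dir j = (1, 0) ∧ qf w j = w + (1, 0) ∧ qf w (j + 1) = w + (1, 1)) ∨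
    (j % 4 = 1 ∧ dir j = (0, 1) ∧ qf w j = w + (1, 1) ∧ qf w (j + 1) = w + (0, 1)) ∨
    (j % 4 = 2 ∧ dir j = (-1, 0) ∧ qf w j = w + (0, 1) ∧ qf w (j + 1) = w) ∨
    (j % 4 = 3 ∧ dir j = (0, -1) ∧ qf w j = w ∧ qf w (j + 1) = w + (1, 0)) := by
  unfold qf
  rcases dir_cases j with ⟨a, e⟩ | ⟨a, e⟩ | ⟨a, e⟩ | ⟨a, e⟩
  · left
    have h1 : (j + 1) % 4 = 1 := by omega
    simp [a, e, h1]
  · right; left
    have h1 : (j + 1) % 4 = 2 := by omega
    simp [a, e, h1]
  · right; right; left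
    have h1 : (j + 1) % 4 = 3 := by omega
    simp [a, e, h1]
  · right; right; right
    have h1 : (j + 1) % 4 = 0 := by omega
    simp [a, e, h1]

lemma qf_step (w : ℤ × ℤ) (j : ℤ) : IsUnit4 (qf w (j + 1) - qf w j) ∧
    qf w j + qf w (j + 1) = w + (w + dir j) + (1, 1) := by
  unfold IsUnit4
  rcases qf_cases w j with ⟨-, e, e1, e2⟩ | ⟨-, e, e1, e2⟩ | ⟨-, e, e1, e2⟩ | ⟨-, e, e1, e2⟩ <;>
  rw [e, e1, e2] <;> simp only [Prod.ext_iff, Prod.fst_sub, Prod.snd_sub, Prod.fst_add,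
    Prod.snd_add] <;> omega

lemma qf_shift (w : ℤ × ℤ) (k : ℤ) : qf (w + dir k) (k - 1) = qf w k := by
  have h := qf_cases (w + dir k) (k - 1)
  rw [sub_add_cancel] at h
  rcases h with ⟨a, -, e1, -⟩ | ⟨a, -, e1, -⟩ | ⟨a, -, e1, -⟩ | ⟨a, -, e1, -⟩ <;>
  rcases qf_cases w k with ⟨b, e, e2, -⟩ | ⟨b, e, e2, -⟩ | ⟨b, e, e2, -⟩ | ⟨b, e, e2, -⟩ <;>
  first
  | (exfalso; omega)
  | (rw [e1, e2, e]; done)
  | (rw [e1, e2, e, add_assoc]; rfl)
  | (rw [e1, e2, e]; exact Prod.ext (by simp) (by simp))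

lemma odd_dir (w : ℤ × ℤ) (j : ℤ) : ((w + (w + dir j)).1 + (w + (w + dir j)).2) % 2 = 1 := by
  rcases dir_cases j with ⟨-, e⟩ | ⟨-, e⟩ | ⟨-, e⟩ | ⟨-, e⟩ <;> rw [e] <;>
  simp only [Prod.fst_add, Prod.snd_add] <;> omega

lemma unit_dir (w : ℤ × ℤ) (j : ℤ) : IsUnit4 (w + dir j - w) := by
  rw [add_sub_cancel_left]
  exact isUnit4_dir j

/-- the ends of the label from `w` in direction `j` -/
lemma ends_dir (w : ℤ × ℤ) (j : ℤ) :
    (w = eu (w + (w + dir j)) ∧ w + dir j = ev (w + (w + dir j))) ∨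
    (w = ev (w + (w + dir j)) ∧ w + dir j = eu (w + (w + dir j))) :=
  ends_of (odd_dir w j) (unit_dir w j) rfl

/-- the two faces of this label -/
lemma Fc_dir (w : ℤ × ℤ) (j : ℤ) : Fc (w + (w + dir j)) (qf w j) (qf w (j + 1)) := by
  have h := qf_step w j
  exact faces_of (odd_dir w j) h.1 h.2

lemma qf_ad {B η : Finset (ℤ × ℤ)} {w : ℤ × ℤ} {j : ℤ} (h1 : w + (w + dir j) ∈ B)
    (h2 : w + (w + dir j) ∉ η) : Co (du B η) (qf w j) (qf w (j + 1)) := by
  have h := qf_step w j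
  refine Relation.ReflTransGen.single ⟨h.1, ?_⟩
  rw [h.2]
  exact H75.TwoArm.StrandAux.mem_du h1 h2

/-! ### The domain -/

section
variable (P : PType) (X Y : ℤ → ℤ)

/-- the points of the boundary walk -/
def bp (n : ℕ) (l : ℤ) : ℤ × ℤ := bw X Y (P.side n) l

/-- length of the `n`-th side -/
def ln (n : ℕ) : ℤ := len X Y (P.side n)

variable {P X Y}

lemma side_succ (n : ℕ) : P.side (n + 1) = nextSide P.Q (P.side n) := by
  unfold PType.side
  rw [Function.iterate_succ_apply']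

lemma isSide_side (n : ℕ) : IsSide P.Q (P.side n) := isSide_iter P.side0 n

lemma bp_end (n : ℕ) : bp P X Y n (ln P X Y n) = bp P X Y (n + 1) 0 := by
  unfold bp ln
  rw [side_succ, bw_next]

lemma bp_succ (n : ℕ) (l : ℤ) : bp P X Y n (l + 1) = bp P X Y n l + dir (P.side n).2 := by
  unfold bp
  exact bw_succ _ _ _ _

lemma ln_ge (hX : Gap X) (hY : Gap Y) (n : ℕ) : 2 ≤ ln P X Y n := len_ge hX hY _

lemma bp_V (hX : Gap X) (hY : Gap Y) (n : ℕ) {l : ℤ} (h0 : 0 ≤ l) (h1 : l ≤ ln P X Y n) :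
    inV P.Q X Y (bp P X Y n l) := bw_inV hX hY (isSide_side n) h0 h1

lemma bw_Eqv {s t : Cell × ℤ} (h : Eqv s t) (l : ℤ) : bw X Y s l = bw X Y t l := by
  obtain ⟨⟨i, j⟩, k⟩ := s
  obtain ⟨⟨i', j'⟩, k'⟩ := t
  have h1 := h.1
  have h2 := h.2
  simp only at h1 h2
  obtain ⟨rfl, rfl⟩ := Prod.mk.inj h1
  rcases bw_cases X Y ((i, j), k) l with ⟨a, -, -, -, -, e⟩ | ⟨a, -, -, -, -, e⟩ |
    ⟨a, -, -, -, -, e⟩ | ⟨a, -, -, -, -, e⟩ <;>
  rcases bw_cases X Y ((i, j), k') l with ⟨b, -, -, -, -, f⟩ | ⟨b, -, -, -, -, f⟩ |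
    ⟨b, -, -, -, -, f⟩ | ⟨b, -, -, -, -, f⟩ <;>
  first
  | (exfalso; simp only at a b; omega)
  | (rw [e, f])

lemma bp_period (l : ℤ) : bp P X Y P.N l = bp P X Y 0 l := by
  unfold bp
  refine bw_Eqv ⟨?_, ?_⟩ l
  · unfold PType.side; rw [P.period]; rfl
  · unfold PType.side; rw [P.period]; simp

/-- the boundary walk is injective -/
lemma bp_inj (hX : Gap X) (hY : Gap Y) {n n' : ℕ} (hn : n < P.N) (hn' : n' < P.N) {l l' : ℤ}
    (h0 : 0 ≤ l) (h1 : l < ln P X Y n) (h0' : 0 ≤ l') (h1' : l' < ln P X Y n')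
    (h : bp P X Y n l = bp P X Y n' l') : n = n' ∧ l = l' := by
  rcases h0.eq_or_lt with h2 | h2
  · rcases h0'.eq_or_lt with h3 | h3
    · subst h2 h3
      have h4 := bw_inj_zero hX hY P.good (isSide_side n) (isSide_side n') h
      exact ⟨P.inj n hn n' hn' h4.1 h4.2, rfl⟩
    · have h4 := bw_inj_open hX hY (isSide_side n') (isSide_side n) h3 h1' h0 h1.le h.symm
      exact ⟨(P.inj n' hn' n hn h4.1.1 h4.1.2).symm, h4.2.symm⟩
  · have h4 := bw_inj_open hX hY (isSide_side n) (isSide_side n') h2 h1 h0' h1'.le h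
    exact ⟨P.inj n hn n' hn' h4.1.1 h4.1.2, h4.2⟩

lemma sV_iff (hX : Gap X) (hY : Gap Y) {s : Cell × ℤ} {v : ℤ × ℤ} :
    sV X Y s v ↔ ∃ l, 0 ≤ l ∧ l ≤ len X Y s ∧ v = bw X Y s l := by
  unfold sV onCell inB
  have h2 := hX s.1.1
  have h3 := hY s.1.2
  constructor
  · rintro ⟨⟨⟨a1, a2⟩, a3, a4⟩, b0, b1, b2, b3⟩
    rcases bw_cases X Y s 0 with ⟨a, -, -, -, e, -⟩ | ⟨a, -, -, -, e, -⟩ |
      ⟨a, -, -, -, e, -⟩ | ⟨a, -, -, -, e, -⟩
    · refine ⟨v.1 - X s.1.1, by omega, by omega, ?_⟩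
      rcases bw_cases X Y s (v.1 - X s.1.1) with ⟨b, -, -, -, -, f⟩ | ⟨b, -, -, -, -, f⟩ |
        ⟨b, -, -, -, -, f⟩ | ⟨b, -, -, -, -, f⟩ <;> first | (exfalso; omega) | skip
      rw [f]; exact Prod.ext (by simp) (by simp [b0 a])
    · refine ⟨v.2 - Y s.1.2, by omega, by omega, ?_⟩
      rcases bw_cases X Y s (v.2 - Y s.1.2) with ⟨b, -, -, -, -, f⟩ | ⟨b, -, -, -, -, f⟩ |
        ⟨b, -, -, -, -, f⟩ | ⟨b, -, -, -, -, f⟩ <;> first | (exfalso; omega) | skip
      rw [f]; exact Prod.ext (by simp [b1 a]) (by simp)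
    · refine ⟨X (s.1.1 + 1) - v.1, by omega, by omega, ?_⟩
      rcases bw_cases X Y s (X (s.1.1 + 1) - v.1) with ⟨b, -, -, -, -, f⟩ | ⟨b, -, -, -, -, f⟩ |
        ⟨b, -, -, -, -, f⟩ | ⟨b, -, -, -, -, f⟩ <;> first | (exfalso; omega) | skip
      rw [f]; exact Prod.ext (by simp) (by simp [b2 a])
    · refine ⟨Y (s.1.2 + 1) - v.2, by omega, by omega, ?_⟩
      rcases bw_cases X Y s (Y (s.1.2 + 1) - v.2) with ⟨b, -, -, -, -, f⟩ | ⟨b, -, -, -, -, f⟩ |
        ⟨b, -, -, -, -, f⟩ | ⟨b, -, -, -, -, f⟩ <;> first | (exfalso; omega) | skip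
      rw [f]; exact Prod.ext (by simp [b3 a]) (by simp)
  · rintro ⟨l, h0, h1, rfl⟩
    rcases bw_cases X Y s l with ⟨b, -, -, -, e, f⟩ | ⟨b, -, -, -, e, f⟩ |
      ⟨b, -, -, -, e, f⟩ | ⟨b, -, -, -, e, f⟩ <;> rw [e] at h1 <;> rw [f] <;>
    refine ⟨?_, fun c => ?_, fun c => ?_, fun c => ?_, fun c => ?_⟩ <;>
    first
    | rfl
    | (exfalso; omega)
    | (simp only; omega)

lemma TV_iff (hX : Gap X) (hY : Gap Y) {v : ℤ × ℤ} : TV P X Y v ↔
    ∃ n l, P.m ≤ n ∧ n < P.N ∧ 0 ≤ l ∧ l ≤ ln P X Y n ∧ v = bp P X Y n l := by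
  unfold TV
  constructor
  · rintro ⟨n, h1, h2, h3⟩
    obtain ⟨l, h4, h5, h6⟩ := (sV_iff hX hY).1 h3
    exact ⟨n, l, h1, h2, h4, h5, h6⟩
  · rintro ⟨n, l, h1, h2, h4, h5, h6⟩
    exact ⟨n, h1, h2, (sV_iff hX hY).2 ⟨l, h4, h5, h6⟩⟩

lemma TV_inV (hX : Gap X) (hY : Gap Y) {v : ℤ × ℤ} (h : TV P X Y v) : inV P.Q X Y v := by
  obtain ⟨n, l, -, -, h4, h5, rfl⟩ := (TV_iff hX hY).1 h
  exact bp_V hX hY n h4 h5

/-- the points of the open free arc are not on the wired arc -/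
lemma free_not_TV (hX : Gap X) (hY : Gap Y) {n : ℕ} (hn : n < P.m) {l : ℤ} (h0 : 0 ≤ l)
    (h1 : l < ln P X Y n) (h2 : 0 < n ∨ 0 < l) : ¬ TV P X Y (bp P X Y n l) := by
  intro h
  obtain ⟨n', l', h3, h4, h5, h6, h7⟩ := (TV_iff hX hY).1 h
  have hmN := P.hmN
  rcases h6.eq_or_lt with h8 | h8
  · rw [h8, bp_end] at h7
    by_cases h9 : n' + 1 < P.N
    · have := (bp_inj hX hY (by omega) h9 h0 h1 le_rfl (by have := ln_ge (P := P) hX hY (n' + 1); omega)
        h7).1
      omega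
    · have h10 : n' + 1 = P.N := by omega
      rw [h10, bp_period] at h7
      have := bp_inj hX hY (by omega) (by omega) h0 h1 le_rfl
        (by have := ln_ge (P := P) hX hY 0; omega) h7
      omega
  · have := (bp_inj hX hY (by omega) h4 h0 h1 h5 h8 h7).1
    omega

/-! ### Labels of the region -/

lemma gs_ends {Q : Finset Cell} {e : ℤ × ℤ} (h : e ∈ gs X Y Q) :
    inV Q X Y (eu e) ∧ inV Q X Y (ev e) := by
  obtain ⟨c, hc, he⟩ := mem_gs.1 h
  unfold gcell at he
  rw [mem_Bx] at he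
  constructor
  · refine ⟨c, hc, ?_⟩
    unfold inRect eu
    simp only
    omega
  · refine ⟨c, hc, ?_⟩
    unfold inRect ev
    simp only
    omega

lemma WL_sub : WL P X Y ⊆ gs X Y P.Q := by
  intro e he
  unfold WL at he
  obtain ⟨n, -, he⟩ := mem_biUnion.1 he
  unfold Pool.Agent.Q1.M5.sL at he
  exact gcell_sub_gs (isSide_side n).1 (mem_filter.1 he).1

/-- labels from the free arc to the outside are closed -/
lemma root_closed (hX : Gap X) (hY : Gap Y) {M : ℤ} {w : ℤ × ℤ} {j : ℤ} (h1 : inV P.Q X Y w)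
    (h2 : ¬ TV P X Y w) (h3 : ¬ inV P.Q X Y (w + dir j)) :
    w + (w + dir j) ∉ gs X Y P.Q ∪ XW P X Y M := by
  classical
  intro h
  have hg : w + (w + dir j) ∉ gs X Y P.Q := by
    intro h4
    have h5 := gs_ends h4
    rcases ends_dir w j with ⟨h6, h7⟩ | ⟨h6, h7⟩
    · rw [← h7] at h5; exact h3 h5.2
    · rw [← h7] at h5; exact h3 h5.1
  rcases mem_union.1 h with h4 | h4
  · exact hg h4
  unfold XW at h4
  rcases mem_union.1 h4 with h5 | h5
  · exact hg (WL_sub h5)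
  · have h6 := (mem_filter.1 h5).2
    rcases ends_dir w j with ⟨h7, h8⟩ | ⟨h7, h8⟩
    · rw [← h7, ← h8] at h6
      rcases h6 with h6 | h6 | h6
      · exact h6.1 h1
      · exact h2 h6.1
      · exact h6.1 h1
    · rw [← h7, ← h8] at h6
      rcases h6 with h6 | h6 | h6
      · exact h6.2 h1
      · exact h3 (TV_inV hX hY h6.1)
      · exact h2 h6.2

/-- the region is contained in the box -/
def Boxed (P : PType) (X Y : ℤ → ℤ) (M : ℤ) : Prop :=
  ∀ v, inV P.Q X Y v → inB (-(M - 2)) (M - 2) (-(M - 2)) (M - 2) v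

lemma Boxed.mem {M : ℤ} (h : Boxed P X Y M) {w : ℤ × ℤ} (hw : inV P.Q X Y w) (j : ℤ) :
    w + (w + dir j) ∈ H75.TwoArm.BB M ∧ inB (-(M - 1)) (M - 1) (-(M - 1)) (M - 1) (w + dir j) := by
  have h1 := h w hw
  have h2 := odd_dir w j
  rw [H75.Four.HOrderAux.mem_BB']
  unfold inB at h1 ⊢
  rcases dir_cases j with ⟨-, e⟩ | ⟨-, e⟩ | ⟨-, e⟩ | ⟨-, e⟩ <;> rw [e] at h2 ⊢ <;>
  simp only [Prod.fst_add, Prod.snd_add] at h2 ⊢ <;> omega

/-- labels between outside vertices near the region belong to the wire -/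
lemma out_out {M : ℤ} {u : ℤ × ℤ} {j : ℤ} (h1 : ¬ inV P.Q X Y u)
    (h2 : ¬ inV P.Q X Y (u + dir j)) (hb : inB (-M) M (-M) M u)
    (hb' : inB (-M) M (-M) M (u + dir j)) : Co (XW P X Y M) u (u + dir j) := by
  classical
  refine Relation.ReflTransGen.single ⟨unit_dir u j, ?_⟩
  unfold XW
  refine mem_union_right _ (mem_filter.2 ⟨?_, Or.inl ?_⟩)
  · have h3 := odd_dir u j
    rw [H75.Four.HOrderAux.mem_BB']
    unfold inB at hb hb'
    simp only [Prod.fst_add, Prod.snd_add] at h3 hb' ⊢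
    omega
  · rcases ends_dir u j with ⟨h7, h8⟩ | ⟨h7, h8⟩
    · rw [← h7, ← h8]; exact ⟨h1, h2⟩
    · rw [← h7, ← h8]; exact ⟨h2, h1⟩

/-! ### (A), (B): connections to the outside are connections to the wired arc -/

lemma outer_ends {M : ℤ} {e : ℤ × ℤ} (h : e ∈ XW P X Y M) (h' : e ∉ WL P X Y) :
    ¬ inV P.Q X Y (eu e) ∨ ¬ inV P.Q X Y (ev e) := by
  classical
  unfold XW at h
  rcases mem_union.1 h with h1 | h1
  · exact absurd h1 h'
  · rcases (mem_filter.1 h1).2 with h2 | h2 | h2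
    · exact Or.inl h2.1
    · exact Or.inr h2.2
    · exact Or.inl h2.1

/-- the random labels are disjoint from the wire -/
lemma EL_disj {M : ℤ} : Disjoint (EL P X Y) (XW P X Y M) := by
  rw [disjoint_left]
  intro e h1 h2
  unfold EL at h1
  obtain ⟨h3, h4⟩ := mem_sdiff.1 h1
  have h5 := gs_ends h3
  rcases outer_ends h2 h4 with h6 | h6
  · exact h6 h5.1
  · exact h6 h5.2

lemma EL_sub : EL P X Y ⊆ gs X Y P.Q := sdiff_subset

lemma WL_sub_XW {M : ℤ} : WL P X Y ⊆ XW P X Y M := by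
  unfold XW
  exact subset_union_left

/-- exit lemma -/
lemma exit {M : ℤ} {ω : Finset (ℤ × ℤ)} (hω : ω ⊆ gs X Y P.Q) {v z : ℤ × ℤ}
    (hv : inV P.Q X Y v) (h : Co (ω ∪ XW P X Y M) v z) :
    (inV P.Q X Y z ∧ Co (ω ∪ WL P X Y) v z) ∨ CT P X Y v ω := by
  classical
  induction h with
  | refl => exact Or.inl ⟨hv, Co.refl _ _⟩
  | @tail a b _ hab ih =>
    rcases ih with ⟨ha, hva⟩ | ih
    · by_cases hg : a + b ∈ ω ∪ WL P X Y
      · refine Or.inl ⟨?_, Relation.ReflTransGen.tail hva ⟨hab.1, hg⟩⟩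
        have h1 : a + b ∈ gs X Y P.Q := by
          rcases mem_union.1 hg with h2 | h2
          · exact hω h2
          · exact WL_sub h2
        have h2 := gs_ends h1
        rcases ends_of (odd_of_unit hab.1) hab.1 rfl with ⟨-, h4⟩ | ⟨-, h4⟩
        · rw [h4]; exact h2.2
        · rw [h4]; exact h2.1
      · right
        rw [mem_union, not_or] at hg
        have h1 : a + b ∈ XW P X Y M := by
          rcases mem_union.1 hab.2 with h2 | h2
          · exact absurd h2 hg.1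
          · exact h2
        unfold XW at h1
        rcases mem_union.1 h1 with h2 | h2
        · exact absurd h2 hg.2
        have h3 := (mem_filter.1 h2).2
        have hT : TV P X Y a := by
          rcases ends_of (odd_of_unit hab.1) hab.1 rfl with ⟨h4, h5⟩ | ⟨h4, h5⟩
          · rw [← h4, ← h5] at h3
            rcases h3 with h6 | h6 | h6
            · exact absurd ha h6.1
            · exact h6.1
            · exact absurd ha h6.1
          · rw [← h4, ← h5] at h3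
            rcases h3 with h6 | h6 | h6
            · exact absurd ha h6.2
            · exact absurd ha h6.2
            · exact h6.2
        exact ⟨a, hT, hva⟩
    · exact Or.inr ih

variable (P X Y) in
/-- the outer neighbour of a boundary vertex -/
def ot (n : ℕ) (l : ℤ) : ℤ × ℤ := outer (P.side n).2 (bp P X Y n l)

lemma ot_succ (n : ℕ) (l : ℤ) : ot P X Y n (l + 1) = ot P X Y n l + dir (P.side n).2 := by
  unfold ot outer
  rw [bp_succ, add_right_comm]

lemma ot_out (hX : Gap X) (hY : Gap Y) (n : ℕ) {l : ℤ} (h0 : 0 < l) (h1 : l < ln P X Y n) :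
    ¬ inV P.Q X Y (ot P X Y n l) := out_side hX hY (isSide_side n) h0 h1

lemma inB_mono {M M' : ℤ} (h : M ≤ M') {v : ℤ × ℤ} (hv : inB (-M) M (-M) M v) :
    inB (-M') M' (-M') M' v := by
  unfold inB at *; omega

lemma inB_dir {M : ℤ} {v : ℤ × ℤ} (hv : inB (-(M - 1)) (M - 1) (-(M - 1)) (M - 1) v) (j : ℤ) :
    inB (-M) M (-M) M (v + dir j) := by
  unfold inB at *
  rcases dir_cases j with ⟨-, e⟩ | ⟨-, e⟩ | ⟨-, e⟩ | ⟨-, e⟩ <;> rw [e] <;>
  simp only [Prod.fst_add, Prod.snd_add] <;> omega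

/-- the outer vertices along a side are joined -/
lemma ot_side (hX : Gap X) (hY : Gap Y) {M : ℤ} (hM : Boxed P X Y M) (n : ℕ) {l : ℤ}
    (h0 : 0 < l) (h1 : l < ln P X Y n) : Co (XW P X Y M) (ot P X Y n 1) (ot P X Y n l) := by
  have key : ∀ j : ℕ, (j : ℤ) + 1 < ln P X Y n →
      Co (XW P X Y M) (ot P X Y n 1) (ot P X Y n ((j : ℤ) + 1)) := by
    intro j
    induction j with
    | zero => intro _; simpa using Co.refl _ _
    | succ j ih =>
      intro hj
      push_cast at hj ⊢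
      refine (ih (by omega)).trans ?_
      rw [ot_succ n ((j : ℤ) + 1)]
      have h2 := ot_out (P := P) hX hY n (l := (j : ℤ) + 1) (by omega) (by omega)
      have h3 := ot_out (P := P) hX hY n (l := (j : ℤ) + 1 + 1) (by omega) (by omega)
      have hb := fun l' h0 h1 => (hM.mem (bp_V hX hY n (l := l') h0 h1) ((P.side n).2 - 1)).2
      refine out_out h2 (by rwa [ot_succ] at h3) ?_ ?_
      · exact inB_mono (by omega) (hb _ (by omega) (by omega))
      · rw [← ot_succ]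
        exact inB_mono (by omega) (hb _ (by omega) (by omega))
  have h2 := key (l - 1).toNat (by rw [Int.toNat_of_nonneg (by omega)]; omega)
  rw [Int.toNat_of_nonneg (by omega), sub_add_cancel] at h2
  exact h2

lemma dir_add_two (k : ℤ) : dir (k + 2) = - dir k := by
  rcases dir_cases k with ⟨a, e⟩ | ⟨a, e⟩ | ⟨a, e⟩ | ⟨a, e⟩ <;>
  rcases dir_cases (k + 2) with ⟨b, f⟩ | ⟨b, f⟩ | ⟨b, f⟩ | ⟨b, f⟩ <;>
  first
  | (exfalso; omega)
  | (rw [e, f]; rfl)

/-- around a corner -/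
lemma ot_corner (hX : Gap X) (hY : Gap Y) {M : ℤ} (hM : Boxed P X Y M) (n : ℕ) :
    Co (XW P X Y M) (ot P X Y n (ln P X Y n - 1)) (ot P X Y (n + 1) 1) := by
  have hl := ln_ge (P := P) hX hY n
  have hl' := ln_ge (P := P) hX hY (n + 1)
  set k := (P.side n).2 with hk
  have hw : bp P X Y (n + 1) 0 = bp P X Y n (ln P X Y n) := (bp_end n).symm
  have e1 : ot P X Y (n + 1) 1 = bp P X Y n (ln P X Y n) + dir (P.side (n + 1)).2 +
      dir ((P.side (n + 1)).2 - 1) := by
    unfold ot outer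
    rw [← hw, ← bp_succ, zero_add]
  have e2 : ot P X Y n (ln P X Y n - 1) + dir k = bp P X Y n (ln P X Y n) + dir (k - 1) := by
    rw [← ot_succ, sub_add_cancel]
    rfl
  have ho := ot_out (P := P) hX hY n (l := ln P X Y n - 1) (by omega) (by omega)
  have ho' := ot_out (P := P) hX hY (n + 1) (l := 1) (by omega) (by omega)
  have hb0 := (hM.mem (bp_V hX hY n (l := ln P X Y n - 1) (by omega) (by omega))
    ((P.side n).2 - 1)).2
  have hb1 := hM.mem (bp_V hX hY n (l := ln P X Y n) (by omega) le_rfl)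
  have hb2 := (hM.mem (bp_V hX hY (n + 1) (l := 1) (by omega) (by omega))
    ((P.side (n + 1)).2 - 1)).2
  rcases next_cases P.Q (P.side n) with ⟨h1, h2⟩ | ⟨h1, h2⟩ | ⟨h1, h1', h2⟩ <;>
    rw [← side_succ] at h2
  · -- reflex corner: the same vertex
    rw [h2] at e1
    have : ot P X Y (n + 1) 1 = ot P X Y n (ln P X Y n - 1) := by
      rw [e1]
      have h3 : dir (k - 1 - 1) = - dir k := by
        have := dir_add_two (k - 1 - 1)
        rw [show k - 1 - 1 + 2 = k by ring] at this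
        rw [this, neg_neg]
      rw [h3, ← e2]
      abel
    rw [this]
    exact Co.refl _ _
  · -- flat
    have h3 := out_flat hX hY (isSide_side n) h1
    change ¬ inV P.Q X Y (bp P X Y n (ln P X Y n) + dir (k - 1)) at h3
    have s1 : Co (XW P X Y M) (ot P X Y n (ln P X Y n - 1))
        (ot P X Y n (ln P X Y n - 1) + dir k) := by
      refine out_out ho (by rwa [e2]) (inB_mono (by omega) hb0) ?_
      rw [e2]
      exact inB_mono (by omega) (hb1 _).2
    refine s1.trans ?_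
    rw [e2]
    have e3 : ot P X Y (n + 1) 1 = bp P X Y n (ln P X Y n) + dir (k - 1) + dir k := by
      rw [e1, h2, add_right_comm]
    rw [e3]
    refine out_out h3 (by rwa [← e3]) (inB_mono (by omega) (hb1 _).2) ?_
    rw [← e3]
    exact inB_mono (by omega) hb2
  · -- convex
    have h3 := out_flat hX hY (isSide_side n) h1
    have h4 := out_ahead hX hY (s := P.side n) h1 h1'
    have h5 := out_diag hX hY (s := P.side n) h1
    change ¬ inV P.Q X Y (bp P X Y n (ln P X Y n) + dir (k - 1)) at h3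
    change ¬ inV P.Q X Y (bp P X Y n (ln P X Y n) + dir k) at h4
    change ¬ inV P.Q X Y (bp P X Y n (ln P X Y n) + dir (k - 1) + dir k) at h5
    have s1 : Co (XW P X Y M) (ot P X Y n (ln P X Y n - 1))
        (ot P X Y n (ln P X Y n - 1) + dir k) := by
      refine out_out ho (by rwa [e2]) (inB_mono (by omega) hb0) ?_
      rw [e2]
      exact inB_mono (by omega) (hb1 _).2
    refine s1.trans ?_
    rw [e2]
    have s2 : Co (XW P X Y M) (bp P X Y n (ln P X Y n) + dir (k - 1))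
        (bp P X Y n (ln P X Y n) + dir (k - 1) + dir k) :=
      out_out h3 h5 (inB_mono (by omega) (hb1 _).2) (inB_dir (hb1 _).2 _)
    refine s2.trans ?_
    have s3 : Co (XW P X Y M) (bp P X Y n (ln P X Y n) + dir k)
        (bp P X Y n (ln P X Y n) + dir k + dir (k - 1)) := by
      refine out_out h4 ?_ (inB_mono (by omega) (hb1 _).2) (inB_dir (hb1 _).2 _)
      rw [add_right_comm]
      exact h5
    rw [add_right_comm]
    refine s3.symm.trans ?_
    have e3 : ot P X Y (n + 1) 1 = bp P X Y n (ln P X Y n) + dir k + dir (k + 1) := by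
      rw [e1, h2, add_sub_cancel_right, add_right_comm]
    rw [e3]
    refine out_out h4 (by rwa [← e3]) (inB_mono (by omega) (hb1 _).2) ?_
    rw [← e3]
    exact inB_mono (by omega) hb2

/-- all outer vertices are joined -/
lemma ot_all (hX : Gap X) (hY : Gap Y) {M : ℤ} (hM : Boxed P X Y M) (n : ℕ) {l : ℤ}
    (h0 : 0 < l) (h1 : l < ln P X Y n) : Co (XW P X Y M) (ot P X Y 0 1) (ot P X Y n l) := by
  have key : ∀ n : ℕ, Co (XW P X Y M) (ot P X Y 0 1) (ot P X Y n 1) := by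
    intro n
    induction n with
    | zero => exact Co.refl _ _
    | succ n ih =>
      have h2 := ln_ge (P := P) hX hY n
      exact (ih.trans (ot_side hX hY hM n (l := ln P X Y n - 1) (by omega) (by omega))).trans
        (ot_corner hX hY hM n)
  exact (key n).trans (ot_side hX hY hM n h0 h1)

/-- labels of the wired arc -/
lemma bp_WL {n : ℕ} (h0 : P.m ≤ n) (h1 : n < P.N) (hX : Gap X) (hY : Gap Y) {l : ℤ} (h2 : 0 ≤ l)
    (h3 : l < ln P X Y n) : bp P X Y n l + bp P X Y n (l + 1) ∈ WL P X Y := by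
  unfold WL
  refine mem_biUnion.2 ⟨n, by simp [h0, h1], ?_⟩
  have hodd : ((bp P X Y n l + bp P X Y n (l + 1)).1 +
      (bp P X Y n l + bp P X Y n (l + 1)).2) % 2 = 1 := by
    rw [bp_succ]
    exact odd_dir _ _
  unfold Pool.Agent.Q1.M5.sL gcell
  rw [mem_filter, mem_Bx]
  unfold bp ln at *
  have h4 := hX (P.side n).1.1
  have h5 := hY (P.side n).1.2
  rcases bw_cases X Y (P.side n) l with ⟨b, -, -, -, e, f⟩ | ⟨b, -, -, -, e, f⟩ |
    ⟨b, -, -, -, e, f⟩ | ⟨b, -, -, -, e, f⟩ <;>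
  rcases bw_cases X Y (P.side n) (l + 1) with ⟨c, -, -, -, -, g⟩ | ⟨c, -, -, -, -, g⟩ |
    ⟨c, -, -, -, -, g⟩ | ⟨c, -, -, -, -, g⟩ <;> first | (exfalso; omega) | skip
  all_goals
    rw [e] at h3
    rw [f, g] at hodd ⊢
    rw [Prod.mk_add_mk] at hodd ⊢
    simp only at hodd
    refine ⟨⟨⟨?_, ?_⟩, ⟨?_, ?_⟩, ?_⟩, fun d => ?_, fun d => ?_, fun d => ?_, fun d => ?_⟩ <;>
    first
    | (exfalso; omega)
    | omega

/-- along the wired arc -/
lemma wired_side (hX : Gap X) (hY : Gap Y) {n : ℕ} (h0 : P.m ≤ n) (h1 : n < P.N) {l : ℤ}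
    (h2 : 0 ≤ l) (h3 : l ≤ ln P X Y n) : Co (WL P X Y) (bp P X Y n l) (bp P X Y n 1) := by
  have step : ∀ l, 0 ≤ l → l < ln P X Y n → Co (WL P X Y) (bp P X Y n l) (bp P X Y n (l + 1)) := by
    intro l h2 h3
    refine Relation.ReflTransGen.single ⟨?_, bp_WL h0 h1 hX hY h2 h3⟩
    rw [bp_succ]
    exact unit_dir _ _
  have key : ∀ j : ℕ, (j : ℤ) ≤ ln P X Y n → Co (WL P X Y) (bp P X Y n 0) (bp P X Y n j) := by
    intro j
    induction j with
    | zero => intro _; exact Co.refl _ _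
    | succ j ih =>
      intro hj
      push_cast at hj ⊢
      exact (ih (by omega)).trans (step _ (by omega) (by omega))
  have h4 := key l.toNat (by rw [Int.toNat_of_nonneg h2]; exact h3)
  rw [Int.toNat_of_nonneg h2] at h4
  have h5 := key 1 (by have := ln_ge (P := P) hX hY n; push_cast; omega)
  rw [Nat.cast_one] at h5
  exact h4.symm.trans h5

/-- the wired arc is joined to the outer vertices -/
lemma T_out (hX : Gap X) (hY : Gap Y) {M : ℤ} (hM : Boxed P X Y M) {t : ℤ × ℤ}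
    (ht : TV P X Y t) : Co (XW P X Y M) t (ot P X Y 0 1) := by
  classical
  obtain ⟨n, l, h0, h1, h2, h3, rfl⟩ := (TV_iff hX hY).1 ht
  have h4 := (wired_side hX hY h0 h1 h2 h3).mono (WL_sub_XW (M := M))
  refine h4.trans ?_
  have hl := ln_ge (P := P) hX hY n
  have hT : TV P X Y (bp P X Y n 1) := (TV_iff hX hY).2 ⟨n, 1, h0, h1, by omega, by omega, rfl⟩
  have hV := bp_V (P := P) hX hY n (l := 1) (by omega) (by omega)
  have ho := ot_out (P := P) hX hY n (l := 1) (by omega) (by omega)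
  have h5 : Co (XW P X Y M) (bp P X Y n 1) (ot P X Y n 1) := by
    refine Relation.ReflTransGen.single ⟨unit_dir _ _, ?_⟩
    unfold XW
    refine mem_union_right _ (mem_filter.2 ⟨(hM.mem hV _).1, ?_⟩)
    unfold ot outer
    rcases ends_dir (bp P X Y n 1) ((P.side n).2 - 1) with ⟨h7, h8⟩ | ⟨h7, h8⟩
    · rw [← h7, ← h8]; exact Or.inr (Or.inl ⟨hT, ho⟩)
    · rw [← h7, ← h8]; exact Or.inr (Or.inr ⟨ho, hT⟩)
  exact h5.trans (ot_all hX hY hM n (by omega) (by omega)).symm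

/-- **Exterior wire, I.** For a vertex `v` of the region and every outer vertex `o` along the sides:
`v` is joined to `o` through the exterior wire iff `v` is joined to the wired arc. -/
theorem wire_iff (hX : Gap X) (hY : Gap Y) {M : ℤ} (hM : Boxed P X Y M) {ω : Finset (ℤ × ℤ)}
    (hω : ω ⊆ gs X Y P.Q) {v : ℤ × ℤ} (hv : inV P.Q X Y v) {n : ℕ} {l : ℤ} (h0 : 0 < l)
    (h1 : l < ln P X Y n) :
    Co (ω ∪ XW P X Y M) v (ot P X Y n l) ↔ CT P X Y v ω := by
  constructor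
  · intro h
    rcases exit hω hv h with ⟨h2, -⟩ | h2
    · exact absurd h2 (ot_out hX hY n h0 h1)
    · exact h2
  · rintro ⟨t, ht, hvt⟩
    refine (hvt.mono (union_subset_union subset_rfl WL_sub_XW)).trans ?_
    refine ((T_out hX hY hM ht).mono subset_union_right).trans ?_
    exact (ot_all hX hY hM n h0 h1).mono subset_union_right

/-- the same for an outer vertex next to any boundary vertex -/
theorem wire_iff' (hX : Gap X) (hY : Gap Y) {M : ℤ} (hM : Boxed P X Y M) {ω : Finset (ℤ × ℤ)}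
    (hω : ω ⊆ gs X Y P.Q) {v : ℤ × ℤ} (hv : inV P.Q X Y v) {n : ℕ} {l : ℤ} (h0 : 0 ≤ l)
    (h1 : l < ln P X Y n) (ho : ¬ inV P.Q X Y (ot P X Y n l)) :
    Co (ω ∪ XW P X Y M) v (ot P X Y n l) ↔ CT P X Y v ω := by
  have hl := ln_ge (P := P) hX hY n
  rcases h0.eq_or_lt with h2 | h2
  · subst h2
    have ho1 := ot_out (P := P) hX hY n (l := 1) (by omega) (by omega)
    have h3 : Co (XW P X Y M) (ot P X Y n 0) (ot P X Y n 1) := by
      have h4 := ot_succ (P := P) (X := X) (Y := Y) n 0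
      rw [zero_add] at h4
      rw [h4]
      refine out_out ho (by rwa [← h4]) ?_ ?_
      · exact inB_mono (by omega) (hM.mem (bp_V hX hY n (l := 0) le_rfl (by omega)) _).2
      · rw [← h4]
        exact inB_mono (by omega) (hM.mem (bp_V hX hY n (l := 1) (by omega) (by omega)) _).2
    rw [← wire_iff hX hY hM hω hv (n := n) (l := 1) (by omega) (by omega)]
    exact ⟨fun h => h.trans (h3.mono subset_union_right),
      fun h => h.trans (h3.symm.mono subset_union_right)⟩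
  · exact wire_iff hX hY hM hω hv h2 h1

/-! ### (C): the corridor -/

/-- the root label at a boundary vertex outside the wired arc -/
lemma root_inj {w x : ℤ × ℤ} {j j' : ℤ} (hw : inV P.Q X Y w)
    (hx' : ¬ inV P.Q X Y (x + dir j'))
    (h : w + (w + dir j) = x + (x + dir j')) : w = x := by
  rcases ends_dir w j with ⟨h7, h8⟩ | ⟨h7, h8⟩ <;>
  rcases ends_dir x j' with ⟨g7, g8⟩ | ⟨g7, g8⟩
  · rw [h7, g7, h]
  · rw [h] at h7
    rw [h7] at hw
    rw [g8] at hx'
    exact absurd hw hx'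
  · rw [h] at h7
    rw [h7] at hw
    rw [g8] at hx'
    exact absurd hw hx'
  · rw [h7, g7, h]

variable (P X Y) in
/-- outer face of the `l`-th edge of the `n`-th side -/
def rf (n : ℕ) (l : ℤ) : ℤ × ℤ := qf (bp P X Y n l) (P.side n).2

lemma rf_eq (n : ℕ) (l : ℤ) : qf (bp P X Y n (l + 1)) ((P.side n).2 - 1) = rf P X Y n l := by
  rw [bp_succ, qf_shift]
  rfl

variable (P X Y) in
/-- closed labels seen by the corridor of the root edge `x + (x + dir j)` -/
noncomputable def cor (M1 : ℤ) (e0 : ℤ × ℤ) : Finset (ℤ × ℤ) :=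
  gs X Y P.Q ∪ insert e0 (XW P X Y M1)

lemma cross (hX : Gap X) (hY : Gap Y) {M M1 : ℤ} (hM : Boxed P X Y M) {w x : ℤ × ℤ} {j j' : ℤ}
    (hw : inV P.Q X Y w) (hwT : ¬ TV P X Y w) (hw' : ¬ inV P.Q X Y (w + dir j))
    (hx' : ¬ inV P.Q X Y (x + dir j')) (hwx : w ≠ x) :
    Co (du (H75.TwoArm.BB M) (cor P X Y M1 (x + (x + dir j')))) (qf w j) (qf w (j + 1)) := by
  refine qf_ad (hM.mem hw j).1 ?_
  unfold cor
  have h1 := root_closed hX hY (M := M1) hw hwT hw'
  rw [mem_union, not_or] at h1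
  rw [mem_union, mem_insert, not_or, not_or]
  exact ⟨h1.1, fun h => hwx (root_inj hw hx' h), h1.2⟩

/-- one step of the corridor inside a side -/
lemma cor_in (hX : Gap X) (hY : Gap Y) {M M1 : ℤ} (hM : Boxed P X Y M) {x : ℤ × ℤ} {j' : ℤ}
    (hx' : ¬ inV P.Q X Y (x + dir j')) {n : ℕ} (hn : n < P.m) {l : ℤ}
    (h0 : 0 ≤ l) (h1 : l + 1 < ln P X Y n) (hne : bp P X Y n (l + 1) ≠ x) :
    Co (du (H75.TwoArm.BB M) (cor P X Y M1 (x + (x + dir j')))) (rf P X Y n l)
      (rf P X Y n (l + 1)) := by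
  have h2 := cross hX hY (M1 := M1) hM (j := (P.side n).2 - 1) (bp_V hX hY n (l := l + 1) (by omega)
    (by omega)) (free_not_TV hX hY hn (by omega) h1 (Or.inr (by omega)))
    (ot_out hX hY n (by omega) h1) hx' hne
  rw [rf_eq, sub_add_cancel] at h2
  exact h2

/-- one step of the corridor at a corner -/
lemma cor_corner (hX : Gap X) (hY : Gap Y) {M M1 : ℤ} (hM : Boxed P X Y M) {x : ℤ × ℤ} {j' : ℤ}
    (hx' : ¬ inV P.Q X Y (x + dir j')) {n : ℕ} (hn : n + 1 < P.m)
    (hne : bp P X Y (n + 1) 0 ≠ x) :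
    Co (du (H75.TwoArm.BB M) (cor P X Y M1 (x + (x + dir j')))) (rf P X Y n (ln P X Y n - 1))
      (rf P X Y (n + 1) 0) := by
  have hl := ln_ge (P := P) hX hY n
  have hl' := ln_ge (P := P) hX hY (n + 1)
  have hV := bp_V (P := P) hX hY (n + 1) (l := 0) le_rfl (by omega)
  have hT := free_not_TV hX hY (P := P) (l := 0) hn le_rfl (by omega) (Or.inl (by omega))
  have e1 : rf P X Y n (ln P X Y n - 1) = qf (bp P X Y (n + 1) 0) ((P.side n).2 - 1) := by
    rw [← rf_eq, sub_add_cancel, bp_end]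
  have e2 : rf P X Y (n + 1) 0 = qf (bp P X Y (n + 1) 0) (P.side (n + 1)).2 := rfl
  have hw : bw X Y (P.side n) (len X Y (P.side n)) = bp P X Y (n + 1) 0 := bp_end n
  rw [e1, e2]
  rcases next_cases P.Q (P.side n) with ⟨h1, h2⟩ | ⟨h1, h2⟩ | ⟨h1, h1', h2⟩ <;>
    rw [← side_succ] at h2
  · rw [h2]; exact Co.refl _ _
  · rw [h2]
    have h3 := out_flat hX hY (isSide_side n) h1
    rw [hw] at h3
    have h4 := cross hX hY (M1 := M1) hM hV hT h3 hx' hne
    rwa [sub_add_cancel] at h4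
  · rw [h2]
    have h3 := out_flat hX hY (isSide_side n) h1
    have h3' := out_ahead hX hY (s := P.side n) h1 h1'
    rw [hw] at h3 h3'
    have h4 := cross hX hY (M1 := M1) hM hV hT h3 hx' hne
    have h5 := cross hX hY (M1 := M1) hM hV hT h3' hx' hne
    rw [sub_add_cancel] at h4
    exact h4.trans h5

/-- **Exterior wire, II (corridor after the root).** All outer faces of the free arc after `x` are
joined to the face of the root edge after `x`, through labels outside `gs ∪ XW ∪ {root edge}`. -/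
theorem cor_after (hX : Gap X) (hY : Gap Y) {M M1 : ℤ} (hM : Boxed P X Y M) {n0 : ℕ} {l0 : ℤ}
    (hn0 : n0 < P.m) (h0 : 0 ≤ l0) (h1 : l0 < ln P X Y n0)
    (hx' : ¬ inV P.Q X Y (ot P X Y n0 l0)) {n : ℕ} (hn : n < P.m) {l : ℤ} (g0 : 0 ≤ l)
    (g1 : l < ln P X Y n) (hord : n0 < n ∨ (n0 = n ∧ l0 ≤ l)) :
    Co (du (H75.TwoArm.BB M) (cor P X Y M1 (root (P.side n0).2 (bp P X Y n0 l0))))
      (rf P X Y n l) (qf (bp P X Y n0 l0) (P.side n0).2) := by
  have hmN := P.hmN
  -- along a side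
  have hside : ∀ n < P.m, ∀ a : ℤ, 0 ≤ a → ∀ j : ℕ, a + j < ln P X Y n →
      (∀ b : ℤ, a < b → b < ln P X Y n → bp P X Y n b ≠ bp P X Y n0 l0) →
      Co (du (H75.TwoArm.BB M) (cor P X Y M1 (root (P.side n0).2 (bp P X Y n0 l0))))
        (rf P X Y n a) (rf P X Y n (a + j)) := by
    intro n hn a ha j
    induction j with
    | zero => intro _ _; simpa using Co.refl _ _
    | succ j ih =>
      intro hj hb
      push_cast at hj
      refine (ih (by omega) hb).trans ?_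
      have h2 := cor_in hX hY (M1 := M1) hM hx' hn (l := a + j) (by omega) (by omega)
        (hb _ (by omega) (by omega))
      push_cast
      rw [← add_assoc]
      exact h2
  have hne : ∀ n < P.m, ∀ b : ℤ, 0 ≤ b → b < ln P X Y n → (n0 < n ∨ (n0 = n ∧ l0 < b)) →
      bp P X Y n b ≠ bp P X Y n0 l0 := by
    intro n hn b hb0 hb hlt h
    have := bp_inj hX hY (by omega) (by omega) hb0 hb h0 h1 h
    omega
  -- first edge of each later side
  have hfirst : ∀ j : ℕ, n0 + j < P.m → ∀ b : ℤ, 0 ≤ b → b < ln P X Y (n0 + j) →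
      (j = 0 → l0 ≤ b) →
      Co (du (H75.TwoArm.BB M) (cor P X Y M1 (root (P.side n0).2 (bp P X Y n0 l0))))
        (rf P X Y n0 l0) (rf P X Y (n0 + j) b) := by
    intro j
    induction j with
    | zero =>
      intro hj b hb0 hb hlb
      have h2 := hside n0 hn0 l0 h0 (b - l0).toNat
        (by rw [Int.toNat_of_nonneg (by have := hlb rfl; omega)]; simpa using hb)
        (fun b' hb' hb'' => hne n0 hn0 b' (by omega) hb'' (Or.inr ⟨rfl, hb'⟩))
      rw [Int.toNat_of_nonneg (by have := hlb rfl; omega), add_sub_cancel] at h2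
      exact h2
    | succ j ih =>
      intro hj b hb0 hb _
      have hl := ln_ge (P := P) hX hY (n0 + j)
      have hl' := ln_ge (P := P) hX hY (n0 + j + 1)
      have h2 := ih (by omega) (ln P X Y (n0 + j) - 1) (by omega) (by omega)
        (by rintro rfl; rw [add_zero]; omega)
      have h3 := cor_corner hX hY (M1 := M1) hM hx' (n := n0 + j) (by omega)
        (hne _ (by omega) 0 le_rfl (by omega) (Or.inl (by omega)))
      have h4 := hside (n0 + j + 1) (by omega) 0 le_rfl b.toNat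
        (by rw [Int.toNat_of_nonneg hb0, zero_add]; exact hb)
        (fun b' hb' hb'' => hne _ (by omega) b' hb'.le hb'' (Or.inl (by omega)))
      rw [Int.toNat_of_nonneg hb0, zero_add] at h4
      exact (h2.trans h3).trans h4
  obtain ⟨j, rfl⟩ : ∃ j, n = n0 + j := ⟨n - n0, by omega⟩
  exact (hfirst j hn l g0 g1 (by rintro rfl; omega)).symm

/-- **Exterior wire, II (corridor before the root).** -/
theorem cor_before (hX : Gap X) (hY : Gap Y) {M M1 : ℤ} (hM : Boxed P X Y M) {n0 : ℕ} {l0 : ℤ}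
    (hn0 : n0 < P.m) (h0 : 0 ≤ l0) (h1 : l0 < ln P X Y n0) (h2 : 0 < l0)
    (hx' : ¬ inV P.Q X Y (ot P X Y n0 l0)) {n : ℕ} {l : ℤ} (g0 : 0 ≤ l)
    (g1 : l < ln P X Y n) (hord : n < n0 ∨ (n = n0 ∧ l < l0)) :
    Co (du (H75.TwoArm.BB M) (cor P X Y M1 (root (P.side n0).2 (bp P X Y n0 l0))))
      (rf P X Y n l) (qf (bp P X Y n0 l0) ((P.side n0).2 - 1)) := by
  have hmN := P.hmN
  -- along a side
  have hside : ∀ n < P.m, ∀ a : ℤ, 0 ≤ a → ∀ j : ℕ, a + j < ln P X Y n →
      (∀ b : ℤ, a < b → b ≤ a + j → bp P X Y n b ≠ bp P X Y n0 l0) →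
      Co (du (H75.TwoArm.BB M) (cor P X Y M1 (root (P.side n0).2 (bp P X Y n0 l0))))
        (rf P X Y n a) (rf P X Y n (a + j)) := by
    intro n hn a ha j
    induction j with
    | zero => intro _ _; simpa using Co.refl _ _
    | succ j ih =>
      intro hj hb
      push_cast at hj hb
      refine (ih (by omega) (fun b h1 h2 => hb b h1 (by omega))).trans ?_
      have h2 := cor_in hX hY (M1 := M1) hM hx' hn (l := a + j) (by omega) (by omega)
        (hb _ (by omega) (by omega))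
      push_cast
      rw [← add_assoc]
      exact h2
  have hne : ∀ n, ∀ b : ℤ, 0 ≤ b → b < ln P X Y n → (n < n0 ∨ (n = n0 ∧ b < l0)) →
      bp P X Y n b ≠ bp P X Y n0 l0 := by
    intro n b hb0 hb hlt h
    have := bp_inj hX hY (by omega) (by omega) hb0 hb h0 h1 h
    omega
  have hlast : qf (bp P X Y n0 l0) ((P.side n0).2 - 1) = rf P X Y n0 (l0 - 1) := by
    rw [← rf_eq, sub_add_cancel]
  rw [hlast]
  have hfirst : ∀ j : ℕ, j ≤ n0 → ∀ b : ℤ, 0 ≤ b → b < ln P X Y (n0 - j) →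
      (j = 0 → b ≤ l0 - 1) →
      Co (du (H75.TwoArm.BB M) (cor P X Y M1 (root (P.side n0).2 (bp P X Y n0 l0))))
        (rf P X Y (n0 - j) b) (rf P X Y n0 (l0 - 1)) := by
    intro j
    induction j with
    | zero =>
      intro hj b hb0 hb hlb
      have h5 := hlb rfl
      have h2 := hside n0 hn0 b hb0 (l0 - 1 - b).toNat
        (by rw [Int.toNat_of_nonneg (by omega)]; omega)
        (fun b' hb' hb'' => hne n0 b' (by omega)
          (by rw [Int.toNat_of_nonneg (by omega)] at hb''; omega)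
          (Or.inr ⟨rfl, by rw [Int.toNat_of_nonneg (by omega)] at hb''; omega⟩))
      rw [Int.toNat_of_nonneg (by omega), add_sub_cancel] at h2
      exact h2
    | succ j ih =>
      intro hj b hb0 hb _
      obtain ⟨i, hi⟩ : ∃ i, n0 - j = i + 1 := ⟨n0 - j - 1, by omega⟩
      have hi' : n0 - (j + 1) = i := by omega
      rw [hi'] at hb ⊢
      rw [hi] at ih
      have hl := ln_ge (P := P) hX hY i
      have hl' := ln_ge (P := P) hX hY (i + 1)
      have h2 := ih (by omega) 0 le_rfl (by omega) (fun _ => by omega)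
      have h3 := cor_corner hX hY (M1 := M1) hM hx' (n := i) (by omega)
        (hne _ 0 le_rfl (by omega) (by
          rcases Nat.lt_or_ge (i + 1) n0 with h | h
          · exact Or.inl h
          · exact Or.inr ⟨by omega, by omega⟩))
      have h4 := hside i (by omega) b hb0 (ln P X Y i - 1 - b).toNat
        (by rw [Int.toNat_of_nonneg (by omega)]; omega)
        (fun b' hb' hb'' => hne _ b' (by omega)
          (by rw [Int.toNat_of_nonneg (by omega)] at hb''; omega) (Or.inl (by omega)))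
      rw [Int.toNat_of_nonneg (by omega), add_sub_cancel] at h4
      exact (h4.trans h3).trans h2
  have h5 := hfirst (n0 - n) (by omega) l g0 (by rwa [show n0 - (n0 - n) = n by omega])
    (fun h => by omega)
  rwa [show n0 - (n0 - n) = n by omega] at h5

/-! ### Ready for use with `H65.Dom.Extremal` -/

lemma root_Fc (k : ℤ) (x : ℤ × ℤ) : Fc (root k x) (qf x (k - 1)) (qf x k) := by
  have h := Fc_dir x (k - 1)
  rw [sub_add_cancel] at h
  exact h

/-- every face of a vertex is the face of a corner at this vertex -/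
lemma corner_qf (w : ℤ × ℤ) (j : ℤ) : ∃ c, vx c = w ∧ fi c = qf w j := by
  have hf := Fc_dir w j
  have ho := odd_dir w j
  have hv : w = eu (w + (w + dir j)) ∨ w = ev (w + (w + dir j)) := by
    rcases ends_dir w j with ⟨h, -⟩ | ⟨h, -⟩
    · exact Or.inl h
    · exact Or.inr h
  refine exists_corner ho hv ?_
  rcases hf with ⟨h, -⟩ | ⟨h, -⟩
  · exact Or.inl h
  · exact Or.inr h

lemma XW_box {M : ℤ} (hM : Boxed P X Y M) : XW P X Y M ⊆ H75.TwoArm.BB M := by
  classical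
  intro e he
  unfold XW at he
  rcases mem_union.1 he with h | h
  · have h1 := WL_sub h
    have h2 := gs_ends h1
    obtain ⟨c, -, h3⟩ := mem_gs.1 h1
    unfold gcell at h3
    rw [mem_Bx] at h3
    have h4 := hM _ h2.1
    have h5 := hM _ h2.2
    rw [H75.Four.HOrderAux.mem_BB']
    unfold inB eu at h4
    unfold inB ev at h5
    simp only at h4 h5
    omega
  · exact (mem_filter.1 h).1

lemma gs_box {M : ℤ} (hM : Boxed P X Y M) : gs X Y P.Q ⊆ H75.TwoArm.BB M := by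
  intro e h1
  have h2 := gs_ends h1
  obtain ⟨c, -, h3⟩ := mem_gs.1 h1
  unfold gcell at h3
  rw [mem_Bx] at h3
  have h4 := hM _ h2.1
  have h5 := hM _ h2.2
  rw [H75.Four.HOrderAux.mem_BB']
  unfold inB eu at h4
  unfold inB ev at h5
  simp only at h4 h5
  omega

lemma EL_box {M : ℤ} (hM : Boxed P X Y M) : EL P X Y ⊆ H75.TwoArm.BB M :=
  EL_sub.trans (gs_box hM)

lemma Boxed.mono {M M' : ℤ} (h : Boxed P X Y M) (hM : M ≤ M') : Boxed P X Y M' := by
  intro v hv
  have := h v hv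
  unfold inB at *; omega

/-- the root label is closed -/
lemma root_not_mem (hX : Gap X) (hY : Gap Y) {M : ℤ} {n0 : ℕ} {l0 : ℤ} (hn0 : n0 < P.m)
    (h0 : 0 ≤ l0) (h1 : l0 < ln P X Y n0) (h2 : 0 < n0 ∨ 0 < l0)
    (hx' : ¬ inV P.Q X Y (ot P X Y n0 l0)) :
    root (P.side n0).2 (bp P X Y n0 l0) ∉ gs X Y P.Q ∪ XW P X Y M :=
  root_closed hX hY (bp_V hX hY n0 h0 h1.le) (free_not_TV hX hY hn0 h0 h1 h2) hx'

/-- **Exterior wire, III.** The root edge at a free boundary vertex `x`: its ends are joined off the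
root edge iff `x` is joined to the wired arc. -/
theorem root_conn (hX : Gap X) (hY : Gap Y) {M : ℤ} (hM : Boxed P X Y M) {ω : Finset (ℤ × ℤ)}
    (hω : ω ⊆ gs X Y P.Q) {n0 : ℕ} {l0 : ℤ} (hn0 : n0 < P.m)
    (h0 : 0 ≤ l0) (h1 : l0 < ln P X Y n0) (h2 : 0 < n0 ∨ 0 < l0)
    (hx' : ¬ inV P.Q X Y (ot P X Y n0 l0)) {e0 : ℤ × ℤ}
    (he : e0 = root (P.side n0).2 (bp P X Y n0 l0)) :
    Co ((ω ∪ insert e0 (XW P X Y M)).erase e0) (eu e0) (ev e0) ↔
      CT P X Y (bp P X Y n0 l0) ω := by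
  have h3 := root_not_mem hX hY (M := M) hn0 h0 h1 h2 hx'
  rw [← he, mem_union, not_or] at h3
  have h4 : (ω ∪ insert e0 (XW P X Y M)).erase e0 = ω ∪ XW P X Y M := by
    ext e
    rw [mem_erase, mem_union, mem_insert, mem_union]
    constructor
    · rintro ⟨h5, h6 | h6 | h6⟩
      · exact Or.inl h6
      · exact absurd h6 h5
      · exact Or.inr h6
    · rintro (h6 | h6)
      · exact ⟨fun h => h3.1 (by rw [← h]; exact hω h6), Or.inl h6⟩
      · exact ⟨fun h => h3.2 (by rw [← h]; exact h6), Or.inr (Or.inr h6)⟩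
  rw [h4, ← wire_iff' hX hY hM hω (bp_V hX hY n0 h0 h1.le) h0 h1 hx']
  have h5 : ot P X Y n0 l0 = bp P X Y n0 l0 + dir ((P.side n0).2 - 1) := rfl
  have h6 : e0 = bp P X Y n0 l0 + (bp P X Y n0 l0 + dir ((P.side n0).2 - 1)) := he
  rw [h5]
  rcases ends_dir (bp P X Y n0 l0) ((P.side n0).2 - 1) with ⟨h7, h8⟩ | ⟨h7, h8⟩
  · rw [← h6] at h7 h8
    rw [h8, ← h7]
  · rw [← h6] at h7 h8
    rw [h8, ← h7]
    exact ⟨fun h => h.symm, fun h => h.symm⟩

/-- **Exterior wire, IV.** Duality at the root edge: `x` is joined to the wired arc iff the two faces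
of the root edge are not joined by a dual path. (`XW` and the labels live in the box `M - 1`.) -/
theorem root_dual (hX : Gap X) (hY : Gap Y) {M : ℤ} (hM : Boxed P X Y (M - 1))
    {ω : Finset (ℤ × ℤ)} (hω : ω ⊆ gs X Y P.Q) {n0 : ℕ} {l0 : ℤ} (hn0 : n0 < P.m)
    (h0 : 0 ≤ l0) (h1 : l0 < ln P X Y n0) (h2 : 0 < n0 ∨ 0 < l0)
    (hx' : ¬ inV P.Q X Y (ot P X Y n0 l0)) {e0 fL fR : ℤ × ℤ}
    (he : e0 = root (P.side n0).2 (bp P X Y n0 l0)) (hf : Fc e0 fL fR) :
    CT P X Y (bp P X Y n0 l0) ω ↔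
      ¬ Ph M (ω ∪ insert e0 (XW P X Y (M - 1))) (fun g => g = fL) fR := by
  have h6 : e0 = bp P X Y n0 l0 + (bp P X Y n0 l0 + dir ((P.side n0).2 - 1)) := he
  have hodd : (e0.1 + e0.2) % 2 = 1 := by rw [h6]; exact odd_dir _ _
  have hbox : e0 ∈ H75.TwoArm.BB (M - 1) := by
    rw [h6]; exact (hM.mem (bp_V hX hY n0 h0 h1.le) _).1
  rw [← root_conn hX hY hM hω hn0 h0 h1 h2 hx' he]
  refine conn_iff hodd hbox ?_ (mem_union_right _ (mem_insert_self _ _)) hf
  refine union_subset (hω.trans (gs_box hM)) (insert_subset hbox (XW_box hM))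

end

end Pool.Agent.H4.Q1
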