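import Mathlib
import Pool.Agent.H4.Q1.Wire
import Pool.Agent.H4.Q1.SmallSide

set_option autoImplicit false
open Finset

/-! Geometry of the sides of a grid polygon for step C3 of module M5: distances between the sides, the
strip along a free side in standard position, and the small ball estimate C3b for a side. -/

namespace Pool.Agent.H4.Q1

open Pool.Agent.H75.Perc hiding WL
open Pool.Agent.H75.TwoArm Pool.Agent.H75.Four Pool.Agent.H65.Dom
open Pool.Agent.H49.Q1 Pool.Agent.Q1.M4 Pool.Agent.Q1.M5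

/-! ### Distances -/

/-- the gaps are at least `D` -/
def GapD (X : ℤ → ℤ) (D : ℤ) : Prop := ∀ i, X i + D ≤ X (i + 1)

lemma GapD.gap {X : ℤ → ℤ} {D : ℤ} (h : GapD X D) (hD : 2 ≤ D) : Gap X := fun i => by
  have := h i; omega

lemma GapD.lt {X : ℤ → ℤ} {D : ℤ} (h : GapD X D) (hD : 2 ≤ D) {i j : ℤ} (hij : i < j) :
    X i + D ≤ X j := by
  have h1 := h i
  have h2 := (h.gap hD).le_iff.2 (show i + 1 ≤ j by omega)
  omega

/-- a segment of the grid containing a side -/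
lemma seg (X Y : ℤ → ℤ) (s : Cell × ℤ) :
    (∃ i j, (∀ d l : ℤ, d ≤ l → l + d ≤ len X Y s →
        X i + d ≤ (bw X Y s l).1 ∧ (bw X Y s l).1 + d ≤ X (i + 1) ∧ (bw X Y s l).2 = Y j) ∧
      ∀ v : ℤ × ℤ, X i ≤ v.1 → v.1 ≤ X (i + 1) → v.2 = Y j →
        ∃ l, 0 ≤ l ∧ l ≤ len X Y s ∧ v = bw X Y s l) ∨
    (∃ i j, (∀ d l : ℤ, d ≤ l → l + d ≤ len X Y s →
        Y j + d ≤ (bw X Y s l).2 ∧ (bw X Y s l).2 + d ≤ Y (j + 1) ∧ (bw X Y s l).1 = X i) ∧
      ∀ v : ℤ × ℤ, Y j ≤ v.2 → v.2 ≤ Y (j + 1) → v.1 = X i →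
        ∃ l, 0 ≤ l ∧ l ≤ len X Y s ∧ v = bw X Y s l) := by
  rcases bw_cases X Y s 0 with ⟨a, -, -, -, e, -⟩ | ⟨a, -, -, -, e, -⟩ | ⟨a, -, -, -, e, -⟩ |
    ⟨a, -, -, -, e, -⟩
  · left
    refine ⟨s.1.1, s.1.2, fun d l h1 h2 => ?_, fun v h1 h2 h3 => ⟨v.1 - X s.1.1, by omega,
      by omega, ?_⟩⟩
    · rcases bw_cases X Y s l with ⟨b, -, -, -, -, f⟩ | ⟨b, -, -, -, -, f⟩ |
        ⟨b, -, -, -, -, f⟩ | ⟨b, -, -, -, -, f⟩ <;> first | (exfalso; omega) | skip
      rw [f]; refine ⟨?_, ?_, ?_⟩ <;> first | rfl | (simp only; omega)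
    · rcases bw_cases X Y s (v.1 - X s.1.1) with ⟨b, -, -, -, -, f⟩ | ⟨b, -, -, -, -, f⟩ |
        ⟨b, -, -, -, -, f⟩ | ⟨b, -, -, -, -, f⟩ <;> first | (exfalso; omega) | skip
      rw [f]; exact Prod.ext (by simp) (by simp [h3])
  · right
    refine ⟨s.1.1 + 1, s.1.2, fun d l h1 h2 => ?_, fun v h1 h2 h3 => ⟨v.2 - Y s.1.2, by omega,
      by omega, ?_⟩⟩
    · rcases bw_cases X Y s l with ⟨b, -, -, -, -, f⟩ | ⟨b, -, -, -, -, f⟩ |
        ⟨b, -, -, -, -, f⟩ | ⟨b, -, -, -, -, f⟩ <;> first | (exfalso; omega) | skip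
      rw [f]; refine ⟨?_, ?_, ?_⟩ <;> first | rfl | (simp only; omega)
    · rcases bw_cases X Y s (v.2 - Y s.1.2) with ⟨b, -, -, -, -, f⟩ | ⟨b, -, -, -, -, f⟩ |
        ⟨b, -, -, -, -, f⟩ | ⟨b, -, -, -, -, f⟩ <;> first | (exfalso; omega) | skip
      rw [f]; exact Prod.ext (by simp [h3]) (by simp)
  · left
    refine ⟨s.1.1, s.1.2 + 1, fun d l h1 h2 => ?_, fun v h1 h2 h3 => ⟨X (s.1.1 + 1) - v.1, by omega,
      by omega, ?_⟩⟩
    · rcases bw_cases X Y s l with ⟨b, -, -, -, -, f⟩ | ⟨b, -, -, -, -, f⟩ |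
        ⟨b, -, -, -, -, f⟩ | ⟨b, -, -, -, -, f⟩ <;> first | (exfalso; omega) | skip
      rw [f]; refine ⟨?_, ?_, ?_⟩ <;> first | rfl | (simp only; omega)
    · rcases bw_cases X Y s (X (s.1.1 + 1) - v.1) with ⟨b, -, -, -, -, f⟩ | ⟨b, -, -, -, -, f⟩ |
        ⟨b, -, -, -, -, f⟩ | ⟨b, -, -, -, -, f⟩ <;> first | (exfalso; omega) | skip
      rw [f]; exact Prod.ext (by simp) (by simp [h3])
  · right
    refine ⟨s.1.1, s.1.2, fun d l h1 h2 => ?_, fun v h1 h2 h3 => ⟨Y (s.1.2 + 1) - v.2, by omega,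
      by omega, ?_⟩⟩
    · rcases bw_cases X Y s l with ⟨b, -, -, -, -, f⟩ | ⟨b, -, -, -, -, f⟩ |
        ⟨b, -, -, -, -, f⟩ | ⟨b, -, -, -, -, f⟩ <;> first | (exfalso; omega) | skip
      rw [f]; refine ⟨?_, ?_, ?_⟩ <;> first | rfl | (simp only; omega)
    · rcases bw_cases X Y s (Y (s.1.2 + 1) - v.2) with ⟨b, -, -, -, -, f⟩ | ⟨b, -, -, -, -, f⟩ |
        ⟨b, -, -, -, -, f⟩ | ⟨b, -, -, -, -, f⟩ <;> first | (exfalso; omega) | skip
      rw [f]; exact Prod.ext (by simp [h3]) (by simp)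

lemma le_abs' {a b D : ℤ} (h : a + D ≤ b ∨ b + D ≤ a) : D ≤ |a - b| := by
  rcases abs_cases (a - b) with h1 | h1 <;> omega

lemma GapD.in_far {X : ℤ → ℤ} {D : ℤ} (h : GapD X D) (hD : 2 ≤ D) {i t : ℤ} (h1 : X i + D ≤ t)
    (h2 : t + D ≤ X (i + 1)) (i' : ℤ) : D ≤ |t - X i'| := by
  apply le_abs'
  rcases le_or_gt i' i with h3 | h3
  · have := (h.gap hD).le_iff.2 h3
    omega
  · have := (h.gap hD).le_iff.2 (show i + 1 ≤ i' by omega)
    omega

lemma GapD.on_far {X : ℤ → ℤ} {D : ℤ} (h : GapD X D) (hD : 2 ≤ D) {i i' : ℤ} (hne : i ≠ i') :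
    D ≤ |X i - X i'| := by
  apply le_abs'
  rcases lt_or_gt_of_ne hne with h3 | h3
  · exact Or.inl (h.lt hD h3)
  · exact Or.inr (h.lt hD h3)

section
variable {P : PType} {X Y : ℤ → ℤ}

/-- points of a side at distance at least `D` from its ends are far from the other sides -/
theorem side_far {D : ℤ} (hX : GapD X D) (hY : GapD Y D) (hD : 2 ≤ D) {n n' : ℕ} (hn : n < P.N)
    (hn' : n' < P.N) {l l' : ℤ} (h0 : D ≤ l) (h1 : l + D ≤ ln P X Y n) (h0' : 0 ≤ l')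
    (h1' : l' ≤ ln P X Y n') : n = n' ∨ far (bp P X Y n l) (bp P X Y n' l') D := by
  by_contra hcon
  rw [not_or] at hcon
  obtain ⟨hne, hfar⟩ := hcon
  have hno : ∀ l'', 0 ≤ l'' → l'' ≤ len X Y (P.side n') → bw X Y (P.side n) l ≠
      bw X Y (P.side n') l'' := by
    intro l'' g0 g1 h
    have h4 := bw_inj_open (hX.gap hD) (hY.gap hD) (isSide_side n) (isSide_side n')
      (show 0 < l by omega) (by unfold ln at h1; omega) g0 g1 h
    exact hne (P.inj n hn n' hn' h4.1.1 h4.1.2)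
  unfold far at hfar
  rw [not_or] at hfar
  unfold bp at hfar
  unfold ln at h1 h1'
  rcases seg X Y (P.side n) with ⟨i, j, hs, -⟩ | ⟨i, j, hs, -⟩ <;>
  rcases seg X Y (P.side n') with ⟨i', j', hs', hs2⟩ | ⟨i', j', hs', hs2⟩
  · obtain ⟨a1, a2, a3⟩ := hs D l h0 h1
    obtain ⟨b1, b2, b3⟩ := hs' 0 l' h0' (by omega)
    by_cases hj : j = j'
    · subst hj
      by_cases hi : i = i'
      · subst hi
        obtain ⟨l'', g0, g1, g2⟩ := hs2 (bw X Y (P.side n) l) (by omega) (by omega) a3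
        exact hno l'' g0 g1 g2
      · apply hfar.1
        apply le_abs'
        rcases lt_or_gt_of_ne hi with h3 | h3
        · have := (hX.gap hD).le_iff.2 (show i + 1 ≤ i' by omega)
          omega
        · have := (hX.gap hD).le_iff.2 (show i' + 1 ≤ i by omega)
          omega
    · apply hfar.2
      rw [a3, b3]
      exact hY.on_far hD hj
  · obtain ⟨a1, a2, a3⟩ := hs D l h0 h1
    obtain ⟨b1, b2, b3⟩ := hs' 0 l' h0' (by omega)
    apply hfar.1
    rw [b3]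
    exact hX.in_far hD a1 a2 i'
  · obtain ⟨a1, a2, a3⟩ := hs D l h0 h1
    obtain ⟨b1, b2, b3⟩ := hs' 0 l' h0' (by omega)
    apply hfar.2
    rw [b3]
    exact hY.in_far hD a1 a2 j'
  · obtain ⟨a1, a2, a3⟩ := hs D l h0 h1
    obtain ⟨b1, b2, b3⟩ := hs' 0 l' h0' (by omega)
    by_cases hi : i = i'
    · subst hi
      by_cases hj : j = j'
      · subst hj
        obtain ⟨l'', g0, g1, g2⟩ := hs2 (bw X Y (P.side n) l) (by omega) (by omega) a3
        exact hno l'' g0 g1 g2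
      · apply hfar.2
        apply le_abs'
        rcases lt_or_gt_of_ne hj with h3 | h3
        · have := (hY.gap hD).le_iff.2 (show j + 1 ≤ j' by omega)
          omega
        · have := (hY.gap hD).le_iff.2 (show j' + 1 ≤ j by omega)
          omega
    · apply hfar.1
      rw [a3, b3]
      exact hX.on_far hD hi

/-- the wired arc is far from the inner points of the free sides -/
theorem T_far {D : ℤ} (hX : GapD X D) (hY : GapD Y D) (hD : 2 ≤ D) {n : ℕ} (hn : n < P.m)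
    {l : ℤ} (h0 : D ≤ l) (h1 : l + D ≤ ln P X Y n) {v : ℤ × ℤ} (hv : TV P X Y v) :
    far (bp P X Y n l) v D := by
  have hmN := P.hmN
  obtain ⟨n', l', h3, h4, h5, h6, rfl⟩ := (TV_iff (hX.gap hD) (hY.gap hD)).1 hv
  rcases side_far hX hY hD (by omega) h4 h0 h1 h5 h6 with h7 | h7
  · omega
  · exact h7

/-- the wired arc is far from the vertices of the open free arc -/
theorem T_far' {D : ℤ} (hX : GapD X D) (hY : GapD Y D) (hD : 2 ≤ D) {n : ℕ} (h0 : 0 < n)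
    (hn : n < P.m) {v : ℤ × ℤ} (hv : TV P X Y v) : far (bp P X Y n 0) v D := by
  have hl := ln_ge (P := P) (hX.gap hD) (hY.gap hD) n
  have hT := free_not_TV (hX.gap hD) (hY.gap hD) hn (l := 0) le_rfl (by omega) (Or.inl h0)
  obtain ⟨n', l', h3, h4, h5, h6, rfl⟩ := (TV_iff (hX.gap hD) (hY.gap hD)).1 hv
  have hno : ∀ l'', 0 ≤ l'' → l'' ≤ len X Y (P.side n') → bp P X Y n 0 ≠
      bw X Y (P.side n') l'' := by
    intro l'' g0 g1 h
    exact hT ((TV_iff (hX.gap hD) (hY.gap hD)).2 ⟨n', l'', h3, h4, g0, g1, h⟩)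
  obtain ⟨a, b, hab⟩ : ∃ a b, bp P X Y n 0 = (X a, Y b) := by
    refine ⟨(tail (P.side n)).1, (tail (P.side n)).2, ?_⟩
    unfold bp bw
    rw [zero_smul, add_zero]
    rfl
  by_contra hfar
  unfold far at hfar
  rw [not_or, hab] at hfar
  rw [hab] at hno
  simp only at hfar
  unfold bp at hfar
  unfold ln at h6
  rcases seg X Y (P.side n') with ⟨i', j', hs', hs2⟩ | ⟨i', j', hs', hs2⟩
  · obtain ⟨b1, b2, b3⟩ := hs' 0 l' h5 (by omega)
    by_cases hj : b = j'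
    · subst hj
      rcases lt_trichotomy a i' with h7 | h7 | h7
      · have := hX.lt hD h7
        exact hfar.1 (le_abs' (by omega))
      · subst h7
        obtain ⟨l'', g0, g1, g2⟩ := hs2 (X a, Y b) (by simp) (by simp only; omega) rfl
        exact hno l'' g0 g1 g2
      · rcases (show i' + 1 ≤ a by omega).eq_or_lt with h8 | h8
        · subst h8
          obtain ⟨l'', g0, g1, g2⟩ := hs2 (X (i' + 1), Y b) (by simp only; omega) (by simp) rfl
          exact hno l'' g0 g1 g2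
        · have := hX.lt hD h8
          exact hfar.1 (le_abs' (by omega))
    · apply hfar.2
      rw [b3]
      exact hY.on_far hD hj
  · obtain ⟨b1, b2, b3⟩ := hs' 0 l' h5 (by omega)
    by_cases hi : a = i'
    · subst hi
      rcases lt_trichotomy b j' with h7 | h7 | h7
      · have := hY.lt hD h7
        exact hfar.2 (le_abs' (by omega))
      · subst h7
        obtain ⟨l'', g0, g1, g2⟩ := hs2 (X a, Y b) (by simp) (by simp only; omega) rfl
        exact hno l'' g0 g1 g2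
      · rcases (show j' + 1 ≤ b by omega).eq_or_lt with h8 | h8
        · subst h8
          obtain ⟨l'', g0, g1, g2⟩ := hs2 (X a, Y (j' + 1)) (by simp only; omega) (by simp) rfl
          exact hno l'' g0 g1 g2
        · have := hY.lt hD h8
          exact hfar.2 (le_abs' (by omega))
    · apply hfar.1
      rw [b3]
      exact hX.on_far hD hi

/-- the ends of wired labels belong to the wired arc -/
lemma WL_ends {e : ℤ × ℤ} (he : e ∈ WL P X Y) : TV P X Y (eu e) ∧ TV P X Y (ev e) := by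
  unfold WL at he
  obtain ⟨n, hn, he⟩ := mem_biUnion.1 he
  rw [mem_Ico] at hn
  unfold Pool.Agent.Q1.M5.sL gcell at he
  obtain ⟨h1, h2⟩ := mem_filter.1 he
  rw [mem_Bx] at h1
  constructor
  · refine ⟨n, hn.1, hn.2, ?_⟩
    unfold sV onCell inB eu
    simp only
    omega
  · refine ⟨n, hn.1, hn.2, ?_⟩
    unfold sV onCell inB ev
    simp only
    omega

end

/-! ### Standard position -/

/-- the rotation which carries the standard position (domain `x ≤ 0`, walk upwards) to a side with the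
direction `k` starting at `x` -/
def Rk (k : ℤ) (x : ℤ × ℤ) : Sy :=
  if k % 4 = 0 then comp (syT x) (comp (syY 0) syD)
  else if k % 4 = 1 then syT x
  else if k % 4 = 2 then comp (syT x) (comp (syX 0) syD)
  else comp (syT x) (comp (syX 0) (syY 0))

lemma Rk_cases (k : ℤ) (x : ℤ × ℤ) :
    (k % 4 = 0 ∧ (∀ u v, (Rk k x).g (u, v) = (x.1 + v, x.2 - u)) ∧
      ∀ u v, (Rk k x).G (u, v) = (2 * x.1 + v, 2 * x.2 - u)) ∨
    (k % 4 = 1 ∧ (∀ u v, (Rk k x).g (u, v) = (x.1 + u, x.2 + v)) ∧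
      ∀ u v, (Rk k x).G (u, v) = (2 * x.1 + u, 2 * x.2 + v)) ∨
    (k % 4 = 2 ∧ (∀ u v, (Rk k x).g (u, v) = (x.1 - v, x.2 + u)) ∧
      ∀ u v, (Rk k x).G (u, v) = (2 * x.1 - v, 2 * x.2 + u)) ∨
    (k % 4 = 3 ∧ (∀ u v, (Rk k x).g (u, v) = (x.1 - u, x.2 - v)) ∧
      ∀ u v, (Rk k x).G (u, v) = (2 * x.1 - u, 2 * x.2 - v)) := by
  have h : k % 4 = 0 ∨ k % 4 = 1 ∨ k % 4 = 2 ∨ k % 4 = 3 := by omega
  unfold Rk
  rcases h with h | h | h | h
  · left
    refine ⟨h, fun u v => ?_, fun u v => ?_⟩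
    · simp only [h, if_true]
      refine Prod.ext ?_ ?_ <;> simp [comp, syT, syY, syD] <;> ring
    · simp only [h, if_true]
      refine Prod.ext ?_ ?_ <;> simp [comp, syT, syY, syD] <;> ring
  · right; left
    refine ⟨h, fun u v => ?_, fun u v => ?_⟩
    · simp only [h]
      refine Prod.ext ?_ ?_ <;> simp [syT] <;> ring
    · simp only [h]
      refine Prod.ext ?_ ?_ <;> simp [syT] <;> ring
  · right; right; left
    refine ⟨h, fun u v => ?_, fun u v => ?_⟩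
    · simp only [h]
      refine Prod.ext ?_ ?_ <;> simp [comp, syT, syX, syD] <;> ring
    · simp only [h]
      refine Prod.ext ?_ ?_ <;> simp [comp, syT, syX, syD] <;> ring
  · right; right; right
    refine ⟨h, fun u v => ?_, fun u v => ?_⟩
    · simp only [h]
      refine Prod.ext ?_ ?_ <;> simp [comp, syT, syY, syX] <;> ring
    · simp only [h]
      refine Prod.ext ?_ ?_ <;> simp [comp, syT, syY, syX] <;> ring

/-- every finite set of odd labels is contained in a box -/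
lemma exists_BB (E : Finset (ℤ × ℤ)) (hE : ∀ e ∈ E, (e.1 + e.2) % 2 = 1) :
    ∃ M : ℤ, E ⊆ H75.TwoArm.BB M := by
  refine ⟨∑ e ∈ E, (|e.1| + |e.2|), fun e he => ?_⟩
  have h1 : |e.1| + |e.2| ≤ ∑ e ∈ E, (|e.1| + |e.2|) :=
    single_le_sum (f := fun e : ℤ × ℤ => |e.1| + |e.2|) (fun e _ => by positivity) he
  have h2 := hE e he
  rw [H75.Four.HOrderAux.mem_BB']
  have h3 := abs_le.1 (le_refl |e.1|)
  have h4 := abs_le.1 (le_refl |e.2|)
  have h5 := abs_nonneg e.1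
  have h6 := abs_nonneg e.2
  omega

lemma BB_mono {M M' : ℤ} (h : M ≤ M') : H75.TwoArm.BB M ⊆ H75.TwoArm.BB M' := by
  intro e he
  rw [H75.Four.HOrderAux.mem_BB'] at he ⊢
  omega

lemma Sy_odd (S : Sy) {e : ℤ × ℤ} (h : (e.1 + e.2) % 2 = 1) : ((S.G e).1 + (S.G e).2) % 2 = 1 := by
  have h1 := (H75.Four.PivAux.eu_ev h).2
  have h2 := (H75.Four.PivAux.eu_ev h).1
  rw [← h1, ← S.add]
  exact odd_of_unit ((S.unit _ _).1 h2)

section
variable {P : PType} {X Y : ℤ → ℤ}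

variable (P X Y) in
/-- the rotation which carries the standard position to the side `n` -/
def Sn (n : ℕ) : Sy := Rk (P.side n).2 (bp P X Y n 0)

lemma Sn_pt (n : ℕ) (u l : ℤ) : (Sn P X Y n).g (u, l) = bp P X Y n l + u • dir ((P.side n).2 - 1) := by
  unfold Sn bp
  rcases bw_cases X Y (P.side n) 0 with ⟨a, -, -, -, e, f⟩ | ⟨a, -, -, -, e, f⟩ |
    ⟨a, -, -, -, e, f⟩ | ⟨a, -, -, -, e, f⟩ <;>
  rcases bw_cases X Y (P.side n) l with ⟨c, -, d, -, -, g⟩ | ⟨c, -, d, -, -, g⟩ |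
    ⟨c, -, d, -, -, g⟩ | ⟨c, -, d, -, -, g⟩ <;> first | (exfalso; omega) | skip
  all_goals
    rcases Rk_cases (P.side n).2 (bw X Y (P.side n) 0) with ⟨b, h1, -⟩ | ⟨b, h1, -⟩ |
      ⟨b, h1, -⟩ | ⟨b, h1, -⟩ <;> first | (exfalso; omega) | skip
    rw [h1, f, g, d]
    refine Prod.ext ?_ ?_ <;>
    simp only [Prod.fst_add, Prod.snd_add, Prod.smul_mk, smul_eq_mul] <;> ring

lemma Sn_zero (n : ℕ) (l : ℤ) : (Sn P X Y n).g (0, l) = bp P X Y n l := by
  rw [Sn_pt, zero_smul, add_zero]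

lemma Sn_one (n : ℕ) (l : ℤ) : (Sn P X Y n).g (1, l) = ot P X Y n l := by
  rw [Sn_pt, one_smul]; rfl

lemma Sn_leg (n : ℕ) (l : ℤ) :
    (Sn P X Y n).G (leg l) = root (P.side n).2 (bp P X Y n l) := by
  have h := (Sn P X Y n).add (0, l) (1, l)
  rw [Sn_zero, Sn_one] at h
  have e : leg l = (0, l) + (1, l) := by
    unfold leg; refine Prod.ext ?_ ?_ <;> simp; ring
  rw [e, ← h]
  rfl

/-- the strip along a free side in standard position -/
theorem strip_side (hX : Gap X) (hY : Gap Y) {M1 : ℤ} (hM : Boxed P X Y M1) {n : ℕ}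
    (hn : n < P.m) : ∃ M, Strip M ((EL P X Y).map (inv (Sn P X Y n)).G)
      ((XW P X Y M1).map (inv (Sn P X Y n)).G) 1 (ln P X Y n - 1) := by
  classical
  set S := Sn P X Y n with hS
  set F := (EL P X Y).map (inv S).G ∪ (XW P X Y M1).map (inv S).G ∪
    (Finset.Icc 1 (ln P X Y n - 1)).image leg with hF
  have hodd : ∀ e ∈ F, (e.1 + e.2) % 2 = 1 := by
    intro e he
    rw [hF, mem_union, mem_union] at he
    rcases he with (he | he) | he
    · obtain ⟨e', he', rfl⟩ := Finset.mem_map.1 he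
      exact Sy_odd _ (H75.Four.HOrderAux.mem_BB'.1 (EL_box hM he')).2.2
    · obtain ⟨e', he', rfl⟩ := Finset.mem_map.1 he
      exact Sy_odd _ (H75.Four.HOrderAux.mem_BB'.1 (XW_box hM he')).2.2
    · obtain ⟨y, -, rfl⟩ := Finset.mem_image.1 he
      exact leg_odd y
  obtain ⟨M, hMF⟩ := exists_BB F hodd
  refine ⟨M + 1, ?_, ?_, ?_, ?_, ?_⟩
  · rw [add_sub_cancel_right]
    exact (subset_union_left.trans subset_union_left).trans hMF
  · rw [add_sub_cancel_right]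
    exact (subset_union_right.trans subset_union_left).trans hMF
  · intro y h1 h2
    rw [mem_map_inv, mem_map_inv, hS, Sn_leg]
    have h3 := root_not_mem hX hY (M := M1) hn (l0 := y) (by omega) (by omega) (Or.inr (by omega))
      (ot_out hX hY n (by omega) (by omega))
    rw [mem_union, not_or] at h3
    exact ⟨fun h => h3.1 (EL_sub h), h3.2⟩
  · intro y h1 h2
    rw [add_sub_cancel_right]
    apply hMF
    rw [hF]
    exact mem_union_right _ (Finset.mem_image.2 ⟨y, Finset.mem_Icc.2 ⟨h1, h2⟩, rfl⟩)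
  · intro y y' h1 h2 h3 h4
    rw [← S.co_iff, map_inv_map, hS, Sn_one, Sn_one]
    exact (ot_side hX hY hM n (by omega) (by omega)).symm.trans
      (ot_side hX hY hM n (by omega) (by omega))

lemma map_CT {n : ℕ} {y : ℤ} {ω : Finset (ℤ × ℤ)} :
    CJ ((WL P X Y).map (inv (Sn P X Y n)).G) (fun v => TV P X Y ((Sn P X Y n).g v)) (0, y) ω ↔
      CT P X Y (bp P X Y n y) (ω.map (Sn P X Y n).G) := by
  rw [← CJ_map, Sn_zero]
  rfl

lemma map_At (hX : Gap X) (hY : Gap Y) {M1 : ℤ} (hM : Boxed P X Y M1) {n : ℕ}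
    {ω : Finset (ℤ × ℤ)} (hω : ω ⊆ (EL P X Y).map (inv (Sn P X Y n)).G) {y : ℤ} (h1 : 0 < y)
    (h2 : y < ln P X Y n) :
    CJ ((WL P X Y).map (inv (Sn P X Y n)).G) (fun v => TV P X Y ((Sn P X Y n).g v)) (0, y) ω ↔
      At ((XW P X Y M1).map (inv (Sn P X Y n)).G) y ω := by
  rw [map_CT]
  have h3 : ω.map (Sn P X Y n).G ⊆ gs X Y P.Q := by
    intro e he
    rw [(Sn P X Y n).mem_map] at he
    have h4 := hω he
    rw [mem_map_inv, (Sn P X Y n).GG'] at h4
    exact EL_sub h4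
  rw [← wire_iff hX hY hM h3 (bp_V hX hY n h1.le h2.le) h1 h2]
  unfold At
  rw [← (Sn P X Y n).co_iff (ω ∪ _), map_union, map_inv_map, Sn_zero, Sn_one]

/-- every region is contained in a box -/
lemma exists_Boxed (P : PType) (X Y : ℤ → ℤ) : ∃ M, Boxed P X Y M := by
  refine ⟨2 + ∑ c ∈ P.Q, (|X c.1| + |X (c.1 + 1)| + |Y c.2| + |Y (c.2 + 1)|), ?_⟩
  rintro v ⟨c, hc, hv⟩
  have h1 : |X c.1| + |X (c.1 + 1)| + |Y c.2| + |Y (c.2 + 1)| ≤
      ∑ c ∈ P.Q, (|X c.1| + |X (c.1 + 1)| + |Y c.2| + |Y (c.2 + 1)|) :=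
    single_le_sum (f := fun c : ℤ × ℤ => |X c.1| + |X (c.1 + 1)| + |Y c.2| + |Y (c.2 + 1)|)
      (fun e _ => by positivity) hc
  unfold inRect at hv
  have h3 := abs_le.1 (le_refl |X c.1|)
  have h4 := abs_le.1 (le_refl |X (c.1 + 1)|)
  have h5 := abs_le.1 (le_refl |Y c.2|)
  have h6 := abs_le.1 (le_refl |Y (c.2 + 1)|)
  have g3 := abs_nonneg (X c.1)
  have g4 := abs_nonneg (X (c.1 + 1))
  have g5 := abs_nonneg (Y c.2)
  have g6 := abs_nonneg (Y (c.2 + 1))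
  unfold inB
  omega

/-- the wired arc in standard position -/
lemma T_std {D : ℤ} (hX : GapD X D) (hY : GapD Y D) (hD : 2 ≤ D) {n : ℕ} (hn : n < P.m)
    {l : ℤ} (h0 : D ≤ l) (h1 : l + D ≤ ln P X Y n) {u : ℤ × ℤ}
    (hv : TV P X Y ((Sn P X Y n).g u)) : D ≤ |u.1| ∨ D ≤ |u.2 - l| := by
  have h2 := T_far hX hY hD hn h0 h1 hv
  obtain ⟨u1, u2⟩ := u
  rw [Sn_pt] at h2
  unfold far bp at h2
  rcases bw_cases X Y (P.side n) l with ⟨a, -, b, -, -, f⟩ | ⟨a, -, b, -, -, f⟩ |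
    ⟨a, -, b, -, -, f⟩ | ⟨a, -, b, -, -, f⟩ <;>
  rcases bw_cases X Y (P.side n) u2 with ⟨c, -, d, -, -, g⟩ | ⟨c, -, d, -, -, g⟩ |
    ⟨c, -, d, -, -, g⟩ | ⟨c, -, d, -, -, g⟩ <;> first | (exfalso; omega) | skip
  all_goals
    rw [f, g, d] at h2
    simp only [Prod.fst_add, Prod.snd_add, Prod.smul_mk, smul_eq_mul, mul_zero, mul_one,
      mul_neg, add_zero] at h2 ⊢
    by_contra h3
    rw [not_or, not_le, not_le, abs_lt, abs_lt] at h3
    rw [← not_lt, ← not_lt, abs_lt, abs_lt] at h2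
    omega

/-- the ends of a transformed label -/
lemma Sy_ends (S : Sy) {A : ℤ × ℤ → Prop} {e : ℤ × ℤ} (h : (e.1 + e.2) % 2 = 1)
    (h1 : A (eu (S.G e)) ∧ A (ev (S.G e))) : A (S.g (eu e)) ∧ A (S.g (ev e)) := by
  have h2 := (H75.Four.PivAux.eu_ev h).2
  have h3 := (H75.Four.PivAux.eu_ev h).1
  have h4 := S.add (eu e) (ev e)
  rw [h2] at h4
  rcases ends_of (Sy_odd S h) ((S.unit _ _).1 h3) h4 with ⟨h5, h6⟩ | ⟨h5, h6⟩
  · rw [h5, h6]; exact h1
  · rw [h5, h6]; exact h1.symm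

/-- **C3b for a free side.** The number of the points of a part of the side which are connected to the
wired arc is not small if it is positive. -/
theorem small_side : ∃ c q δ : ℝ, 0 < c ∧ 0 < q ∧ q ≤ 1 ∧ 0 < δ ∧ δ < 1 ∧
    ∀ {P : PType} {X Y : ℤ → ℤ} {D : ℤ} (_ : GapD X D) (_ : GapD Y D) (_ : 2 ≤ D) {n : ℕ}
    (_ : n < P.m) {a b : ℤ} (_ : 2 * D ≤ a) (_ : b + D ≤ ln P X Y n)
    (n' K k : ℕ) (ρ : ℤ) (_ : 1 ≤ n') (_ : 32 * (4 ^ K * (n' : ℤ)) ≤ ρ) (_ : 4 ^ k * ρ ≤ D - 1),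
    Pr (EL P X Y) (fun ω => 0 < cnt (Finset.Icc a b) (fun y => CT P X Y (bp P X Y n y)) ω ∧
      (cnt (Finset.Icc a b) (fun y => CT P X Y (bp P X Y n y)) ω : ℝ) <
        c * (n' : ℝ) ^ (2 / 3 : ℝ)) ≤ (1 - q) ^ K + (1 - δ) ^ k := by
  obtain ⟨c, q, δ, hc, hq, hq1, hδ, hδ1, hs⟩ := small_std'
  refine ⟨c, q, δ, hc, hq, hq1, hδ, hδ1, ?_⟩
  intro P X Y D hXD hYD hD n hn a b ha hb n' K k ρ hn' hρ hk
  have hX := hXD.gap hD
  have hY := hYD.gap hD
  rcases lt_or_ge b a with hab | hab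
  · -- empty interval
    have h0 : ∀ ω : Finset (ℤ × ℤ), ¬ 0 < cnt (Finset.Icc a b) (fun y => CT P X Y (bp P X Y n y)) ω := by
      intro ω
      unfold cnt
      rw [Finset.Icc_eq_empty (by omega)]
      simp
    have h1 : Pr (EL P X Y) (fun ω => 0 < cnt (Finset.Icc a b) (fun y => CT P X Y (bp P X Y n y)) ω ∧
      (cnt (Finset.Icc a b) (fun y => CT P X Y (bp P X Y n y)) ω : ℝ) <
        c * (n' : ℝ) ^ (2 / 3 : ℝ)) = 0 := by
      rw [Pr_eq]
      simp [h0]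
    rw [h1]
    have : 0 ≤ 1 - q := by linarith
    have : 0 ≤ 1 - δ := by linarith
    positivity
  obtain ⟨M1, hM1⟩ := exists_Boxed P X Y
  obtain ⟨M, hStrip⟩ := strip_side hX hY hM1 hn
  have h1 := hs hStrip (W := (WL P X Y).map (inv (Sn P X Y n)).G)
    (J := fun v => TV P X Y ((Sn P X Y n).g v)) (a := a) (b := b) (D := D - 1) (by omega) (by omega)
    ?_ (fun ω hω y h1 h2 => map_At hX hY hM1 hω (by omega) (by omega)) ?_ ?_ n' K k ρ hn' hρ hk
  · rw [Pr_pull (Sn P X Y n)]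
    refine le_trans (le_of_eq (Pr_congr fun ω hω => ?_)) h1
    rw [cnt_congr (A' := CJ ((WL P X Y).map (inv (Sn P X Y n)).G)
      (fun v => TV P X Y ((Sn P X Y n).g v)) ∘ fun y => (0, y)) (ω' := ω) fun y hy => map_CT.symm]
    rfl
  · intro e he
    rw [mem_map_inv]
    unfold EL
    rw [mem_sdiff]
    rw [mem_Bx] at he
    constructor
    · refine mem_gs.2 ⟨(P.side n).1, (isSide_side n).1, ?_⟩
      unfold gcell
      rw [mem_Bx]
      obtain ⟨e1, e2⟩ := e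
      have hx1 := hXD (P.side n).1.1
      have hy1 := hYD (P.side n).1.2
      unfold ln at hb
      simp only at he
      unfold Sn bp
      rcases bw_cases X Y (P.side n) 0 with ⟨c, -, -, -, e', f⟩ | ⟨c, -, -, -, e', f⟩ |
        ⟨c, -, -, -, e', f⟩ | ⟨c, -, -, -, e', f⟩ <;>
      rcases Rk_cases (P.side n).2 (bw X Y (P.side n) 0) with ⟨d, -, g⟩ | ⟨d, -, g⟩ |
        ⟨d, -, g⟩ | ⟨d, -, g⟩ <;> first | (exfalso; omega) | skip
      all_goals
        rw [e'] at hb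
        rw [g, f]
        simp only
        omega
    · intro hW
      have h2 := (Sy_ends _ (A := TV P X Y) he.2.2 (WL_ends hW)).1
      have h3 : (eu e).1 = e.1 / 2 ∧ (eu e).2 = e.2 / 2 := by unfold eu; exact ⟨rfl, rfl⟩
      have h4 := T_std hXD hYD hD hn (l := (eu e).2) (by omega) (by omega) h2
      rw [sub_self, abs_zero] at h4
      rcases h4 with h4 | h4
      · rcases abs_cases (eu e).1 with h5 | h5 <;> omega
      · omega
  · intro e he he'
    rw [mem_map_inv] at he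
    rw [mem_Bx] at he'
    have h2 := (Sy_ends _ (A := TV P X Y) he'.2.2 (WL_ends he)).1
    have h3 : (eu e).1 = e.1 / 2 ∧ (eu e).2 = e.2 / 2 := by unfold eu; exact ⟨rfl, rfl⟩
    have h4 := T_std hXD hYD hD hn (l := b) (by omega) hb h2
    rcases abs_cases (eu e).1 with h5 | h5 <;> rcases abs_cases ((eu e).2 - b) with h6 | h6 <;>
      omega
  · intro v hv hv'
    have h4 := T_std hXD hYD hD hn (l := b) (by omega) hb hv
    unfold inB at hv'
    rcases abs_cases v.1 with h5 | h5 <;> rcases abs_cases (v.2 - b) with h6 | h6 <;>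
      omega

end

end Pool.Agent.H4.Q1
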