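import Pool.Agent.H11.M7.Ori3

set_option autoImplicit false
open Set Filter Topology Metric Complex
open Pool.Agent.H81.Q1
open Pool.Agent.H42.MJ

/-! # The largest component of the part of `δℤ²` in a Jordan domain

For every bounded Jordan domain `D`, distinct boundary points `a`, `b` and all small `δ` the component of
the part of `δℤ²` in `D` with the most vertices is a discrete domain with marked outer corners close to
`a` and `b`. -/

namespace Pool.Agent.H4.Q1

variable {D : Set ℂ} {δ : ℝ}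

/-- A lattice point of `D` close to a boundary point is joined to a turn close to it. -/
theorem turn_near (hD : JTop D) {m : ℂ} (hm : m ∈ frontier D) {ε : ℝ} (hδ : 0 < δ)
    (hδε : δ < ε / 32) {v0 : ℤ × ℤ} (hv0m : ‖pt δ v0 - m‖ < ε / 4) :
    ∃ v q, (GD D δ).Reachable v0 v ∧ ¬op D δ v q ∧ ‖pt δ v - m‖ < ε := by
  have hmD : m ∉ D := by
    rw [hD.isOpen.frontier_eq] at hm; exact hm.2
  by_contra hcon
  push Not at hcon
  -- all lattice points in the box around `m` are reachable
  have hall : ∀ (n : ℕ) (v : ℤ × ℤ), (v.1 - v0.1).natAbs + (v.2 - v0.2).natAbs = n →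
      |(pt δ v).re - m.re| ≤ ε / 4 → |(pt δ v).im - m.im| ≤ ε / 4 →
      (GD D δ).Reachable v0 v := by
    have hb0 : |(pt δ v0).re - m.re| ≤ ε / 4 ∧ |(pt δ v0).im - m.im| ≤ ε / 4 := by
      rw [← Complex.sub_re, ← Complex.sub_im]
      exact ⟨(Complex.abs_re_le_norm _).trans hv0m.le, (Complex.abs_im_le_norm _).trans hv0m.le⟩
    simp only [pt] at hb0
    rw [abs_le, abs_le] at hb0
    intro n
    induction n with
    | zero =>
      intro v hv _ _
      have : v = v0 := Prod.ext (by omega) (by omega)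
      rw [this]
    | succ n ih =>
      intro v hv h1 h2
      simp only [pt] at h1 h2
      rw [abs_le] at h1 h2
      have step : ∀ q : ZMod 4, ((v + dir q).1 - v0.1).natAbs + ((v + dir q).2 - v0.2).natAbs = n →
          |(pt δ (v + dir q)).re - m.re| ≤ ε / 4 → |(pt δ (v + dir q)).im - m.im| ≤ ε / 4 →
          (GD D δ).Reachable v0 v := by
        intro q h3 h4 h5
        have h6 := ih _ h3 h4 h5
        have h7 : op D δ (v + dir q) (q + 2) := by
          by_contra hno
          refine absurd (hcon _ _ h6 hno) (not_le.2 ?_)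
          refine (Complex.norm_le_abs_re_add_abs_im _).trans_lt ?_
          rw [Complex.sub_re, Complex.sub_im]
          linarith
        exact h6.trans (adj_dir.2 (op_rev.1 h7)).symm.reachable
      by_cases c1 : v.1 = v0.1
      · rcases lt_or_gt_of_ne (show v.2 ≠ v0.2 by omega) with c2 | c2
        · have k1 : (v.2 : ℝ) + 1 ≤ v0.2 := by exact_mod_cast c2
          have k2 : δ * ((v.2 : ℝ) + 1) ≤ δ * v0.2 := mul_le_mul_of_nonneg_left k1 hδ.le
          refine step 1 ?_ ?_ ?_
          · simp only [dir_1, Prod.fst_add, Prod.snd_add]; omega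
          · simp only [pt, dir_1, abs_le, Prod.fst_add]; push_cast; constructor <;> nlinarith
          · simp only [pt, dir_1, abs_le, Prod.snd_add]; push_cast; constructor <;> nlinarith
        · have k1 : (v0.2 : ℝ) + 1 ≤ v.2 := by exact_mod_cast c2
          have k2 : δ * ((v0.2 : ℝ) + 1) ≤ δ * v.2 := mul_le_mul_of_nonneg_left k1 hδ.le
          refine step 3 ?_ ?_ ?_
          · simp only [dir_3, Prod.fst_add, Prod.snd_add]; omega
          · simp only [pt, dir_3, abs_le, Prod.fst_add]; push_cast; constructor <;> nlinarith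
          · simp only [pt, dir_3, abs_le, Prod.snd_add]; push_cast; constructor <;> nlinarith
      · rcases lt_or_gt_of_ne c1 with c2 | c2
        · have k1 : (v.1 : ℝ) + 1 ≤ v0.1 := by exact_mod_cast c2
          have k2 : δ * ((v.1 : ℝ) + 1) ≤ δ * v0.1 := mul_le_mul_of_nonneg_left k1 hδ.le
          refine step 0 ?_ ?_ ?_
          · simp only [dir_0, Prod.fst_add, Prod.snd_add]; omega
          · simp only [pt, dir_0, abs_le, Prod.fst_add]; push_cast; constructor <;> nlinarith
          · simp only [pt, dir_0, abs_le, Prod.snd_add]; push_cast; constructor <;> nlinarith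
        · have k1 : (v0.1 : ℝ) + 1 ≤ v.1 := by exact_mod_cast c2
          have k2 : δ * ((v0.1 : ℝ) + 1) ≤ δ * v.1 := mul_le_mul_of_nonneg_left k1 hδ.le
          refine step 2 ?_ ?_ ?_
          · simp only [dir_2, Prod.fst_add, Prod.snd_add]; omega
          · simp only [pt, dir_2, abs_le, Prod.fst_add]; push_cast; constructor <;> nlinarith
          · simp only [pt, dir_2, abs_le, Prod.snd_add]; push_cast; constructor <;> nlinarith
  -- the square of `m` is inner
  obtain ⟨g, hg⟩ := exists_sq hδ m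
  obtain ⟨g1, g2, g3, g4⟩ := hg
  have hin : ∀ (w : ℤ × ℤ) (q : ZMod 4), (w.1 = g.1 ∨ w.1 = g.1 + 1) →
      (w.2 = g.2 ∨ w.2 = g.2 + 1) → op D δ w q := by
    intro w q hw1 hw2
    have k1 : |(pt δ w).re - m.re| ≤ δ := by
      simp only [pt, abs_le]
      rcases hw1 with h | h <;> rw [h] <;> push_cast <;> constructor <;> linarith
    have k2 : |(pt δ w).im - m.im| ≤ δ := by
      simp only [pt, abs_le]
      rcases hw2 with h | h <;> rw [h] <;> push_cast <;> constructor <;> linarith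
    by_contra hno
    refine absurd (hcon w q (hall _ w rfl (by linarith) (by linarith)) hno) (not_le.2 ?_)
    refine (Complex.norm_le_abs_re_add_abs_im _).trans_lt ?_
    rw [Complex.sub_re, Complex.sub_im]
    linarith
  have hinn : Inn D δ g := by
    refine ⟨hin _ _ (Or.inl rfl) (Or.inl rfl), hin _ _ (Or.inr rfl) (Or.inl ?_),
      hin _ _ (Or.inr rfl) (Or.inr rfl), hin _ _ (Or.inl ?_) (Or.inr rfl)⟩ <;> simp
  -- but it is joined to infinity off the domain
  set E : Set (Sym2 (ℤ × ℤ)) := (GD D δ).edgeSet with hE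
  obtain ⟨f, hf1, hf2⟩ := far_of_mem (E := E) hδ (fun u v h => h) hD.compl hD.bdd hmD
    ⟨g1, g2, g3, g4⟩ (|g.1| + |g.2| + 1)
  rcases hf1.cases_head with h3 | ⟨g', h3, -⟩
  · have h4 : g = f := h3
    rw [← h4] at hf2; omega
  · obtain ⟨o1, o2, o3, o4⟩ := hinn
    rcases h3 with ⟨-, h3⟩ | ⟨-, h3⟩ | ⟨-, h3⟩ | ⟨-, h3⟩
    · apply h3
      have := adj_dir.2 o2
      rw [hE, SimpleGraph.mem_edgeSet]
      convert this using 1 <;> ext <;> simp [dir_1]
    · apply h3
      have := (adj_dir.2 o4).symm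
      rw [hE, SimpleGraph.mem_edgeSet]
      convert this using 1 <;> ext <;> simp [dir_3]
    · apply h3
      have := (adj_dir.2 o3).symm
      rw [hE, SimpleGraph.mem_edgeSet]
      convert this using 1 <;> ext <;> simp [dir_2]
    · apply h3
      have := adj_dir.2 o1
      rw [hE, SimpleGraph.mem_edgeSet]
      convert this using 1; ext <;> simp [dir_0]

/-- A component with two vertices at distance at least `ρ₀` contains the bulk. -/
theorem bulk_of_large (h : IsJordanDomain D) {z0 : ℂ} (hz0 : z0 ∈ D) {ρ₀ : ℝ} (hρ : 0 < ρ₀) :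
    ∃ r > 0, ∀ δ, 0 < δ → δ < r → ∀ (V : Set (ℤ × ℤ)) (E : Set (Sym2 (ℤ × ℤ))),
      IsComponent D δ V E → (∃ u ∈ V, ∃ v ∈ V, ρ₀ ≤ dist (pt δ u) (pt δ v)) →
      ∀ w : ℤ × ℤ, ‖pt δ w - z0‖ < r → w ∈ V := by
  have hJ := jTop h
  by_contra hcon
  push Not at hcon
  have key : ∀ n : ℕ, ∃ (δ : ℝ) (V : Set (ℤ × ℤ)) (E : Set (Sym2 (ℤ × ℤ))) (u v w : ℤ × ℤ),
      0 < δ ∧ δ < 1 / ((n : ℝ) + 1) ∧ IsComponent D δ V E ∧ u ∈ V ∧ v ∈ V ∧
      ρ₀ ≤ dist (pt δ u) (pt δ v) ∧ ‖pt δ w - z0‖ < 1 / ((n : ℝ) + 1) ∧ w ∉ V := by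
    intro n
    obtain ⟨δ, h0, h1, V, E, hX, ⟨u, hu, v, hv, huv⟩, w, hw, hwV⟩ :=
      hcon (1 / ((n : ℝ) + 1)) (by positivity)
    exact ⟨δ, V, E, u, v, w, h0, h1, hX, hu, hv, huv, hw, hwV⟩
  choose δ V E u v w h0 h1 hX hu hv huv hw hwV using key
  have hl : Tendsto (fun n : ℕ => 1 / ((n : ℝ) + 1)) atTop (𝓝 0) :=
    tendsto_one_div_add_atTop_nhds_zero_nat
  have hδ0 : Tendsto δ atTop (𝓝 0) := squeeze_zero (fun n => (h0 n).le) (fun n => (h1 n).le) hl
  -- subsequence
  have hcomp : IsCompact (closure D) := h.2.2.1.isCompact_closure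
  obtain ⟨⟨x, y⟩, -, φ, hφ, hlim⟩ := (hcomp.prod hcomp).tendsto_subseq
    (x := fun n => (pt (δ n) (u n), pt (δ n) (v n)))
    (fun n => ⟨subset_closure ((hX n).sub _ (hu n)), subset_closure ((hX n).sub _ (hv n))⟩)
  have hx : Tendsto (fun n => pt (δ (φ n)) (u (φ n))) atTop (𝓝 x) :=
    (continuous_fst.tendsto _).comp hlim
  have hy : Tendsto (fun n => pt (δ (φ n)) (v (φ n))) atTop (𝓝 y) :=
    (continuous_snd.tendsto _).comp hlim
  have hlφ : Tendsto (fun n : ℕ => 1 / ((φ n : ℝ) + 1)) atTop (𝓝 0) := hl.comp hφ.tendsto_atTop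
  have hδφ : Tendsto (fun n => δ (φ n)) atTop (𝓝 0) := hδ0.comp hφ.tendsto_atTop
  have hwφ : Tendsto (fun n => ‖pt (δ (φ n)) (w (φ n)) - z0‖) atTop (𝓝 0) :=
    squeeze_zero (fun n => norm_nonneg _) (fun n => (hw (φ n)).le) hlφ
  have hxy : ρ₀ ≤ dist x y :=
    ge_of_tendsto' (hx.dist hy) fun n => huv (φ n)
  have hne : x ≠ y := by
    rintro rfl
    rw [dist_self] at hxy; linarith
  -- the limits are boundary points
  have hfr : ∀ (x : ℂ) (u : ℕ → ℤ × ℤ), (∀ n, u n ∈ V (φ n)) →
      Tendsto (fun n => pt (δ (φ n)) (u n)) atTop (𝓝 x) → x ∈ frontier D := by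
    intro x u hu hx
    rw [hJ.isOpen.frontier_eq]
    refine ⟨mem_closure_of_tendsto hx (Eventually.of_forall fun n => (hX _).sub _ (hu n)), ?_⟩
    intro hxD
    obtain ⟨r, hr, hreach⟩ := bulk_near hJ.isOpen hJ.conn hz0 hxD
    have e1 := hδφ.eventually (gt_mem_nhds hr)
    have e2 := hwφ.eventually (gt_mem_nhds hr)
    have e3 := (tendsto_iff_norm_sub_tendsto_zero.1 hx).eventually (gt_mem_nhds hr)
    obtain ⟨n, k1, k2, k3⟩ := (e1.and (e2.and e3)).exists
    have k4 := hreach _ (h0 _) k1 _ _ k2 k3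
    exact hwV (φ n) (((hX (φ n)).comp _ (hu n) _).2 k4.symm)
  have hxf := hfr x _ (fun n => hu (φ n)) hx
  have hyf := hfr y _ (fun n => hv (φ n)) hy
  -- turns close to the limits
  have turns : ∀ (x : ℂ) (u : ℕ → ℤ × ℤ), x ∈ frontier D → (∀ n, u n ∈ V (φ n)) →
      Tendsto (fun n => pt (δ (φ n)) (u n)) atTop (𝓝 x) → ∀ ε > 0, ∀ᶠ n in atTop,
      ∃ c : Corner, c.1 ∈ V (φ n) ∧ ¬op D (δ (φ n)) c.1 c.2 ∧ dist (pt (δ (φ n)) c.1) x < ε := by
    intro x u hxf hu hx ε hε
    have e1 := hδφ.eventually (gt_mem_nhds (show 0 < ε / 32 by positivity))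
    have e3 := (tendsto_iff_norm_sub_tendsto_zero.1 hx).eventually
      (gt_mem_nhds (show 0 < ε / 4 by positivity))
    filter_upwards [e1, e3] with n k1 k3
    obtain ⟨v, q, m1, m2, m3⟩ := turn_near hJ hxf (h0 _) k1 k3
    exact ⟨(v, q), ((hX (φ n)).comp _ (hu n) _).2 m1, m2, by rw [dist_eq_norm]; exact m3⟩
  have hDc : IsPreconnected Dᶜ := (Pool.Agent.H14.Jordan.compl_connected h).isPreconnected
  -- the discrete domains, along a further subsequence
  have hd : 0 < dist x y := dist_pos.2 hne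
  have key2 : ∀ k : ℕ, ∃ n, k ≤ n ∧ ∃ X : DDomain, X.V = V (φ n) ∧ X.E = E (φ n) ∧
      dist (pt (δ (φ n)) X.α.1) x < 1 / ((k : ℝ) + 1) ∧
      dist (pt (δ (φ n)) X.β.1) y < 1 / ((k : ℝ) + 1) := by
    intro k
    have hp : 0 < min (1 / ((k : ℝ) + 1)) (dist x y / 2) := by positivity
    obtain ⟨n, ⟨⟨ca, a1, a2, a3⟩, cb, b1, b2, b3⟩, hn⟩ :=
      (((turns x _ hxf (fun n => hu (φ n)) hx _ hp).and
        (turns y _ hyf (fun n => hv (φ n)) hy _ hp)).and (eventually_ge_atTop k)).exists
    have hE : ∀ c : Corner, ¬ op D (δ (φ n)) c.1 c.2 → c.edge ∉ E (φ n) := by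
      rintro ⟨v, q⟩ h1 h2
      exact h1 (adj_dir.1 (((hX (φ n)).edges v _).1 h2).2)
    have hne' : ca.1 ≠ cb.1 := by
      intro heq
      have k1 := lt_of_lt_of_le a3 (min_le_right _ _)
      have k2 := lt_of_lt_of_le b3 (min_le_right _ _)
      rw [heq] at k1
      have k3 := dist_triangle_left x y (pt (δ (φ n)) cb.1)
      linarith
    refine ⟨n, hn, toDD (h0 _) hDc h.2.2.1 (hX (φ n)) ca cb a1 b1
      (noHole_of_component (h0 _) hDc h.2.2.1 (hX _) _ a1 (hE _ a2))
      (noHole_of_component (h0 _) hDc h.2.2.1 (hX _) _ b1 (hE _ b2)) hne', rfl, rfl, ?_, ?_⟩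
    · exact lt_of_lt_of_le a3 (min_le_left _ _)
    · exact lt_of_lt_of_le b3 (min_le_left _ _)
  choose N hN X hXV hXE hXa hXb using key2
  have hN' : Tendsto N atTop atTop := tendsto_atTop_mono hN tendsto_id
  obtain ⟨A₁, A₂, -, hcor⟩ := corollaryA h hxf hyf hne
  obtain ⟨A, hA1, hA2⟩ := hcor (fun k => δ (φ (N k))) X (fun k => h0 _) (hδφ.comp hN')
    (fun k => by rw [hXV, hXE]; exact hX _)
    (by
      rw [tendsto_iff_dist_tendsto_zero]
      exact squeeze_zero (fun n => dist_nonneg) (fun n => (hXa n).le) hl)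
    (by
      rw [tendsto_iff_dist_tendsto_zero]
      exact squeeze_zero (fun n => dist_nonneg) (fun n => (hXb n).le) hl)
  -- the bulk is filled: contradiction
  obtain ⟨r3, hr3, hball⟩ := Metric.isOpen_iff.1 h.1 z0 hz0
  have hfill := A.fill (closedBall z0 (r3 / 2)) (isCompact_closedBall _ _)
    ((closedBall_subset_ball (by linarith)).trans hball)
  rw [hA1, hA2] at hfill
  obtain ⟨k, hk1, hk2⟩ := (hfill.and ((hwφ.comp hN').eventually
    (gt_mem_nhds (show 0 < r3 / 2 by positivity)))).exists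
  have h5 := hk1.1 (w (φ (N k))) (by
    rw [mem_closedBall, dist_eq_norm]; exact le_of_lt hk2)
  rw [hXV] at h5
  exact hwV _ h5

/-- **The largest component.** For every bounded Jordan domain `D`, distinct boundary points `a`, `b`
and all small meshes the component of the part of `δℤ²` in `D` with the most vertices is a discrete
domain with marked outer corners close to `a` and `b`. -/
theorem exists_largest (h : IsJordanDomain D) {a b : ℂ} (ha : a ∈ frontier D)
    (hb : b ∈ frontier D) (hab : a ≠ b) {ε : ℝ} (hε : 0 < ε) :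
    ∃ δ₀ > 0, ∀ δ, 0 < δ → δ < δ₀ → ∃ X : DDomain, IsComponent D δ X.V X.E ∧
      (∀ V E, IsComponent D δ V E → V.ncard ≤ X.V.ncard) ∧
      dist (pt δ X.α.1) a < ε ∧ dist (pt δ X.β.1) b < ε := by
  have hJ := jTop h
  obtain ⟨z0, hz0⟩ := h.2.1.nonempty
  have hd : 0 < dist a b := dist_pos.2 hab
  obtain ⟨r1, hr1, H1⟩ := approach hJ hz0 ha (show 0 < min ε (dist a b / 2) by positivity)
  obtain ⟨r2, hr2, H2⟩ := approach hJ hz0 hb (show 0 < min ε (dist a b / 2) by positivity)
  obtain ⟨r3, hr3, H3⟩ := Metric.isOpen_iff.1 h.1 z0 hz0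
  obtain ⟨r4, hr4, H4⟩ := bulk_of_large h hz0 (show 0 < r3 / 4 by positivity)
  obtain ⟨r5, hr5, H5⟩ := bulk_compact hJ.isOpen hJ.conn hz0 (isCompact_closedBall z0 (r3 / 2))
    ((closedBall_subset_ball (by linarith)).trans H3)
  refine ⟨min (min (min r1 r2) (min r3 r4)) r5 / 16, by positivity, ?_⟩
  intro δ hδ hδ0
  have e0 : 0 < min (min (min r1 r2) (min r3 r4)) r5 := by positivity
  have e1 : min (min (min r1 r2) (min r3 r4)) r5 ≤ r1 :=
    (min_le_left _ _).trans ((min_le_left _ _).trans (min_le_left _ _))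
  have e2 : min (min (min r1 r2) (min r3 r4)) r5 ≤ r2 :=
    (min_le_left _ _).trans ((min_le_left _ _).trans (min_le_right _ _))
  have e3 : min (min (min r1 r2) (min r3 r4)) r5 ≤ r3 :=
    (min_le_left _ _).trans ((min_le_right _ _).trans (min_le_left _ _))
  have e4 : min (min (min r1 r2) (min r3 r4)) r5 ≤ r4 :=
    (min_le_left _ _).trans ((min_le_right _ _).trans (min_le_right _ _))
  have e5 : min (min (min r1 r2) (min r3 r4)) r5 ≤ r5 := min_le_right _ _
  obtain ⟨u, hu⟩ := exists_pt hδ z0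
  have huD : pt δ u ∈ D := by
    apply H3
    rw [mem_ball, dist_eq_norm]
    linarith
  obtain ⟨va, qa, ha1, ha2, ha3⟩ := H1 δ hδ (by linarith) u (by linarith)
  obtain ⟨vb, qb, hb1, hb2, hb3⟩ := H2 δ hδ (by linarith) u (by linarith)
  have hX := Pool.Agent.H11.M7.component_of huD
  have hE : ∀ v q, ¬ op D δ v q → Corner.edge (v, q) ∉
      {e | e ∈ (GD D δ).edgeSet ∧ ∀ w ∈ e, (GD D δ).Reachable u w} := by
    intro v q h1 h2
    exact h1 (adj_dir.1 ((hX.edges v _).1 h2).2)
  have hDc : IsPreconnected Dᶜ := (Pool.Agent.H14.Jordan.compl_connected h).isPreconnected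
  have hne : va ≠ vb := by
    rintro rfl
    have h1 := lt_of_lt_of_le ha3 (min_le_right _ _)
    have h2 := lt_of_lt_of_le hb3 (min_le_right _ _)
    rw [← dist_eq_norm] at h1 h2
    have h3 := dist_triangle_left a b (pt δ va)
    linarith
  set X : DDomain := toDD hδ hDc h.2.2.1 hX (va, qa) (vb, qb) ha1 hb1
    (noHole_of_component hδ hDc h.2.2.1 hX _ ha1 (hE _ _ ha2))
    (noHole_of_component hδ hDc h.2.2.1 hX _ hb1 (hE _ _ hb2)) hne with hXdef
  have hXV : X.V = {v | (GD D δ).Reachable u v} := rfl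
  refine ⟨X, hX, ?_, ?_, ?_⟩
  · intro V E hV
    rcases V.eq_empty_or_nonempty with h1 | ⟨v1, hv1⟩
    · rw [h1, Set.ncard_empty]; exact Nat.zero_le _
    by_cases hbig : ∃ u ∈ V, ∃ v ∈ V, r3 / 4 ≤ dist (pt δ u) (pt δ v)
    · -- the same component
      have h2 : u ∈ V := H4 δ hδ (by linarith) V E hV hbig u (by linarith)
      have h3 : V = X.V := by
        ext v
        rw [hXV]
        exact hV.comp u h2 v
      rw [h3]
    · -- a small component is translated into the bulk
      push Not at hbig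
      refine Set.ncard_le_ncard_of_injOn (fun v => v - v1 + u) ?_ ?_ X.finV
      · intro v hv
        rw [hXV]
        have h2 := hbig v hv v1 hv1
        refine H5 δ hδ (by linarith) u _ (by linarith) ?_
        rw [mem_closedBall, dist_eq_norm]
        have h3 : pt δ (v - v1 + u) - z0 = (pt δ v - pt δ v1) + (pt δ u - z0) := by
          have : pt δ (v - v1 + u) = pt δ v - pt δ v1 + pt δ u := by
            apply Complex.ext
            · simp only [pt, Complex.add_re, Complex.sub_re, Prod.fst_add, Prod.fst_sub]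
              push_cast; ring
            · simp only [pt, Complex.add_im, Complex.sub_im, Prod.snd_add, Prod.snd_sub]
              push_cast; ring
          rw [this]; ring
        rw [h3]
        have h4 := norm_add_le (pt δ v - pt δ v1) (pt δ u - z0)
        rw [dist_eq_norm] at h2
        linarith
      · intro v _ w _ hvw
        simpa using hvw
  · rw [dist_eq_norm]
    exact lt_of_lt_of_le ha3 (min_le_left _ _)
  · rw [dist_eq_norm]
    exact lt_of_lt_of_le hb3 (min_le_left _ _)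

end Pool.Agent.H4.Q1
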