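import Pool.Agent.H4.Q1.C3a
import Pool.Agent.H75.Perc.Prob

set_option autoImplicit false
open Finset Filter Topology

/-! Convergence of crossing probabilities from the convergence of the `k`-point functions and the
absence of small positive values of the number of connected points (Q1 blueprint, module M5, step
C3, abstract form). -/

namespace Pool.Agent.H4.Q1

open Pool.Agent.H75.Perc

variable {α : Type*} [DecidableEq α]

/-- the number of points of `I` with the property `A` -/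
noncomputable def NN (I : Finset ℤ) (A : ℤ → Finset α → Prop) (ω : Finset α) : ℕ :=
  open Classical in (I.filter (fun y => A y ω)).card

/-- expansion of the expectation of `(1 - u) ^ N` -/
lemma expansion (E : Finset α) (I : Finset ℤ) (A : ℤ → Finset α → Prop) (u : ℝ) :
    ∑ t ∈ I.powerset, (-u) ^ t.card * Pr E (fun ω => ∀ y ∈ t, A y ω) =
      (∑ ω ∈ E.powerset, (1 - u) ^ NN I A ω) / 2 ^ E.card := by
  classical
  have h1 : ∀ ω : Finset α, (1 - u) ^ NN I A ω =
      ∑ t ∈ I.powerset, if (∀ y ∈ t, A y ω) then (-u) ^ t.card else 0 := by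
    intro ω
    have h2 : (1 - u) ^ NN I A ω = ∏ y ∈ I, (1 + if A y ω then -u else 0) := by
      unfold NN
      rw [← Finset.prod_const, Finset.prod_filter]
      refine Finset.prod_congr rfl fun y _ => ?_
      split_ifs <;> ring
    rw [h2, Finset.prod_one_add]
    refine Finset.sum_congr rfl fun t _ => ?_
    split_ifs with h
    · rw [Finset.prod_congr rfl (g := fun _ => -u) fun y hy => if_pos (h y hy), Finset.prod_const]
    · push Not at h
      obtain ⟨y, hy, hA⟩ := h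
      exact Finset.prod_eq_zero hy (if_neg hA)
  simp only [h1]
  rw [Finset.sum_comm, Finset.sum_div]
  refine Finset.sum_congr rfl fun t _ => ?_
  rw [Pr_eq, ← Finset.sum_filter, Finset.sum_const, nsmul_eq_mul]
  ring

/-- comparison of the probability that `N = 0` with the Laplace transform -/
lemma compare (E : Finset α) (I : Finset ℤ) (A : ℤ → Finset α → Prop) {r s ε : ℝ} (hr : 0 < r)
    (hs : 0 ≤ s) :
    |(1 - Pr E (fun ω => ∃ y ∈ I, A y ω)) -
      (∑ ω ∈ E.powerset, (Real.exp (-(s / r))) ^ NN I A ω) / 2 ^ E.card| ≤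
      Pr E (fun ω => 0 < NN I A ω ∧ (NN I A ω : ℝ) < ε * r) + Real.exp (-(s * ε)) := by
  classical
  have hcard : (∑ ω ∈ E.powerset, (1:ℝ)) = 2 ^ E.card := by
    rw [Finset.sum_const, card_powerset, nsmul_eq_mul, mul_one]; norm_cast
  have h0 : ∀ ω : Finset α, (∃ y ∈ I, A y ω) ↔ 0 < NN I A ω := by
    intro ω
    unfold NN
    rw [card_pos]
    constructor
    · rintro ⟨y, hy, h⟩; exact ⟨y, mem_filter.2 ⟨hy, h⟩⟩
    · rintro ⟨y, hy⟩; exact ⟨y, (mem_filter.1 hy).1, (mem_filter.1 hy).2⟩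
  have h1 : 1 - Pr E (fun ω => ∃ y ∈ I, A y ω) =
      (∑ ω ∈ E.powerset, if 0 < NN I A ω then (0:ℝ) else 1) / 2 ^ E.card := by
    rw [Pr_congr (B := fun ω => 0 < NN I A ω) fun ω _ => h0 ω, Pr_eq]
    rw [eq_div_iff (by positivity), sub_mul, one_mul, div_mul_cancel₀ _ (by positivity), ← hcard,
      Finset.card_eq_sum_ones, Nat.cast_sum, Finset.sum_filter, ← Finset.sum_sub_distrib]
    refine Finset.sum_congr rfl fun ω _ => ?_
    split_ifs <;> simp
  rw [h1, ← sub_div, ← Finset.sum_sub_distrib, abs_div, abs_of_pos (show (0:ℝ) < 2 ^ E.card by positivity),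
    div_le_iff₀ (by positivity), add_mul, Pr_eq, div_mul_cancel₀ _ (by positivity)]
  refine (Finset.abs_sum_le_sum_abs _ _).trans ?_
  rw [← hcard, Finset.mul_sum, Finset.card_eq_sum_ones, Nat.cast_sum, Finset.sum_filter,
    ← Finset.sum_add_distrib]
  refine Finset.sum_le_sum fun ω _ => ?_
  have hexp : Real.exp (-(s / r)) ≤ 1 := by
    rw [Real.exp_le_one_iff]
    have : 0 ≤ s / r := by positivity
    linarith
  by_cases hN : 0 < NN I A ω
  · rw [if_pos hN, zero_sub, abs_neg, abs_of_nonneg (by positivity)]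
    by_cases hN2 : (NN I A ω : ℝ) < ε * r
    · rw [if_pos ⟨hN, hN2⟩]
      have h2 := pow_le_one₀ (n := NN I A ω) (Real.exp_nonneg (-(s / r))) hexp
      have h3 := Real.exp_nonneg (-(s * ε))
      rw [Nat.cast_one]
      linarith
    · rw [if_neg (fun h => hN2 h.2)]
      push Not at hN2
      rw [← Real.exp_nat_mul, zero_add, mul_one, Real.exp_le_exp]
      have : s * (ε * r) ≤ s * NN I A ω := by gcongr
      rw [mul_neg, neg_le_neg_iff, mul_div_assoc', le_div_iff₀ hr]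
      linarith
  · have h2 : NN I A ω = 0 := by omega
    rw [if_neg hN, h2, pow_zero, sub_self, abs_zero]
    rw [if_neg (fun h => absurd h.1 (lt_irrefl 0))]
    have h3 := Real.exp_nonneg (-(s * ε))
    linarith

/-- **Crossing probabilities converge** (C3): if the `k`-point functions are dominated and converge
(see `laplace_tendsto`) and if the scaled number of connected points takes small positive values
only with a small probability, then the probability that some point is connected converges. -/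
theorem crossing_tendsto {R p : ℕ → ℝ} (hR : Tendsto R atTop atTop) (hR1 : ∀ j, 1 ≤ R j)
    (hp : ∀ j, 0 < p j) (hRp : Tendsto (fun j => R j * p j) atTop atTop)
    {I : ℕ → Finset ℤ} {M : ℝ} (hM : 0 ≤ M)
    (hIM : ∀ j, ∀ y ∈ I j, 0 ≤ (y : ℝ) ∧ (y : ℝ) ≤ M * R j)
    (E : ℕ → Finset α) (A : ℕ → ℤ → Finset α → Prop) {C : ℝ} (hC : 0 < C)
    (dom : ∀ (j m : ℕ) (y : Fin (m + 1) → ℤ), StrictMono y → (∀ l, y l ∈ I j) →
      Pr (E j) (fun ω => ∀ l, A j (y l) ω) ≤ (C * p j) ^ (m + 1) *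
        ∏ l : Fin m, (((y l.succ - y l.castSucc : ℤ) : ℝ) / R j) ^ (-(2 / 3) : ℝ))
    (hI : ∀ᵐ x : ℝ, (∀ᶠ j in atTop, ⌊R j * x⌋ ∈ I j) ∨ (∀ᶠ j in atTop, ⌊R j * x⌋ ∉ I j))
    (hconv : ∀ k : ℕ, ∀ᵐ x : Fin k → ℝ, StrictMono x → (∀ l, ∀ᶠ j in atTop, ⌊R j * x l⌋ ∈ I j) →
      ∃ g : ℝ, Tendsto (fun j => Pr (E j) (fun ω => ∀ l, A j ⌊R j * x l⌋ ω) / p j ^ k) atTop (𝓝 g))
    (small : ∀ ε' > 0, ∃ ε > 0, ∀ᶠ j in atTop,
      Pr (E j) (fun ω => 0 < NN (I j) (A j) ω ∧ (NN (I j) (A j) ω : ℝ) < ε * (R j * p j)) ≤ ε') :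
    ∃ ℓ : ℝ, Tendsto (fun j => Pr (E j) (fun ω => ∃ y ∈ I j, A j y ω)) atTop (𝓝 ℓ) := by
  classical
  have hset : ∀ (j k : ℕ) (y : Fin k → ℤ),
      Pr (E j) (fun ω => ∀ z ∈ univ.image y, A j z ω) = Pr (E j) (fun ω => ∀ l, A j (y l) ω) := by
    intro j k y
    refine Pr_congr fun ω _ => ?_
    simp
  have hlap : ∀ s : ℝ, 0 < s → ∃ ℓ : ℝ, Tendsto (fun j =>
      (∑ ω ∈ (E j).powerset, (Real.exp (-(s / (R j * p j)))) ^ NN (I j) (A j) ω) /
        2 ^ (E j).card) atTop (𝓝 ℓ) := by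
    intro s hs
    obtain ⟨ℓ, hℓ⟩ := laplace_tendsto hR hR1 hp hRp hM hIM
      (a := fun j t => Pr (E j) (fun ω => ∀ y ∈ t, A j y ω)) (fun j t => Pr_nonneg _ _)
      (fun j => by
        rw [Pr_congr (B := fun _ => True) (fun ω _ => by simp), Pr_true]) hC
      (fun j m y h1 h2 => by
        have := dom j m y h1 h2
        rw [← hset j _ y] at this
        exact this) hI
      (fun k => by
        filter_upwards [hconv k] with x hx h1 h2
        obtain ⟨g, hg⟩ := hx h1 h2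
        refine ⟨g, hg.congr fun j => ?_⟩
        rw [← hset j _ (fun l => ⌊R j * x l⌋)]) hs
    refine ⟨ℓ, hℓ.congr fun j => ?_⟩
    rw [expansion, sub_sub_cancel]
  refine cauchySeq_tendsto_of_complete (Metric.cauchySeq_iff'.2 fun η hη => ?_)
  obtain ⟨ε, hε, hsm⟩ := small (η / 8) (by positivity)
  obtain ⟨s, hs, hse⟩ : ∃ s : ℝ, 0 < s ∧ Real.exp (-(s * ε)) ≤ η / 8 := by
    have h1 : Tendsto (fun s : ℝ => Real.exp (-(s * ε))) atTop (𝓝 0) :=
      Real.tendsto_exp_neg_atTop_nhds_zero.comp (tendsto_id.atTop_mul_const hε)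
    have h2 := (h1.eventually (ge_mem_nhds (show (0:ℝ) < η / 8 by positivity))).and
      (eventually_gt_atTop 0)
    obtain ⟨s, h3, h4⟩ := h2.exists
    exact ⟨s, h4, h3⟩
  obtain ⟨ℓ, hℓ⟩ := hlap s hs
  have h3 := Metric.tendsto_nhds.1 hℓ (η / 8) (by positivity)
  obtain ⟨J, hJ⟩ := (h3.and hsm).exists_forall_of_atTop
  refine ⟨J, fun j hj => ?_⟩
  obtain ⟨h4, h5⟩ := hJ j hj
  obtain ⟨h6, h7⟩ := hJ J le_rfl
  have hRp0 : ∀ i, 0 < R i * p i := fun i => mul_pos (by linarith [hR1 i]) (hp i)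
  have h8 := compare (E j) (I j) (A j) (ε := ε) (hRp0 j) hs.le
  have h9 := compare (E J) (I J) (A J) (ε := ε) (hRp0 J) hs.le
  rw [Real.dist_eq] at h4 h6 ⊢
  rw [abs_le] at h8 h9
  rw [abs_lt] at h4 h6 ⊢
  constructor <;> linarith

end Pool.Agent.H4.Q1
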