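import Mathlib
import Pool.Agent.H4.Q1.C3Geo

set_option autoImplicit false
open Finset

/-! Domination of the `k`-point functions of points in the inner parts of the free sides (module M5,
step C3). -/

namespace Pool.Agent.H4.Q1

open Pool.Agent.H75.Perc hiding WL
open Pool.Agent.H75.TwoArm Pool.Agent.H75.Four Pool.Agent.H65.Dom
open Pool.Agent.H49.Q1 Pool.Agent.Q1.M4 Pool.Agent.Q1.M5

section
variable {P : PType} {X Y : ℤ → ℤ}

/-- two points of the same side -/
lemma far_same {n : ℕ} {l l' r : ℤ} (h : r ≤ |l - l'|) : far (bp P X Y n l) (bp P X Y n l') r := by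
  unfold far bp
  rcases bw_cases X Y (P.side n) l with ⟨a, -, -, -, -, f⟩ | ⟨a, -, -, -, -, f⟩ |
    ⟨a, -, -, -, -, f⟩ | ⟨a, -, -, -, -, f⟩ <;>
  rcases bw_cases X Y (P.side n) l' with ⟨c, -, -, -, -, g⟩ | ⟨c, -, -, -, -, g⟩ |
    ⟨c, -, -, -, -, g⟩ | ⟨c, -, -, -, -, g⟩ <;> first | (exfalso; omega) | skip
  · left; rw [f, g]; simp only; rwa [add_sub_add_left_eq_sub]
  · right; rw [f, g]; simp only; rwa [add_sub_add_left_eq_sub]
  · left; rw [f, g]; simp only; rwa [sub_sub_sub_cancel_left, abs_sub_comm]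
  · right; rw [f, g]; simp only; rwa [sub_sub_sub_cancel_left, abs_sub_comm]

/-- the cells beyond the line of a side are far from the inner points of the side -/
lemma beyond_far {D : ℤ} (hX : GapD X D) (hY : GapD Y D) (hD : 2 ≤ D) {n : ℕ}
    {l : ℤ} (h0 : D ≤ l) (h1 : l + D ≤ ln P X Y n) {r : ℤ} (hr : r < D) :
    ∀ d ∈ P.Q, Beyond (P.side n).1 (P.side n).2 d → cfar X Y (bp P X Y n l) d r := by
  intro d hd hb
  have hs := (isSide_side (P := P) n).2
  unfold ln at h1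
  have lX : ∀ {i j : ℤ}, i ≤ j → X i ≤ X j := fun h => (hX.gap hD).le_iff.2 h
  have lY : ∀ {i j : ℤ}, i ≤ j → Y i ≤ Y j := fun h => (hY.gap hD).le_iff.2 h
  unfold cfar bp
  unfold Beyond at hb
  rcases bw_cases X Y (P.side n) l with ⟨a, -, b, -, e, f⟩ | ⟨a, -, b, -, e, f⟩ |
    ⟨a, -, b, -, e, f⟩ | ⟨a, -, b, -, e, f⟩ <;> rw [e] at h1 <;> rw [f] <;> rw [b] at hs <;>
    simp only
  · have h2 : d.2 + 1 ≤ (P.side n).1.2 := by omega
    rcases h2.eq_or_lt with h3 | h3
    · have h4 : d.1 ≠ (P.side n).1.1 := by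
        intro h4
        apply hs
        have : (P.side n).1 + (0, -1) = d := Prod.ext (by simp [h4]) (by simp; omega)
        rw [this]; exact hd
      rcases lt_or_gt_of_ne h4 with h5 | h5
      · have := lX (show d.1 + 1 ≤ (P.side n).1.1 by omega); omega
      · have := lX (show (P.side n).1.1 + 1 ≤ d.1 by omega); omega
    · have := hY.lt hD h3; omega
  · have h2 : (P.side n).1.1 + 1 ≤ d.1 := by omega
    rcases h2.eq_or_lt with h3 | h3
    · have h4 : d.2 ≠ (P.side n).1.2 := by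
        intro h4
        apply hs
        have : (P.side n).1 + (1, 0) = d := Prod.ext (by simp; omega) (by simp [h4])
        rw [this]; exact hd
      rcases lt_or_gt_of_ne h4 with h5 | h5
      · have := lY (show d.2 + 1 ≤ (P.side n).1.2 by omega); omega
      · have := lY (show (P.side n).1.2 + 1 ≤ d.2 by omega); omega
    · have := hX.lt hD h3; omega
  · have h2 : (P.side n).1.2 + 1 ≤ d.2 := by omega
    rcases h2.eq_or_lt with h3 | h3
    · have h4 : d.1 ≠ (P.side n).1.1 := by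
        intro h4
        apply hs
        have : (P.side n).1 + (0, 1) = d := Prod.ext (by simp [h4]) (by simp; omega)
        rw [this]; exact hd
      rcases lt_or_gt_of_ne h4 with h5 | h5
      · have := lX (show d.1 + 1 ≤ (P.side n).1.1 by omega); omega
      · have := lX (show (P.side n).1.1 + 1 ≤ d.1 by omega); omega
    · have := hY.lt hD h3; omega
  · have h2 : d.1 + 1 ≤ (P.side n).1.1 := by omega
    rcases h2.eq_or_lt with h3 | h3
    · have h4 : d.2 ≠ (P.side n).1.2 := by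
        intro h4
        apply hs
        have : (P.side n).1 + (-1, 0) = d := Prod.ext (by simp; omega) (by simp [h4])
        rw [this]; exact hd
      rcases lt_or_gt_of_ne h4 with h5 | h5
      · have := lY (show d.2 + 1 ≤ (P.side n).1.2 by omega); omega
      · have := lY (show (P.side n).1.2 + 1 ≤ d.2 by omega); omega
    · have := hX.lt hD h3; omega

lemma bp_onCell (hX : Gap X) (hY : Gap Y) {n : ℕ} {l : ℤ} (h0 : 0 ≤ l) (h1 : l ≤ ln P X Y n) :
    onCell X Y (P.side n).1 (P.side n).2 (bp P X Y n l) :=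
  (sV_iff hX hY).2 ⟨l, h0, h1, rfl⟩

/-- the neighbourhood of an inner point of a free side -/
lemma thin_bp {D : ℤ} (hX : GapD X D) (hY : GapD Y D) (hD : 2 ≤ D) {n : ℕ} (hn : n < P.m)
    {l : ℤ} (h0 : D ≤ l) (h1 : l + D ≤ ln P X Y n) {r : ℤ} (hr : r < D) :
    Thin (Sd (P.side n).2 (bp P X Y n l)) (EL P X Y) (WL P X Y) r := by
  refine thin_side (fun i j h => (hX.gap hD).le_iff.2 h) (fun i j h => (hY.gap hD).le_iff.2 h)
    EL_sub (bp_onCell (hX.gap hD) (hY.gap hD) (by omega) (by omega))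
    (beyond_far hX hY hD h0 h1 hr) ?_
  intro e he he'
  have h2 := T_far hX hY hD hn h0 h1 (WL_ends he).1
  rw [mem_Bx] at he'
  unfold far eu at h2
  simp only at h2
  rw [← not_lt, ← not_lt, abs_lt, abs_lt] at h2
  omega

end

/-- **Domination.** -/
theorem dom_pts : ∃ C : ℝ, 1 ≤ C ∧ ∀ {P : PType} {X Y : ℤ → ℤ} {D : ℤ} (_ : GapD X D)
    (_ : GapD Y D) (_ : 2 ≤ D) {ι : Type} (s : Finset ι) (n : ι → ℕ) (l r : ι → ℤ)
    (_ : ∀ i ∈ s, n i < P.m) (_ : ∀ i ∈ s, D ≤ l i ∧ l i + D ≤ ln P X Y (n i))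
    (_ : ∀ i ∈ s, 1 ≤ r i ∧ r i < D)
    (_ : ∀ i ∈ s, ∀ j ∈ s, i ≠ j → n i = n j → r i ≤ |l i - l j|),
    Pr (EL P X Y) (fun ω => ∀ i ∈ s, CT P X Y (bp P X Y (n i) (l i)) ω) ≤
      ∏ i ∈ s, (C * (r i : ℝ) ^ (-(1 / 3) : ℝ)) := by
  obtain ⟨C, hC, h⟩ := kpoint_dist
  refine ⟨C, hC, ?_⟩
  intro P X Y D hX hY hD ι s n l r hn hl hr hd
  have hmN := P.hmN
  refine h s (fun i => bp P X Y (n i) (l i)) (fun i => (P.side (n i)).2) r
    (fun i hi => (hr i hi).1) ?_ (fun i hi => thin_bp hX hY hD (hn i hi) (hl i hi).1 (hl i hi).2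
    (hr i hi).2) (fun _ => TV P X Y) (fun i hi v hv => far_mono (hr i hi).2.le
    (T_far hX hY hD (hn i hi) (hl i hi).1 (hl i hi).2 hv))
  intro i hi j hj hij
  by_cases hne : n i = n j
  · have h1 := hd i hi j hj hij hne
    rw [← hne]
    exact far_same h1
  · have h2 := hn i hi
    have h3 := hn j hj
    have h4 := hl j hj
    rcases side_far hX hY hD (by omega) (by omega) (hl i hi).1 (hl i hi).2
      (show 0 ≤ l j by omega) (show l j ≤ ln P X Y (n j) by omega) with h7 | h7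
    · exact absurd h7 hne
    · exact far_mono (hr i hi).2.le h7

/-- the elementary product bound -/
lemma prod_bound {m : ℕ} {G : Fin m → ℝ} {t : Fin (m + 1) → ℝ} {d κ M : ℝ} (hκ : 0 < κ)
    (hκ1 : κ ≤ 1) (hd : κ ≤ d) (hM : 1 ≤ M) (hG : ∀ i, 0 < G i ∧ G i ≤ M)
    (ht : ∀ l, t l = min d (min ((Fin.cons d G : Fin (m + 1) → ℝ) l)
      ((Fin.snoc G d : Fin (m + 1) → ℝ) l))) :
    ∏ l, t l ^ (-(1 / 3) : ℝ) ≤ (κ ^ (-(1 / 3) : ℝ) * M ^ (2 / 3 : ℝ)) ^ (m + 1) *
      ∏ i, G i ^ (-(2 / 3) : ℝ) := by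
  have hM0 : 0 < M := by linarith
  set a : Fin m → ℝ := fun i => (G i / M) ^ (-(1 / 3) : ℝ) with ha
  have ha1 : ∀ i, 1 ≤ a i := by
    intro i
    have h1 : 0 < G i / M := div_pos (hG i).1 hM0
    have h2 : G i / M ≤ 1 := by rw [div_le_one hM0]; exact (hG i).2
    exact Real.one_le_rpow_of_pos_of_le_one_of_nonpos h1 h2 (by norm_num)
  set A : Fin (m + 1) → ℝ := Fin.cons 1 a with hA
  set B : Fin (m + 1) → ℝ := Fin.snoc a 1 with hB
  have hA1 : ∀ l, 1 ≤ A l := by
    intro l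
    refine Fin.cases ?_ (fun i => ?_) l
    · rw [hA, Fin.cons_zero]
    · rw [hA, Fin.cons_succ]; exact ha1 i
  have hB1 : ∀ l, 1 ≤ B l := by
    intro l
    refine Fin.lastCases ?_ (fun i => ?_) l
    · rw [hB, Fin.snoc_last]
    · rw [hB, Fin.snoc_castSucc]; exact ha1 i
  have hprev : ∀ l, κ * 1 ≤ (Fin.cons d G : Fin (m + 1) → ℝ) l ∧ A l = 1 ∨
      ∃ u, 0 < u ∧ κ * u ≤ (Fin.cons d G : Fin (m + 1) → ℝ) l ∧ A l = u ^ (-(1 / 3) : ℝ) := by
    intro l
    refine Fin.cases ?_ (fun i => ?_) l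
    · left; rw [Fin.cons_zero, hA, Fin.cons_zero]; exact ⟨by linarith, rfl⟩
    · right
      refine ⟨G i / M, div_pos (hG i).1 hM0, ?_, ?_⟩
      · rw [Fin.cons_succ]
        have h2 : G i / M ≤ G i := div_le_self (hG i).1.le hM
        have := (hG i).1
        have h3 : 0 < G i / M := div_pos (hG i).1 hM0
        nlinarith
      · rw [hA, Fin.cons_succ]
  have hnext : ∀ l, κ * 1 ≤ (Fin.snoc G d : Fin (m + 1) → ℝ) l ∧ B l = 1 ∨
      ∃ u, 0 < u ∧ κ * u ≤ (Fin.snoc G d : Fin (m + 1) → ℝ) l ∧ B l = u ^ (-(1 / 3) : ℝ) := by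
    intro l
    refine Fin.lastCases ?_ (fun i => ?_) l
    · left; rw [Fin.snoc_last, hB, Fin.snoc_last]; exact ⟨by linarith, rfl⟩
    · right
      refine ⟨G i / M, div_pos (hG i).1 hM0, ?_, ?_⟩
      · rw [Fin.snoc_castSucc]
        have h2 : G i / M ≤ G i := div_le_self (hG i).1.le hM
        have := (hG i).1
        have h3 : 0 < G i / M := div_pos (hG i).1 hM0
        nlinarith
      · rw [hB, Fin.snoc_castSucc]
  have hκ3 : 0 < κ ^ (-(1 / 3) : ℝ) := Real.rpow_pos_of_pos hκ _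
  have key : ∀ v u : ℝ, 0 < u → κ * u ≤ v → v ^ (-(1 / 3) : ℝ) ≤
      κ ^ (-(1 / 3) : ℝ) * u ^ (-(1 / 3) : ℝ) := by
    intro v u hu huv
    rw [← Real.mul_rpow hκ.le hu.le]
    exact Real.rpow_le_rpow_of_nonpos (by positivity) huv (by norm_num)
  have hone : ∀ l, t l ^ (-(1 / 3) : ℝ) ≤ κ ^ (-(1 / 3) : ℝ) * (A l * B l) := by
    intro l
    have hA0 := hA1 l
    have hB0 := hB1 l
    rw [ht l]
    rcases min_choice d (min ((Fin.cons d G : Fin (m + 1) → ℝ) l)
      ((Fin.snoc G d : Fin (m + 1) → ℝ) l)) with h1 | h1 <;> rw [h1]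
    · have h2 := key d 1 one_pos (by linarith)
      rw [Real.one_rpow] at h2
      refine h2.trans ?_
      gcongr
      nlinarith
    · rcases min_choice ((Fin.cons d G : Fin (m + 1) → ℝ) l)
        ((Fin.snoc G d : Fin (m + 1) → ℝ) l) with h1 | h1 <;> rw [h1]
      · rcases hprev l with ⟨h3, h4⟩ | ⟨u, hu, h3, h4⟩
        · have h2 := key _ 1 one_pos h3
          rw [Real.one_rpow] at h2
          refine h2.trans ?_
          gcongr
          nlinarith
        · have h2 := key _ u hu h3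
          rw [← h4] at h2
          refine h2.trans ?_
          gcongr
          nlinarith
      · rcases hnext l with ⟨h3, h4⟩ | ⟨u, hu, h3, h4⟩
        · have h2 := key _ 1 one_pos h3
          rw [Real.one_rpow] at h2
          refine h2.trans ?_
          gcongr
          nlinarith
        · have h2 := key _ u hu h3
          rw [← h4] at h2
          refine h2.trans ?_
          gcongr
          nlinarith
  have htpos : ∀ l, 0 < t l := by
    intro l
    have h1 : 0 < (Fin.cons d G : Fin (m + 1) → ℝ) l := by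
      refine Fin.cases ?_ (fun i => ?_) l
      · rw [Fin.cons_zero]; linarith
      · rw [Fin.cons_succ]; exact (hG i).1
    have h2 : 0 < (Fin.snoc G d : Fin (m + 1) → ℝ) l := by
      refine Fin.lastCases ?_ (fun i => ?_) l
      · rw [Fin.snoc_last]; linarith
      · rw [Fin.snoc_castSucc]; exact (hG i).1
    rw [ht l]
    exact lt_min (by linarith) (lt_min h1 h2)
  have hA' : ∏ l, A l = ∏ i, a i := by
    rw [Fin.prod_univ_succ, hA, Fin.cons_zero, one_mul]
    rfl
  have hB' : ∏ l, B l = ∏ i, a i := by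
    rw [Fin.prod_univ_castSucc, hB, Fin.snoc_last, mul_one]
    refine Finset.prod_congr rfl fun i _ => ?_
    rw [Fin.snoc_castSucc]
  have haa : ∀ i, a i * a i = M ^ (2 / 3 : ℝ) * G i ^ (-(2 / 3) : ℝ) := by
    intro i
    have h1 : 0 < G i / M := div_pos (hG i).1 hM0
    rw [ha]
    simp only
    rw [← Real.rpow_add h1, Real.div_rpow (hG i).1.le hM0.le]
    rw [div_eq_mul_inv, ← Real.rpow_neg hM0.le, mul_comm]
    norm_num
  calc ∏ l, t l ^ (-(1 / 3) : ℝ) ≤ ∏ l, κ ^ (-(1 / 3) : ℝ) * (A l * B l) :=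
        prod_le_prod (fun l _ => Real.rpow_nonneg (htpos l).le _) fun l _ => hone l
    _ = (κ ^ (-(1 / 3) : ℝ)) ^ (m + 1) * ((∏ i, a i) * ∏ i, a i) := by
        rw [prod_mul_distrib, prod_const, prod_mul_distrib, hA', hB', card_univ, Fintype.card_fin]
    _ = (κ ^ (-(1 / 3) : ℝ)) ^ (m + 1) * ((M ^ (2 / 3 : ℝ)) ^ m * ∏ i, G i ^ (-(2 / 3) : ℝ)) := by
        rw [← prod_mul_distrib, prod_congr rfl fun i _ => haa i, prod_mul_distrib, prod_const,
          card_univ, Fintype.card_fin]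
    _ ≤ _ := by
        have h1 : (1:ℝ) ≤ M ^ (2 / 3 : ℝ) := Real.one_le_rpow hM (by norm_num)
        have h2 : 0 ≤ ∏ i, G i ^ (-(2 / 3) : ℝ) :=
          prod_nonneg fun i _ => Real.rpow_nonneg (hG i).1.le _
        rw [mul_pow, mul_assoc]
        gcongr
        · omega

end Pool.Agent.H4.Q1
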