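import Mathlib
import Pool.Agent.H4.Q1.C3Dom
import Pool.Agent.H4.Q1.C3

set_option autoImplicit false
open Finset

/-! The points of the inner parts of several free sides, indexed by integers (module M5, step C3):
domination, small values of the number of connected points, points near the vertices. -/

namespace Pool.Agent.H4.Q1

open Pool.Agent.H75.Perc hiding WL
open Pool.Agent.H75.TwoArm Pool.Agent.H75.Four Pool.Agent.H65.Dom
open Pool.Agent.H49.Q1 Pool.Agent.Q1.M4 Pool.Agent.Q1.M5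

/-- indices `y = n * L + l` of the inner points of the sides `n1 ≤ n < n2` -/
noncomputable def IS (P : PType) (X Y : ℤ → ℤ) (n1 n2 : ℕ) (D L : ℤ) : Finset ℤ :=
  (Finset.Ico (n1 * L) (n2 * L)).filter
    (fun y => 2 * D ≤ y % L ∧ y % L + D ≤ ln P X Y (y / L).toNat)

/-- the point with index `y` -/
def pS (P : PType) (X Y : ℤ → ℤ) (L y : ℤ) : ℤ × ℤ := bp P X Y (y / L).toNat (y % L)

section
variable {P : PType} {X Y : ℤ → ℤ}

lemma mem_IS {n1 n2 : ℕ} {D L : ℤ} (hL : 0 < L) {y : ℤ} : y ∈ IS P X Y n1 n2 D L ↔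
    ∃ n : ℕ, n1 ≤ n ∧ n < n2 ∧ (n : ℤ) = y / L ∧ 2 * D ≤ y % L ∧ y % L + D ≤ ln P X Y n := by
  unfold IS
  rw [mem_filter, Finset.mem_Ico]
  constructor
  · rintro ⟨⟨h1, h2⟩, h3, h4⟩
    have h5 : (n1 : ℤ) ≤ y / L := by rw [Int.le_ediv_iff_mul_le hL]; exact h1
    have h6 : y / L < (n2 : ℤ) := by rw [Int.ediv_lt_iff_lt_mul hL]; exact h2
    refine ⟨(y / L).toNat, by omega, by omega, by omega, h3, h4⟩
  · rintro ⟨n, h1, h2, h3, h4, h5⟩
    have h6 : (y / L).toNat = n := by omega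
    rw [h6]
    refine ⟨⟨?_, ?_⟩, h4, h5⟩
    · rw [← Int.le_ediv_iff_mul_le hL]; omega
    · rw [← Int.ediv_lt_iff_lt_mul hL]; omega

/-- **Domination for the indexed points.** -/
theorem dom_IS : ∃ C : ℝ, 1 ≤ C ∧ ∀ {P : PType} {X Y : ℤ → ℤ} {D L : ℤ} (_ : GapD X D)
    (_ : GapD Y D) (_ : 2 ≤ D) (_ : 0 < L) {n1 n2 : ℕ} (_ : n2 ≤ P.m) {R κ M c p : ℝ} (_ : 0 < R)
    (_ : 0 < κ) (_ : κ ≤ 1) (_ : κ * R ≤ D - 1) (_ : 1 ≤ M) (_ : (n2 * L : ℤ) ≤ M * R) (_ : 0 < c)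
    (_ : c * R ^ (-(1 / 3) : ℝ) ≤ p) (m : ℕ) (y : Fin (m + 1) → ℤ) (_ : StrictMono y)
    (_ : ∀ l, y l ∈ IS P X Y n1 n2 D L),
    Pr (EL P X Y) (fun ω => ∀ l, CT P X Y (pS P X Y L (y l)) ω) ≤
      (C * (κ ^ (-(1 / 3) : ℝ) * M ^ (2 / 3 : ℝ)) / c * p) ^ (m + 1) *
        ∏ l : Fin m, (((y l.succ - y l.castSucc : ℤ) : ℝ) / R) ^ (-(2 / 3) : ℝ) := by
  obtain ⟨C, hC, hdom⟩ := dom_pts
  refine ⟨C, hC, ?_⟩
  intro P X Y D L hX hY hD hL n1 n2 hn2 R κ M c p hR hκ hκ1 hκD hM hML hc hp m y hy hyI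
  set g : Fin m → ℤ := fun l => y l.succ - y l.castSucc with hg
  set r : Fin (m + 1) → ℤ := fun l => min (D - 1) (min ((Fin.cons (D - 1) g : Fin (m + 1) → ℤ) l)
    ((Fin.snoc g (D - 1) : Fin (m + 1) → ℤ) l)) with hr
  have hg1 : ∀ i, 1 ≤ g i := by
    intro i
    have := hy (Fin.castSucc_lt_succ (i := i))
    rw [hg]; simp only; omega
  have hcons1 : ∀ l, 1 ≤ (Fin.cons (D - 1) g : Fin (m + 1) → ℤ) l := by
    intro l
    refine Fin.cases ?_ (fun i => ?_) l
    · rw [Fin.cons_zero]; omega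
    · rw [Fin.cons_succ]; exact hg1 i
  have hsnoc1 : ∀ l, 1 ≤ (Fin.snoc g (D - 1) : Fin (m + 1) → ℤ) l := by
    intro l
    refine Fin.lastCases ?_ (fun i => ?_) l
    · rw [Fin.snoc_last]; omega
    · rw [Fin.snoc_castSucc]; exact hg1 i
  have hr1 : ∀ l, 1 ≤ r l := fun l => le_min (by omega) (le_min (hcons1 l) (hsnoc1 l))
  have hrD : ∀ l, r l < D := by
    intro l
    have : r l ≤ D - 1 := min_le_left _ _
    omega
  have hmem := fun l => (mem_IS hL).1 (hyI l)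
  have hgap : ∀ i j, i ≠ j → r i ≤ |y i - y j| := by
    intro i j hij
    rcases lt_or_gt_of_ne hij with h | h
    · -- i < j
      have hi : i ≠ Fin.last m := by
        intro h2; rw [h2] at h
        exact absurd h (not_lt.2 (Fin.le_last j))
      obtain ⟨i', rfl⟩ := Fin.exists_castSucc_eq.2 hi
      have h1 : r i'.castSucc ≤ g i' := by
        refine (min_le_right _ _).trans ((min_le_right _ _).trans ?_)
        rw [Fin.snoc_castSucc]
      have h2 : y i'.succ ≤ y j := hy.monotone (by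
        rw [Fin.le_def]
        have := h
        rw [Fin.lt_def] at this
        simp only [Fin.val_succ, Fin.val_castSucc] at this ⊢
        omega)
      have h3 : g i' = y i'.succ - y i'.castSucc := rfl
      have h4 : y j - y i'.castSucc ≤ |y i'.castSucc - y j| := by
        rw [abs_sub_comm]; exact le_abs_self _
      omega
    · have hi : i ≠ 0 := by
        intro h2; rw [h2] at h
        exact absurd h (not_lt.2 (Fin.zero_le j))
      obtain ⟨i', rfl⟩ := Fin.exists_succ_eq.2 hi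
      have h1 : r i'.succ ≤ g i' := by
        refine (min_le_right _ _).trans ((min_le_left _ _).trans ?_)
        rw [Fin.cons_succ]
      have h2 : y j ≤ y i'.castSucc := hy.monotone (by
        rw [Fin.le_def]
        have := h
        rw [Fin.lt_def] at this
        simp only [Fin.val_succ, Fin.val_castSucc] at this ⊢
        omega)
      have h3 : g i' = y i'.succ - y i'.castSucc := rfl
      have h4 : y i'.succ - y j ≤ |y i'.succ - y j| := le_abs_self _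
      omega
  have h1 := hdom hX hY hD (univ : Finset (Fin (m + 1))) (fun l => (y l / L).toNat)
    (fun l => y l % L) r (fun l _ => by
      obtain ⟨n, a1, a2, a3, -, -⟩ := hmem l
      show (y l / L).toNat < P.m
      omega)
    (fun l _ => by
      obtain ⟨n, a1, a2, a3, a4, a5⟩ := hmem l
      have : (y l / L).toNat = n := by omega
      simp only [this]
      exact ⟨by omega, a5⟩)
    (fun l _ => ⟨hr1 l, hrD l⟩)
    (fun i _ j _ hij hne => by
      obtain ⟨n, -, -, a3, -, -⟩ := hmem i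
      obtain ⟨n', -, -, b3, -, -⟩ := hmem j
      have h2 := hgap i j hij
      have hne' : (y i / L).toNat = (y j / L).toNat := hne
      have h3 : y i / L = y j / L := by omega
      have h4 := Int.emod_add_mul_ediv (y i) L
      have h5 := Int.emod_add_mul_ediv (y j) L
      rw [h3] at h4
      have h6 : y i - y j = y i % L - y j % L := by linarith
      rwa [← h6])
  have h2 : Pr (EL P X Y) (fun ω => ∀ l, CT P X Y (pS P X Y L (y l)) ω) ≤
      ∏ l, (C * (r l : ℝ) ^ (-(1 / 3) : ℝ)) := by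
    refine le_trans (le_of_eq ?_) h1
    congr 1
    funext ω
    simp [pS]
  refine h2.trans ?_
  -- real form
  set G : Fin m → ℝ := fun i => (g i : ℝ) / R with hG
  set d : ℝ := ((D - 1 : ℤ) : ℝ) / R with hd
  have hMR : ∀ i, G i ≤ M := by
    intro i
    rw [hG]
    simp only
    rw [div_le_iff₀ hR]
    refine le_trans ?_ hML
    have h3 : g i ≤ n2 * L := by
      obtain ⟨n, a1, a2, a3, a4, a5⟩ := hmem i.castSucc
      obtain ⟨n', b1, b2, b3, b4, b5⟩ := hmem i.succ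
      have h4 : y i.succ < n2 * L := by
        rw [← Int.ediv_lt_iff_lt_mul hL]; omega
      have h5 : 0 ≤ y i.castSucc := by
        have : 0 ≤ y i.castSucc / L := by omega
        by_contra h6
        have := Int.ediv_neg_of_neg_of_pos (not_le.1 h6) hL
        omega
      rw [hg]; simp only; omega
    exact_mod_cast h3
  have hGpos : ∀ i, 0 < G i := by
    intro i
    have : (0:ℝ) < g i := by exact_mod_cast (show 0 < g i by have := hg1 i; omega)
    rw [hG]; positivity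
  have hκd : κ ≤ d := by
    rw [hd, le_div_iff₀ hR]
    push_cast
    exact hκD
  have ht : ∀ l, (r l : ℝ) / R = min d (min ((Fin.cons d G : Fin (m + 1) → ℝ) l)
      ((Fin.snoc G d : Fin (m + 1) → ℝ) l)) := by
    intro l
    have e1 : (((Fin.cons (D - 1) g : Fin (m + 1) → ℤ) l : ℤ) : ℝ) / R =
        (Fin.cons d G : Fin (m + 1) → ℝ) l := by
      refine Fin.cases ?_ (fun i => ?_) l
      · rw [Fin.cons_zero, Fin.cons_zero]
      · rw [Fin.cons_succ, Fin.cons_succ]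
    have e2 : (((Fin.snoc g (D - 1) : Fin (m + 1) → ℤ) l : ℤ) : ℝ) / R =
        (Fin.snoc G d : Fin (m + 1) → ℝ) l := by
      refine Fin.lastCases ?_ (fun i => ?_) l
      · rw [Fin.snoc_last, Fin.snoc_last]
      · rw [Fin.snoc_castSucc, Fin.snoc_castSucc]
    rw [← e1, ← e2, hr]
    simp only
    rw [Int.cast_min, Int.cast_min, min_div_div_right hR.le, min_div_div_right hR.le]
  have h3 := prod_bound hκ hκ1 hκd hM (fun i => ⟨hGpos i, hMR i⟩) ht
  have hterm : ∀ l, C * (r l : ℝ) ^ (-(1 / 3) : ℝ) ≤ (C / c * p) * ((r l : ℝ) / R) ^ (-(1 / 3) : ℝ) := by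
    intro l
    have hr0 : (0:ℝ) < r l := by exact_mod_cast (show 0 < r l by have := hr1 l; omega)
    have e1 : (r l : ℝ) ^ (-(1 / 3) : ℝ) = R ^ (-(1 / 3) : ℝ) * ((r l : ℝ) / R) ^ (-(1 / 3) : ℝ) := by
      rw [← Real.mul_rpow hR.le (by positivity)]
      congr 1
      field_simp
    rw [e1, ← mul_assoc]
    have h4 : 0 ≤ ((r l : ℝ) / R) ^ (-(1 / 3) : ℝ) := Real.rpow_nonneg (by positivity) _
    refine mul_le_mul_of_nonneg_right ?_ h4
    rw [div_mul_eq_mul_div, le_div_iff₀ hc]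
    nlinarith
  have hp0 : 0 ≤ p := le_trans (by positivity) hp
  calc ∏ l, (C * (r l : ℝ) ^ (-(1 / 3) : ℝ))
      ≤ ∏ l, (C / c * p) * ((r l : ℝ) / R) ^ (-(1 / 3) : ℝ) := by
        refine prod_le_prod (fun l _ => ?_) fun l _ => hterm l
        have hr0 : (0:ℝ) < r l := by exact_mod_cast (show 0 < r l by have := hr1 l; omega)
        positivity
    _ = (C / c * p) ^ (m + 1) * ∏ l, ((r l : ℝ) / R) ^ (-(1 / 3) : ℝ) := by
        rw [prod_mul_distrib, prod_const, card_univ, Fintype.card_fin]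
    _ ≤ (C / c * p) ^ (m + 1) * ((κ ^ (-(1 / 3) : ℝ) * M ^ (2 / 3 : ℝ)) ^ (m + 1) *
        ∏ i, G i ^ (-(2 / 3) : ℝ)) := by
        have : 0 ≤ C / c * p := by positivity
        gcongr
    _ = _ := by
        rw [← mul_assoc, ← mul_pow]
        congr 2
        ring

/-! ### Small values -/

lemma NN_pos {n1 n2 : ℕ} {D L : ℤ} (hL : 0 < L) {ω : Finset (ℤ × ℤ)}
    (h : 0 < NN (IS P X Y n1 n2 D L) (fun y => CT P X Y (pS P X Y L y)) ω) :
    ∃ n : ℕ, n1 ≤ n ∧ n < n2 ∧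
      0 < cnt (Finset.Icc (2 * D) (ln P X Y n - D)) (fun l => CT P X Y (bp P X Y n l)) ω := by
  classical
  unfold NN at h
  obtain ⟨y, hy⟩ := Finset.card_pos.1 h
  rw [mem_filter, mem_IS hL] at hy
  obtain ⟨⟨n, h1, h2, h3, h4, h5⟩, h6⟩ := hy
  refine ⟨n, h1, h2, ?_⟩
  unfold cnt
  refine Finset.card_pos.2 ⟨y % L, mem_filter.2 ⟨Finset.mem_Icc.2 ⟨h4, by omega⟩, ?_⟩⟩
  unfold pS at h6
  have : (y / L).toNat = n := by omega
  rwa [this] at h6

lemma cnt_le_NN {n1 n2 : ℕ} {D L : ℤ} (hL : 0 < L) {ω : Finset (ℤ × ℤ)} {n : ℕ} (h1 : n1 ≤ n)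
    (h2 : n < n2) (hD : 0 ≤ D) (hln : ln P X Y n - D < L) :
    cnt (Finset.Icc (2 * D) (ln P X Y n - D)) (fun l => CT P X Y (bp P X Y n l)) ω ≤
      NN (IS P X Y n1 n2 D L) (fun y => CT P X Y (pS P X Y L y)) ω := by
  classical
  unfold NN cnt
  refine Finset.card_le_card_of_injOn (fun l => n * L + l) ?_ ?_
  · intro l hl
    rw [Finset.mem_coe, mem_filter, Finset.mem_Icc] at hl
    obtain ⟨⟨h3, h4⟩, h5⟩ := hl
    have e1 : (n * L + l) / L = n := by
      rw [add_comm, Int.add_mul_ediv_right _ _ (by omega), Int.ediv_eq_zero_of_lt (by omega)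
        (by omega), zero_add]
    have e2 : (n * L + l) % L = l := by
      rw [add_comm, Int.add_mul_emod_self_right, Int.emod_eq_of_lt (by omega) (by omega)]
    rw [Finset.mem_coe, mem_filter, mem_IS hL]
    refine ⟨⟨n, h1, h2, e1.symm, by rw [e2]; exact h3, by rw [e2]; omega⟩, ?_⟩
    change CT P X Y (bp P X Y ((n * L + l) / L).toNat ((n * L + l) % L)) ω
    rw [e1, e2, Int.toNat_natCast]
    exact h5
  · intro a _ b _ h
    simp only at h
    omega

lemma Pr_union_le {α : Type*} [DecidableEq α] (E : Finset α) {ι : Type*} (s : Finset ι)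
    (A : ι → Finset α → Prop) : Pr E (fun ω => ∃ i ∈ s, A i ω) ≤ ∑ i ∈ s, Pr E (A i) := by
  classical
  induction s using Finset.induction_on with
  | empty =>
    simp only [notMem_empty, false_and, exists_false, sum_empty]
    rw [Pr_eq]; simp
  | insert a s ha ih =>
    rw [sum_insert ha]
    refine le_trans (le_trans (Pr_mono fun ω _ h => ?_) (Pr_or_le E (A a) (fun ω => ∃ i ∈ s, A i ω))) ?_
    · obtain ⟨i, hi, h⟩ := h
      rcases mem_insert.1 hi with rfl | hi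
      · exact Or.inl h
      · exact Or.inr ⟨i, hi, h⟩
    · linarith

/-- the number of connected indexed points is not small if it is positive -/
theorem small_IS : ∃ c q δ : ℝ, 0 < c ∧ 0 < q ∧ q ≤ 1 ∧ 0 < δ ∧ δ < 1 ∧
    ∀ {P : PType} {X Y : ℤ → ℤ} {D L : ℤ} (_ : GapD X D) (_ : GapD Y D) (_ : 2 ≤ D) (_ : 0 < L)
    {n1 n2 : ℕ} (_ : n2 ≤ P.m) (_ : ∀ n < n2, ln P X Y n ≤ L)
    (n' K k : ℕ) (ρ : ℤ) (_ : 1 ≤ n') (_ : 32 * (4 ^ K * (n' : ℤ)) ≤ ρ) (_ : 4 ^ k * ρ ≤ D - 1),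
    Pr (EL P X Y) (fun ω => 0 < NN (IS P X Y n1 n2 D L) (fun y => CT P X Y (pS P X Y L y)) ω ∧
      (NN (IS P X Y n1 n2 D L) (fun y => CT P X Y (pS P X Y L y)) ω : ℝ) <
        c * (n' : ℝ) ^ (2 / 3 : ℝ)) ≤ n2 * ((1 - q) ^ K + (1 - δ) ^ k) := by
  obtain ⟨c, q, δ, hc, hq, hq1, hδ, hδ1, hs⟩ := small_side
  refine ⟨c, q, δ, hc, hq, hq1, hδ, hδ1, ?_⟩
  intro P X Y D L hX hY hD hL n1 n2 hn2 hlen n' K k ρ hn' hρ hk
  have h0 : 0 ≤ (1 - q) ^ K + (1 - δ) ^ k := by
    have : 0 ≤ 1 - q := by linarith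
    have : 0 ≤ 1 - δ := by linarith
    positivity
  refine (Pr_mono (B := fun ω => ∃ n ∈ Finset.Ico n1 n2,
    (0 < cnt (Finset.Icc (2 * D) (ln P X Y n - D)) (fun y => CT P X Y (bp P X Y n y)) ω ∧
      (cnt (Finset.Icc (2 * D) (ln P X Y n - D)) (fun y => CT P X Y (bp P X Y n y)) ω : ℝ) <
        c * (n' : ℝ) ^ (2 / 3 : ℝ))) fun ω _ h => ?_).trans ?_
  · obtain ⟨n, h1, h2, h3⟩ := NN_pos hL h.1
    refine ⟨n, Finset.mem_Ico.2 ⟨h1, h2⟩, h3, lt_of_le_of_lt ?_ h.2⟩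
    exact_mod_cast cnt_le_NN hL h1 h2 (by omega) (by have := hlen n h2; omega)
  · refine (Pr_union_le _ _ _).trans ?_
    calc ∑ n ∈ Finset.Ico n1 n2, Pr (EL P X Y) (fun ω =>
          0 < cnt (Finset.Icc (2 * D) (ln P X Y n - D)) (fun y => CT P X Y (bp P X Y n y)) ω ∧
          (cnt (Finset.Icc (2 * D) (ln P X Y n - D)) (fun y => CT P X Y (bp P X Y n y)) ω : ℝ) <
            c * (n' : ℝ) ^ (2 / 3 : ℝ))
        ≤ ∑ n ∈ Finset.Ico n1 n2, ((1 - q) ^ K + (1 - δ) ^ k) := by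
          refine sum_le_sum fun n hn => ?_
          rw [Finset.mem_Ico] at hn
          exact hs hX hY hD (by omega) le_rfl (by omega) n' K k ρ hn' hρ hk
      _ = ((n2 - n1 : ℕ) : ℝ) * ((1 - q) ^ K + (1 - δ) ^ k) := by
          rw [sum_const, Nat.card_Ico, nsmul_eq_mul]
      _ ≤ _ := by
          have : ((n2 - n1 : ℕ) : ℝ) ≤ n2 := by exact_mod_cast Nat.sub_le _ _
          gcongr

/-! ### Points near the vertices -/

/-- a path to a far vertex has an open beginning which reaches a far vertex -/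
lemma leave_far {W ω : Finset (ℤ × ℤ)} {x : ℤ × ℤ} {D : ℤ} (hW : ∀ a b, Ad W a b → far x a D)
    {u v : ℤ × ℤ} (h : Co (ω ∪ W) u v) (hv : far x v D) : ∃ z, far x z D ∧ Co ω u z := by
  have key : Co ω u v ∨ ∃ z, far x z D ∧ Co ω u z := by
    clear hv
    induction h with
    | refl => exact Or.inl (Co.refl _ _)
    | @tail a b _ hab ih =>
      rcases ih with ih | ih
      · rcases mem_union.1 hab.2 with h1 | h1
        · exact Or.inl (Relation.ReflTransGen.tail ih ⟨hab.1, h1⟩)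
        · exact Or.inr ⟨a, hW a b ⟨hab.1, h1⟩, ih⟩
      · exact Or.inr ih
  rcases key with h1 | h1
  · exact ⟨v, hv, h1⟩
  · exact h1

lemma Ad_WL {a b : ℤ × ℤ} (h : Ad (WL P X Y) a b) : TV P X Y a := by
  have h1 := WL_ends h.2
  rcases ends_of (odd_of_unit h.1) h.1 rfl with ⟨h4, -⟩ | ⟨h4, -⟩
  · rw [h4]; exact h1.1
  · rw [h4]; exact h1.2

lemma bp_near {n : ℕ} {l l' r : ℤ} (h : |l - l'| ≤ r) :
    |(bp P X Y n l).1 - (bp P X Y n l').1| ≤ r ∧ |(bp P X Y n l).2 - (bp P X Y n l').2| ≤ r := by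
  have h0 : 0 ≤ r := (abs_nonneg _).trans h
  unfold bp
  rw [abs_le] at h
  rcases bw_cases X Y (P.side n) l with ⟨a, -, -, -, -, f⟩ | ⟨a, -, -, -, -, f⟩ |
    ⟨a, -, -, -, -, f⟩ | ⟨a, -, -, -, -, f⟩ <;>
  rcases bw_cases X Y (P.side n) l' with ⟨c, -, -, -, -, g⟩ | ⟨c, -, -, -, -, g⟩ |
    ⟨c, -, -, -, -, g⟩ | ⟨c, -, -, -, -, g⟩ <;> first | (exfalso; omega) | skip
  all_goals
    rw [f, g, abs_le, abs_le]
    simp only
    omega

/-- **Cutting off the vertices.** -/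
theorem cut_IS : ∃ δ : ℝ, 0 < δ ∧ δ < 1 ∧
    ∀ {P : PType} {X Y : ℤ → ℤ} {D0 D L : ℤ} (_ : GapD X D0) (_ : GapD Y D0) (_ : 2 ≤ D0)
    (_ : 1 ≤ D) (_ : 0 < L) {n1 n2 : ℕ} (_ : 0 < n1) (_ : n2 < P.m) (_ : ∀ n < n2, ln P X Y n < L)
    (k : ℕ) (_ : 4 ^ k * (2 * D) ≤ D0),
    Pr (EL P X Y) (fun ω => CI P X Y n1 n2 ω ∧
      ¬ ∃ y ∈ IS P X Y n1 n2 D L, CT P X Y (pS P X Y L y) ω) ≤ (n2 + 1) * (1 - δ) ^ k := by
  obtain ⟨δ, hδ, hδ1, harm⟩ := open_arm_decay
  refine ⟨δ, hδ, hδ1, ?_⟩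
  intro P X Y D0 D L hX hY hD0 hD hL n1 n2 hn1 hn2 hlen k hk
  have hδ0 : 0 ≤ 1 - δ := by linarith
  obtain ⟨M, hM⟩ := exists_Boxed P X Y
  have hodd : ∀ e ∈ EL P X Y, (e.1 + e.2) % 2 = 1 := fun e he =>
    (H75.Four.HOrderAux.mem_BB'.1 (EL_box hM he)).2.2
  refine (Pr_mono (B := fun ω => ∃ n ∈ Finset.range (n2 + 1), (0 < n ∧ n < P.m) ∧
    ∃ u v : ℤ × ℤ, |u.1 - (bp P X Y n 0).1| ≤ 2 * D ∧ |u.2 - (bp P X Y n 0).2| ≤ 2 * D ∧
      (4 ^ k * (2 * D) ≤ |v.1 - (bp P X Y n 0).1| ∨ 4 ^ k * (2 * D) ≤ |v.2 - (bp P X Y n 0).2|) ∧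
      Co ω u v) fun ω _ h => ?_).trans ?_
  · obtain ⟨⟨n, h1, h2, v, h3, t, ht, hc⟩, hno⟩ := h
    obtain ⟨l, h4, h5, rfl⟩ := (sV_iff (hX.gap hD0) (hY.gap hD0)).1 h3
    -- near a vertex
    have hnear : ∃ n', 0 < n' ∧ n' ≤ n2 ∧
        |(bw X Y (P.side n) l).1 - (bp P X Y n' 0).1| ≤ 2 * D ∧
        |(bw X Y (P.side n) l).2 - (bp P X Y n' 0).2| ≤ 2 * D := by
      by_contra hcon
      push Not at hcon
      apply hno
      have hl1 : 2 * D ≤ l := by
        by_contra h6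
        have h7 := bp_near (P := P) (X := X) (Y := Y) (n := n) (l := l) (l' := 0) (r := 2 * D)
          (by rw [abs_le]; omega)
        have h8 := hcon n (by omega) (by omega) h7.1
        exact absurd h7.2 (not_le.2 h8)
      have hl2 : l + D ≤ ln P X Y n := by
        by_contra h6
        have h7 := bp_near (P := P) (X := X) (Y := Y) (n := n) (l := l) (l' := ln P X Y n)
          (r := 2 * D) (by rw [abs_le]; unfold ln at *; omega)
        rw [bp_end] at h7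
        have h8 := hcon (n + 1) (by omega) (by omega) h7.1
        exact absurd h7.2 (not_le.2 h8)
      have hlL := hlen n h2
      have e1 : (n * L + l) / L = n := by
        rw [add_comm, Int.add_mul_ediv_right _ _ (by omega), Int.ediv_eq_zero_of_lt (by omega)
          (by omega), zero_add]
      have e2 : (n * L + l) % L = l := by
        rw [add_comm, Int.add_mul_emod_self_right, Int.emod_eq_of_lt (by omega) (by omega)]
      refine ⟨n * L + l, (mem_IS hL).2 ⟨n, h1, h2, e1.symm, by rw [e2]; exact hl1,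
        by rw [e2]; exact hl2⟩, ?_⟩
      unfold pS
      rw [e1, e2, Int.toNat_natCast]
      exact ⟨t, ht, hc⟩
    obtain ⟨n', g1, g2, g3, g4⟩ := hnear
    obtain ⟨z, hz, hcz⟩ := leave_far (x := bp P X Y n' 0) (D := D0)
      (fun a b hab => T_far' hX hY hD0 g1 (by omega) (Ad_WL hab)) hc
      (T_far' hX hY hD0 g1 (by omega) ht)
    refine ⟨n', Finset.mem_range.2 (by omega), ⟨g1, by omega⟩, bw X Y (P.side n) l, z, g3, g4, ?_, hcz⟩
    unfold far at hz
    rw [abs_sub_comm z.1, abs_sub_comm z.2]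
    rcases hz with hz | hz
    · exact Or.inl (by omega)
    · exact Or.inr (by omega)
  · refine (Pr_union_le _ _ _).trans ?_
    calc _ ≤ ∑ n ∈ Finset.range (n2 + 1), (1 - δ) ^ k := by
          refine sum_le_sum fun n hn => ?_
          refine (Pr_mono fun ω _ h => h.2).trans (harm _ hodd (bp P X Y n 0) (2 * D) (by omega) k)
      _ = _ := by rw [sum_const, card_range, nsmul_eq_mul]; push_cast; ring

end

end Pool.Agent.H4.Q1
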