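import Mathlib
import Pool.Agent.H4.Q1.C3Sum

set_option autoImplicit false
open Finset

/-! The lattice domain of a type depends only on the lattice lines in a finite range of indices, and the
lines can be changed outside of the range so that all gaps are large (module M5, step C3). -/

namespace Pool.Agent.H4.Q1

open Pool.Agent.H75.Perc hiding WL
open Pool.Agent.H75.TwoArm Pool.Agent.H75.Four Pool.Agent.H65.Dom
open Pool.Agent.H49.Q1 Pool.Agent.Q1.M4 Pool.Agent.Q1.M5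

/-- range of the indices of a type -/
def InRange (P : PType) (B : ℤ) : Prop :=
  0 ≤ B ∧ ∀ c ∈ P.Q, (-B ≤ c.1 ∧ c.1 + 1 ≤ B) ∧ (-B ≤ c.2 ∧ c.2 + 1 ≤ B)

lemma exists_InRange (P : PType) : ∃ B, InRange P B := by
  refine ⟨∑ c ∈ P.Q, (|c.1| + |c.2| + 1), sum_nonneg fun c _ => by positivity, fun c hc => ?_⟩
  have h1 : |c.1| + |c.2| + 1 ≤ ∑ c ∈ P.Q, (|c.1| + |c.2| + 1) :=
    single_le_sum (f := fun c : ℤ × ℤ => |c.1| + |c.2| + 1) (fun e _ => by positivity) hc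
  have h3 := abs_le.1 (le_refl |c.1|)
  have h4 := abs_le.1 (le_refl |c.2|)
  have h5 := abs_nonneg c.1
  have h6 := abs_nonneg c.2
  omega

/-- equal lines in the range -/
def EqR (B : ℤ) (X X' : ℤ → ℤ) : Prop := ∀ i, -B ≤ i → i ≤ B → X i = X' i

/-- gaps in the range -/
def GapR (B : ℤ) (X : ℤ → ℤ) (D : ℤ) : Prop := ∀ i, -B ≤ i → i < B → X i + D ≤ X (i + 1)

lemma exists_ext {B : ℤ} {X : ℤ → ℤ} {D : ℤ} (hB : 0 ≤ B) (h : GapR B X D) :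
    ∃ X', GapD X' D ∧ EqR B X X' := by
  refine ⟨fun i => if i < -B then X (-B) + (i + B) * D else if B < i then X B + (i - B) * D
    else X i, fun i => ?_, fun i h1 h2 => ?_⟩
  · simp only
    split_ifs with h1 h2 h3 h4 h5 h6 h7
    · linarith
    · omega
    · have h8 : i = -B - 1 := by omega
      subst h8
      have : (-B - 1 + B) * D = -D := by ring
      rw [this, sub_add_cancel]
      linarith
    · omega
    · linarith
    · omega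
    · omega
    · have h8 : i = B := by omega
      subst h8
      have : (i + 1 - i) * D = D := by ring
      rw [this]
    · exact h i (by omega) (by omega)
  · simp only
    rw [if_neg (by omega), if_neg (by omega)]

section
variable {P : PType} {X Y X' Y' : ℤ → ℤ} {B : ℤ}

/-- agreement at the cells -/
lemma EqR.cell (hB : InRange P B) (hX : EqR B X X') (hY : EqR B Y Y') {c : Cell} (hc : c ∈ P.Q) :
    (X c.1 = X' c.1 ∧ X (c.1 + 1) = X' (c.1 + 1)) ∧ (Y c.2 = Y' c.2 ∧ Y (c.2 + 1) = Y' (c.2 + 1)) := by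
  obtain ⟨⟨h1, h2⟩, h3, h4⟩ := hB.2 c hc
  exact ⟨⟨hX _ h1 (by omega), hX _ (by omega) h2⟩, hY _ h3 (by omega), hY _ (by omega) h4⟩

lemma gcell_congr (hB : InRange P B) (hX : EqR B X X') (hY : EqR B Y Y') {c : Cell}
    (hc : c ∈ P.Q) : gcell X Y c = gcell X' Y' c := by
  obtain ⟨⟨h1, h2⟩, h3, h4⟩ := EqR.cell hB hX hY hc
  unfold gcell
  rw [h1, h2, h3, h4]

lemma gs_congr (hB : InRange P B) (hX : EqR B X X') (hY : EqR B Y Y') :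
    gs X Y P.Q = gs X' Y' P.Q := by
  ext e
  rw [mem_gs, mem_gs]
  constructor
  · rintro ⟨c, hc, h⟩
    exact ⟨c, hc, by rwa [← gcell_congr hB hX hY hc]⟩
  · rintro ⟨c, hc, h⟩
    exact ⟨c, hc, by rwa [gcell_congr hB hX hY hc]⟩

lemma sL_congr (hB : InRange P B) (hX : EqR B X X') (hY : EqR B Y Y') (n : ℕ) :
    Pool.Agent.Q1.M5.sL X Y (P.side n) = Pool.Agent.Q1.M5.sL X' Y' (P.side n) := by
  have hc := (isSide_side (P := P) n).1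
  obtain ⟨⟨h1, h2⟩, h3, h4⟩ := EqR.cell hB hX hY hc
  unfold Pool.Agent.Q1.M5.sL
  rw [gcell_congr hB hX hY hc, h1, h2, h3, h4]

lemma WL_congr (hB : InRange P B) (hX : EqR B X X') (hY : EqR B Y Y') :
    WL P X Y = WL P X' Y' := by
  unfold WL
  exact biUnion_congr rfl fun n _ => sL_congr hB hX hY n

lemma EL_congr (hB : InRange P B) (hX : EqR B X X') (hY : EqR B Y Y') :
    EL P X Y = EL P X' Y' := by
  unfold EL
  rw [gs_congr hB hX hY, WL_congr hB hX hY]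

lemma sV_congr (hB : InRange P B) (hX : EqR B X X') (hY : EqR B Y Y') (n : ℕ) (v : ℤ × ℤ) :
    sV X Y (P.side n) v ↔ sV X' Y' (P.side n) v := by
  have hc := (isSide_side (P := P) n).1
  obtain ⟨⟨h1, h2⟩, h3, h4⟩ := EqR.cell hB hX hY hc
  unfold sV onCell
  rw [h1, h2, h3, h4]

lemma TV_congr (hB : InRange P B) (hX : EqR B X X') (hY : EqR B Y Y') (v : ℤ × ℤ) :
    TV P X Y v ↔ TV P X' Y' v := by
  unfold TV
  simp only [sV_congr hB hX hY]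

lemma CT_congr (hB : InRange P B) (hX : EqR B X X') (hY : EqR B Y Y') (v : ℤ × ℤ)
    (ω : Finset (ℤ × ℤ)) : CT P X Y v ω ↔ CT P X' Y' v ω := by
  unfold Pool.Agent.Q1.M5.CT CJ
  rw [WL_congr hB hX hY]
  simp only [TV_congr hB hX hY]

lemma CI_congr (hB : InRange P B) (hX : EqR B X X') (hY : EqR B Y Y') (n1 n2 : ℕ)
    (ω : Finset (ℤ × ℤ)) : CI P X Y n1 n2 ω ↔ CI P X' Y' n1 n2 ω := by
  unfold CI
  simp only [sV_congr hB hX hY, CT_congr hB hX hY]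

lemma bp_congr (hB : InRange P B) (hX : EqR B X X') (hY : EqR B Y Y') (n : ℕ) (l : ℤ) :
    bp P X Y n l = bp P X' Y' n l ∧ ln P X Y n = ln P X' Y' n := by
  have hc := (isSide_side (P := P) n).1
  obtain ⟨⟨h1, h2⟩, h3, h4⟩ := EqR.cell hB hX hY hc
  unfold bp ln
  rcases bw_cases X Y (P.side n) l with ⟨a, -, -, -, e, f⟩ | ⟨a, -, -, -, e, f⟩ |
    ⟨a, -, -, -, e, f⟩ | ⟨a, -, -, -, e, f⟩ <;>
  rcases bw_cases X' Y' (P.side n) l with ⟨c, -, -, -, e', g⟩ | ⟨c, -, -, -, e', g⟩ |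
    ⟨c, -, -, -, e', g⟩ | ⟨c, -, -, -, e', g⟩ <;> first | (exfalso; omega) | skip
  all_goals
    rw [e, f, e', g]
    refine ⟨Prod.ext ?_ ?_, ?_⟩ <;> simp only [h1, h2, h3, h4]

lemma IS_congr (hB : InRange P B) (hX : EqR B X X') (hY : EqR B Y Y') (n1 n2 : ℕ) (D L : ℤ) :
    IS P X Y n1 n2 D L = IS P X' Y' n1 n2 D L := by
  unfold IS
  refine filter_congr fun y _ => ?_
  rw [(bp_congr hB hX hY (y / L).toNat 0).2]

lemma pS_congr (hB : InRange P B) (hX : EqR B X X') (hY : EqR B Y Y') (L y : ℤ) :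
    pS P X Y L y = pS P X' Y' L y := (bp_congr hB hX hY _ _).1

end

/-! ### The estimates with gaps in the range only -/

lemma GapR.mono {B : ℤ} {X : ℤ → ℤ} {D D' : ℤ} (h : GapR B X D) (hD : D' ≤ D) : GapR B X D' :=
  fun i h1 h2 => by have := h i h1 h2; omega

theorem dom_IS' : ∃ C : ℝ, 1 ≤ C ∧ ∀ {P : PType} {B : ℤ} (_ : InRange P B) {X Y : ℤ → ℤ}
    {D L : ℤ} (_ : GapR B X D)
    (_ : GapR B Y D) (_ : 2 ≤ D) (_ : 0 < L) {n1 n2 : ℕ} (_ : n2 ≤ P.m) {R κ M c p : ℝ} (_ : 0 < R)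
    (_ : 0 < κ) (_ : κ ≤ 1) (_ : κ * R ≤ D - 1) (_ : 1 ≤ M) (_ : (n2 * L : ℤ) ≤ M * R) (_ : 0 < c)
    (_ : c * R ^ (-(1 / 3) : ℝ) ≤ p) (m : ℕ) (y : Fin (m + 1) → ℤ) (_ : StrictMono y)
    (_ : ∀ l, y l ∈ IS P X Y n1 n2 D L),
    Pr (EL P X Y) (fun ω => ∀ l, CT P X Y (pS P X Y L (y l)) ω) ≤
      (C * (κ ^ (-(1 / 3) : ℝ) * M ^ (2 / 3 : ℝ)) / c * p) ^ (m + 1) *
        ∏ l : Fin m, (((y l.succ - y l.castSucc : ℤ) : ℝ) / R) ^ (-(2 / 3) : ℝ) := by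
  obtain ⟨C, hC, h⟩ := dom_IS
  refine ⟨C, hC, ?_⟩
  intro P B hB X Y D L hX hY hD hL n1 n2 hn2 R κ M c p hR hκ hκ1 hκD hM hML hc hp m y hy hyI
  obtain ⟨X', hX', eX⟩ := exists_ext hB.1 hX
  obtain ⟨Y', hY', eY⟩ := exists_ext hB.1 hY
  rw [IS_congr hB eX eY] at hyI
  have h1 := h hX' hY' hD hL hn2 hR hκ hκ1 hκD hM hML hc hp m y hy hyI
  refine le_trans (le_of_eq ?_) h1
  rw [EL_congr hB eX eY]
  refine Pr_congr fun ω _ => ?_
  simp only [CT_congr hB eX eY, pS_congr hB eX eY]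

theorem small_IS' : ∃ c q δ : ℝ, 0 < c ∧ 0 < q ∧ q ≤ 1 ∧ 0 < δ ∧ δ < 1 ∧
    ∀ {P : PType} {B : ℤ} (_ : InRange P B) {X Y : ℤ → ℤ} {D L : ℤ} (_ : GapR B X D)
    (_ : GapR B Y D) (_ : 2 ≤ D) (_ : 0 < L)
    {n1 n2 : ℕ} (_ : n2 ≤ P.m) (_ : ∀ n < n2, ln P X Y n ≤ L)
    (n' K k : ℕ) (ρ : ℤ) (_ : 1 ≤ n') (_ : 32 * (4 ^ K * (n' : ℤ)) ≤ ρ) (_ : 4 ^ k * ρ ≤ D - 1),
    Pr (EL P X Y) (fun ω => 0 < NN (IS P X Y n1 n2 D L) (fun y => CT P X Y (pS P X Y L y)) ω ∧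
      (NN (IS P X Y n1 n2 D L) (fun y => CT P X Y (pS P X Y L y)) ω : ℝ) <
        c * (n' : ℝ) ^ (2 / 3 : ℝ)) ≤ n2 * ((1 - q) ^ K + (1 - δ) ^ k) := by
  obtain ⟨c, q, δ, hc, hq, hq1, hδ, hδ1, h⟩ := small_IS
  refine ⟨c, q, δ, hc, hq, hq1, hδ, hδ1, ?_⟩
  intro P B hB X Y D L hX hY hD hL n1 n2 hn2 hlen n' K k ρ hn' hρ hk
  obtain ⟨X', hX', eX⟩ := exists_ext hB.1 hX
  obtain ⟨Y', hY', eY⟩ := exists_ext hB.1 hY
  have h1 := h hX' hY' hD hL (n1 := n1) hn2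
    (fun n hn => by rw [← (bp_congr hB eX eY n 0).2]; exact hlen n hn) n' K k ρ hn' hρ hk
  refine le_trans (le_of_eq ?_) h1
  rw [EL_congr hB eX eY, IS_congr hB eX eY]
  have h2 : (fun y => CT P X Y (pS P X Y L y)) = fun y => CT P X' Y' (pS P X' Y' L y) := by
    funext y ω
    rw [pS_congr hB eX eY, CT_congr hB eX eY]
  rw [h2]

theorem cut_IS' : ∃ δ : ℝ, 0 < δ ∧ δ < 1 ∧
    ∀ {P : PType} {B : ℤ} (_ : InRange P B) {X Y : ℤ → ℤ} {D0 D L : ℤ} (_ : GapR B X D0)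
    (_ : GapR B Y D0) (_ : 2 ≤ D0)
    (_ : 1 ≤ D) (_ : 0 < L) {n1 n2 : ℕ} (_ : 0 < n1) (_ : n2 < P.m) (_ : ∀ n < n2, ln P X Y n < L)
    (k : ℕ) (_ : 4 ^ k * (2 * D) ≤ D0),
    Pr (EL P X Y) (fun ω => CI P X Y n1 n2 ω ∧
      ¬ ∃ y ∈ IS P X Y n1 n2 D L, CT P X Y (pS P X Y L y) ω) ≤ (n2 + 1) * (1 - δ) ^ k := by
  obtain ⟨δ, hδ, hδ1, h⟩ := cut_IS
  refine ⟨δ, hδ, hδ1, ?_⟩
  intro P B hB X Y D0 D L hX hY hD0 hD hL n1 n2 hn1 hn2 hlen k hk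
  obtain ⟨X', hX', eX⟩ := exists_ext hB.1 hX
  obtain ⟨Y', hY', eY⟩ := exists_ext hB.1 hY
  have h1 := h hX' hY' hD0 hD hL hn1 hn2
    (fun n hn => by rw [← (bp_congr hB eX eY n 0).2]; exact hlen n hn) k hk
  refine le_trans (le_of_eq ?_) h1
  rw [EL_congr hB eX eY, IS_congr hB eX eY]
  refine Pr_congr fun ω _ => ?_
  rw [CI_congr hB eX eY]
  simp only [CT_congr hB eX eY, pS_congr hB eX eY]

end Pool.Agent.H4.Q1
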