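import Mathlib
import Pool.Agent.H4.Q1.C3Cong
import Pool.Agent.H48.Q1.InsPts

set_option autoImplicit false
open Finset Filter Topology MeasureTheory

/-! Real parameters of the indexed points of the free sides: generic tuples, and the decoding of the
indices in the limit (module M5, step C3). -/

namespace Pool.Agent.H4.Q1

open Pool.Agent.H75.Perc hiding WL
open Pool.Agent.H75.TwoArm Pool.Agent.H75.Four Pool.Agent.H65.Dom
open Pool.Agent.H49.Q1 Pool.Agent.Q1.M4 Pool.Agent.Q1.M5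
open Pool.Agent.H48.Q1 (rlen rco lco insert_points)

/-! ### Generic tuples -/

lemma ae_coord {k : ℕ} (l : Fin k) {p : ℝ → Prop} (h : ∀ᵐ x : ℝ, p x) :
    ∀ᵐ x : Fin k → ℝ, p (x l) :=
  (Measure.quasiMeasurePreserving_eval (fun _ : Fin k => (volume : Measure ℝ)) l).ae h

lemma ae_ne_const (c : ℝ) : ∀ᵐ x : ℝ, x ≠ c := by
  rw [ae_iff]
  simp

lemma ae_pair {k : ℕ} {l l' : Fin k} (hl : l ≠ l') {σ σ' c : ℝ} (hσ : σ ≠ 0) :
    ∀ᵐ x : Fin k → ℝ, σ * x l + σ' * x l' ≠ c := by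
  set L : (Fin k → ℝ) →ₗ[ℝ] ℝ := σ • LinearMap.proj l + σ' • LinearMap.proj l' with hL
  have hs : Function.Surjective L := by
    intro z
    refine ⟨Pi.single l (z / σ), ?_⟩
    rw [hL]
    simp only [LinearMap.add_apply, LinearMap.smul_apply, LinearMap.proj_apply, Pi.single_eq_same,
      smul_eq_mul, Pi.single_eq_of_ne hl.symm, mul_zero, add_zero]
    field_simp
  have h1 := (ae_comp_linearMap_mem_iff L (volume : Measure (Fin k → ℝ)) (volume : Measure ℝ) hs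
    (s := {c}ᶜ) (measurableSet_singleton c).compl).2 (by
      filter_upwards [ae_ne_const c] with y hy
      exact hy)
  filter_upwards [h1] with x hx
  rw [hL] at hx
  simpa using hx

/-- the moving coordinate is affine -/
lemma rco_aff (x y : ℤ → ℝ) (s : Cell × ℤ) : ∃ σ c : ℝ, σ ≠ 0 ∧ ∀ t, rco x y s t = σ * t + c := by
  unfold rco
  split_ifs
  · exact ⟨1, x s.1.1, one_ne_zero, fun t => by ring⟩
  · exact ⟨1, y s.1.2, one_ne_zero, fun t => by ring⟩
  · exact ⟨-1, x (s.1.1 + 1), by norm_num, fun t => by ring⟩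
  · exact ⟨-1, y (s.1.2 + 1), by norm_num, fun t => by ring⟩

/-- generic tuples have different moving coordinates -/
lemma ae_rco (P : PType) (x y : ℤ → ℝ) (K : ℝ) (k : ℕ) : ∀ᵐ z : Fin k → ℝ, ∀ l l' : Fin k,
    l ≠ l' → ∀ n n' : ℕ, rco x y (P.side n) (z l - n * K) ≠ rco x y (P.side n') (z l' - n' * K) := by
  rw [ae_all_iff]
  intro l
  rw [ae_all_iff]
  intro l'
  by_cases hl : l = l'
  · exact Eventually.of_forall fun z h => absurd hl h
  have h1 : ∀ᵐ z : Fin k → ℝ, ∀ n n' : ℕ,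
      rco x y (P.side n) (z l - n * K) ≠ rco x y (P.side n') (z l' - n' * K) := by
    rw [ae_all_iff]
    intro n
    rw [ae_all_iff]
    intro n'
    obtain ⟨σ, c, hσ, h⟩ := rco_aff x y (P.side n)
    obtain ⟨σ', c', hσ', h'⟩ := rco_aff x y (P.side n')
    have h2 := ae_pair hl hσ (σ' := -σ') (c := c' - σ' * (n' * K) - c + σ * (n * K))
    filter_upwards [h2] with z hz hcon
    apply hz
    rw [h, h'] at hcon
    linarith
  filter_upwards [h1] with z hz _
  exact hz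

/-! ### Decoding in the limit -/

lemma floor_lim {R : ℕ → ℝ} (hR : Tendsto R atTop atTop) (a : ℝ) :
    Tendsto (fun j => ((⌊R j * a⌋ : ℤ) : ℝ) / R j) atTop (𝓝 a) := by
  have h1 : Tendsto (fun j => a - 1 / R j) atTop (𝓝 a) := by
    have := (tendsto_const_nhds (x := (1:ℝ))).div_atTop hR
    simpa using this.const_sub a
  refine tendsto_of_tendsto_of_tendsto_of_le_of_le' h1 tendsto_const_nhds ?_ ?_
  · filter_upwards [hR.eventually (eventually_gt_atTop 0)] with j hj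
    rw [le_div_iff₀ hj]
    have := Int.sub_one_lt_floor (R j * a)
    have h2 : (a - 1 / R j) * R j = R j * a - 1 := by field_simp
    rw [h2]; exact this.le
  · filter_upwards [hR.eventually (eventually_gt_atTop 0)] with j hj
    rw [div_le_iff₀ hj]
    have := Int.floor_le (R j * a)
    linarith

/-- decoding of the index `⌊R z⌋` -/
lemma decode {R : ℕ → ℝ} (hR : Tendsto R atTop atTop) {K z : ℝ} {n : ℕ}
    (h0 : 0 < z - n * K) (h1 : z - n * K < K) :
    (∀ᶠ j in atTop, ⌊R j * z⌋ / ⌊R j * K⌋ = (n : ℤ)) ∧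
      Tendsto (fun j => ((⌊R j * z⌋ % ⌊R j * K⌋ : ℤ) : ℝ) / R j) atTop (𝓝 (z - n * K)) := by
  have e1 : Tendsto (fun j => ((⌊R j * z⌋ - n * ⌊R j * K⌋ : ℤ) : ℝ) / R j) atTop
      (𝓝 (z - n * K)) := by
    have h2 := (floor_lim hR z).sub ((floor_lim hR K).const_mul (n : ℝ))
    refine h2.congr fun j => ?_
    push_cast
    ring
  have hev : ∀ᶠ j in atTop, ⌊R j * z⌋ / ⌊R j * K⌋ = (n : ℤ) ∧
      ⌊R j * z⌋ % ⌊R j * K⌋ = ⌊R j * z⌋ - n * ⌊R j * K⌋ := by
    have h2 := e1.eventually (lt_mem_nhds h0)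
    have h3 : ∀ᶠ j in atTop, ((⌊R j * z⌋ - n * ⌊R j * K⌋ : ℤ) : ℝ) / R j <
        ((⌊R j * K⌋ : ℤ) : ℝ) / R j := e1.eventually_lt (floor_lim hR K) h1
    filter_upwards [h2, h3, hR.eventually (eventually_gt_atTop 0)] with j g2 g3 g4
    have h5 : (0:ℝ) < ((⌊R j * z⌋ - n * ⌊R j * K⌋ : ℤ) : ℝ) := by
      by_contra h6
      exact absurd g2 (not_lt.2 (div_nonpos_of_nonpos_of_nonneg (not_lt.1 h6) g4.le))
    have h6 : ((⌊R j * z⌋ - n * ⌊R j * K⌋ : ℤ) : ℝ) < ((⌊R j * K⌋ : ℤ) : ℝ) := by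
      rwa [div_lt_div_iff_of_pos_right g4] at g3
    have h5' : 0 < ⌊R j * z⌋ - n * ⌊R j * K⌋ := by exact_mod_cast h5
    have h6' : ⌊R j * z⌋ - n * ⌊R j * K⌋ < ⌊R j * K⌋ := by exact_mod_cast h6
    have h7 : ⌊R j * z⌋ = (⌊R j * z⌋ - n * ⌊R j * K⌋) + n * ⌊R j * K⌋ := by ring
    constructor
    · rw [h7, Int.add_mul_ediv_right _ _ (by omega), Int.ediv_eq_zero_of_lt h5'.le (by
        simpa using h6'), zero_add]
    · conv_lhs => rw [h7]
      rw [Int.add_mul_emod_self_right, Int.emod_eq_of_lt h5'.le h6']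
  refine ⟨hev.mono fun j h => h.1, e1.congr' ?_⟩
  filter_upwards [hev] with j hj
  rw [hj.2]

/-- limit of the side lengths -/
lemma ln_lim {P : PType} {x y : ℤ → ℝ} {R : ℕ → ℝ} {X Y : ℕ → ℤ → ℤ} (h : App x y R X Y) (n : ℕ) :
    Tendsto (fun j => (ln P (X j) (Y j) n : ℝ) / R j) atTop (𝓝 (rlen x y (P.side n))) := by
  unfold ln len rlen
  split_ifs
  · refine ((h.app.X_lim _).sub (h.app.X_lim _)).congr fun j => ?_
    push_cast; ring
  · refine ((h.app.Y_lim _).sub (h.app.Y_lim _)).congr fun j => ?_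
    push_cast; ring

lemma rlen_pos {P : PType} {x y : ℤ → ℝ} (hx : StrictMono x) (hy : StrictMono y) (n : ℕ) :
    0 < rlen x y (P.side n) := by
  unfold rlen
  split_ifs
  · have := hx (show (P.side n).1.1 < (P.side n).1.1 + 1 by omega); linarith
  · have := hy (show (P.side n).1.2 < (P.side n).1.2 + 1 by omega); linarith

/-- the gaps of the lattice lines in the range are eventually large -/
lemma gap_lim {x : ℤ → ℝ} (hx : StrictMono x) (B : ℤ) :
    ∃ d : ℝ, 0 < d ∧ ∀ {R : ℕ → ℝ} {X : ℕ → ℤ → ℤ}, Tendsto R atTop atTop →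
      (∀ i, Tendsto (fun j => (X j i : ℝ) / R j) atTop (𝓝 (x i))) →
      ∀ d' ≤ d, ∀ᶠ j in atTop, GapR B (X j) ⌊R j * d'⌋ := by
  classical
  obtain ⟨d, hd, hd'⟩ : ∃ d : ℝ, 0 < d ∧ ∀ i ∈ Finset.Ico (-B) B, 2 * d ≤ x (i + 1) - x i := by
    rcases (Finset.Ico (-B) B).eq_empty_or_nonempty with h | h
    · exact ⟨1, one_pos, fun i hi => by rw [h] at hi; simp at hi⟩
    · obtain ⟨i0, -, hi0⟩ := Finset.exists_min_image (Finset.Ico (-B) B) (fun i => x (i + 1) - x i) h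
      refine ⟨(x (i0 + 1) - x i0) / 2, ?_, fun i hi => ?_⟩
      · have := hx (show i0 < i0 + 1 by omega); linarith
      · have := hi0 i hi; linarith
  refine ⟨d, hd, ?_⟩
  intro R X hR hX d' hdd
  have h1 : ∀ i ∈ Finset.Ico (-B) B, ∀ᶠ j in atTop, X j i + ⌊R j * d'⌋ ≤ X j (i + 1) := by
    intro i hi
    have h2 : Tendsto (fun j => ((X j (i + 1) - X j i : ℤ) : ℝ) / R j) atTop
        (𝓝 (x (i + 1) - x i)) := by
      refine ((hX (i + 1)).sub (hX i)).congr fun j => ?_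
      push_cast; ring
    have h3 : d < x (i + 1) - x i := by have := hd' i hi; linarith
    filter_upwards [h2.eventually (lt_mem_nhds h3), hR.eventually (eventually_gt_atTop 0)]
      with j g1 g2
    rw [lt_div_iff₀ g2] at g1
    have h4 : ((⌊R j * d'⌋ : ℤ) : ℝ) ≤ R j * d' := Int.floor_le _
    have h5 : ((⌊R j * d'⌋ : ℤ) : ℝ) < ((X j (i + 1) - X j i : ℤ) : ℝ) := by nlinarith
    have h6 : ⌊R j * d'⌋ < X j (i + 1) - X j i := by exact_mod_cast h5
    omega
  have h2 := (Finset.eventually_all (Finset.Ico (-B) B)).2 h1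
  filter_upwards [h2] with j hj i hi1 hi2
  exact hj i (Finset.mem_Ico.2 ⟨hi1, hi2⟩)

end Pool.Agent.H4.Q1
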