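import Mathlib
import Pool.Agent.H4.Q1.C3Ae

set_option autoImplicit false
open Finset Filter Topology MeasureTheory

/-! Convergence of the crossing probabilities of grid polygons (module M5, step C3): assembly. -/

namespace Pool.Agent.H4.Q1

open Pool.Agent.H75.Perc hiding WL CT
open Pool.Agent.H75.TwoArm Pool.Agent.H75.Four Pool.Agent.H65.Dom
open Pool.Agent.H49.Q1 Pool.Agent.Q1.M4 Pool.Agent.Q1.M5
open Pool.Agent.H48.Q1 (rlen rco lco insert_points)

/-- the index set of an approximating sequence -/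
noncomputable def ISj (P : PType) (R : ℕ → ℝ) (X Y : ℕ → ℤ → ℤ) (n1 n2 : ℕ) (ρ K : ℝ) (j : ℕ) :
    Finset ℤ := IS P (X j) (Y j) n1 n2 ⌊R j * ρ⌋ ⌊R j * K⌋

/-- the event that the point with index `y` is connected -/
def ASj (P : PType) (R : ℕ → ℝ) (X Y : ℕ → ℤ → ℤ) (K : ℝ) (j : ℕ) (y : ℤ)
    (ω : Finset (ℤ × ℤ)) : Prop := CT P (X j) (Y j) (pS P (X j) (Y j) ⌊R j * K⌋ y) ω

section
variable {P : PType} {x y : ℤ → ℝ} {R : ℕ → ℝ} {X Y : ℕ → ℤ → ℤ} {n1 n2 : ℕ} {ρ K : ℝ}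

/-- position of the limit points -/
lemma IS_lim (h : App x y R X Y) {z : ℝ} {n : ℕ} (h0 : 0 < z - n * K) (h1 : z - n * K < K)
    (hI : ∀ᶠ j in atTop, ⌊R j * z⌋ ∈ ISj P R X Y n1 n2 ρ K j) :
    n1 ≤ n ∧ n < n2 ∧ 2 * ρ ≤ z - n * K ∧ z - n * K + ρ ≤ rlen x y (P.side n) := by
  obtain ⟨hd, hl⟩ := decode h.app.R_top h0 h1
  have hK : 0 < K := by linarith
  have hL : ∀ᶠ j in atTop, 0 < ⌊R j * K⌋ := by
    have h2 := h.app.R_top.eventually (eventually_ge_atTop (1 / K))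
    filter_upwards [h2] with j hj
    rw [div_le_iff₀ hK] at hj
    have : (1 : ℤ) ≤ ⌊R j * K⌋ := Int.le_floor.2 (by push_cast; linarith)
    omega
  have hall : ∀ᶠ j in atTop, (n1 ≤ n ∧ n < n2) ∧ 2 * ⌊R j * ρ⌋ ≤ ⌊R j * z⌋ % ⌊R j * K⌋ ∧
      ⌊R j * z⌋ % ⌊R j * K⌋ + ⌊R j * ρ⌋ ≤ ln P (X j) (Y j) n := by
    filter_upwards [hd, hI, hL] with j g1 g2 g3
    obtain ⟨n', a1, a2, a3, a4, a5⟩ := (mem_IS g3).1 g2
    have : n' = n := by omega
    subst this
    exact ⟨⟨a1, a2⟩, a4, a5⟩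
  obtain ⟨j0, hj0⟩ := hall.exists
  refine ⟨hj0.1.1, hj0.1.2, ?_, ?_⟩
  · have h2 : Tendsto (fun j => 2 * (((⌊R j * ρ⌋ : ℤ) : ℝ) / R j)) atTop (𝓝 (2 * ρ)) :=
      (floor_lim h.app.R_top ρ).const_mul 2
    refine le_of_tendsto_of_tendsto h2 hl ?_
    filter_upwards [hall, h.app.R_top.eventually (eventually_gt_atTop 0)] with j g1 g2
    rw [← mul_div_assoc]
    apply div_le_div_of_nonneg_right _ g2.le
    exact_mod_cast g1.2.1
  · refine le_of_tendsto_of_tendsto (hl.add (floor_lim h.app.R_top ρ)) (ln_lim h n) ?_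
    filter_upwards [hall, h.app.R_top.eventually (eventually_gt_atTop 0)] with j g1 g2
    rw [← add_div]
    apply div_le_div_of_nonneg_right _ g2.le
    exact_mod_cast g1.2.2

/-- **Convergence of the `k`-point functions along generic tuples.** -/
theorem conv_generic {pz : ℝ → ℝ} (hC2 : StC2 pz) (hx : StrictMono x) (hy : StrictMono y)
    (h : App x y R X Y) (hρ : 0 < ρ) (hK : 0 < K) (hn2 : n2 < P.m) (k : ℕ) :
    ∀ᵐ z : Fin k → ℝ, StrictMono z →
      (∀ l, ∀ᶠ j in atTop, ⌊R j * z l⌋ ∈ ISj P R X Y n1 n2 ρ K j) →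
      ∃ g : ℝ, Tendsto (fun j => Pr (EL P (X j) (Y j))
        (fun ω => ∀ l, ASj P R X Y K j ⌊R j * z l⌋ ω) / pz (R j) ^ k) atTop (𝓝 g) := by
  classical
  have hne : ∀ᵐ z : Fin k → ℝ, ∀ l : Fin k, ∀ n : ℤ, z l ≠ n * K := by
    rw [ae_all_iff]
    intro l
    rw [ae_all_iff]
    intro n
    exact ae_coord l (ae_ne_const (n * K))
  filter_upwards [hne, ae_rco P x y K k] with z hz hrco _ hmem
  -- the sides and the arclengths
  have hL : ∀ᶠ j in atTop, 0 < ⌊R j * K⌋ := by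
    have h2 := h.app.R_top.eventually (eventually_ge_atTop (1 / K))
    filter_upwards [h2] with j hj
    rw [div_le_iff₀ hK] at hj
    have : (1 : ℤ) ≤ ⌊R j * K⌋ := Int.le_floor.2 (by push_cast; linarith)
    omega
  have hpos : ∀ l, 0 ≤ z l := by
    intro l
    by_contra hneg
    obtain ⟨j, hj1, hj2, hj3⟩ := ((hmem l).and (hL.and
      (h.app.R_top.eventually (eventually_gt_atTop 0)))).exists
    obtain ⟨n', a1, a2, a3, a4, a5⟩ := (mem_IS hj2).1 hj1
    have h3 : ⌊R j * z l⌋ < 0 := by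
      rw [Int.floor_lt]
      push_cast
      exact mul_neg_of_pos_of_neg hj3 (not_le.1 hneg)
    have := Int.ediv_neg_of_neg_of_pos h3 hj2
    omega
  set n : Fin k → ℕ := fun l => ⌊z l / K⌋₊ with hn
  have ht0 : ∀ l, 0 < z l - n l * K := by
    intro l
    have h3 : (n l : ℝ) ≤ z l / K := Nat.floor_le (div_nonneg (hpos l) hK.le)
    rw [le_div_iff₀ hK] at h3
    rcases h3.lt_or_eq with h4 | h4
    · linarith
    · exact absurd h4.symm (by have := hz l (n l : ℤ); push_cast at this; exact this)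
  have ht1 : ∀ l, z l - n l * K < K := by
    intro l
    have h3 : z l / K < n l + 1 := Nat.lt_floor_add_one _
    rw [div_lt_iff₀ hK] at h3
    linarith
  have hlim := fun l => IS_lim h (ht0 l) (ht1 l) (hmem l)
  obtain ⟨P', x', y', hx', hy', s, hs, hflat, hins⟩ := insert_points P hx hy n
    (fun l => by have := (hlim l).2.1; omega) (fun l => z l - n l * K) (fun l => ht0 l)
    (fun l => by have := (hlim l).2.2.2; linarith)
    (fun l l' hl _ => hrco l l' hl (n l) (n l'))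
  obtain ⟨g, hg⟩ := hC2 P' x' y' hx' hy' (univ.image s) (by
    intro n' hn'
    obtain ⟨l, -, rfl⟩ := Finset.mem_image.1 hn'
    exact hflat l)
  obtain ⟨X', Y', h', hev⟩ := hins R X Y (fun l j => ⌊R j * z l⌋ % ⌊R j * K⌋) h
    (fun l => (decode h.app.R_top (ht0 l) (ht1 l)).2)
  refine ⟨g, (hg R X' Y' h').congr' ?_⟩
  have hdec : ∀ᶠ j in atTop, ∀ l, ⌊R j * z l⌋ / ⌊R j * K⌋ = (n l : ℤ) :=
    eventually_all.2 fun l => (decode h.app.R_top (ht0 l) (ht1 l)).1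
  filter_upwards [hev, hdec] with j g1 g2
  obtain ⟨e1, e2, e3⟩ := g1
  rw [card_image_of_injective _ hs, card_univ, Fintype.card_fin, e1]
  congr 1
  refine Pr_congr fun ω _ => ?_
  constructor
  · intro g3 l
    have g4 := g3 (s l) (Finset.mem_image_of_mem _ (mem_univ l))
    rw [e2, e3] at g4
    unfold ASj pS
    rw [g2 l, Int.toNat_natCast]
    exact g4
  · intro g3 n' hn'
    obtain ⟨l, -, rfl⟩ := Finset.mem_image.1 hn'
    have g4 := g3 l
    unfold ASj pS at g4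
    rw [g2 l, Int.toNat_natCast] at g4
    rw [e2, e3]
    exact g4

/-- membership in the index set is decided in the limit for almost all parameters -/
lemma ae_IS (h : App x y R X Y) (hK : 0 < K) : ∀ᵐ z : ℝ,
    (∀ᶠ j in atTop, ⌊R j * z⌋ ∈ ISj P R X Y n1 n2 ρ K j) ∨
    (∀ᶠ j in atTop, ⌊R j * z⌋ ∉ ISj P R X Y n1 n2 ρ K j) := by
  have h1 : ∀ᵐ z : ℝ, ∀ n : ℤ, z ≠ n * K := by
    rw [ae_all_iff]; intro n; exact ae_ne_const _
  have h2 : ∀ᵐ z : ℝ, ∀ n : ℕ, z ≠ n * K + 2 * ρ := by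
    rw [ae_all_iff]; intro n; exact ae_ne_const _
  have h3 : ∀ᵐ z : ℝ, ∀ n : ℕ, z ≠ n * K + rlen x y (P.side n) - ρ := by
    rw [ae_all_iff]; intro n; exact ae_ne_const _
  have hL : ∀ᶠ j in atTop, 0 < ⌊R j * K⌋ := by
    have h2 := h.app.R_top.eventually (eventually_ge_atTop (1 / K))
    filter_upwards [h2] with j hj
    rw [div_le_iff₀ hK] at hj
    have : (1 : ℤ) ≤ ⌊R j * K⌋ := Int.le_floor.2 (by push_cast; linarith)
    omega
  filter_upwards [h1, h2, h3] with z hz1 hz2 hz3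
  rcases lt_or_ge z 0 with hneg | hpos
  · right
    filter_upwards [hL, h.app.R_top.eventually (eventually_gt_atTop 0)] with j hj2 hj3 hj1
    obtain ⟨n', a1, a2, a3, a4, a5⟩ := (mem_IS hj2).1 hj1
    have h3 : ⌊R j * z⌋ < 0 := by
      rw [Int.floor_lt]
      push_cast
      exact mul_neg_of_pos_of_neg hj3 hneg
    have := Int.ediv_neg_of_neg_of_pos h3 hj2
    omega
  set n : ℕ := ⌊z / K⌋₊ with hn
  have ht0 : 0 < z - n * K := by
    have h3 : (n : ℝ) ≤ z / K := Nat.floor_le (div_nonneg hpos hK.le)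
    rw [le_div_iff₀ hK] at h3
    rcases h3.lt_or_eq with h4 | h4
    · linarith
    · exact absurd h4.symm (by have := hz1 (n : ℤ); push_cast at this; exact this)
  have ht1 : z - n * K < K := by
    have h3 : z / K < n + 1 := Nat.lt_floor_add_one _
    rw [div_lt_iff₀ hK] at h3
    linarith
  obtain ⟨hd, hl⟩ := decode h.app.R_top ht0 ht1
  have hfl := floor_lim h.app.R_top ρ
  have key : (∀ᶠ j in atTop, (n1 ≤ n ∧ n < n2) ∧ 2 * ⌊R j * ρ⌋ ≤ ⌊R j * z⌋ % ⌊R j * K⌋ ∧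
      ⌊R j * z⌋ % ⌊R j * K⌋ + ⌊R j * ρ⌋ ≤ ln P (X j) (Y j) n) ∨
      (∀ᶠ j in atTop, ¬ ((n1 ≤ n ∧ n < n2) ∧ 2 * ⌊R j * ρ⌋ ≤ ⌊R j * z⌋ % ⌊R j * K⌋ ∧
      ⌊R j * z⌋ % ⌊R j * K⌋ + ⌊R j * ρ⌋ ≤ ln P (X j) (Y j) n)) := by
    by_cases hnn : n1 ≤ n ∧ n < n2
    swap
    · right; exact Eventually.of_forall fun j hj => hnn hj.1
    have hR0 := h.app.R_top.eventually (eventually_gt_atTop 0)
    have g2 : 2 * ρ ≠ z - n * K := by have := hz2 n; intro h; apply this; linarith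
    have g3 : z - n * K + ρ ≠ rlen x y (P.side n) := by
      have := hz3 n; intro h; apply this; linarith
    have hl2 : Tendsto (fun j => 2 * (((⌊R j * ρ⌋ : ℤ) : ℝ) / R j)) atTop (𝓝 (2 * ρ)) :=
      hfl.const_mul 2
    have hl3 := hl.add hfl
    rcases lt_or_gt_of_ne g2 with g4 | g4
    swap
    · right
      filter_upwards [hl.eventually_lt hl2 g4, hR0] with j a1 a2 a3
      rw [← mul_div_assoc, div_lt_div_iff_of_pos_right a2] at a1
      have a4 : ⌊R j * z⌋ % ⌊R j * K⌋ < 2 * ⌊R j * ρ⌋ := by exact_mod_cast a1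
      omega
    rcases lt_or_gt_of_ne g3 with g5 | g5
    · left
      filter_upwards [hl2.eventually_lt hl g4, hl3.eventually_lt (ln_lim h n) g5, hR0]
        with j a1 a2 a3
      rw [← mul_div_assoc, div_lt_div_iff_of_pos_right a3] at a1
      rw [← add_div, div_lt_div_iff_of_pos_right a3] at a2
      have a4 : 2 * ⌊R j * ρ⌋ < ⌊R j * z⌋ % ⌊R j * K⌋ := by exact_mod_cast a1
      have a5 : ⌊R j * z⌋ % ⌊R j * K⌋ + ⌊R j * ρ⌋ < ln P (X j) (Y j) n := by exact_mod_cast a2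
      exact ⟨hnn, a4.le, a5.le⟩
    · right
      filter_upwards [(ln_lim h n).eventually_lt hl3 g5, hR0] with j a1 a2 a3
      rw [← add_div, div_lt_div_iff_of_pos_right a2] at a1
      have a4 : ln P (X j) (Y j) n < ⌊R j * z⌋ % ⌊R j * K⌋ + ⌊R j * ρ⌋ := by exact_mod_cast a1
      omega
  rcases key with key | key
  · left
    filter_upwards [key, hd, hL] with j a1 a2 a3
    exact (mem_IS a3).2 ⟨n, a1.1.1, a1.1.2, a2.symm, a1.2.1, a1.2.2⟩
  · right
    filter_upwards [key, hd, hL] with j a1 a2 a3 a4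
    apply a1
    obtain ⟨n', b1, b2, b3, b4, b5⟩ := (mem_IS a3).1 a4
    have : n' = n := by omega
    subst this
    exact ⟨⟨b1, b2⟩, b4, b5⟩

end

end Pool.Agent.H4.Q1
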