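import Mathlib
import Pool.Agent.H4.Q1.C3Fin

set_option autoImplicit false
open Finset Filter Topology MeasureTheory

/-! Convergence of the crossing probabilities of grid polygons (module M5, step C3): end of the proof. -/

namespace Pool.Agent.H4.Q1

open Pool.Agent.H75.Perc hiding WL CT
open Pool.Agent.H75.TwoArm Pool.Agent.H75.Four Pool.Agent.H65.Dom
open Pool.Agent.H49.Q1 Pool.Agent.Q1.M4 Pool.Agent.Q1.M5
open Pool.Agent.H48.Q1 (rlen rco lco insert_points)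

/-- bounds of the normalisation times the scale -/
lemma scale_pz {pz : ℝ → ℝ} (hpz : StPz pz) : (∀ R, 0 < pz R) ∧ ∃ c C : ℝ, 0 < c ∧ 0 < C ∧
    ∀ R : ℝ, 1 ≤ R → c * R ^ (-(1 / 3) : ℝ) ≤ pz R ∧ c * R ^ (2 / 3 : ℝ) ≤ R * pz R ∧
      R * pz R ≤ C * R ^ (2 / 3 : ℝ) := by
  obtain ⟨h0, c, C, hc, hC, h⟩ := hpz
  refine ⟨h0, c, C, hc, hC, fun R hR => ?_⟩
  obtain ⟨h1, h2⟩ := h R hR
  have hR0 : 0 < R := by linarith
  have e : R * R ^ (-(1 / 3) : ℝ) = R ^ (2 / 3 : ℝ) := by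
    nth_rewrite 1 [← Real.rpow_one R]
    rw [← Real.rpow_add hR0]
    norm_num
  refine ⟨h1, ?_, ?_⟩
  · rw [← e]; nlinarith
  · rw [← e]; nlinarith

section
variable {P : PType} {x y : ℤ → ℝ} {R : ℕ → ℝ} {X Y : ℕ → ℤ → ℤ} {n1 n2 : ℕ} {ρ K : ℝ} {B : ℤ}

/-- **Convergence for the inner parts of the sides**, with uniform hypotheses. -/
theorem inner_all {pz : ℝ → ℝ} (hC2 : StC2 pz) (hpz : StPz pz) (hx : StrictMono x)
    (hy : StrictMono y) (hB : InRange P B) (h : App x y R X Y) (hρ : 0 < ρ) (hK : 0 < K)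
    (hn2 : n2 < P.m) (hR1 : ∀ j, 1 ≤ R j) (hgX : ∀ j, GapR B (X j) ⌊R j * ρ⌋)
    (hgY : ∀ j, GapR B (Y j) ⌊R j * ρ⌋) (hD : ∀ j, 2 ≤ ⌊R j * ρ⌋) (hL : ∀ j, 0 < ⌊R j * K⌋)
    (hln : ∀ j, ∀ n < n2, ln P (X j) (Y j) n < ⌊R j * K⌋) {κ : ℝ} (hκ : 0 < κ) (hκ1 : κ ≤ 1)
    (hκD : ∀ j, κ * R j ≤ ⌊R j * ρ⌋ - 1) :
    ∃ ℓ : ℝ, Tendsto (fun j => Pr (EL P (X j) (Y j))
      (fun ω => ∃ z ∈ ISj P R X Y n1 n2 ρ K j, ASj P R X Y K j z ω)) atTop (𝓝 ℓ) := by
  classical
  obtain ⟨hpz0, c, C, hc, hC, hsc⟩ := scale_pz hpz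
  obtain ⟨C1, hC1, hdom⟩ := dom_IS'
  obtain ⟨c2, q, δ, hc2, hq, hq1, hδ, hδ1, hsmall⟩ := small_IS'
  set M : ℝ := max 1 (n2 * K) with hM
  have hM1 : 1 ≤ M := le_max_left _ _
  have hM2 : n2 * K ≤ M := le_max_right _ _
  have hR0 : ∀ j, 0 < R j := fun j => by linarith [hR1 j]
  have hML : ∀ j, ((n2 * ⌊R j * K⌋ : ℤ) : ℝ) ≤ M * R j := by
    intro j
    push_cast
    have h1 := Int.floor_le (R j * K)
    have h2 : (0:ℝ) ≤ n2 := Nat.cast_nonneg _
    have h3 := hR0 j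
    calc (n2 : ℝ) * ⌊R j * K⌋ ≤ n2 * (R j * K) := by gcongr
      _ = (n2 * K) * R j := by ring
      _ ≤ M * R j := by gcongr
  refine crossing_tendsto (p := fun j => pz (R j)) (I := ISj P R X Y n1 n2 ρ K) (M := M)
    (E := fun j => EL P (X j) (Y j)) (A := ASj P R X Y K)
    (C := C1 * (κ ^ (-(1 / 3) : ℝ) * M ^ (2 / 3 : ℝ)) / c) h.app.R_top hR1
    (fun j => hpz0 _) ?_ (by linarith) ?_ (by positivity) ?_ (ae_IS h hK)
    (conv_generic hC2 hx hy h hρ hK hn2) ?_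
  · -- the scale tends to infinity
    have h1 : Tendsto (fun j => c * R j ^ (2 / 3 : ℝ)) atTop atTop :=
      ((tendsto_rpow_atTop (show (0:ℝ) < 2 / 3 by norm_num)).comp h.app.R_top).const_mul_atTop hc
    exact tendsto_atTop_mono (fun j => (hsc _ (hR1 j)).2.1) h1
  · intro j z hz
    obtain ⟨n, a1, a2, a3, a4, a5⟩ := (mem_IS (hL j)).1 hz
    have h0 : 0 ≤ z := by
      by_contra h6
      have := Int.ediv_neg_of_neg_of_pos (not_le.1 h6) (hL j)
      omega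
    have h1 : z < n2 * ⌊R j * K⌋ := by
      rw [← Int.ediv_lt_iff_lt_mul (hL j)]; omega
    refine ⟨by exact_mod_cast h0, le_trans ?_ (hML j)⟩
    exact_mod_cast h1.le
  · intro j m z hz hzI
    exact hdom hB (hgX j) (hgY j) (hD j) (hL j) hn2.le (hR0 j) hκ hκ1 (by
      have := hκD j; exact_mod_cast this) hM1 (hML j) hc (hsc _ (hR1 j)).1 m z hz hzI
  · -- small values
    intro ε' hε'
    obtain ⟨K', hK'⟩ : ∃ K' : ℕ, n2 * (1 - q) ^ K' ≤ ε' / 2 := by
      have h1 : Tendsto (fun i : ℕ => n2 * (1 - q) ^ i) atTop (𝓝 ((n2 : ℝ) * 0)) :=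
        (tendsto_pow_atTop_nhds_zero_of_lt_one (by linarith) (by linarith)).const_mul _
      rw [mul_zero] at h1
      exact (h1.eventually (ge_mem_nhds (show (0:ℝ) < ε' / 2 by positivity))).exists
    obtain ⟨k', hk'⟩ : ∃ k' : ℕ, n2 * (1 - δ) ^ k' ≤ ε' / 2 := by
      have h1 : Tendsto (fun i : ℕ => n2 * (1 - δ) ^ i) atTop (𝓝 ((n2 : ℝ) * 0)) :=
        (tendsto_pow_atTop_nhds_zero_of_lt_one (by linarith) (by linarith)).const_mul _
      rw [mul_zero] at h1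
      exact (h1.eventually (ge_mem_nhds (show (0:ℝ) < ε' / 2 by positivity))).exists
    set A1 : ℝ := 4 ^ k' * (32 * 4 ^ K') with hA1
    have hA1p : 0 < A1 := by positivity
    set c3 : ℝ := κ / (2 * A1) with hc3
    have hc3p : 0 < c3 := by positivity
    refine ⟨c2 * c3 ^ (2 / 3 : ℝ) / C, by positivity, ?_⟩
    have hbig : ∀ᶠ j in atTop, 4 / c3 ≤ R j := h.app.R_top.eventually (eventually_ge_atTop _)
    filter_upwards [hbig] with j hj
    set D : ℤ := ⌊R j * ρ⌋ with hDj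
    set r' : ℤ := (D - 1) / 4 ^ k' with hr'
    set n' : ℤ := r' / (32 * 4 ^ K') with hn'
    have hp4 : (0:ℤ) < 4 ^ k' := by positivity
    have hp5 : (0:ℤ) < 32 * 4 ^ K' := by positivity
    -- size of n'
    have hr1 : ((D - 1 : ℤ) : ℝ) / 4 ^ k' - 1 ≤ (r' : ℝ) := by
      have h1 : (D - 1) < (r' + 1) * 4 ^ k' := by
        rw [← Int.ediv_lt_iff_lt_mul hp4]; omega
      have h2 : ((D - 1 : ℤ) : ℝ) < ((r' : ℝ) + 1) * 4 ^ k' := by exact_mod_cast h1
      rw [sub_le_iff_le_add, div_le_iff₀ (by positivity)]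
      exact h2.le
    have hn1 : (r' : ℝ) / (32 * 4 ^ K') - 1 ≤ (n' : ℝ) := by
      have h1 : r' < (n' + 1) * (32 * 4 ^ K') := by
        rw [← Int.ediv_lt_iff_lt_mul hp5]; omega
      have h2 : (r' : ℝ) < ((n' : ℝ) + 1) * (32 * 4 ^ K') := by exact_mod_cast h1
      rw [sub_le_iff_le_add, div_le_iff₀ (by positivity)]
      exact h2.le
    have hsize : c3 * R j ≤ (n' : ℝ) := by
      have h1 : κ * R j ≤ ((D - 1 : ℤ) : ℝ) := by push_cast; exact hκD j
      have h2 : κ * R j / 4 ^ k' - 1 ≤ (r' : ℝ) := by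
        refine le_trans ?_ hr1
        gcongr
      have h3 : (κ * R j / 4 ^ k' - 1) / (32 * 4 ^ K') - 1 ≤ (n' : ℝ) := by
        refine le_trans ?_ hn1
        gcongr
      have h4 : (κ * R j / 4 ^ k' - 1) / (32 * 4 ^ K') = κ * R j / A1 - 1 / (32 * 4 ^ K') := by
        rw [hA1]; field_simp
      have h5 : (1:ℝ) / (32 * 4 ^ K') ≤ 1 := by
        rw [div_le_one (by positivity)]
        have : (1:ℝ) ≤ 4 ^ K' := one_le_pow₀ (by norm_num)
        linarith
      have h6 : κ * R j / A1 = 2 * (c3 * R j) := by rw [hc3]; field_simp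
      have h7 : 4 ≤ c3 * R j := by
        rw [div_le_iff₀ hc3p] at hj; linarith
      rw [h4, h6] at h3
      linarith
    have hn'1 : 1 ≤ n' := by
      have h7 : 4 ≤ c3 * R j := by
        rw [div_le_iff₀ hc3p] at hj; linarith
      have : (1:ℝ) ≤ n' := by linarith
      exact_mod_cast this
    obtain ⟨N', hN'⟩ : ∃ N' : ℕ, (N' : ℤ) = n' := ⟨n'.toNat, by omega⟩
    have hs := hsmall hB (hgX j) (hgY j) (hD j) (hL j) (n1 := n1) hn2.le
      (fun n hn => (hln j n hn).le) N' K' k' r' (by omega) (by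
        rw [hN']
        have : n' * (32 * 4 ^ K') ≤ r' := Int.ediv_mul_le _ (by positivity)
        calc 32 * (4 ^ K' * n') = n' * (32 * 4 ^ K') := by ring
          _ ≤ r' := this) (by
        have : r' * 4 ^ k' ≤ D - 1 := Int.ediv_mul_le _ (by positivity)
        calc 4 ^ k' * r' = r' * 4 ^ k' := by ring
          _ ≤ D - 1 := this)
    have hle : c2 * c3 ^ (2 / 3 : ℝ) / C * (R j * pz (R j)) ≤ c2 * (N' : ℝ) ^ (2 / 3 : ℝ) := by
      have h1 := (hsc _ (hR1 j)).2.2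
      have h2 : (N' : ℝ) = n' := by exact_mod_cast hN'
      rw [h2]
      have h3 : (c3 * R j) ^ (2 / 3 : ℝ) ≤ (n' : ℝ) ^ (2 / 3 : ℝ) :=
        Real.rpow_le_rpow (by have := hR0 j; positivity) hsize (by norm_num)
      rw [Real.mul_rpow hc3p.le (hR0 j).le] at h3
      calc c2 * c3 ^ (2 / 3 : ℝ) / C * (R j * pz (R j))
          ≤ c2 * c3 ^ (2 / 3 : ℝ) / C * (C * R j ^ (2 / 3 : ℝ)) := by gcongr
        _ = c2 * (c3 ^ (2 / 3 : ℝ) * R j ^ (2 / 3 : ℝ)) := by field_simp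
        _ ≤ _ := by gcongr
    refine (Pr_mono fun ω _ hω => ⟨hω.1, lt_of_lt_of_le hω.2 hle⟩).trans (hs.trans ?_)
    rw [mul_add]
    linarith

/-- shift of an approximating sequence -/
lemma App.shift (h : App x y R X Y) (j0 : ℕ) :
    App x y (fun j => R (j + j0)) (fun j => X (j + j0)) (fun j => Y (j + j0)) where
  app :=
    { R_top := h.app.R_top.comp (tendsto_add_atTop_nat j0)
      X_lim := fun i => (h.app.X_lim i).comp (tendsto_add_atTop_nat j0)
      Y_lim := fun i => (h.app.Y_lim i).comp (tendsto_add_atTop_nat j0) }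
  mono := (tendsto_add_atTop_nat j0).eventually h.mono

/-- **Convergence for the inner parts of the sides.** -/
theorem inner_tendsto {pz : ℝ → ℝ} (hC2 : StC2 pz) (hpz : StPz pz) (hx : StrictMono x)
    (hy : StrictMono y) (hB : InRange P B) (hn2 : n2 < P.m)
    (hK : ∀ n < n2, rlen x y (P.side n) < K) (hK0 : 0 < K) :
    ∃ d : ℝ, 0 < d ∧ ∀ ρ, 0 < ρ → ρ ≤ d → ∀ {R : ℕ → ℝ} {X Y : ℕ → ℤ → ℤ}, App x y R X Y →
    ∃ ℓ : ℝ, Tendsto (fun j => Pr (EL P (X j) (Y j))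
      (fun ω => ∃ z ∈ ISj P R X Y n1 n2 ρ K j, ASj P R X Y K j z ω)) atTop (𝓝 ℓ) := by
  obtain ⟨dx, hdx, hgx⟩ := gap_lim hx B
  obtain ⟨dy, hdy, hgy⟩ := gap_lim hy B
  refine ⟨min dx dy, lt_min hdx hdy, fun ρ hρ hρd R X Y h => ?_⟩
  have hR := h.app.R_top
  have e1 := hgx hR h.app.X_lim ρ (hρd.trans (min_le_left _ _))
  have e2 := hgy hR h.app.Y_lim ρ (hρd.trans (min_le_right _ _))
  have e3 := hR.eventually (eventually_ge_atTop (1 : ℝ))
  have e4 := hR.eventually (eventually_ge_atTop (4 / ρ))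
  have e5 := hR.eventually (eventually_ge_atTop (1 / K))
  have e6 : ∀ᶠ j in atTop, ∀ n ∈ Finset.range n2, ln P (X j) (Y j) n < ⌊R j * K⌋ := by
    refine (Finset.eventually_all (Finset.range n2)).2 fun n hn => ?_
    filter_upwards [(ln_lim (P := P) h n).eventually_lt (floor_lim hR K)
      (hK n (Finset.mem_range.1 hn)), hR.eventually (eventually_gt_atTop 0)] with j g1 g2
    rw [div_lt_div_iff_of_pos_right g2] at g1
    exact_mod_cast g1
  obtain ⟨j0, hj0⟩ := (e1.and (e2.and (e3.and (e4.and (e5.and e6))))).exists_forall_of_atTop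
  have hfl : ∀ j ≥ j0, R j * ρ - 1 < ⌊R j * ρ⌋ ∧ 4 ≤ R j * ρ := by
    intro j hj
    refine ⟨Int.sub_one_lt_floor _, ?_⟩
    have := (hj0 j hj).2.2.2.1
    rwa [div_le_iff₀ hρ] at this
  have key := inner_all (R := fun j => R (j + j0)) (X := fun j => X (j + j0))
    (Y := fun j => Y (j + j0)) (n1 := n1) (κ := min 1 (ρ / 2)) hC2 hpz hx hy hB (App.shift h j0)
    hρ hK0 hn2
    (fun j => (hj0 (j + j0) (by omega)).2.2.1) (fun j => (hj0 (j + j0) (by omega)).1)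
    (fun j => (hj0 (j + j0) (by omega)).2.1)
    (fun j => by
      obtain ⟨g1, g2⟩ := hfl (j + j0) (by omega)
      exact Int.le_floor.2 (by push_cast; linarith))
    (fun j => by
      have := (hj0 (j + j0) (by omega)).2.2.2.2.1
      rw [div_le_iff₀ hK0] at this
      have h2 : (1 : ℤ) ≤ ⌊R (j + j0) * K⌋ := Int.le_floor.2 (by push_cast; linarith)
      exact h2)
    (fun j n hn => (hj0 (j + j0) (by omega)).2.2.2.2.2 n (Finset.mem_range.2 hn))
    (by positivity) (min_le_left _ _)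
    (fun j => by
      obtain ⟨g1, g2⟩ := hfl (j + j0) (by omega)
      have g3 := (hj0 (j + j0) (by omega)).2.2.1
      have g4 : min 1 (ρ / 2) * R (j + j0) ≤ ρ / 2 * R (j + j0) := by
        have := min_le_right (1:ℝ) (ρ / 2)
        gcongr
      linarith)
  obtain ⟨ℓ, hℓ⟩ := key
  exact ⟨ℓ, (tendsto_add_atTop_iff_nat j0).1 hℓ⟩

/-- crossing probabilities converge along every approximating sequence -/
theorem cross_tendsto {pz : ℝ → ℝ} (hC2 : StC2 pz) (hpz : StPz pz) (hx : StrictMono x)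
    (hy : StrictMono y) (hn1 : 0 < n1) (hn2 : n2 < P.m) (h : App x y R X Y) :
    ∃ ℓ : ℝ, Tendsto (fun j => Pr (EL P (X j) (Y j)) (CI P (X j) (Y j) n1 n2)) atTop (𝓝 ℓ) := by
  classical
  obtain ⟨B, hB⟩ := exists_InRange P
  obtain ⟨K, hK0, hK⟩ : ∃ K : ℝ, 0 < K ∧ ∀ n < n2, rlen x y (P.side n) < K := by
    refine ⟨∑ n ∈ Finset.range n2, rlen x y (P.side n) + 1, ?_, fun n hn => ?_⟩
    · have := sum_nonneg fun n (_ : n ∈ Finset.range n2) => (rlen_pos (P := P) hx hy n).le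
      linarith
    · have := single_le_sum (f := fun n => rlen x y (P.side n))
        (fun n _ => (rlen_pos (P := P) hx hy n).le) (Finset.mem_range.2 hn)
      linarith
  obtain ⟨d, hd, hinner⟩ := inner_tendsto (n1 := n1) hC2 hpz hx hy hB hn2 hK hK0
  obtain ⟨dx, hdx, hgx⟩ := gap_lim hx B
  obtain ⟨dy, hdy, hgy⟩ := gap_lim hy B
  obtain ⟨δ, hδ, hδ1, hcut⟩ := cut_IS'
  set d0 := min dx dy with hd0
  have hd0p : 0 < d0 := lt_min hdx hdy
  have hR := h.app.R_top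
  refine cauchySeq_tendsto_of_complete (Metric.cauchySeq_iff'.2 fun η hη => ?_)
  obtain ⟨k, hk⟩ : ∃ k : ℕ, ((n2 : ℝ) + 1) * (1 - δ) ^ k ≤ η / 8 := by
    have h1 : Tendsto (fun i : ℕ => ((n2 : ℝ) + 1) * (1 - δ) ^ i) atTop (𝓝 (((n2 : ℝ) + 1) * 0)) :=
      (tendsto_pow_atTop_nhds_zero_of_lt_one (by linarith) (by linarith)).const_mul _
    rw [mul_zero] at h1
    exact (h1.eventually (ge_mem_nhds (show (0:ℝ) < η / 8 by positivity))).exists
  set ρ := min d (d0 / (4 * 4 ^ k)) with hρdef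
  have hρ : 0 < ρ := lt_min hd (by positivity)
  obtain ⟨ℓ, hℓ⟩ := hinner ρ hρ (min_le_left _ _) h
  have e1 := hgx hR h.app.X_lim d0 (min_le_left _ _)
  have e2 := hgy hR h.app.Y_lim d0 (min_le_right _ _)
  have e3 := hR.eventually (eventually_ge_atTop (4 / ρ))
  have e3' := hR.eventually (eventually_ge_atTop (4 / d0))
  have e5 := hR.eventually (eventually_ge_atTop (1 / K))
  have e6 : ∀ᶠ j in atTop, ∀ n ∈ Finset.range n2, ln P (X j) (Y j) n < ⌊R j * K⌋ := by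
    refine (Finset.eventually_all (Finset.range n2)).2 fun n hn => ?_
    filter_upwards [(ln_lim (P := P) h n).eventually_lt (floor_lim hR K)
      (hK n (Finset.mem_range.1 hn)), hR.eventually (eventually_gt_atTop 0)] with j g1 g2
    rw [div_lt_div_iff_of_pos_right g2] at g1
    exact_mod_cast g1
  have hcmp : ∀ᶠ j in atTop, |Pr (EL P (X j) (Y j)) (CI P (X j) (Y j) n1 n2) -
      Pr (EL P (X j) (Y j)) (fun ω => ∃ z ∈ ISj P R X Y n1 n2 ρ K j, ASj P R X Y K j z ω)| ≤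
        η / 8 := by
    filter_upwards [e1, e2, e3, e3', e5, e6, hR.eventually (eventually_gt_atTop 0)]
      with j g1 g2 g3 g3' g5 g6 g7
    rw [div_le_iff₀ hρ] at g3
    rw [div_le_iff₀ hd0p] at g3'
    rw [div_le_iff₀ hK0] at g5
    have hL : 0 < ⌊R j * K⌋ := by
      have h2 : (1 : ℤ) ≤ ⌊R j * K⌋ := Int.le_floor.2 (by push_cast; linarith)
      omega
    have hD1 : 1 ≤ ⌊R j * ρ⌋ := Int.le_floor.2 (by push_cast; linarith)
    have hD0 : 2 ≤ ⌊R j * d0⌋ := Int.le_floor.2 (by push_cast; linarith)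
    have hkD : 4 ^ k * (2 * ⌊R j * ρ⌋) ≤ ⌊R j * d0⌋ := by
      refine Int.le_floor.2 ?_
      push_cast
      have h1 := Int.floor_le (R j * ρ)
      have h2 : ρ ≤ d0 / (4 * 4 ^ k) := min_le_right _ _
      have h3 : R j * ρ ≤ R j * (d0 / (4 * 4 ^ k)) := by gcongr
      calc (4:ℝ) ^ k * (2 * ⌊R j * ρ⌋) ≤ 4 ^ k * (2 * (R j * (d0 / (4 * 4 ^ k)))) := by
            gcongr; linarith
        _ = R j * d0 / 2 := by field_simp; ring
        _ ≤ R j * d0 := by
          have : 0 < R j * d0 := by positivity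
          linarith
    have hc := hcut hB (g1 : GapR B (X j) ⌊R j * d0⌋) g2 hD0 hD1 hL hn1 hn2
      (fun n hn => g6 n (Finset.mem_range.2 hn)) k hkD
    -- the inner event implies the crossing event
    have hsub : Pr (EL P (X j) (Y j)) (fun ω => ∃ z ∈ ISj P R X Y n1 n2 ρ K j,
        ASj P R X Y K j z ω) ≤ Pr (EL P (X j) (Y j)) (CI P (X j) (Y j) n1 n2) := by
      refine Pr_mono fun ω _ hω => ?_
      obtain ⟨z, hz, hA⟩ := hω
      obtain ⟨n, a1, a2, a3, a4, a5⟩ := (mem_IS hL).1 hz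
      obtain ⟨X', hX', eX⟩ := exists_ext hB.1 (g1.mono hD0)
      obtain ⟨Y', hY', eY⟩ := exists_ext hB.1 (g2.mono hD0)
      refine ⟨n, a1, a2, pS P (X j) (Y j) ⌊R j * K⌋ z, ?_, hA⟩
      rw [sV_congr hB eX eY, pS_congr hB eX eY, sV_iff (hX'.gap le_rfl) (hY'.gap le_rfl)]
      refine ⟨z % ⌊R j * K⌋, by omega, ?_, ?_⟩
      · have := (bp_congr hB eX eY n 0).2
        unfold ln at this a5
        omega
      · unfold pS
        have : (z / ⌊R j * K⌋).toNat = n := by omega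
        rw [this]; rfl
    have hup : Pr (EL P (X j) (Y j)) (CI P (X j) (Y j) n1 n2) ≤
        Pr (EL P (X j) (Y j)) (fun ω => CI P (X j) (Y j) n1 n2 ω ∧
          ¬ ∃ z ∈ IS P (X j) (Y j) n1 n2 ⌊R j * ρ⌋ ⌊R j * K⌋,
            CT P (X j) (Y j) (pS P (X j) (Y j) ⌊R j * K⌋ z) ω) +
        Pr (EL P (X j) (Y j)) (fun ω => ∃ z ∈ ISj P R X Y n1 n2 ρ K j, ASj P R X Y K j z ω) := by
      refine (Pr_mono fun ω _ hω => ?_).trans (Pr_or_le _ _ _)
      by_cases h2 : ∃ z ∈ ISj P R X Y n1 n2 ρ K j, ASj P R X Y K j z ω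
      · exact Or.inr h2
      · exact Or.inl ⟨hω, h2⟩
    rw [abs_le]
    constructor <;> linarith
  have h3 := Metric.tendsto_nhds.1 hℓ (η / 8) (by positivity)
  obtain ⟨J, hJ⟩ := (h3.and hcmp).exists_forall_of_atTop
  refine ⟨J, fun j hj => ?_⟩
  obtain ⟨h4, h5⟩ := hJ j hj
  obtain ⟨h6, h7⟩ := hJ J le_rfl
  rw [Real.dist_eq] at h4 h6 ⊢
  rw [abs_le] at h5 h7
  rw [abs_lt] at h4 h6 ⊢
  constructor <;> linarith

end

/-! ### The limit does not depend on the sequence -/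

/-- interleaving of two sequences -/
def ilv {α : Type*} (f g : ℕ → α) (j : ℕ) : α := if j % 2 = 0 then f (j / 2) else g (j / 2)

lemma ilv_even {α : Type*} (f g : ℕ → α) (j : ℕ) : ilv f g (2 * j) = f j := by
  unfold ilv
  rw [if_pos (by omega)]
  congr 1
  omega

lemma ilv_odd {α : Type*} (f g : ℕ → α) (j : ℕ) : ilv f g (2 * j + 1) = g j := by
  unfold ilv
  rw [if_neg (by omega)]
  congr 1
  omega

lemma ilv_eventually {p q : ℕ → Prop} (hp : ∀ᶠ j in atTop, p j) (hq : ∀ᶠ j in atTop, q j) :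
    ∀ᶠ j in atTop, ilv p q j := by
  obtain ⟨a, ha⟩ := hp.exists_forall_of_atTop
  obtain ⟨b, hb⟩ := hq.exists_forall_of_atTop
  filter_upwards [eventually_ge_atTop (2 * (a + b))] with j hj
  unfold ilv
  split_ifs
  · exact ha _ (by omega)
  · exact hb _ (by omega)

lemma ilv_tendsto {α : Type*} {f g : ℕ → α} {l : Filter α} (hf : Tendsto f atTop l)
    (hg : Tendsto g atTop l) : Tendsto (ilv f g) atTop l := by
  intro s hs
  have h := ilv_eventually (hf.eventually (show ∀ᶠ z in l, z ∈ s from hs))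
    (hg.eventually (show ∀ᶠ z in l, z ∈ s from hs))
  refine h.mono fun j hj => ?_
  unfold ilv at hj
  change (if j % 2 = 0 then f (j / 2) else g (j / 2)) ∈ s
  split_ifs with h1
  · rwa [if_pos h1] at hj
  · rwa [if_neg h1] at hj

lemma App.ilv {x y : ℤ → ℝ} {R R' : ℕ → ℝ} {X Y X' Y' : ℕ → ℤ → ℤ} (h : App x y R X Y)
    (h' : App x y R' X' Y') : App x y (ilv R R') (ilv X X') (ilv Y Y') where
  app :=
    { R_top := ilv_tendsto h.app.R_top h'.app.R_top
      X_lim := fun i => (ilv_tendsto (h.app.X_lim i) (h'.app.X_lim i)).congr fun j => by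
        unfold H4.Q1.ilv; split_ifs <;> rfl
      Y_lim := fun i => (ilv_tendsto (h.app.Y_lim i) (h'.app.Y_lim i)).congr fun j => by
        unfold H4.Q1.ilv; split_ifs <;> rfl }
  mono := (ilv_eventually h.mono h'.mono).mono fun j hj => by
    unfold H4.Q1.ilv at hj ⊢
    split_ifs with h1
    · rwa [if_pos h1] at hj
    · rwa [if_neg h1] at hj

/-- a functional which converges along all approximating sequences has a common limit -/
theorem common_limit {x y : ℤ → ℝ} {F : ℝ → (ℤ → ℤ) → (ℤ → ℤ) → ℝ}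
    (h : ∀ (R : ℕ → ℝ) (X Y : ℕ → ℤ → ℤ), App x y R X Y →
      ∃ ℓ : ℝ, Tendsto (fun j => F (R j) (X j) (Y j)) atTop (𝓝 ℓ)) :
    ∃ c : ℝ, ∀ (R : ℕ → ℝ) (X Y : ℕ → ℤ → ℤ), App x y R X Y →
      Tendsto (fun j => F (R j) (X j) (Y j)) atTop (𝓝 c) := by
  by_cases hex : ∃ (R : ℕ → ℝ) (X Y : ℕ → ℤ → ℤ), App x y R X Y
  swap
  · exact ⟨0, fun R X Y h' => absurd ⟨R, X, Y, h'⟩ hex⟩
  obtain ⟨R, X, Y, hA⟩ := hex
  obtain ⟨c, hc⟩ := h R X Y hA
  refine ⟨c, fun R' X' Y' hA' => ?_⟩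
  obtain ⟨c', hc'⟩ := h R' X' Y' hA'
  obtain ⟨e, he⟩ := h _ _ _ (App.ilv hA hA')
  have h1 : Tendsto (fun j : ℕ => 2 * j) atTop atTop :=
    tendsto_atTop_mono (fun j => show j ≤ 2 * j by omega) tendsto_id
  have h2 : Tendsto (fun j : ℕ => 2 * j + 1) atTop atTop :=
    tendsto_atTop_mono (fun j => show j ≤ 2 * j + 1 by omega) tendsto_id
  have e1 := he.comp h1
  have e2 := he.comp h2
  simp only [Function.comp_def, ilv_even] at e1
  simp only [Function.comp_def, ilv_odd] at e2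
  have h3 := tendsto_nhds_unique e1 hc
  have h4 := tendsto_nhds_unique e2 hc'
  rw [← h3, h4]
  exact hc'

/-- **C3.** Crossing probabilities of grid polygons converge, given the convergence of the normalised
`k`-point functions (C2) and the bounds of the normalisation. -/
theorem stC3 {pz : ℝ → ℝ} (hC2 : StC2 pz) (hpz : StPz pz) : StC3 := by
  intro P x y hx hy n1 n2 hn1 _ hn2
  exact common_limit (F := fun _ X Y => Pr (EL P X Y) (CI P X Y n1 n2))
    fun R X Y h => cross_tendsto hC2 hpz hx hy hn1 hn2 h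

end Pool.Agent.H4.Q1
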