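import Pool.Agent.H4.Q1.Exist
import Pool.Agent.H69.Car.Uniq

set_option autoImplicit false
open Set Filter Topology MeasureTheory
open Pool.Agent.H81.Q1 (pt DDomain Approx IsJordanDomain Curve Q1)
open Pool.Agent.H82.Q1 (IsChart IsSLE posArc negArc cHH Q1SLE)
open Pool.Agent.H42.MJ (IsComponent)

/-! # The final statements of Q1 of MP_fe58d8_pr, from `Q1` and from `Q1SLE`

Used: Corollary A (`Pool.Agent.H11.M7.corollaryA'`), the theorem of Caratheodory (`exists_chart`), the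
uniqueness of the charts (`chart_unique`) and the existence of the largest component with marked
corners close to `a`, `b` (`exists_largest`). -/

namespace Pool.Agent.H4.Q1

lemma posArc_scale {φ φ' : ℂ → ℂ} {b : ℂ} {k : ℝ} (hk : 0 < k)
    (h : ∀ z ∈ cHH, φ' z = φ (k * z)) : posArc φ' b = posArc φ b := by
  unfold posArc
  congr 1
  ext p
  constructor
  · rintro ⟨z, ⟨h1, h2⟩, rfl⟩
    refine ⟨k * z, ⟨by simp [h1], ?_⟩, ?_⟩
    · rw [Complex.re_ofReal_mul]; positivity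
    · rw [h z (le_of_eq h1.symm)]
  · rintro ⟨z, ⟨h1, h2⟩, rfl⟩
    refine ⟨(k⁻¹ : ℝ) * z, ⟨by simp [h1], ?_⟩, ?_⟩
    · rw [Complex.re_ofReal_mul]; positivity
    · rw [h ((k⁻¹ : ℝ) * z) (show (0:ℝ) ≤ (((k⁻¹ : ℝ) : ℂ) * z).im by rw [Complex.im_ofReal_mul, h1, mul_zero])]
      rw [← mul_assoc, ← Complex.ofReal_mul, mul_inv_cancel₀ hk.ne', Complex.ofReal_one, one_mul]

lemma negArc_scale {φ φ' : ℂ → ℂ} {b : ℂ} {k : ℝ} (hk : 0 < k)
    (h : ∀ z ∈ cHH, φ' z = φ (k * z)) : negArc φ' b = negArc φ b := by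
  unfold negArc
  congr 1
  ext p
  constructor
  · rintro ⟨z, ⟨h1, h2⟩, rfl⟩
    refine ⟨k * z, ⟨by simp [h1], ?_⟩, ?_⟩
    · rw [Complex.re_ofReal_mul]; exact mul_nonpos_of_nonneg_of_nonpos hk.le h2
    · rw [h z (le_of_eq h1.symm)]
  · rintro ⟨z, ⟨h1, h2⟩, rfl⟩
    refine ⟨(k⁻¹ : ℝ) * z, ⟨by simp [h1], ?_⟩, ?_⟩
    · rw [Complex.re_ofReal_mul]; exact mul_nonpos_of_nonneg_of_nonpos (by positivity) h2
    · rw [h ((k⁻¹ : ℝ) * z) (show (0:ℝ) ≤ (((k⁻¹ : ℝ) : ℂ) * z).im by rw [Complex.im_ofReal_mul, h1, mul_zero])]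
      rw [← mul_assoc, ← Complex.ofReal_mul, mul_inv_cancel₀ hk.ne', Complex.ofReal_one, one_mul]

/-- Convergence along the approximating sequences of one chart gives both clauses of the final
statement. -/
lemma both {D : Set ℂ} (hD : IsJordanDomain D) {a b : ℂ} {φ : ℂ → ℂ} (hφ : IsChart D a b φ)
    {μ : ProbabilityMeasure Curve}
    (hA : ∀ A : Approx D a b (posArc φ b) (negArc φ b), Tendsto A.law atTop (𝓝 μ)) :
    (∀ (δ : ℕ → ℝ) (X : ℕ → DDomain), (∀ n, 0 < δ n) → Tendsto δ atTop (𝓝 0) →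
      (∀ n, IsComponent D (δ n) (X n).V (X n).E) →
      Tendsto (fun n => pt (δ n) (X n).α.1) atTop (𝓝 a) →
      Tendsto (fun n => pt (δ n) (X n).β.1) atTop (𝓝 b) →
      Tendsto (fun n => (X n).law (δ n)) atTop (𝓝 μ)) ∧
    ∀ φ : ℂ → ℂ, IsChart D a b φ → ∀ A : Approx D a b (posArc φ b) (negArc φ b),
      Tendsto A.law atTop (𝓝 μ) := by
  refine ⟨?_, ?_⟩
  · intro δ X pos lim hX limα limβ
    obtain ⟨A, rfl, rfl⟩ := Pool.Agent.H11.M7.corollaryA' hD hφ δ X pos lim hX limα limβ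
    exact hA A
  · intro φ' h'
    obtain ⟨k, hk, hkφ⟩ := Pool.Agent.H69.Car.chart_unique hφ h'
    rw [posArc_scale hk hkφ, negArc_scale hk hkφ]
    exact hA

/-- **The final statement, convergence and limit**: for every bounded Jordan domain `D` and distinct
boundary points `a`, `b` the law of chordal SLE(6) in `(D, a, b)` exists, and the exploration paths of
critical bond percolation on `δ ℤ²` converge to it in law. -/
theorem final_of_q1sle (h : Q1SLE) : ∀ D : Set ℂ, IsJordanDomain D → ∀ a ∈ frontier D,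
    ∀ b ∈ frontier D, a ≠ b →
    (∃ φ : ℂ → ℂ, IsChart D a b φ) ∧
    (∀ ε > 0, ∃ δ₀ > 0, ∀ δ : ℝ, 0 < δ → δ < δ₀ → ∃ X : DDomain, IsComponent D δ X.V X.E ∧
      (∀ V E, IsComponent D δ V E → V.ncard ≤ X.V.ncard) ∧
      dist (pt δ X.α.1) a < ε ∧ dist (pt δ X.β.1) b < ε) ∧
    ∃ μ : ProbabilityMeasure Curve, IsSLE 6 D a b μ ∧
      (∀ (δ : ℕ → ℝ) (X : ℕ → DDomain), (∀ n, 0 < δ n) → Tendsto δ atTop (𝓝 0) →
        (∀ n, IsComponent D (δ n) (X n).V (X n).E) →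
        Tendsto (fun n => pt (δ n) (X n).α.1) atTop (𝓝 a) →
        Tendsto (fun n => pt (δ n) (X n).β.1) atTop (𝓝 b) →
        Tendsto (fun n => (X n).law (δ n)) atTop (𝓝 μ)) ∧
      ∀ φ : ℂ → ℂ, IsChart D a b φ → ∀ A : Approx D a b (posArc φ b) (negArc φ b),
        Tendsto A.law atTop (𝓝 μ) := by
  intro D hD a ha b hb hab
  obtain ⟨φ, hφ⟩ := Pool.Agent.H69.Car.exists_chart hD ha hb hab
  obtain ⟨μ, hμ, hA⟩ := h D hD a b hab φ hφ
  exact ⟨⟨φ, hφ⟩, fun ε hε => exists_largest hD ha hb hab hε, μ, hμ, both hD hφ hA⟩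

/-- **The final statement, convergence**: for every bounded Jordan domain `D` and distinct boundary
points `a`, `b` the exploration paths of critical bond percolation on `δ ℤ²` converge in law. -/
theorem final_of_q1 (h : Q1) : ∀ D : Set ℂ, IsJordanDomain D → ∀ a ∈ frontier D,
    ∀ b ∈ frontier D, a ≠ b →
    (∃ φ : ℂ → ℂ, IsChart D a b φ) ∧
    (∀ ε > 0, ∃ δ₀ > 0, ∀ δ : ℝ, 0 < δ → δ < δ₀ → ∃ X : DDomain, IsComponent D δ X.V X.E ∧
      (∀ V E, IsComponent D δ V E → V.ncard ≤ X.V.ncard) ∧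
      dist (pt δ X.α.1) a < ε ∧ dist (pt δ X.β.1) b < ε) ∧
    ∃ μ : ProbabilityMeasure Curve,
      (∀ (δ : ℕ → ℝ) (X : ℕ → DDomain), (∀ n, 0 < δ n) → Tendsto δ atTop (𝓝 0) →
        (∀ n, IsComponent D (δ n) (X n).V (X n).E) →
        Tendsto (fun n => pt (δ n) (X n).α.1) atTop (𝓝 a) →
        Tendsto (fun n => pt (δ n) (X n).β.1) atTop (𝓝 b) →
        Tendsto (fun n => (X n).law (δ n)) atTop (𝓝 μ)) ∧
      ∀ φ : ℂ → ℂ, IsChart D a b φ → ∀ A : Approx D a b (posArc φ b) (negArc φ b),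
        Tendsto A.law atTop (𝓝 μ) := by
  intro D hD a ha b hb hab
  obtain ⟨φ, hφ⟩ := Pool.Agent.H69.Car.exists_chart hD ha hb hab
  obtain ⟨μ, hA⟩ := h D hD a b _ _ hab (Pool.Agent.H11.M7.isArcs_chart hφ)
  exact ⟨⟨φ, hφ⟩, fun ε hε => exists_largest hD ha hb hab hε, μ, both hD hφ hA⟩

end Pool.Agent.H4.Q1
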