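import Pool.Agent.H4.Q1.Laplace

set_option autoImplicit false
open MeasureTheory Finset Filter Topology
open scoped ENNReal

/-! Convergence of the Laplace transforms (Q1 blueprint, module M5, step C3a). -/

namespace Pool.Agent.H4.Q1

/-- the `k`-th term of the expansion of the Laplace transform -/
lemma term_eq {R p u : ℝ} (hR : 0 < R) (hp : 0 < p) (I : Finset ℤ) {a : Finset ℤ → ℝ}
    (ha0 : ∀ t, 0 ≤ a t) (k : ℕ) :
    (-(u * (R * p))) ^ k * (∫⁻ x, FF R p I a k x).toReal =
      (-u) ^ k * ∑ t ∈ powersetCard k I, a t := by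
  rw [lintegral_FF hR, ENNReal.toReal_mul, ENNReal.toReal_sum (fun t _ => ENNReal.ofReal_ne_top),
    ENNReal.toReal_pow, ENNReal.toReal_ofReal (by positivity)]
  have h1 : ∀ t ∈ powersetCard k I, (ENNReal.ofReal (a t / p ^ k)).toReal = a t / p ^ k :=
    fun t _ => ENNReal.toReal_ofReal (div_nonneg (ha0 t) (by positivity))
  rw [Finset.sum_congr rfl h1, ← Finset.sum_div]
  have h2 : (-(u * (R * p))) ^ k = (-u) ^ k * (R ^ k * p ^ k) := by
    rw [← mul_pow, ← mul_pow]
    ring
  rw [h2, div_pow, one_pow]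
  field_simp

/-- **Laplace transforms converge** (C3a). `R j` is the size, `p j` the normalisation of the
one-point function, `I j` a set of (labels of) boundary points in `[0, M R j]`, `a j t` the
probability that all the points of `t` are connected to the target. If these `k`-point functions
are dominated by the products of the powers `-2/3` of the scaled gaps and if they converge, then
the expectations of `(1 - u) ^ N`, `1 - u = exp (-s / (R p))`, converge. -/
theorem laplace_tendsto {R p : ℕ → ℝ} (hR : Tendsto R atTop atTop) (hR1 : ∀ j, 1 ≤ R j)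
    (hp : ∀ j, 0 < p j) (hRp : Tendsto (fun j => R j * p j) atTop atTop)
    {I : ℕ → Finset ℤ} {M : ℝ} (hM : 0 ≤ M)
    (hIM : ∀ j, ∀ y ∈ I j, 0 ≤ (y : ℝ) ∧ (y : ℝ) ≤ M * R j)
    {a : ℕ → Finset ℤ → ℝ} (ha0 : ∀ j t, 0 ≤ a j t) (ha1 : ∀ j, a j ∅ = 1) {C : ℝ} (hC : 0 < C)
    (dom : ∀ (j m : ℕ) (y : Fin (m + 1) → ℤ), StrictMono y → (∀ l, y l ∈ I j) →
      a j (univ.image y) ≤ (C * p j) ^ (m + 1) *
        ∏ l : Fin m, (((y l.succ - y l.castSucc : ℤ) : ℝ) / R j) ^ (-(2 / 3) : ℝ))
    (hI : ∀ᵐ x : ℝ, (∀ᶠ j in atTop, ⌊R j * x⌋ ∈ I j) ∨ (∀ᶠ j in atTop, ⌊R j * x⌋ ∉ I j))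
    (hconv : ∀ k : ℕ, ∀ᵐ x : Fin k → ℝ, StrictMono x → (∀ l, ∀ᶠ j in atTop, ⌊R j * x l⌋ ∈ I j) →
      ∃ g : ℝ, Tendsto (fun j => a j (univ.image fun l => ⌊R j * x l⌋) / p j ^ k) atTop (𝓝 g))
    {s : ℝ} (hs : 0 < s) :
    ∃ ℓ : ℝ, Tendsto (fun j => ∑ t ∈ (I j).powerset,
      (-(1 - Real.exp (-(s / (R j * p j))))) ^ t.card * a j t) atTop (𝓝 ℓ) := by
  classical
  have hR0 : ∀ j, 0 < R j := fun j => by linarith [hR1 j]
  have hRp0 : ∀ j, 0 < R j * p j := fun j => mul_pos (hR0 j) (hp j)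
  -- choice of the tilt
  obtain ⟨L, hL, hLk⟩ : ∃ L : ℝ, 0 < L ∧ s * (2 * C * kap L) ≤ 1 / 2 := by
    have h1 : Tendsto (fun L : ℝ => s * (2 * C * kap L)) atTop (𝓝 0) := by
      unfold kap
      have h2 : Tendsto (fun L : ℝ => (1 / L) ^ (1 / 3 : ℝ)) atTop (𝓝 0) := by
        have h3 := tendsto_rpow_neg_atTop (show (0:ℝ) < 1 / 3 by norm_num)
        refine h3.congr' ?_
        filter_upwards [eventually_gt_atTop 0] with L hL
        rw [one_div L, Real.inv_rpow hL.le, Real.rpow_neg hL.le]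
      have h4 := ((h2.mul_const (Real.Gamma (1 / 3))).const_mul (2 * C)).const_mul s
      simpa using h4
    have h2 := (h1.eventually (ge_mem_nhds (show (0:ℝ) < 1 / 2 by norm_num))).and
      (eventually_gt_atTop 0)
    obtain ⟨L, h3, h4⟩ := h2.exists
    exact ⟨L, h4, h3⟩
  -- domination
  set C0 : ℝ := (M + 2) * Real.exp (L * (M + 2)) with hC0
  have hC0p : 0 < C0 := by positivity
  have hdom : ∀ (j k : ℕ) (x : Fin k → ℝ), FF (R j) (p j) (I j) (a j) k x ≤
      ENNReal.ofReal C0 * (ENNReal.ofReal (2 * C) ^ k * W L k (-1) x) := fun j k x =>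
    FF_le (hR1 j) (hp j) hM hC hL.le (hIM j) (ha1 j) (dom j) k x
  have hmeasW : ∀ k : ℕ, Measurable (fun x : Fin k → ℝ => W L k (-1) x) := fun k => by
    have h : Measurable (fun y : Fin k → ℝ => ((-1 : ℝ), y)) := by fun_prop
    exact (measurable_W L k).comp h
  have hint : ∀ k : ℕ, ∫⁻ x : Fin k → ℝ, ENNReal.ofReal C0 *
      (ENNReal.ofReal (2 * C) ^ k * W L k (-1) x) = ENNReal.ofReal (C0 * (2 * C * kap L) ^ k) := by
    intro k
    rw [lintegral_const_mul _ ((hmeasW k).const_mul _), lintegral_const_mul _ (hmeasW k),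
      lintegral_W hL, ← mul_pow, ← ENNReal.ofReal_mul (by positivity),
      ← ENNReal.ofReal_pow (by have := kap_pos hL; positivity), ← ENNReal.ofReal_mul hC0p.le]
  -- pointwise limits
  have hlim : ∀ k : ℕ, ∀ᵐ x : Fin k → ℝ, ∃ f : ℝ≥0∞,
      Tendsto (fun j => FF (R j) (p j) (I j) (a j) k x) atTop (𝓝 f) := by
    intro k
    have h1 : ∀ᵐ x : Fin k → ℝ, ∀ l, (∀ᶠ j in atTop, ⌊R j * x l⌋ ∈ I j) ∨
        (∀ᶠ j in atTop, ⌊R j * x l⌋ ∉ I j) := by
      rw [ae_all_iff]
      intro l
      exact (Measure.quasiMeasurePreserving_eval (fun _ : Fin k => (volume : Measure ℝ)) l).ae hI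
    filter_upwards [h1, hconv k] with x hx hcx
    by_cases hmono : StrictMono x
    swap
    · refine ⟨0, tendsto_const_nhds.congr fun j => ?_⟩
      unfold FF GG
      rw [if_neg]
      rintro ⟨h2, -⟩
      apply hmono
      intro l m hlm
      have h3 := h2 hlm
      by_contra h4
      push Not at h4
      have h5 : R j * x m ≤ R j * x l := by have := hR0 j; gcongr
      exact absurd h3 (not_lt.2 (Int.floor_le_floor h5))
    by_cases hall : ∀ l, ∀ᶠ j in atTop, ⌊R j * x l⌋ ∈ I j
    swap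
    · rw [not_forall] at hall
      obtain ⟨l, hl⟩ := hall
      have h2 : ∀ᶠ j in atTop, ⌊R j * x l⌋ ∉ I j := by
        rcases hx l with h3 | h3
        · exact absurd h3 hl
        · exact h3
      refine ⟨0, tendsto_const_nhds.congr' ?_⟩
      filter_upwards [h2] with j hj
      unfold FF GG
      rw [if_neg]
      exact fun h3 => hj (h3.2 l)
    obtain ⟨g, hg⟩ := hcx hmono hall
    refine ⟨ENNReal.ofReal g, (ENNReal.tendsto_ofReal hg).congr' ?_⟩
    have h2 : ∀ᶠ j in atTop, ∀ l, ⌊R j * x l⌋ ∈ I j := eventually_all.2 hall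
    have h3 : ∀ᶠ j in atTop, StrictMono fun l => ⌊R j * x l⌋ := by
      have h4 : ∀ l m : Fin k, ∀ᶠ j in atTop, l < m → ⌊R j * x l⌋ < ⌊R j * x m⌋ := by
        intro l m
        by_cases hlm : l < m
        · have h5 : 0 < x m - x l := sub_pos.2 (hmono hlm)
          have h6 := (hR.eventually (eventually_ge_atTop (1 / (x m - x l))))
          filter_upwards [h6] with j hj _
          rw [div_le_iff₀ h5] at hj
          rw [Int.lt_iff_add_one_le, Int.le_floor]
          push_cast
          have := Int.floor_le (R j * x l)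
          nlinarith
        · exact Eventually.of_forall fun j h => absurd h hlm
      have h5 := eventually_all.2 fun l => eventually_all.2 fun m => h4 l m
      filter_upwards [h5] with j hj l m hlm
      exact hj l m hlm
    filter_upwards [h2, h3] with j h4 h5
    unfold FF GG
    rw [if_pos ⟨h5, h4⟩]
  -- convergence of the terms
  have hterm : ∀ k : ℕ, ∃ f : ℝ≥0∞, f ≤ ENNReal.ofReal (C0 * (2 * C * kap L) ^ k) ∧
      Tendsto (fun j => ∫⁻ x, FF (R j) (p j) (I j) (a j) k x) atTop (𝓝 f) := by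
    intro k
    have h1 : ∀ x : Fin k → ℝ, ∃ f : ℝ≥0∞,
        (∃ f' : ℝ≥0∞, Tendsto (fun j => FF (R j) (p j) (I j) (a j) k x) atTop (𝓝 f')) →
        Tendsto (fun j => FF (R j) (p j) (I j) (a j) k x) atTop (𝓝 f) := by
      intro x
      by_cases h : ∃ f' : ℝ≥0∞, Tendsto (fun j => FF (R j) (p j) (I j) (a j) k x) atTop (𝓝 f')
      · obtain ⟨f, hf⟩ := h
        exact ⟨f, fun _ => hf⟩
      · exact ⟨0, fun h' => absurd h' h⟩
    choose f hf using h1
    have h2 : Tendsto (fun j => ∫⁻ x, FF (R j) (p j) (I j) (a j) k x) atTop (𝓝 (∫⁻ x, f x)) := by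
      refine tendsto_lintegral_of_dominated_convergence
        (fun x => ENNReal.ofReal C0 * (ENNReal.ofReal (2 * C) ^ k * W L k (-1) x))
        (fun j => measurable_FF _ _ _ _ _) (fun j => Eventually.of_forall (hdom j k)) ?_ ?_
      · rw [hint k]; exact ENNReal.ofReal_ne_top
      · filter_upwards [hlim k] with x hx
        exact hf x hx
    refine ⟨_, le_of_tendsto h2 (Eventually.of_forall fun j => ?_), h2⟩
    rw [← hint k]
    exact lintegral_mono (hdom j k)
  choose f hf1 hf2 using hterm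
  -- the factor
  set u : ℕ → ℝ := fun j => 1 - Real.exp (-(s / (R j * p j))) with hu
  have hu0 : ∀ j, 0 ≤ u j := fun j => by
    have : Real.exp (-(s / (R j * p j))) ≤ 1 := by
      rw [Real.exp_le_one_iff]
      have := hRp0 j
      have : 0 ≤ s / (R j * p j) := by positivity
      linarith
    simp only [hu]
    linarith
  have hu1 : ∀ j, u j * (R j * p j) ≤ s := fun j => by
    have h1 := Real.add_one_le_exp (-(s / (R j * p j)))
    have h2 : u j ≤ s / (R j * p j) := by
      simp only [hu]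
      linarith
    rwa [le_div_iff₀ (hRp0 j)] at h2
  have hulim : Tendsto (fun j => u j * (R j * p j)) atTop (𝓝 s) := by
    have h1 : Tendsto (fun x : ℝ => (1 - Real.exp (-(s * x))) / x) (𝓝[≠] 0) (𝓝 s) := by
      have h2 : HasDerivAt (fun x : ℝ => 1 - Real.exp (-s * x)) s 0 := by
        have h3 : HasDerivAt (fun x : ℝ => -s * x) (-s) 0 := by
          simpa using (hasDerivAt_id (0:ℝ)).const_mul (-s)
        have h4 := (h3.exp).const_sub 1
        simpa using h4
      have h5 := hasDerivAt_iff_tendsto_slope_zero.1 h2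
      refine h5.congr fun x => ?_
      simp only [zero_add, mul_zero, Real.exp_zero, sub_self, sub_zero, smul_eq_mul, neg_mul]
      rw [div_eq_inv_mul]
    have h6 : Tendsto (fun j => (R j * p j)⁻¹) atTop (𝓝[≠] 0) := by
      refine tendsto_nhdsWithin_iff.2 ⟨hRp.inv_tendsto_atTop, Eventually.of_forall fun j => ?_⟩
      exact inv_ne_zero (hRp0 j).ne'
    refine (h1.comp h6).congr fun j => ?_
    simp only [Function.comp_apply, hu]
    rw [div_inv_eq_mul, div_eq_mul_inv]
  -- Tannery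
  have hgeo : Summable (fun k : ℕ => C0 * (1 / 2 : ℝ) ^ k) :=
    (summable_geometric_of_lt_one (by norm_num) (by norm_num)).mul_left _
  have hkap := kap_pos hL
  have hbound : ∀ j k : ℕ, ‖(-(u j * (R j * p j))) ^ k *
      (∫⁻ x, FF (R j) (p j) (I j) (a j) k x).toReal‖ ≤ C0 * (1 / 2 : ℝ) ^ k := by
    intro j k
    have h1 : (∫⁻ x, FF (R j) (p j) (I j) (a j) k x).toReal ≤ C0 * (2 * C * kap L) ^ k := by
      refine ENNReal.toReal_le_of_le_ofReal (by positivity) ?_
      rw [← hint k]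
      exact lintegral_mono (hdom j k)
    rw [norm_mul, norm_pow, norm_neg, Real.norm_of_nonneg (mul_nonneg (hu0 j) (hRp0 j).le),
      Real.norm_of_nonneg ENNReal.toReal_nonneg]
    have h2 := mul_nonneg (hu0 j) (hRp0 j).le
    calc (u j * (R j * p j)) ^ k * (∫⁻ x, FF (R j) (p j) (I j) (a j) k x).toReal
        ≤ s ^ k * (C0 * (2 * C * kap L) ^ k) := by
          gcongr
          exact hu1 j
      _ = C0 * (s * (2 * C * kap L)) ^ k := by rw [mul_pow s]; ring
      _ ≤ C0 * (1 / 2 : ℝ) ^ k := by gcongr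
  have htan := tendsto_tsum_of_dominated_convergence (𝓕 := atTop) (g := fun k => (-s) ^ k * (f k).toReal)
    hgeo (fun k => ?_) (Eventually.of_forall hbound)
  · refine ⟨_, htan.congr fun j => ?_⟩
    rw [Finset.sum_powerset]
    rw [tsum_eq_sum (s := Finset.range ((I j).card + 1))]
    · refine Finset.sum_congr rfl fun k _ => ?_
      rw [term_eq (hR0 j) (hp j) (I j) (ha0 j) k, Finset.mul_sum]
      refine Finset.sum_congr rfl fun t ht => ?_
      rw [(mem_powersetCard.1 ht).2]
    · intro k hk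
      rw [term_eq (hR0 j) (hp j) (I j) (ha0 j) k]
      rw [Finset.mem_range, not_lt] at hk
      rw [powersetCard_eq_empty.2 (by omega)]
      simp
  · have h1 := (hulim.neg.pow k).mul ((ENNReal.tendsto_toReal
      (ne_top_of_le_ne_top ENNReal.ofReal_ne_top (hf1 k))).comp (hf2 k))
    exact h1

end Pool.Agent.H4.Q1
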