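import Mathlib

set_option autoImplicit false
open MeasureTheory Set Finset
open scoped ENNReal

/-! The integral of the product of the powers `-2/3` of the gaps of an increasing sequence. -/

namespace Pool.Agent.H4.Q1

/-- the kernel `t ^ (-2/3) exp (- L t)` for `t > 0` -/
noncomputable def ker (L t : ℝ) : ℝ≥0∞ :=
  if 0 < t then ENNReal.ofReal (t ^ (-(2 / 3) : ℝ) * Real.exp (-(L * t))) else 0

/-- product of the kernels of the gaps, the first point is `c` -/
noncomputable def W (L : ℝ) : (k : ℕ) → ℝ → (Fin k → ℝ) → ℝ≥0∞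
  | 0, _, _ => 1
  | k + 1, c, x => ker L (x 0 - c) * W L k (x 0) (fun i => x i.succ)

lemma measurable_ker (L : ℝ) : Measurable (ker L) := by
  unfold ker
  refine Measurable.ite measurableSet_Ioi ?_ measurable_const
  fun_prop

lemma measurable_W (L : ℝ) : ∀ k : ℕ, Measurable (fun p : ℝ × (Fin k → ℝ) => W L k p.1 p.2) := by
  intro k
  induction k with
  | zero => exact measurable_const
  | succ k ih =>
    change Measurable (fun p : ℝ × (Fin (k + 1) → ℝ) =>
      ker L (p.2 0 - p.1) * W L k (p.2 0) (fun i => p.2 i.succ))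
    refine Measurable.mul ?_ ?_
    · exact (measurable_ker L).comp (by fun_prop)
    · have h : Measurable (fun p : ℝ × (Fin (k + 1) → ℝ) => (p.2 0, fun i : Fin k => p.2 i.succ)) := by
        fun_prop
      exact ih.comp h

/-- the mass of the kernel -/
noncomputable def kap (L : ℝ) : ℝ := (1 / L) ^ (1 / 3 : ℝ) * Real.Gamma (1 / 3)

lemma kap_pos {L : ℝ} (hL : 0 < L) : 0 < kap L := by
  unfold kap
  have := Real.Gamma_pos_of_pos (show (0:ℝ) < 1 / 3 by norm_num)
  positivity

lemma lintegral_ker {L : ℝ} (hL : 0 < L) : ∫⁻ t, ker L t = ENNReal.ofReal (kap L) := by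
  have h1 := Real.integral_rpow_mul_exp_neg_mul_Ioi (a := 1 / 3) (r := L) (by norm_num) hL
  have h2 : ∫⁻ t, ker L t =
      ∫⁻ t in Ioi (0:ℝ), ENNReal.ofReal (t ^ (1 / 3 - 1 : ℝ) * Real.exp (-(L * t))) := by
    rw [← lintegral_indicator measurableSet_Ioi]
    refine lintegral_congr fun t => ?_
    unfold ker
    rw [Set.indicator_apply]
    simp only [Set.mem_Ioi]
    norm_num
  rw [h2, ← ofReal_integral_eq_lintegral_ofReal]
  · rw [h1]; rfl
  · refine MeasureTheory.Integrable.of_integral_ne_zero ?_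
    rw [h1]
    exact (kap_pos hL).ne'
  · refine (ae_restrict_iff' measurableSet_Ioi).2 (Filter.Eventually.of_forall fun t ht => ?_)
    have : (0:ℝ) < t := ht
    change (0:ℝ) ≤ t ^ (1 / 3 - 1 : ℝ) * Real.exp (-(L * t))
    positivity

lemma lintegral_ker_sub {L : ℝ} (hL : 0 < L) (c : ℝ) :
    ∫⁻ t, ker L (t - c) = ENNReal.ofReal (kap L) := by
  rw [lintegral_sub_right_eq_self, lintegral_ker hL]

lemma lintegral_W {L : ℝ} (hL : 0 < L) : ∀ (k : ℕ) (c : ℝ),
    ∫⁻ x : Fin k → ℝ, W L k c x = ENNReal.ofReal (kap L) ^ k := by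
  intro k
  induction k with
  | zero =>
    intro c
    change ∫⁻ x : Fin 0 → ℝ, (1 : ℝ≥0∞) = _
    rw [lintegral_one, pow_zero]
    have h1 := Real.volume_pi_Ico (ι := Fin 0) (a := fun _ => 0) (b := fun _ => 1)
    have h2 : (Set.univ.pi fun _ : Fin 0 => Set.Ico (0:ℝ) 1) = Set.univ :=
      Set.eq_univ_of_forall fun x i => i.elim0
    rw [h2] at h1
    rw [h1]
    simp
  | succ k ih =>
    intro c
    have h1 := volume_preserving_piFinSuccAbove (fun _ : Fin (k + 1) => ℝ) 0
    have h2 : ∫⁻ x : Fin (k + 1) → ℝ, W L (k + 1) c x =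
        ∫⁻ p : ℝ × (Fin k → ℝ), ker L (p.1 - c) * W L k p.1 p.2 := by
      rw [← h1.lintegral_comp_emb (MeasurableEquiv.measurableEmbedding _)]
      rfl
    rw [h2]
    rw [show (volume : Measure (ℝ × (Fin k → ℝ))) = volume.prod volume from rfl]
    rw [lintegral_prod]
    · have h3 : ∀ a : ℝ, ∫⁻ y : Fin k → ℝ, ker L (a - c) * W L k a y =
          ker L (a - c) * ENNReal.ofReal (kap L) ^ k := by
        intro a
        rw [lintegral_const_mul]
        · rw [ih a]
        · have h : Measurable (fun y : Fin k → ℝ => (a, y)) := by fun_prop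
          exact (measurable_W L k).comp h
      simp only [h3]
      have h : Measurable (fun x : ℝ => ker L (x - c)) :=
        (measurable_ker L).comp (measurable_id.sub_const c)
      rw [lintegral_mul_const _ h, lintegral_ker_sub hL, pow_succ']
    · refine Measurable.aemeasurable ?_
      exact Measurable.mul ((measurable_ker L).comp (by fun_prop)) (measurable_W L k)

/-- the product of the gaps of an increasing sequence and `W` -/
lemma W_eq (L : ℝ) : ∀ (k : ℕ) (c : ℝ) (x : Fin k → ℝ),
    W L k c x = ∏ l : Fin k, ker L ((Fin.cons c x : Fin (k + 1) → ℝ) l.succ -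
      (Fin.cons c x : Fin (k + 1) → ℝ) l.castSucc) := by
  intro k
  induction k with
  | zero => intro c x; simp [W]
  | succ k ih =>
    intro c x
    rw [Fin.prod_univ_succ]
    change ker L (x 0 - c) * W L k (x 0) (fun i => x i.succ) = _
    rw [ih (x 0)]
    congr 1
    refine Finset.prod_congr rfl fun l _ => ?_
    congr 1
    have h1 : (Fin.cons (x 0) (fun i : Fin k => x i.succ) : Fin (k + 1) → ℝ) = x := by
      ext i
      refine Fin.cases ?_ (fun i => ?_) i <;> simp
    rw [h1, Fin.cons_succ, ← Fin.succ_castSucc, Fin.cons_succ]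

end Pool.Agent.H4.Q1
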