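import Pool.Agent.H4.Q1.GapInt

set_option autoImplicit false
open MeasureTheory Finset Filter Topology
open scoped ENNReal

/-! Convergence of the Laplace transforms of the number of points of a boundary interval which are
connected to a target, from the convergence of the `k`-point functions and their domination by
products of powers of the gaps (Q1 blueprint, module M5, step C3a). -/

namespace Pool.Agent.H4.Q1

/-- the scaled `k`-point function, as a function on `ℤ ^ k` -/
noncomputable def GG (p : ℝ) (I : Finset ℤ) (a : Finset ℤ → ℝ) (k : ℕ) (y : Fin k → ℤ) : ℝ≥0∞ :=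
  open Classical in
  if StrictMono y ∧ (∀ l, y l ∈ I) then ENNReal.ofReal (a (univ.image y) / p ^ k) else 0

/-- the scaled `k`-point function, as a step function on `ℝ ^ k` -/
noncomputable def FF (R p : ℝ) (I : Finset ℤ) (a : Finset ℤ → ℝ) (k : ℕ) (x : Fin k → ℝ) : ℝ≥0∞ :=
  GG p I a k (fun l => ⌊R * x l⌋)

lemma measurable_FF (R p : ℝ) (I : Finset ℤ) (a : Finset ℤ → ℝ) (k : ℕ) :
    Measurable (FF R p I a k) := by
  unfold FF
  have h : Measurable (fun x : Fin k → ℝ => (fun l => ⌊R * x l⌋ : Fin k → ℤ)) := by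
    refine measurable_pi_lambda _ fun l => ?_
    exact Int.measurable_floor.comp (by fun_prop)
  exact (Measurable.of_discrete (f := GG p I a k)).comp h

lemma sum_GG (p : ℝ) (I : Finset ℤ) (a : Finset ℤ → ℝ) (k : ℕ) :
    ∑ y ∈ Fintype.piFinset (fun _ : Fin k => I), GG p I a k y =
      ∑ t ∈ powersetCard k I, ENNReal.ofReal (a t / p ^ k) := by
  classical
  have h1 : ∑ y ∈ Fintype.piFinset (fun _ : Fin k => I), GG p I a k y =
      ∑ y ∈ (Fintype.piFinset (fun _ : Fin k => I)).filter (fun y => StrictMono y),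
        ENNReal.ofReal (a (univ.image y) / p ^ k) := by
    rw [Finset.sum_filter]
    refine Finset.sum_congr rfl fun y hy => ?_
    unfold GG
    rw [Fintype.mem_piFinset] at hy
    simp only [hy, implies_true, and_true]
  rw [h1]
  symm
  refine Finset.sum_bij (fun t ht => (t.orderEmbOfFin (mem_powersetCard.1 ht).2 : Fin k → ℤ))
    ?_ ?_ ?_ ?_
  · intro t ht
    rw [mem_filter, Fintype.mem_piFinset]
    exact ⟨fun l => (mem_powersetCard.1 ht).1 (orderEmbOfFin_mem _ _ _),
      (orderEmbOfFin _ _).strictMono⟩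
  · intro t ht t' ht' h
    have h2 := image_orderEmbOfFin_univ t (mem_powersetCard.1 ht).2
    have h3 := image_orderEmbOfFin_univ t' (mem_powersetCard.1 ht').2
    rw [← h2, ← h3]
    exact congrArg (fun f : Fin k → ℤ => univ.image f) h
  · intro y hy
    rw [mem_filter, Fintype.mem_piFinset] at hy
    have h2 : (univ.image y).card = k := by
      rw [card_image_of_injective _ hy.2.injective, card_univ, Fintype.card_fin]
    have h3 : univ.image y ∈ powersetCard k I := by
      rw [mem_powersetCard]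
      refine ⟨?_, h2⟩
      intro z hz
      rw [Finset.mem_image] at hz
      obtain ⟨l, -, rfl⟩ := hz
      exact hy.1 l
    refine ⟨univ.image y, h3, ?_⟩
    exact (orderEmbOfFin_unique h2 (fun l => Finset.mem_image_of_mem _ (Finset.mem_univ _)) hy.2).symm
  · intro t ht
    rw [image_orderEmbOfFin_univ]

lemma lintegral_FF {R : ℝ} (hR : 0 < R) (p : ℝ) (I : Finset ℤ) (a : Finset ℤ → ℝ) (k : ℕ) :
    ∫⁻ x, FF R p I a k x =
      (∑ t ∈ powersetCard k I, ENNReal.ofReal (a t / p ^ k)) * ENNReal.ofReal (1 / R) ^ k := by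
  classical
  rw [← sum_GG, Finset.sum_mul]
  have h1 : ∀ x : Fin k → ℝ, FF R p I a k x = ∑ y ∈ Fintype.piFinset (fun _ : Fin k => I),
      (Set.univ.pi fun l => Set.Ico ((y l : ℝ) / R) (((y l : ℝ) + 1) / R)).indicator
        (fun _ => GG p I a k y) x := by
    intro x
    have hmem : ∀ y : Fin k → ℤ,
        x ∈ (Set.univ.pi fun l => Set.Ico ((y l : ℝ) / R) (((y l : ℝ) + 1) / R)) ↔
        y = fun l => ⌊R * x l⌋ := by
      intro y
      rw [Set.mem_univ_pi, funext_iff]
      refine forall_congr' fun l => ?_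
      rw [Set.mem_Ico, div_le_iff₀ hR, lt_div_iff₀ hR, eq_comm, Int.floor_eq_iff, mul_comm]
    by_cases h : ∀ l, ⌊R * x l⌋ ∈ I
    · rw [Finset.sum_eq_single (fun l => ⌊R * x l⌋)]
      · rw [Set.indicator_of_mem ((hmem _).2 rfl)]
        rfl
      · intro y _ hy
        rw [Set.indicator_of_notMem]
        exact fun h2 => hy ((hmem y).1 h2)
      · intro h2
        exact absurd (Fintype.mem_piFinset.2 h) h2
    · rw [Finset.sum_eq_zero]
      · unfold FF GG
        rw [if_neg (fun h2 => h h2.2)]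
      · intro y hy
        rw [Set.indicator_of_notMem]
        intro h2
        rw [hmem y] at h2
        rw [Fintype.mem_piFinset] at hy
        exact h fun l => by have := hy l; rw [h2] at this; exact this
  have h2 : ∀ y : Fin k → ℤ,
      MeasurableSet (Set.univ.pi fun l => Set.Ico ((y l : ℝ) / R) (((y l : ℝ) + 1) / R)) :=
    fun y => MeasurableSet.univ_pi fun l => measurableSet_Ico
  simp only [h1]
  rw [lintegral_finsetSum]
  · refine Finset.sum_congr rfl fun y _ => ?_
    rw [lintegral_indicator (h2 y), setLIntegral_const]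
    congr 1
    rw [Real.volume_pi_Ico]
    rw [Finset.prod_congr rfl (g := fun _ => ENNReal.ofReal (1 / R)), Finset.prod_const,
      Finset.card_univ, Fintype.card_fin]
    intro l _
    congr 1
    field_simp
    ring
  · intro y _
    exact measurable_const.indicator (h2 y)

/-- the product of the powers of the gaps is bounded by `W` -/
lemma gap_bound {L : ℝ} (X : ℝ) : ∀ (k : ℕ) (c : ℝ) (x : Fin k → ℝ),
    (∀ l : Fin k, (Fin.cons c x : Fin (k + 1) → ℝ) l.castSucc <
      (Fin.cons c x : Fin (k + 1) → ℝ) l.succ) → 0 ≤ L → c ≤ X → (∀ l, x l ≤ X) →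
    ENNReal.ofReal (∏ l : Fin k, ((Fin.cons c x : Fin (k + 1) → ℝ) l.succ -
      (Fin.cons c x : Fin (k + 1) → ℝ) l.castSucc) ^ (-(2 / 3) : ℝ)) ≤
    ENNReal.ofReal (Real.exp (L * (X - c))) * W L k c x := by
  intro k
  induction k with
  | zero =>
    intro c x _ hL hc _
    simp only [Finset.univ_eq_empty, Finset.prod_empty, W, mul_one]
    refine ENNReal.ofReal_le_ofReal ?_
    exact Real.one_le_exp (mul_nonneg hL (by linarith))
  | succ k ih =>
    intro c x hx hL hc hX
    have h1 : (Fin.cons (x 0) (fun i : Fin k => x i.succ) : Fin (k + 1) → ℝ) = x := by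
      ext i
      refine Fin.cases ?_ (fun i => ?_) i <;> simp
    have hx0 := hx 0
    rw [Fin.cons_succ, Fin.castSucc_zero, Fin.cons_zero] at hx0
    have hxs : ∀ l : Fin k, (Fin.cons (x 0) (fun i : Fin k => x i.succ) : Fin (k + 1) → ℝ) l.castSucc <
      (Fin.cons (x 0) (fun i : Fin k => x i.succ) : Fin (k + 1) → ℝ) l.succ := by
      intro l
      rw [h1]
      have := hx l.succ
      rw [Fin.cons_succ, ← Fin.succ_castSucc, Fin.cons_succ] at this
      exact this
    have ih := ih (x 0) (fun i => x i.succ) hxs hL (hX 0) (fun l => hX _)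
    rw [h1] at ih
    rw [Fin.prod_univ_succ, Fin.cons_succ, Fin.castSucc_zero, Fin.cons_zero]
    have h2 : ∏ i : Fin k, ((Fin.cons c x : Fin (k + 1 + 1) → ℝ) i.succ.succ -
        (Fin.cons c x : Fin (k + 1 + 1) → ℝ) i.succ.castSucc) ^ (-(2 / 3) : ℝ) =
        ∏ l : Fin k, (x l.succ - x l.castSucc) ^ (-(2 / 3) : ℝ) := by
      refine Finset.prod_congr rfl fun l _ => ?_
      rw [Fin.cons_succ, ← Fin.succ_castSucc, Fin.cons_succ]
    rw [h2]
    have h3 : (0:ℝ) < x 0 - c := by linarith
    rw [ENNReal.ofReal_mul (by positivity)]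
    change _ ≤ ENNReal.ofReal (Real.exp (L * (X - c))) *
      (ker L (x 0 - c) * W L k (x 0) (fun i => x i.succ))
    unfold ker
    rw [if_pos h3, ← mul_assoc, ← ENNReal.ofReal_mul (Real.exp_nonneg _)]
    have h4 : Real.exp (L * (X - c)) * ((x 0 - c) ^ (-(2 / 3) : ℝ) * Real.exp (-(L * (x 0 - c)))) =
        (x 0 - c) ^ (-(2 / 3) : ℝ) * Real.exp (L * (X - x 0)) := by
      rw [mul_left_comm, ← Real.exp_add]
      congr 2
      ring
    rw [h4, ENNReal.ofReal_mul (by positivity), mul_assoc]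
    gcongr

/-- domination of the step functions -/
lemma FF_le {R p M C L : ℝ} (hR : 1 ≤ R) (hp : 0 < p) (hM : 0 ≤ M) (hC : 0 < C) (hL : 0 ≤ L)
    {I : Finset ℤ} (hI : ∀ y ∈ I, 0 ≤ (y : ℝ) ∧ (y : ℝ) ≤ M * R)
    {a : Finset ℤ → ℝ} (ha1 : a ∅ = 1)
    (dom : ∀ (m : ℕ) (y : Fin (m + 1) → ℤ), StrictMono y → (∀ l, y l ∈ I) →
      a (univ.image y) ≤ (C * p) ^ (m + 1) *
        ∏ l : Fin m, (((y l.succ - y l.castSucc : ℤ) : ℝ) / R) ^ (-(2 / 3) : ℝ))
    (k : ℕ) (x : Fin k → ℝ) :
    FF R p I a k x ≤ ENNReal.ofReal ((M + 2) * Real.exp (L * (M + 2))) *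
      (ENNReal.ofReal (2 * C) ^ k * W L k (-1) x) := by
  have hR0 : (0:ℝ) < R := by linarith
  unfold FF GG
  split_ifs with h
  swap
  · exact bot_le
  obtain ⟨h1, h2⟩ := h
  cases k with
  | zero =>
    have h3 : (univ.image fun l : Fin 0 => ⌊R * x l⌋) = ∅ := by simp
    rw [h3, ha1]
    simp only [pow_zero, W, mul_one, div_one]
    refine ENNReal.ofReal_le_ofReal ?_
    have := Real.one_le_exp (mul_nonneg hL (show (0:ℝ) ≤ M + 2 by linarith))
    nlinarith
  | succ m =>
    set z : Fin (m + 1) → ℤ := fun l => ⌊R * x l⌋ with hz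
    have hd := dom m z h1 h2
    -- the coordinates
    have hzx : ∀ l, (z l : ℝ) ≤ R * x l ∧ R * x l < z l + 1 :=
      fun l => ⟨Int.floor_le _, Int.lt_floor_add_one _⟩
    have hx0 : ∀ l, 0 ≤ x l := by
      intro l
      have h3 := (hI _ (h2 l)).1
      have h4 := (hzx l).1
      by_contra h5
      push Not at h5
      nlinarith
    have hxM : ∀ l, x l ≤ M + 1 := by
      intro l
      have h3 := (hI _ (h2 l)).2
      have h4 := (hzx l).2
      by_contra h5
      push Not at h5
      have : R * (M + 1) < R * x l := mul_lt_mul_of_pos_left h5 hR0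
      have h6 : (z l : ℝ) ≤ M * R := h3
      nlinarith
    have hgap : ∀ l : Fin m, 0 < x l.succ - x l.castSucc ∧
        (((z l.succ - z l.castSucc : ℤ) : ℝ) / R) ^ (-(2 / 3) : ℝ) ≤
          2 * (x l.succ - x l.castSucc) ^ (-(2 / 3) : ℝ) := by
      intro l
      have h3 : z l.castSucc < z l.succ := h1 (Fin.castSucc_lt_succ)
      have h4 : (z l.castSucc : ℝ) + 1 ≤ z l.succ := by exact_mod_cast h3
      have h5 := hzx l.castSucc
      have h6 := hzx l.succ
      have h7 : 0 < x l.succ - x l.castSucc := by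
        by_contra h8
        push Not at h8
        have : R * (x l.succ - x l.castSucc) ≤ 0 := mul_nonpos_of_nonneg_of_nonpos hR0.le h8
        nlinarith
      refine ⟨h7, ?_⟩
      have h8 : (x l.succ - x l.castSucc) / 2 ≤ ((z l.succ - z l.castSucc : ℤ) : ℝ) / R := by
        rw [le_div_iff₀ hR0]
        push_cast
        nlinarith
      have h9 : (((z l.succ - z l.castSucc : ℤ) : ℝ) / R) ^ (-(2 / 3) : ℝ) ≤
          ((x l.succ - x l.castSucc) / 2) ^ (-(2 / 3) : ℝ) :=
        Real.rpow_le_rpow_of_nonpos (by positivity) h8 (by norm_num)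
      refine h9.trans ?_
      rw [Real.div_rpow h7.le (by norm_num), div_eq_mul_inv, mul_comm]
      gcongr
      rw [Real.rpow_neg (by norm_num), inv_inv]
      calc (2:ℝ) ^ (2 / 3 : ℝ) ≤ 2 ^ (1:ℝ) :=
            Real.rpow_le_rpow_of_exponent_le (by norm_num) (by norm_num)
        _ = 2 := Real.rpow_one 2
    have hprod : ∏ l : Fin m, (((z l.succ - z l.castSucc : ℤ) : ℝ) / R) ^ (-(2 / 3) : ℝ) ≤
        2 ^ m * ∏ l : Fin m, (x l.succ - x l.castSucc) ^ (-(2 / 3) : ℝ) := by
      calc _ ≤ ∏ l : Fin m, 2 * (x l.succ - x l.castSucc) ^ (-(2 / 3) : ℝ) := by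
            refine Finset.prod_le_prod (fun l _ => ?_) fun l _ => (hgap l).2
            have h3 : z l.castSucc < z l.succ := h1 (Fin.castSucc_lt_succ)
            have h4 : (0:ℝ) < ((z l.succ - z l.castSucc : ℤ) : ℝ) := by
              have : 0 < z l.succ - z l.castSucc := by linarith
              exact_mod_cast this
            positivity
        _ = _ := by rw [Finset.prod_mul_distrib, Finset.prod_const, Finset.card_univ,
              Fintype.card_fin]
    have hB := gap_bound (L := L) (M + 1) (m + 1) (-1) x (by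
      intro l
      refine Fin.cases ?_ (fun l => ?_) l
      · rw [Fin.castSucc_zero, Fin.cons_zero, Fin.cons_succ]
        have := hx0 0
        linarith
      · rw [Fin.cons_succ, ← Fin.succ_castSucc, Fin.cons_succ]
        have := (hgap l).1
        linarith) hL (by linarith) hxM
    rw [Fin.prod_univ_succ, Fin.cons_succ, Fin.castSucc_zero, Fin.cons_zero] at hB
    have h3 : ∏ i : Fin m, ((Fin.cons (-1) x : Fin (m + 1 + 1) → ℝ) i.succ.succ -
        (Fin.cons (-1) x : Fin (m + 1 + 1) → ℝ) i.succ.castSucc) ^ (-(2 / 3) : ℝ) =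
        ∏ l : Fin m, (x l.succ - x l.castSucc) ^ (-(2 / 3) : ℝ) := by
      refine Finset.prod_congr rfl fun l _ => ?_
      rw [Fin.cons_succ, ← Fin.succ_castSucc, Fin.cons_succ]
    rw [h3] at hB
    have hP0 : 0 ≤ ∏ l : Fin m, (x l.succ - x l.castSucc) ^ (-(2 / 3) : ℝ) :=
      Finset.prod_nonneg fun l _ => Real.rpow_nonneg (hgap l).1.le _
    set P := ∏ l : Fin m, (x l.succ - x l.castSucc) ^ (-(2 / 3) : ℝ) with hP
    have h4 : (1:ℝ) ≤ (M + 2) * (x 0 - -1) ^ (-(2 / 3) : ℝ) := by
      have h5 : (M + 2) ^ (-(2 / 3) : ℝ) ≤ (x 0 - -1) ^ (-(2 / 3) : ℝ) := by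
        refine Real.rpow_le_rpow_of_nonpos ?_ ?_ (by norm_num)
        · have := hx0 0; linarith
        · have := hxM 0; linarith
      have h6 : (M + 2) ^ (-1 : ℝ) ≤ (M + 2) ^ (-(2 / 3) : ℝ) :=
        Real.rpow_le_rpow_of_exponent_le (by linarith) (by norm_num)
      rw [Real.rpow_neg_one] at h6
      calc (1:ℝ) = (M + 2) * (M + 2)⁻¹ := by rw [mul_inv_cancel₀ (by linarith)]
        _ ≤ _ := by
          have h7 : (0:ℝ) < M + 2 := by linarith
          gcongr
          exact h6.trans h5
    have h5 : a (univ.image z) / p ^ (m + 1) ≤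
        (M + 2) * ((2 * C) ^ (m + 1) * ((x 0 - -1) ^ (-(2 / 3) : ℝ) * P)) := by
      have h6 : 0 ≤ (x 0 - -1) ^ (-(2 / 3) : ℝ) := Real.rpow_nonneg (by have := hx0 0; linarith) _
      rw [div_le_iff₀ (by positivity)]
      calc a (univ.image z) ≤ (C * p) ^ (m + 1) * (2 ^ m * P) := by
            refine hd.trans ?_
            gcongr
        _ = C ^ (m + 1) * p ^ (m + 1) * (2 ^ m * P) * 1 := by ring
        _ ≤ C ^ (m + 1) * p ^ (m + 1) * (2 ^ (m + 1) * P) *
            ((M + 2) * (x 0 - -1) ^ (-(2 / 3) : ℝ)) := by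
          gcongr
          · norm_num
          · omega
        _ = _ := by ring
    calc ENNReal.ofReal (a (univ.image z) / p ^ (m + 1))
        ≤ ENNReal.ofReal ((M + 2) * ((2 * C) ^ (m + 1) * ((x 0 - -1) ^ (-(2 / 3) : ℝ) * P))) :=
          ENNReal.ofReal_le_ofReal h5
      _ = ENNReal.ofReal (M + 2) * (ENNReal.ofReal (2 * C) ^ (m + 1) *
          ENNReal.ofReal ((x 0 - -1) ^ (-(2 / 3) : ℝ) * P)) := by
        rw [ENNReal.ofReal_mul (by linarith), ENNReal.ofReal_mul (by positivity),
          ENNReal.ofReal_pow (by positivity)]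
      _ ≤ ENNReal.ofReal (M + 2) * (ENNReal.ofReal (2 * C) ^ (m + 1) *
          (ENNReal.ofReal (Real.exp (L * (M + 1 - -1))) * W L (m + 1) (-1) x)) := by
        gcongr
      _ = _ := by
        have : M + 1 - -1 = M + 2 := by ring
        rw [this, ENNReal.ofReal_mul (show (0:ℝ) ≤ M + 2 by linarith)]
        ring

end Pool.Agent.H4.Q1
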